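import Pool.Agent.Lib.MP_2b3e36_an.CZ.Defs

/-!
Cau. Cauchy integrals over circles: splitting of a function on an annulus.

Proof of `cau_split`. For `z` with `‖z‖ < s < s'`, `a < s`, `s' < R`, the function `w ↦ k w / (w - z)` is
holomorphic for `s ≤ ‖w‖ ≤ s'`, so `cau s k z = cau s' k z`. Put `kp z = cau s k z` for `s = (max r ‖z‖ + R) / 2`:
near a given `z₀` the same `s` may be used for all `z`, so `kp` is holomorphic. For `‖z‖ < r` also
`cau r k z` is the same number. For `r < ‖z‖ < s < R`: the function `g = dslope k z` is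
continuous on `r ≤ ‖w‖ ≤ s` and holomorphic off `z`, so its integrals over both circles agree; as
`∮_s dw/(w - z) = 2 π i` and `∮_r dw/(w - z) = 0`, we get `cau s k z - k z = cau r k z`.
-/

set_option autoImplicit false

open Complex Set Filter Topology Metric

namespace Pool.Agent.CZ

theorem cau_diff {r : ℝ} (hr : 0 < r) {k : ℂ → ℂ} (hk : ContinuousOn k (sphere 0 r)) :
    DifferentiableOn ℂ (cau r k) (ball 0 r) := by
  have hci : CircleIntegrable k 0 r := hk.circleIntegrable hr.le
  have hr' : ((Real.toNNReal r : NNReal) : ℝ) = r := Real.coe_toNNReal r hr.le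
  have h := hasFPowerSeriesOn_cauchy_integral (f := k) (c := 0) (R := Real.toNNReal r)
    (by rw [hr']; exact hci) (Real.toNNReal_pos.2 hr)
  have h2 := h.differentiableOn
  have hset : Metric.eball (0 : ℂ) ((Real.toNNReal r : NNReal) : ENNReal) = ball 0 r :=
    Metric.eball_ofReal
  rw [hset, hr'] at h2
  refine h2.congr ?_
  intro z hz
  unfold cau
  rw [smul_eq_mul]
  congr 1
  refine circleIntegral.integral_congr hr.le ?_
  intro w hw
  simp only [smul_eq_mul]
  rw [div_eq_inv_mul]

private theorem cau_ann {a R : ℝ} (ha : 0 < a) {k : ℂ → ℂ}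
    (hk : DifferentiableOn ℂ k (Ann a R)) {w : ℂ} (h1 : a < ‖w‖) (h2 : ‖w‖ < R) :
    DifferentiableAt ℂ k w := by
  refine hk.differentiableAt ?_
  have ho : IsOpen (Ann a R) := by
    have : Ann a R = (fun z : ℂ => ‖z‖) ⁻¹' (Ioo a R) := by
      ext z; rfl
    rw [this]
    exact isOpen_Ioo.preimage continuous_norm
  exact ho.mem_nhds ⟨h1, h2⟩

private theorem cau_eq {a R : ℝ} (ha : 0 < a) {k : ℂ → ℂ}
    (hk : DifferentiableOn ℂ k (Ann a R)) {s s' : ℝ} (h1 : a < s) (h2 : s ≤ s') (h3 : s' < R)
    {z : ℂ} (hz : ‖z‖ < s) : cau s' k z = cau s k z := by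
  unfold cau
  congr 1
  have hd : ∀ w : ℂ, s ≤ ‖w‖ → ‖w‖ ≤ s' → DifferentiableAt ℂ (fun w => k w / (w - z)) w := by
    intro w hw1 hw2
    have hkw := cau_ann ha hk (w := w) (by linarith) (by linarith)
    refine hkw.div (differentiableAt_id.sub_const z) ?_
    intro h
    have e : w = z := sub_eq_zero.1 h
    rw [e] at hw1
    linarith
  refine circleIntegral_eq_of_differentiable_on_annulus_off_countable (s := ∅) (by linarith) h2
    countable_empty ?_ ?_
  · intro w hw
    rw [Set.mem_sdiff, mem_closedBall, mem_ball, dist_zero_right, not_lt] at hw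
    exact (hd w hw.2 hw.1).continuousAt.continuousWithinAt
  · intro w hw
    rw [sdiff_empty, Set.mem_sdiff, mem_ball, mem_closedBall, dist_zero_right, not_le] at hw
    exact hd w hw.2.le hw.1.le

private theorem cau_eq' {a R : ℝ} (ha : 0 < a) {k : ℂ → ℂ}
    (hk : DifferentiableOn ℂ k (Ann a R)) {s s' : ℝ} (h1 : a < s) (h1' : a < s') (h3 : s < R)
    (h3' : s' < R) {z : ℂ} (hz : ‖z‖ < s) (hz' : ‖z‖ < s') : cau s' k z = cau s k z := by
  rcases le_total s s' with h | h
  · exact cau_eq ha hk h1 h h3' hz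
  · exact (cau_eq ha hk h1' h h3 hz').symm

private theorem cau_jump {a r s R : ℝ} (ha : 0 < a) (har : a < r) {k : ℂ → ℂ}
    (hk : DifferentiableOn ℂ k (Ann a R)) (hsR : s < R) {z : ℂ} (h1 : r < ‖z‖) (h2 : ‖z‖ < s) :
    cau s k z - k z = cau r k z := by
  have hr : 0 < r := by linarith
  have hs : 0 < s := by linarith
  have hI : (2 * Real.pi * I : ℂ) ≠ 0 := Complex.two_pi_I_ne_zero
  have hnh : closedBall (0 : ℂ) s \ ball 0 r ∈ 𝓝 z := by
    have ho : IsOpen ((fun z : ℂ => ‖z‖) ⁻¹' (Ioo r s)) := isOpen_Ioo.preimage continuous_norm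
    refine mem_of_superset (ho.mem_nhds (show ‖z‖ ∈ Ioo r s from ⟨h1, h2⟩)) ?_
    intro w hw
    rw [Set.mem_sdiff, mem_closedBall, mem_ball, dist_zero_right, not_lt]
    exact ⟨hw.2.le, hw.1.le⟩
  have hkd : ∀ w : ℂ, r ≤ ‖w‖ → ‖w‖ ≤ s → DifferentiableAt ℂ k w := fun w hw1 hw2 =>
    cau_ann ha hk (by linarith) (by linarith)
  have hg : (∮ w in C(0, s), dslope k z w) = ∮ w in C(0, r), dslope k z w := by
    refine circleIntegral_eq_of_differentiable_on_annulus_off_countable (s := {z}) hr (by linarith)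
      (countable_singleton z) ?_ ?_
    · rw [continuousOn_dslope hnh]
      refine ⟨?_, hkd z h1.le h2.le⟩
      intro w hw
      rw [Set.mem_sdiff, mem_closedBall, mem_ball, dist_zero_right, not_lt] at hw
      exact (hkd w hw.2 hw.1).continuousAt.continuousWithinAt
    · intro w hw
      rw [Set.mem_sdiff, Set.mem_sdiff, mem_ball, mem_closedBall, dist_zero_right, not_le] at hw
      rw [differentiableAt_dslope_of_ne hw.2]
      exact hkd w hw.1.2.le hw.1.1.le
  -- the integral over a circle which does not contain `z`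
  have hc : ∀ t : ℝ, 0 < t → t ≠ ‖z‖ → (∀ w ∈ sphere (0 : ℂ) t, DifferentiableAt ℂ k w) →
      (∮ w in C(0, t), dslope k z w) = (∮ w in C(0, t), k w / (w - z)) - k z * ∮ w in C(0, t), (w - z)⁻¹ := by
    intro t ht htz hkt
    have hne : ∀ w ∈ sphere (0 : ℂ) t, w - z ≠ 0 := by
      intro w hw h
      rw [mem_sphere, dist_zero_right] at hw
      rw [sub_eq_zero.1 h] at hw
      exact htz hw.symm
    have hc2 : ContinuousOn (fun w : ℂ => (w - z)⁻¹) (sphere 0 t) :=
      (continuousOn_id.sub continuousOn_const).inv₀ hne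
    have hc1 : ContinuousOn (fun w : ℂ => k w / (w - z)) (sphere 0 t) := by
      refine ContinuousOn.div ?_ (continuousOn_id.sub continuousOn_const) hne
      exact fun w hw => (hkt w hw).continuousAt.continuousWithinAt
    rw [← circleIntegral.integral_const_mul, ← circleIntegral.integral_sub]
    · refine circleIntegral.integral_congr ht.le ?_
      intro w hw
      have hwz : w ≠ z := fun h => hne w hw (sub_eq_zero.2 h)
      simp only
      rw [dslope_of_ne k hwz, slope_def_field]
      rw [sub_div, div_eq_mul_inv (k z)]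
    · exact hc1.circleIntegrable ht.le
    · exact (continuousOn_const.mul hc2).circleIntegrable ht.le
  have hs1 := hc s hs h2.ne' (by
    intro w hw
    rw [mem_sphere, dist_zero_right] at hw
    exact hkd w (by linarith) hw.le)
  have hr1 := hc r hr h1.ne (by
    intro w hw
    rw [mem_sphere, dist_zero_right] at hw
    exact hkd w hw.ge (by linarith))
  have hs2 : (∮ w in C(0, s), (w - z)⁻¹) = 2 * Real.pi * I :=
    circleIntegral.integral_sub_inv_of_mem_ball (by rw [mem_ball, dist_zero_right]; exact h2)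
  have hr2 : (∮ w in C(0, r), (w - z)⁻¹) = 0 := by
    have hd : ∀ w : ℂ, ‖w‖ ≤ r → DifferentiableAt ℂ (fun w : ℂ => (w - z)⁻¹) w := by
      intro w hw
      refine DifferentiableAt.inv (differentiableAt_id.sub_const z) ?_
      intro h
      have e : w = z := sub_eq_zero.1 h
      rw [e] at hw
      linarith
    refine circleIntegral_eq_zero_of_differentiable_on_off_countable hr.le countable_empty ?_ ?_
    · intro w hw
      rw [mem_closedBall, dist_zero_right] at hw
      exact (hd w hw).continuousAt.continuousWithinAt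
    · intro w hw
      rw [sdiff_empty, mem_ball, dist_zero_right] at hw
      exact hd w hw.le
  rw [hs1, hr1, hs2, hr2, mul_zero, sub_zero] at hg
  unfold cau
  rw [← hg, mul_sub]
  field_simp

theorem cau_split {a r R : ℝ} (ha : 0 < a) (har : a < r) (hrR : r < R) {k : ℂ → ℂ}
    (hk : DifferentiableOn ℂ k (Ann a R)) : ∃ kp : ℂ → ℂ, DifferentiableOn ℂ kp (ball 0 R) ∧
      (∀ z : ℂ, ‖z‖ < r → kp z = cau r k z) ∧
      ∀ z : ℂ, r < ‖z‖ → ‖z‖ < R → k z - kp z = -cau r k z := by
  have hS : ∀ x : ℝ, x < R → a < (max r x + R) / 2 ∧ x < (max r x + R) / 2 ∧ (max r x + R) / 2 < R := by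
    intro x hx
    have h1 := le_max_left r x
    have h2 := le_max_right r x
    have h3 : max r x < R := max_lt hrR hx
    exact ⟨by linarith, by linarith, by linarith⟩
  refine ⟨fun z => cau ((max r ‖z‖ + R) / 2) k z, ?_, ?_, ?_⟩
  · intro z hz
    rw [mem_ball, dist_zero_right] at hz
    obtain ⟨h1, h2, h3⟩ := hS ‖z‖ hz
    have hd : DifferentiableAt ℂ (cau ((max r ‖z‖ + R) / 2) k) z := by
      have hc : ContinuousOn k (sphere 0 ((max r ‖z‖ + R) / 2)) := by
        intro w hw
        rw [mem_sphere, dist_zero_right] at hw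
        exact (cau_ann ha hk (by rw [hw]; exact h1) (by rw [hw]; exact h3)).continuousAt.continuousWithinAt
      refine (cau_diff (by linarith) hc).differentiableAt ?_
      refine isOpen_ball.mem_nhds ?_
      rw [mem_ball, dist_zero_right]; exact h2
    refine DifferentiableAt.differentiableWithinAt ?_
    refine hd.congr_of_eventuallyEq ?_
    have hev : ∀ᶠ w : ℂ in 𝓝 z, ‖w‖ < (max r ‖z‖ + R) / 2 :=
      continuous_norm.continuousAt.eventually_lt_const h2
    filter_upwards [hev] with w hw
    obtain ⟨h4, h5, h6⟩ := hS ‖w‖ (by linarith)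
    exact cau_eq' ha hk h1 h4 h3 h6 hw h5
  · intro z hz
    obtain ⟨h1, h2, h3⟩ := hS ‖z‖ (by linarith)
    exact cau_eq' ha hk har h1 hrR h3 hz h2
  · intro z hz1 hz2
    obtain ⟨h1, h2, h3⟩ := hS ‖z‖ hz2
    have := cau_jump ha har hk h3 hz1 h2
    simp only
    rw [← this]
    ring

end Pool.Agent.CZ
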