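import Pool.Agent.Lib.MP_2b3e36_an.CZ.Defs

/-!
CauB. Bounds and symmetry of Cauchy integrals; a symmetric function has a symmetric extension.

Proof. `cau_out_le`, `cau_in_le`: `‖∮ f‖ ≤ 2 π r sup ‖f‖` (`circleIntegral.norm_integral_le_of_norm_le_const`),
`‖w - z‖ ≥ ‖z‖ - r ≥ r₂ - r`, resp. `≥ r - r₁`. `cau_conj`: the circle integral is `∫ over [0, 2π]`; `θ ↦ -θ`
(or `2π - θ`), `circleMap 0 r (-θ) = conj (circleMap 0 r θ)`, and `(I * conj x) = - conj (I * x)`.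
`sym_of_small`: `z ↦ conj (f (conj z))` is holomorphic on the ball (`HasDerivAt.conj_conj`, see `s2_deriv_conj` in
Ex/S2) and equals `f` on a small ball: identity theorem.
-/

set_option autoImplicit false

open Complex Set Filter Topology Metric

namespace Pool.Agent.CZ

private theorem cab_le {r c m : ℝ} (hr : 0 < r) (hc : 0 < c) {k : ℂ → ℂ} {z : ℂ}
    (h : ∀ w : ℂ, ‖w‖ = r → ‖k w‖ ≤ m) (hz : ∀ w : ℂ, ‖w‖ = r → c ≤ ‖w - z‖) :
    ‖cau r k z‖ ≤ r / c * m := by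
  have h1 : ‖(2 * Real.pi * I : ℂ)⁻¹ • ∮ w in C(0, r), k w / (w - z)‖ ≤ r * (m / c) := by
    refine circleIntegral.norm_two_pi_i_inv_smul_integral_le_of_norm_le_const hr.le ?_
    intro w hw
    have hw' : ‖w‖ = r := by simpa using hw
    rw [norm_div]
    have hm : 0 ≤ m := (norm_nonneg _).trans (h w hw')
    exact div_le_div₀ hm (h w hw') hc (hz w hw')
  have h2 : cau r k z = (2 * Real.pi * I : ℂ)⁻¹ • ∮ w in C(0, r), k w / (w - z) := rfl
  rw [h2]
  refine h1.trans (le_of_eq ?_)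
  ring

theorem cau_out_le {r r₂ m : ℝ} (hr : 0 < r) (hr₂ : r < r₂) {k : ℂ → ℂ}
    (h : ∀ w : ℂ, ‖w‖ = r → ‖k w‖ ≤ m) {z : ℂ} (hz : r₂ ≤ ‖z‖) : ‖cau r k z‖ ≤ r / (r₂ - r) * m := by
  refine cab_le hr (sub_pos.2 hr₂) h fun w hw => ?_
  have h1 : ‖z‖ - ‖w‖ ≤ ‖z - w‖ := norm_sub_norm_le z w
  rw [norm_sub_rev w z]
  linarith

theorem cau_in_le {r r₁ m : ℝ} (hr : 0 < r) (hr₁ : r₁ < r) {k : ℂ → ℂ}
    (h : ∀ w : ℂ, ‖w‖ = r → ‖k w‖ ≤ m) {z : ℂ} (hz : ‖z‖ ≤ r₁) : ‖cau r k z‖ ≤ r / (r - r₁) * m := by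
  refine cab_le hr (sub_pos.2 hr₁) h fun w hw => ?_
  have h1 : ‖w‖ - ‖z‖ ≤ ‖w - z‖ := norm_sub_norm_le w z
  linarith

private theorem cab_circleMap (r θ : ℝ) :
    circleMap 0 r (2 * Real.pi - θ) = starRingEnd ℂ (circleMap 0 r θ) := by
  simp only [circleMap, zero_add, map_mul, Complex.conj_ofReal]
  rw [← Complex.exp_conj, map_mul, Complex.conj_I, Complex.conj_ofReal]
  congr 1
  have e : ((2 * Real.pi - θ : ℝ) : ℂ) * I = 2 * Real.pi * I + (θ : ℂ) * -I := by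
    push_cast
    ring
  rw [e, Complex.exp_add, Complex.exp_two_pi_mul_I, one_mul]

theorem cau_conj {r : ℝ} (hr : 0 < r) {k : ℂ → ℂ} (h : Sym k (sphere 0 r)) (z : ℂ) :
    cau r k (starRingEnd ℂ z) = starRingEnd ℂ (cau r k z) := by
  set F : ℂ → ℝ → ℂ := fun z θ => circleMap 0 r θ * I * (k (circleMap 0 r θ) / (circleMap 0 r θ - z)) with hF
  have hci : ∀ z : ℂ, (∮ w in C(0, r), k w / (w - z)) = ∫ θ in (0 : ℝ)..2 * Real.pi, F z θ := by
    intro z
    rw [circleIntegral]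
    refine intervalIntegral.integral_congr fun θ _ => ?_
    simp only [deriv_circleMap, smul_eq_mul, hF]
  have hpt : ∀ θ : ℝ, F (starRingEnd ℂ z) (2 * Real.pi - θ) = -(starRingEnd ℂ (F z θ)) := by
    intro θ
    have hs : circleMap 0 r θ ∈ sphere (0 : ℂ) r := circleMap_mem_sphere 0 hr.le θ
    simp only [hF]
    rw [cab_circleMap, h _ hs, map_mul, map_mul, Complex.conj_I, map_div₀, map_sub]
    ring
  have h1 : (∫ θ in (0 : ℝ)..2 * Real.pi, F (starRingEnd ℂ z) θ) =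
      ∫ θ in (0 : ℝ)..2 * Real.pi, F (starRingEnd ℂ z) (2 * Real.pi - θ) := by
    rw [intervalIntegral.integral_comp_sub_left (fun θ => F (starRingEnd ℂ z) θ) (2 * Real.pi)]
    simp
  have h2 : (∫ θ in (0 : ℝ)..2 * Real.pi, starRingEnd ℂ (F z θ)) =
      starRingEnd ℂ (∫ θ in (0 : ℝ)..2 * Real.pi, F z θ) := by
    rw [intervalIntegral.integral_of_le Real.two_pi_pos.le, intervalIntegral.integral_of_le Real.two_pi_pos.le]
    exact integral_conj
  have h3 : (∮ w in C(0, r), k w / (w - starRingEnd ℂ z)) =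
      -(starRingEnd ℂ (∮ w in C(0, r), k w / (w - z))) := by
    rw [hci, hci, h1, ← h2, ← intervalIntegral.integral_neg]
    exact intervalIntegral.integral_congr fun θ _ => hpt θ
  have h4 : starRingEnd ℂ ((2 * Real.pi * I : ℂ)⁻¹) = -(2 * Real.pi * I : ℂ)⁻¹ := by
    rw [map_inv₀, map_mul, map_mul, Complex.conj_I, Complex.conj_ofReal, map_ofNat, mul_neg, inv_neg]
  unfold cau
  rw [h3, map_mul, h4]
  ring

theorem sym_of_small {r R : ℝ} (hr : 0 < r) (hrR : r ≤ R) {f : ℂ → ℂ}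
    (hf : DifferentiableOn ℂ f (ball 0 R)) (h : Sym f (ball 0 r)) : Sym f (ball 0 R) := by
  have hball : ∀ z : ℂ, z ∈ ball (0 : ℂ) R → starRingEnd ℂ z ∈ ball (0 : ℂ) R := by
    intro z hz
    rw [mem_ball_zero_iff] at hz ⊢
    rwa [RCLike.norm_conj]
  have hg : DifferentiableOn ℂ (fun z => starRingEnd ℂ (f (starRingEnd ℂ z))) (ball 0 R) := by
    intro z hz
    have h1 : HasDerivAt f (deriv f (starRingEnd ℂ z)) (starRingEnd ℂ z) :=
      (hf.differentiableAt (isOpen_ball.mem_nhds (hball z hz))).hasDerivAt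
    have h2 := h1.conj_conj
    rw [Complex.conj_conj] at h2
    exact h2.differentiableAt.differentiableWithinAt
  have hfa := hf.analyticOnNhd isOpen_ball
  have hga := hg.analyticOnNhd isOpen_ball
  have hR : 0 < R := hr.trans_le hrR
  have he : f =ᶠ[𝓝 0] fun z => starRingEnd ℂ (f (starRingEnd ℂ z)) := by
    filter_upwards [isOpen_ball.mem_nhds (mem_ball_self hr)] with z hz
    rw [h z hz, Complex.conj_conj]
  have hEq := hfa.eqOn_of_preconnected_of_eventuallyEq hga (convex_ball (0 : ℂ) R).isPreconnected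
    (mem_ball_self hR) he
  intro z hz
  have h1 := hEq hz
  simp only at h1
  rw [h1, Complex.conj_conj]

end Pool.Agent.CZ
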