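import Pool.Agent.Lib.MP_2b3e36_an.CZ.Defs

/-!
RemB. Bounds of the remainder coefficients.

Proof. On the circle `‖A w‖ ≥ (r-ρ)^(deg A) ≥ (r-ρ)^n` (`A` monic splits over `ℂ`:
`A w = prod (w - z_i)`, each factor `≥ r - ρ`, and `r - ρ < 1`), `|a_j| ≤ 2^n` (coefficients of a monic polynomial with roots of
modulus `≤ 1`, `Polynomial.coeff_bdd_of_roots_le`), `‖w‖ = r ≤ 1`, at most `n` terms: `‖integrand‖ ≤ n 2^n (r-ρ)^(-n) m₀`;
`circleIntegral.norm_two_pi_i_inv_smul_integral_le_of_norm_le_const` (`m₀ ≥ 0` because the circle is not empty).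
`rem_le`: at most `n` terms, `‖z‖^m ≤ 2^n`. For `m ≥ deg A` the sum in `rc` is empty, so `rc = 0`.
-/

set_option autoImplicit false

open Complex Set Filter Topology Metric Polynomial

namespace Pool.Agent.CZ

theorem remb_root {ρ : ℝ} {A : ℝ[X]} (hA : RootsIn A ρ) (z : ℂ) (hz : z ∈ (A.map (algebraMap ℝ ℂ)).roots) :
    ‖z‖ ≤ ρ := by
  apply hA
  have h1 := Polynomial.isRoot_of_mem_roots hz
  rw [Polynomial.IsRoot.def, Polynomial.eval_map_algebraMap] at h1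
  exact h1

theorem remb_low {ρ r : ℝ} (hr : ρ < r) {A : ℝ[X]} (hm : A.Monic) (hA : RootsIn A ρ) (w : ℂ) (hw : ‖w‖ = r) :
    (r - ρ) ^ A.natDegree ≤ ‖aeval w A‖ := by
  have hs : (A.map (algebraMap ℝ ℂ)).Splits := IsAlgClosed.splits _
  have hmm : (A.map (algebraMap ℝ ℂ)).Monic := hm.map _
  have h1 : aeval w A = (((A.map (algebraMap ℝ ℂ)).roots).map fun a => w - a).prod := by
    rw [← Polynomial.eval_map_algebraMap, hs.eval_eq_prod_roots_of_monic hmm]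
  have h2 : ((A.map (algebraMap ℝ ℂ)).roots).card = A.natDegree := by
    rw [← hs.natDegree_eq_card_roots, Polynomial.natDegree_map]
  rw [h1, ← h2]
  have h3 : ∀ s : Multiset ℂ, (∀ z ∈ s, ‖z‖ ≤ ρ) → (r - ρ) ^ s.card ≤ ‖(s.map fun a => w - a).prod‖ := by
    intro s
    induction s using Multiset.induction_on with
    | empty => intro _; simp
    | cons a s ih =>
      intro hs
      rw [Multiset.card_cons, Multiset.map_cons, Multiset.prod_cons, norm_mul, pow_succ, mul_comm]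
      have h4 : r - ρ ≤ ‖w - a‖ := by
        have h5 := norm_sub_norm_le w a
        have h6 := hs a (Multiset.mem_cons_self a s)
        linarith
      exact mul_le_mul h4 (ih fun z hz => hs z (Multiset.mem_cons_of_mem hz)) (pow_nonneg (by linarith) _)
        (norm_nonneg _)
  exact h3 _ fun z hz => remb_root hA z hz

theorem remb_coef (n : ℕ) {ρ : ℝ} {A : ℝ[X]} (hH : Hyp n ρ A) (j : ℕ) :
    ‖(A.coeff j : ℂ)‖ ≤ max ρ 1 ^ n * (n.choose (n / 2) : ℝ) := by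
  have h1 := Polynomial.coeff_bdd_of_roots_le (algebraMap ℝ ℂ) (B := ρ) hH.monic
    (IsAlgClosed.splits _) hH.le (fun z hz => remb_root hH.roots z hz) j
  rw [Polynomial.coeff_map] at h1
  simpa using h1

theorem rc_le (n : ℕ) {ρ r : ℝ} (hρ : 0 < ρ) (hr : ρ < r) (hr1 : r < 1) : ∃ C : ℝ, 0 < C ∧
    ∀ A : ℝ[X], Hyp n ρ A → ∀ (k : ℂ → ℂ) (m₀ : ℝ), (∀ w : ℂ, ‖w‖ = r → ‖k w‖ ≤ m₀) →
      ∀ m, ‖rc A r k m‖ ≤ C * m₀ := by
  set Kc : ℝ := max ρ 1 ^ n * (n.choose (n / 2) : ℝ) with hKc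
  have hKc0 : 0 ≤ Kc := by
    rw [hKc]
    exact mul_nonneg (pow_nonneg (le_trans zero_le_one (le_max_right _ _)) _) (Nat.cast_nonneg _)
  have hδ : 0 < r - ρ := by linarith
  have hδ1 : r - ρ ≤ 1 := by linarith
  have hr0 : 0 < r := by linarith
  refine ⟨n * Kc / (r - ρ) ^ n + 1, by positivity, ?_⟩
  intro A hH k m₀ hk m
  have hm0 : 0 ≤ m₀ := by
    have h1 := hk (r : ℂ) (by rw [Complex.norm_real, Real.norm_eq_abs, abs_of_pos hr0])
    exact le_trans (norm_nonneg _) h1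
  have hmain : ∀ w ∈ sphere (0 : ℂ) r, ‖k w * ((∑ j ∈ Finset.Ico (m + 1) (A.natDegree + 1),
      (A.coeff j : ℂ) * w ^ (j - 1 - m)) / aeval w A)‖ ≤ m₀ * (n * Kc / (r - ρ) ^ n) := by
    intro w hw
    rw [mem_sphere_zero_iff_norm] at hw
    rw [norm_mul, norm_div]
    have hlow : (r - ρ) ^ n ≤ ‖aeval w A‖ :=
      le_trans (pow_le_pow_of_le_one hδ.le hδ1 hH.le) (remb_low hr hH.monic hH.roots w hw)
    have hsum : ‖∑ j ∈ Finset.Ico (m + 1) (A.natDegree + 1), (A.coeff j : ℂ) * w ^ (j - 1 - m)‖ ≤ n * Kc := by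
      refine le_trans (norm_sum_le _ _) ?_
      have h1 : ∀ j ∈ Finset.Ico (m + 1) (A.natDegree + 1), ‖(A.coeff j : ℂ) * w ^ (j - 1 - m)‖ ≤ Kc := by
        intro j _
        rw [norm_mul, norm_pow, hw]
        have h2 := remb_coef n hH j
        have h3 : r ^ (j - 1 - m) ≤ 1 := pow_le_one₀ hr0.le hr1.le
        calc ‖(A.coeff j : ℂ)‖ * r ^ (j - 1 - m) ≤ Kc * 1 :=
              mul_le_mul h2 h3 (pow_nonneg hr0.le _) hKc0
          _ = Kc := mul_one _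
      refine le_trans (Finset.sum_le_sum h1) ?_
      rw [Finset.sum_const, Nat.card_Ico, nsmul_eq_mul]
      apply mul_le_mul_of_nonneg_right _ hKc0
      have h4 : A.natDegree + 1 - (m + 1) ≤ n := by
        have := hH.le
        omega
      exact_mod_cast h4
    apply mul_le_mul (hk w hw) _ (by positivity) hm0
    exact div_le_div₀ (by positivity) hsum (by positivity) hlow
  have h5 := circleIntegral.norm_two_pi_i_inv_smul_integral_le_of_norm_le_const hr0.le hmain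
  rw [smul_eq_mul] at h5
  unfold rc
  refine le_trans h5 ?_
  have h6 : 0 ≤ (n : ℝ) * Kc / (r - ρ) ^ n := by positivity
  have h7 : r * (m₀ * (n * Kc / (r - ρ) ^ n)) ≤ 1 * (m₀ * (n * Kc / (r - ρ) ^ n)) :=
    mul_le_mul_of_nonneg_right hr1.le (mul_nonneg hm0 h6)
  nlinarith

theorem rem_le (n : ℕ) {ρ r : ℝ} (hρ : 0 < ρ) (hr : ρ < r) (hr1 : r < 1) : ∃ C : ℝ, 0 < C ∧
    ∀ A : ℝ[X], Hyp n ρ A → ∀ (k : ℂ → ℂ) (m₀ : ℝ), (∀ w : ℂ, ‖w‖ = r → ‖k w‖ ≤ m₀) →
      ∀ z : ℂ, ‖z‖ ≤ 2 → ‖rem A r k z‖ ≤ C * m₀ := by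
  obtain ⟨C, hC, h⟩ := rc_le n hρ hr hr1
  have hr0 : 0 < r := by linarith
  refine ⟨n * (C * 2 ^ n) + 1, by positivity, ?_⟩
  intro A hH k m₀ hk z hz
  have hm0 : 0 ≤ m₀ := by
    have h1 := hk (r : ℂ) (by rw [Complex.norm_real, Real.norm_eq_abs, abs_of_pos hr0])
    exact le_trans (norm_nonneg _) h1
  unfold rem
  refine le_trans (norm_sum_le _ _) ?_
  have h1 : ∀ m ∈ Finset.range A.natDegree, ‖rc A r k m * z ^ m‖ ≤ C * m₀ * 2 ^ n := by
    intro m hm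
    rw [Finset.mem_range] at hm
    rw [norm_mul, norm_pow]
    have h2 : ‖z‖ ^ m ≤ 2 ^ n := by
      calc ‖z‖ ^ m ≤ 2 ^ m := pow_le_pow_left₀ (norm_nonneg _) hz m
        _ ≤ 2 ^ n := pow_le_pow_right₀ (by norm_num) (le_trans hm.le hH.le)
    exact mul_le_mul (h A hH k m₀ hk m) h2 (by positivity) (by positivity)
  refine le_trans (Finset.sum_le_sum h1) ?_
  rw [Finset.sum_const, Finset.card_range, nsmul_eq_mul]
  have h3 : (A.natDegree : ℝ) ≤ n := by exact_mod_cast hH.le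
  have h4 : 0 ≤ C * m₀ * 2 ^ n := by positivity
  nlinarith [mul_le_mul_of_nonneg_right h3 h4]

end Pool.Agent.CZ
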