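import Pool.Agent.Lib.MP_2b3e36_an.CZ.RemA
import Pool.Agent.Lib.MP_2b3e36_an.CZ.RemB
import Pool.Agent.Lib.MP_2b3e36_an.CZ.Cau
import Pool.Agent.Lib.MP_2b3e36_an.CZ.CauB

/-!
Asm. Common part of OneA and TwoA.
-/

set_option autoImplicit false

open Complex Set Filter Topology Metric Polynomial

namespace Pool.Agent.CZ

theorem asm_rad {ρ : ℝ} (hρ : 0 < ρ) (hρ1 : ρ < 1) :
    ρ < ra ρ ∧ ra ρ < rb ρ ∧ rb ρ < rd ρ ∧ rd ρ < 1 ∧ 0 < ra ρ ∧ 0 < rb ρ := by
  unfold ra rb rd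
  refine ⟨?_, ?_, ?_, ?_, ?_, ?_⟩ <;> linarith

/-- `exp x - 1 = x * asmE x` -/
noncomputable def asmE : ℂ → ℂ := dslope exp 0

theorem asmE_eq (x : ℂ) : exp x - 1 = x * asmE x := by
  have h := sub_smul_dslope (f := exp) (a := (0 : ℂ)) (b := x)
  rw [sub_zero, exp_zero, smul_eq_mul] at h
  exact h.symm

theorem asmE_diff : Differentiable ℂ asmE := by
  rw [← differentiableOn_univ]
  exact (differentiableOn_dslope (univ_mem)).2 differentiable_exp.differentiableOn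

theorem asm_poly_diff (A : ℝ[X]) : Differentiable ℂ fun z : ℂ => aeval z A := by
  have h : (fun z : ℂ => aeval z A) = fun z => (A.map (algebraMap ℝ ℂ)).eval z := by
    funext z
    rw [eval_map_algebraMap]
  rw [h]
  exact Polynomial.differentiable _

theorem asm_conj (A : ℝ[X]) (z : ℂ) : aeval (starRingEnd ℂ z) A = starRingEnd ℂ (aeval z A) :=
  Polynomial.aeval_conj A z

theorem asm_norm_conj (z : ℂ) : ‖starRingEnd ℂ z‖ = ‖z‖ := RCLike.norm_conj z

theorem asm_sym_sphere {a R r : ℝ} {k : ℂ → ℂ} (h : Sym k (Ann a R)) (h1 : a < r) (h2 : r < R) :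
    Sym k (sphere 0 r) := by
  intro z hz
  rw [mem_sphere_zero_iff_norm] at hz
  exact h z ⟨hz ▸ h1, hz ▸ h2⟩

theorem asm_ann_open (a R : ℝ) : IsOpen (Ann a R) :=
  (isOpen_lt continuous_const continuous_norm).inter (isOpen_lt continuous_norm continuous_const)

theorem asm_cont_sphere {a R r : ℝ} {k : ℂ → ℂ} (h : DifferentiableOn ℂ k (Ann a R)) (h1 : a < r)
    (h2 : r < R) : ContinuousOn k (sphere 0 r) := by
  refine h.continuousOn.mono fun z hz => ?_
  rw [mem_sphere_zero_iff_norm] at hz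
  exact ⟨hz ▸ h1, hz ▸ h2⟩

/-- division by `A` -/
theorem div_ext {A : ℝ[X]} {ρ r R : ℝ} (hA : RootsIn A ρ) (hr : ρ < r) {F g : ℂ → ℂ}
    (hF : DifferentiableOn ℂ F (ball 0 R)) (hg : DifferentiableOn ℂ g (ball 0 r))
    (he : ∀ z : ℂ, ‖z‖ < r → ‖z‖ < R → F z = aeval z A * g z) :
    ∃ u : ℂ → ℂ, DifferentiableOn ℂ u (ball 0 R) ∧ ∀ z ∈ ball (0 : ℂ) R, F z = aeval z A * u z := by
  classical
  refine ⟨fun z => if ‖z‖ < r then g z else F z / aeval z A, ?_, ?_⟩
  · intro z hz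
    rw [mem_ball_zero_iff] at hz
    by_cases h : ‖z‖ < r
    · have h1 : DifferentiableAt ℂ g z := hg.differentiableAt (isOpen_ball.mem_nhds (by simpa using h))
      refine (h1.congr_of_eventuallyEq ?_).differentiableWithinAt
      have : ∀ᶠ w in 𝓝 z, ‖w‖ < r := continuous_norm.continuousAt.eventually_lt continuousAt_const h
      filter_upwards [this] with w hw
      simp [hw]
    · have h1 : DifferentiableAt ℂ (fun w => F w / aeval w A) z := by
        refine (hF.differentiableAt (isOpen_ball.mem_nhds (by simpa using hz))).div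
          (asm_poly_diff A z) (aeval_ne hA (lt_of_lt_of_le hr (not_lt.1 h)))
      refine (h1.congr_of_eventuallyEq ?_).differentiableWithinAt
      have h2 : ∀ᶠ w in 𝓝 z, ρ < ‖w‖ :=
        continuousAt_const.eventually_lt continuous_norm.continuousAt (lt_of_lt_of_le hr (not_lt.1 h))
      have h3 : ∀ᶠ w in 𝓝 z, ‖w‖ < R := continuous_norm.continuousAt.eventually_lt continuousAt_const hz
      filter_upwards [h2, h3] with w hw hw3
      by_cases h4 : ‖w‖ < r
      · simp only [h4, if_true]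
        rw [he w h4 hw3, mul_div_cancel_left₀ _ (aeval_ne hA hw)]
      · simp [h4]
  · intro z hz
    rw [mem_ball_zero_iff] at hz
    by_cases h : ‖z‖ < r
    · simp only [h, if_true]
      exact he z h hz
    · simp only [h, if_false]
      rw [mul_div_cancel₀ _ (aeval_ne hA (lt_of_lt_of_le hr (not_lt.1 h)))]

theorem asm_conj_diff {R : ℝ} {f : ℂ → ℂ} (hf : DifferentiableOn ℂ f (ball 0 R)) :
    DifferentiableOn ℂ (fun z => starRingEnd ℂ (f (starRingEnd ℂ z))) (ball 0 R) := by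
  intro z hz
  have h1 : starRingEnd ℂ z ∈ ball (0 : ℂ) R := by
    rw [mem_ball_zero_iff] at hz ⊢
    rwa [asm_norm_conj]
  have h2 : DifferentiableAt ℂ f (starRingEnd ℂ z) := hf.differentiableAt (isOpen_ball.mem_nhds h1)
  have h3 := h2.hasDerivAt.conj_conj
  rw [Complex.conj_conj] at h3
  exact h3.differentiableAt.differentiableWithinAt

theorem sym_of_ann {a R : ℝ} (ha : 0 < a) (haR : a < R) {f : ℂ → ℂ}
    (hf : DifferentiableOn ℂ f (ball 0 R)) (h : Sym f (Ann a R)) : Sym f (ball 0 R) := by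
  have h1 : AnalyticOnNhd ℂ f (ball 0 R) := hf.analyticOnNhd isOpen_ball
  have h2 : AnalyticOnNhd ℂ (fun z => starRingEnd ℂ (f (starRingEnd ℂ z))) (ball 0 R) :=
    (asm_conj_diff hf).analyticOnNhd isOpen_ball
  obtain ⟨s, hs1, hs2⟩ := exists_between haR
  have hn : ‖(s : ℂ)‖ = s := by
    rw [Complex.norm_real, Real.norm_eq_abs, abs_of_pos (ha.trans hs1)]
  have h3 : (s : ℂ) ∈ ball (0 : ℂ) R := by
    rw [mem_ball_zero_iff, hn]; exact hs2
  have h4 : f =ᶠ[𝓝 (s : ℂ)] fun z => starRingEnd ℂ (f (starRingEnd ℂ z)) := by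
    have : Ann a R ∈ 𝓝 (s : ℂ) := (asm_ann_open a R).mem_nhds ⟨by rw [hn]; exact hs1, by rw [hn]; exact hs2⟩
    filter_upwards [this] with z hz
    rw [h z hz, Complex.conj_conj]
  have h5 := h1.eqOn_of_preconnected_of_eventuallyEq h2 (convex_ball (0 : ℂ) R).isPreconnected h3 h4
  intro z hz
  have h6 := h5 hz
  simp only at h6
  rw [h6, Complex.conj_conj]

theorem asm_max {r R m : ℝ} (hrR : r < R) (hr : 0 < r) {f : ℂ → ℂ} (hf : DifferentiableOn ℂ f (ball 0 R))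
    (h : ∀ z : ℂ, ‖z‖ = r → ‖f z‖ ≤ m) {z : ℂ} (hz : ‖z‖ ≤ r) : ‖f z‖ ≤ m := by
  have h1 : DiffContOnCl ℂ f (ball 0 r) := by
    refine DifferentiableOn.diffContOnCl ?_
    rw [closure_ball _ hr.ne']
    exact hf.mono (closedBall_subset_ball hrR)
  refine Complex.norm_le_of_forall_mem_frontier_norm_le isBounded_ball h1 (fun w hw => h w ?_) ?_
  · rw [frontier_ball _ hr.ne', mem_sphere_zero_iff_norm] at hw
    exact hw
  · rw [closure_ball _ hr.ne', mem_closedBall_zero_iff]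
    exact hz

theorem asm_rem_diff (A : ℝ[X]) (r : ℝ) (k : ℂ → ℂ) : Differentiable ℂ (rem A r k) := by
  unfold rem
  refine Differentiable.fun_sum fun m _ => ?_
  exact (differentiable_const _).mul (differentiable_id.pow m)

theorem asm_rem_sym {A : ℝ[X]} {r : ℝ} (hr : 0 < r) {k : ℂ → ℂ} (hs : Sym k (sphere 0 r)) (z : ℂ) :
    rem A r k (starRingEnd ℂ z) = starRingEnd ℂ (rem A r k z) := by
  unfold rem
  rw [map_sum]
  refine Finset.sum_congr rfl fun m _ => ?_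
  rw [map_mul, map_pow, Complex.conj_eq_iff_im.2 (rc_im hr hs m)]

/-- the splitting `kp` of `k` and the remainder -/
theorem asm_core {A : ℝ[X]} {ρ R m : ℝ} (hρ : 0 < ρ) (hρ1 : ρ < 1) (hR : 1 < R) (hA : RootsIn A ρ)
    {k : ℂ → ℂ} (hk : DifferentiableOn ℂ k (Ann (ra ρ) R)) (hs : Sym k (Ann (ra ρ) R))
    (hm : ∀ w : ℂ, ‖w‖ = rb ρ → ‖k w‖ ≤ m) :
    ∃ kp g : ℂ → ℂ, DifferentiableOn ℂ kp (ball 0 R) ∧ Sym kp (ball 0 R) ∧
      DifferentiableOn ℂ g (ball 0 (rb ρ)) ∧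
      (∀ z : ℂ, ‖z‖ < rb ρ → kp z - rem A (rb ρ) k z = aeval z A * g z) ∧
      ∀ z : ℂ, rd ρ ≤ ‖z‖ → ‖z‖ < R → ‖k z - kp z‖ ≤ rb ρ / (rd ρ - rb ρ) * m := by
  obtain ⟨h1, h2, h3, h4, h5, h6⟩ := asm_rad hρ hρ1
  obtain ⟨kp, hkp, hkp1, hkp2⟩ := cau_split h5 h2 (h3.trans (h4.trans hR)) hk
  have hc : ContinuousOn k (sphere 0 (rb ρ)) := asm_cont_sphere hk h2 (h3.trans (h4.trans hR))
  have hsS : Sym k (sphere 0 (rb ρ)) := asm_sym_sphere hs h2 (h3.trans (h4.trans hR))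
  have hcA : ContinuousOn (fun w => k w / aeval w A) (sphere 0 (rb ρ)) := by
    refine hc.div (asm_poly_diff A).continuous.continuousOn fun w hw => ?_
    rw [mem_sphere_zero_iff_norm] at hw
    exact aeval_ne hA (by rw [hw]; exact h1.trans h2)
  refine ⟨kp, cau (rb ρ) (fun w => k w / aeval w A), hkp, ?_, cau_diff h6 hcA, ?_, ?_⟩
  · refine sym_of_small h6 (h3.trans (h4.trans hR)).le hkp fun z hz => ?_
    rw [mem_ball_zero_iff] at hz
    rw [hkp1 z hz, hkp1 _ (by rwa [asm_norm_conj]), cau_conj h6 hsS]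
  · intro z hz
    rw [hkp1 z hz]
    exact rem_cau hA hρ (h1.trans h2) hc hz
  · intro z hz hz1
    rw [hkp2 z (h3.trans_le hz) hz1, norm_neg]
    exact cau_out_le h6 h3 hm hz

end Pool.Agent.CZ
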