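import Pool.Agent.Lib.MP_2b3e36_an.CZ.Defs
import Pool.Agent.Lib.MP_e4ee3e_an.Q04

/-!
Big. If a zero and a one are close then `q` is large on the annulus.

Proof. WLOG `L ≥ 2`. Let `d = min (r₀ - ρ) (1 - r₂)`: for `r₀ ≤ ‖x‖ ≤ r₂` the ball `ball x d` lies in
`{ρ < ‖z‖ < 1}`, where `q` omits `0`, `1`. One step: if `‖q x‖ ≤ M` (`M ≥ 1`) then `‖q‖ ≤ M'` on
`ball x (d/2)`, `M'` depending only on `M`: `schottky01 M` for `q` if `1/2 ≤ ‖q x‖`, otherwise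
`schottky01 2` for `1 - q` (`1/2 ≤ ‖1 - q x‖ ≤ 3/2`). The circle `‖z‖ = ‖z₀‖` is covered by `m` steps of
length `< d/2` (`m` depending only on `d`: points `z₀ exp (2πi j/m)`), so if `‖q z₀‖ ≤ L` then
`‖q‖ ≤ L'` on the circle, `L'` depending only on `L`, `d`. Maximum principle: `‖q‖ ≤ L'` on the closed ball of
radius `‖z₀‖ ≥ r₀`; Cauchy estimate: `‖deriv q‖ ≤ L'/(r₀ - ρ)` on the closed ball of radius `ρ` (convex), so
`1 = ‖q b - q a‖ ≤ L'/(r₀ - ρ) * ‖a - b‖`; so `κ = (r₀ - ρ)/L'` works.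
-/

set_option autoImplicit false

open Complex Set Filter Topology Metric

namespace Pool.Agent.CZ

theorem big_step (M : ℝ) : ∃ M' : ℝ, ∀ (x : ℂ) (r : ℝ) (g : ℂ → ℂ), 0 < r →
    DifferentiableOn ℂ g (ball x r) → (∀ z ∈ ball x r, g z ≠ 0 ∧ g z ≠ 1) →
    ‖g x‖ ≤ M → ∀ z ∈ ball x (r / 2), ‖g z‖ ≤ M' := by
  obtain ⟨M1, hM1⟩ := Pool.Agent.Lib.MP_e4ee3e_an.schottky01 M
  obtain ⟨M2, hM2⟩ := Pool.Agent.Lib.MP_e4ee3e_an.schottky01 2
  refine ⟨max M1 (M2 + 1), ?_⟩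
  intro x r g hr hd h01 hup z hz
  by_cases hlow : 1 / 2 ≤ ‖g x‖
  · exact (hM1 x r g hr hd h01 hlow hup z hz).trans (le_max_left _ _)
  · push Not at hlow
    have h1 : 1 / 2 ≤ ‖1 - g x‖ := by
      have := norm_sub_norm_le (1 : ℂ) (g x)
      rw [norm_one] at this
      linarith
    have h2 : ‖1 - g x‖ ≤ 2 := by
      have := norm_sub_le (1 : ℂ) (g x)
      rw [norm_one] at this
      linarith
    have h3 := hM2 x r (fun z => 1 - g z) hr ((differentiableOn_const _).sub hd)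
      (fun w hw => ⟨fun h => (h01 w hw).2 (sub_eq_zero.mp h).symm,
        fun h => (h01 w hw).1 (by simpa using h)⟩) h1 h2 z hz
    have h4 : ‖g z‖ ≤ ‖(1 : ℂ)‖ + ‖1 - g z‖ := by
      have := norm_sub_le (1 : ℂ) (1 - g z)
      simpa using this
    rw [norm_one] at h4
    exact (by linarith : ‖g z‖ ≤ M2 + 1).trans (le_max_right _ _)

theorem big_iter {ρ r₀ r₂ d : ℝ} (hd : 0 < d) (hd0 : d ≤ r₀ - ρ) (hd2 : d ≤ 1 - r₂) (L : ℝ) (j : ℕ) :
    ∃ M : ℝ, ∀ (q : ℂ → ℂ), DifferentiableOn ℂ q (ball 0 1) →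
      (∀ z : ℂ, ρ < ‖z‖ → ‖z‖ < 1 → q z ≠ 0 ∧ q z ≠ 1) → ∀ z₀ : ℂ, r₀ ≤ ‖z₀‖ → ‖z₀‖ ≤ r₂ →
      ‖q z₀‖ ≤ L → ∀ t : ℝ, |t| ≤ j * (d / 4) → ‖q (z₀ * exp (t * I))‖ ≤ M := by
  induction j with
  | zero =>
    refine ⟨L, fun q _ _ z₀ _ _ hL t ht => ?_⟩
    have : t = 0 := by
      rw [Nat.cast_zero, zero_mul] at ht
      exact abs_nonpos_iff.mp ht
    rw [this]
    simpa using hL
  | succ j ih =>
    obtain ⟨M, hM⟩ := ih
    obtain ⟨M', hM'⟩ := big_step M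
    refine ⟨M', fun q hq h01 z₀ hz0 hz2 hL t ht => ?_⟩
    have hj : (0 : ℝ) < (j : ℝ) + 1 := by positivity
    have ht' : |t * (j / (j + 1))| ≤ j * (d / 4) := by
      rw [abs_mul, abs_of_nonneg (by positivity : (0 : ℝ) ≤ j / (j + 1))]
      push_cast at ht
      calc |t| * (j / (j + 1)) ≤ ((j + 1) * (d / 4)) * (j / (j + 1)) :=
            mul_le_mul_of_nonneg_right ht (by positivity)
        _ = j * (d / 4) := by field_simp
    have hw := hM q hq h01 z₀ hz0 hz2 hL (t * (j / (j + 1))) ht'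
    have hnw : ‖z₀ * exp (((t * (j / (j + 1)) : ℝ) : ℂ) * I)‖ = ‖z₀‖ := by
      rw [norm_mul, Complex.norm_exp_ofReal_mul_I, mul_one]
    have hsub : ∀ z ∈ ball (z₀ * exp (((t * (j / (j + 1)) : ℝ) : ℂ) * I)) d, ρ < ‖z‖ ∧ ‖z‖ < 1 := by
      intro z hz
      rw [mem_ball, dist_eq_norm] at hz
      have h1 := norm_sub_norm_le (z₀ * exp (((t * (j / (j + 1)) : ℝ) : ℂ) * I)) z
      have h2 := norm_sub_norm_le z (z₀ * exp (((t * (j / (j + 1)) : ℝ) : ℂ) * I))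
      rw [norm_sub_rev, hnw] at h1
      rw [hnw] at h2
      constructor <;> linarith
    refine hM' (z₀ * exp (((t * (j / (j + 1)) : ℝ) : ℂ) * I)) d q hd
      (hq.mono fun z hz => by
        rw [mem_ball_zero_iff]
        exact (hsub z hz).2) (fun z hz => h01 z (hsub z hz).1 (hsub z hz).2) hw _ ?_
    rw [mem_ball, dist_eq_norm, ← mul_sub, norm_mul]
    have h3 : ‖exp ((t : ℂ) * I) - exp (((t * (j / (j + 1)) : ℝ) : ℂ) * I)‖ ≤
        |t - t * (j / (j + 1))| := by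
      have h5 : exp ((t : ℂ) * I) - exp (((t * (j / (j + 1)) : ℝ) : ℂ) * I) =
          exp (((t * (j / (j + 1)) : ℝ) : ℂ) * I) * (exp (((t - t * (j / (j + 1)) : ℝ) : ℂ) * I) - 1) := by
        rw [mul_sub, ← exp_add]
        congr 2
        · push_cast
          ring
        · ring
      rw [h5, norm_mul, Complex.norm_exp_ofReal_mul_I, one_mul]
      have h6 := Real.norm_exp_I_mul_ofReal_sub_one_le (x := t - t * (j / (j + 1)))
      rw [mul_comm I] at h6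
      simpa [Real.norm_eq_abs] using h6
    have h4 : |t - t * (j / (j + 1))| ≤ d / 4 := by
      have : t - t * (j / (j + 1)) = t * (1 / (j + 1)) := by
        field_simp
        ring
      rw [this, abs_mul, abs_of_nonneg (by positivity : (0 : ℝ) ≤ 1 / (j + 1))]
      push_cast at ht
      calc |t| * (1 / (j + 1)) ≤ ((j + 1) * (d / 4)) * (1 / (j + 1)) :=
            mul_le_mul_of_nonneg_right ht (by positivity)
        _ = d / 4 := by field_simp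
    have h7 : ‖z₀‖ ≤ 1 := by linarith
    calc ‖z₀‖ * ‖exp ((t : ℂ) * I) - exp (((t * (j / (j + 1)) : ℝ) : ℂ) * I)‖
        ≤ 1 * (d / 4) := mul_le_mul h7 (h3.trans h4) (norm_nonneg _) zero_le_one
      _ < d / 2 := by linarith

theorem big_circle {ρ r₀ r₂ : ℝ} (h0 : ρ < r₀) (hr : 0 < r₀) (h2 : r₂ < 1) (L : ℝ) :
    ∃ M : ℝ, ∀ (q : ℂ → ℂ), DifferentiableOn ℂ q (ball 0 1) →
      (∀ z : ℂ, ρ < ‖z‖ → ‖z‖ < 1 → q z ≠ 0 ∧ q z ≠ 1) → ∀ z₀ : ℂ, r₀ ≤ ‖z₀‖ → ‖z₀‖ ≤ r₂ →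
      ‖q z₀‖ ≤ L → ∀ z : ℂ, ‖z‖ = ‖z₀‖ → ‖q z‖ ≤ M := by
  have hd : 0 < min (r₀ - ρ) (1 - r₂) := lt_min (by linarith) (by linarith)
  obtain ⟨m, hm⟩ := exists_nat_ge (Real.pi / (min (r₀ - ρ) (1 - r₂) / 4))
  obtain ⟨M, hM⟩ := big_iter hd (min_le_left _ _) (min_le_right _ _) L m
  refine ⟨M, fun q hq h01 z₀ hz0 hz2 hL z hz => ?_⟩
  have hne : z₀ ≠ 0 := by
    intro h
    rw [h, norm_zero] at hz0
    linarith
  have h1 : z = z₀ * exp ((arg (z / z₀) : ℂ) * I) := by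
    have h3 := Complex.norm_mul_exp_arg_mul_I (z / z₀)
    rw [norm_div, hz, div_self (norm_ne_zero_iff.mpr hne), ofReal_one, one_mul] at h3
    rw [h3, mul_div_cancel₀ _ hne]
  rw [h1]
  refine hM q hq h01 z₀ hz0 hz2 hL _ ((Complex.abs_arg_le_pi _).trans ?_)
  rwa [div_le_iff₀ (by positivity)] at hm

theorem big {ρ r₀ r₂ : ℝ} (hρ : 0 < ρ) (h0 : ρ < r₀) (h2 : r₂ < 1) (L : ℝ) :
    ∃ κ : ℝ, 0 < κ ∧ ∀ (q : ℂ → ℂ) (a b : ℂ), DifferentiableOn ℂ q (ball 0 1) →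
      (∀ z : ℂ, ρ < ‖z‖ → ‖z‖ < 1 → q z ≠ 0 ∧ q z ≠ 1) → ‖a‖ ≤ ρ → ‖b‖ ≤ ρ → ‖a - b‖ < κ →
      q a = 0 → q b = 1 → ∀ z : ℂ, r₀ ≤ ‖z‖ → ‖z‖ ≤ r₂ → L < ‖q z‖ := by
  obtain ⟨M, hM⟩ := big_circle h0 (hρ.trans h0) h2 L
  have hK : 0 < max M 1 := lt_max_of_lt_right one_pos
  have hR : 0 < r₀ - ρ := by linarith
  refine ⟨(r₀ - ρ) / max M 1, div_pos hR hK, ?_⟩
  intro q a b hq h01 ha hb hab hqa hqb z hz0 hz2
  by_contra hcon
  push Not at hcon
  have hcirc := hM q hq h01 z hz0 hz2 hcon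
  have hz1 : ‖z‖ < 1 := by linarith
  have hmax : ∀ w : ℂ, ‖w‖ ≤ ‖z‖ → ‖q w‖ ≤ max M 1 := by
    intro w hw
    have hdc : DiffContOnCl ℂ q (ball 0 ‖z‖) := hq.diffContOnCl_ball (by
      intro u hu
      rw [mem_closedBall_zero_iff] at hu
      rw [mem_ball_zero_iff]
      linarith)
    have hz' : ‖z‖ ≠ 0 := by linarith
    refine Complex.norm_le_of_forall_mem_frontier_norm_le isBounded_ball hdc ?_ ?_
    · intro u hu
      rw [frontier_ball _ hz', mem_sphere_zero_iff_norm] at hu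
      exact (hcirc u hu).trans (le_max_left _ _)
    · rw [closure_ball _ hz', mem_closedBall_zero_iff]
      exact hw
  have hderiv : ∀ w ∈ closedBall (0 : ℂ) ρ, ‖deriv q w‖ ≤ max M 1 / (r₀ - ρ) := by
    intro w hw
    rw [mem_closedBall_zero_iff] at hw
    refine Complex.norm_deriv_le_of_forall_mem_sphere_norm_le hR (hq.diffContOnCl_ball ?_) ?_
    · intro u hu
      rw [mem_closedBall, dist_eq_norm] at hu
      rw [mem_ball_zero_iff]
      have := norm_sub_norm_le u w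
      linarith
    · intro u hu
      rw [mem_sphere, dist_eq_norm] at hu
      refine hmax u ?_
      have := norm_sub_norm_le u w
      linarith
  have hmv := Convex.norm_image_sub_le_of_norm_deriv_le (f := q) (C := max M 1 / (r₀ - ρ))
    (s := closedBall (0 : ℂ) ρ) (x := a) (y := b)
    (fun w hw => by
      rw [mem_closedBall_zero_iff] at hw
      exact hq.differentiableAt (isOpen_ball.mem_nhds (by
        rw [mem_ball_zero_iff]
        linarith))) hderiv (convex_closedBall _ _)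
    (by rwa [mem_closedBall_zero_iff]) (by rwa [mem_closedBall_zero_iff])
  rw [hqa, hqb, sub_zero, norm_one, norm_sub_rev b a] at hmv
  have h5 : max M 1 / (r₀ - ρ) * ‖a - b‖ < max M 1 / (r₀ - ρ) * ((r₀ - ρ) / max M 1) :=
    mul_lt_mul_of_pos_left hab (div_pos hK hR)
  have h6 : max M 1 / (r₀ - ρ) * ((r₀ - ρ) / max M 1) = 1 := by
    field_simp
  linarith

end Pool.Agent.CZ
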