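import Pool.Agent.Lib.MP_2b3e36_an.CZ.BlaA

/-!
Bla. Bounds for the Blaschke product `bl B = B / B.reverse`.

Proof. By `fac` `‖bl B z‖ = prod ‖z - o‖/‖1 - conj o z‖` over at most `n` roots with `‖o‖ ≤ ρ`. For one factor
`φ(z) = (z - o)/(1 - conj o z)`: `‖z - o‖^2 = ‖1 - conj o z‖^2 + (‖z‖^2 - 1)(1 - ‖o‖^2)`.
-/

set_option autoImplicit false

open Complex Set Filter Topology Metric Polynomial

namespace Pool.Agent.CZ

theorem bla_id (o z : ℂ) : ‖z - o‖ ^ 2 =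
    ‖1 - starRingEnd ℂ o * z‖ ^ 2 + (‖z‖ ^ 2 - 1) * (1 - ‖o‖ ^ 2) := by
  simp only [Complex.sq_norm, Complex.normSq_apply, Complex.sub_re, Complex.sub_im, Complex.mul_re,
    Complex.mul_im, Complex.one_re, Complex.one_im, Complex.conj_re, Complex.conj_im]
  ring

theorem bla_den {ρ : ℝ} {o z : ℂ} (ho : ‖o‖ ≤ ρ) : 1 - ρ * ‖z‖ ≤ ‖1 - starRingEnd ℂ o * z‖ := by
  have h := norm_sub_norm_le (1 : ℂ) (starRingEnd ℂ o * z)
  rw [norm_one, norm_mul, RCLike.norm_conj] at h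
  have h2 := mul_le_mul_of_nonneg_right ho (norm_nonneg z)
  linarith

theorem bla_prod {B : ℝ[X]} {ρ : ℝ} (hB : RootsIn B ρ) (hBm : B.Monic) : ∃ s : Multiset ℂ,
    Multiset.card s = B.natDegree ∧ (∀ o ∈ s, ‖o‖ ≤ ρ) ∧ (∀ b : ℂ, aeval b B = 0 → b ∈ s) ∧
    ∀ z : ℂ, bl B z = (s.map fun o => (z - o) / (1 - starRingEnd ℂ o * z)).prod := by
  obtain ⟨s, h1, h2, h3, h4, -, h5⟩ := fac hB hBm
  refine ⟨s, h1, fun o ho => (h2 o ho).1, h3, fun z => ?_⟩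
  rw [bl, h4, h5, Multiset.prod_map_div]

theorem bl_upper (n : ℕ) {ρ η : ℝ} (hρ : 0 < ρ) (hρ1 : ρ < 1) (hη : 0 < η) : ∃ R : ℝ, 1 < R ∧
    R < 1 / ρ ∧ R ≤ 2 ∧ ∀ B : ℝ[X], Hyp n ρ B → ∀ z : ℂ, ‖z‖ < R → ‖bl B z‖ ≤ Real.exp η := by
  have h1ρ : 1 < 1 / ρ := by rw [lt_div_iff₀ hρ]; linarith
  have hcont : ContinuousAt (fun R : ℝ => (1 + (R ^ 2 - 1) / (1 - ρ * R) ^ 2) ^ n) 1 := by
    have : (1 - ρ * 1) ^ 2 ≠ 0 := by
      have : 0 < 1 - ρ * 1 := by linarith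
      positivity
    fun_prop (disch := assumption)
  have hev : ∀ᶠ R : ℝ in 𝓝 1, (1 + (R ^ 2 - 1) / (1 - ρ * R) ^ 2) ^ n < Real.exp η := by
    refine hcont.eventually_lt continuousAt_const ?_
    have h0 := Real.one_lt_exp_iff.2 hη
    simpa using h0
  have hev2 : ∀ᶠ R : ℝ in 𝓝 1, R < 1 / ρ := gt_mem_nhds h1ρ
  have hev3 : ∀ᶠ R : ℝ in 𝓝 1, R < 2 := gt_mem_nhds (by norm_num)
  have hall : ∀ᶠ R : ℝ in 𝓝[>] 1, (1 < R ∧ R < 1 / ρ ∧ R < 2 ∧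
      (1 + (R ^ 2 - 1) / (1 - ρ * R) ^ 2) ^ n < Real.exp η) := by
    filter_upwards [self_mem_nhdsWithin, mem_nhdsWithin_of_mem_nhds hev, mem_nhdsWithin_of_mem_nhds hev2,
      mem_nhdsWithin_of_mem_nhds hev3] with R h1 h2 h3 h4
    exact ⟨h1, h3, h4, h2⟩
  obtain ⟨R, hR1, hRρ, hR2, hR⟩ := hall.exists
  refine ⟨R, hR1, hRρ, hR2.le, fun B hB z hz => ?_⟩
  obtain ⟨s, hs, hs1, -, hs2⟩ := bla_prod hB.roots hB.monic
  rw [hs2]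
  have hρR : 0 < 1 - ρ * R := by
    rw [lt_div_iff₀ hρ] at hRρ
    linarith
  set x : ℝ := (R ^ 2 - 1) / (1 - ρ * R) ^ 2 with hx
  have hx0 : 0 ≤ x := div_nonneg (by nlinarith) (by positivity)
  have hfac : ∀ o ∈ s, ‖(z - o) / (1 - starRingEnd ℂ o * z)‖ ≤ 1 + x := by
    intro o ho
    have hD1 : 1 - ρ * ‖z‖ ≤ ‖1 - starRingEnd ℂ o * z‖ := bla_den (hs1 o ho)
    have hD2 : 1 - ρ * R ≤ ‖1 - starRingEnd ℂ o * z‖ := by
      have : ρ * ‖z‖ ≤ ρ * R := by gcongr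
      linarith
    have hD0 : 0 < ‖1 - starRingEnd ℂ o * z‖ := hρR.trans_le hD2
    rw [norm_div, div_le_iff₀ hD0]
    have hid := bla_id o z
    have ho1 : ‖o‖ ≤ 1 := (hs1 o ho).trans hρ1.le
    have hxm : x * (1 - ρ * R) ^ 2 = R ^ 2 - 1 := by
      rw [hx]; exact div_mul_cancel₀ _ (by positivity)
    have hsqD : (1 - ρ * R) ^ 2 ≤ ‖1 - starRingEnd ℂ o * z‖ ^ 2 := by gcongr
    have hz2 : ‖z‖ ^ 2 - 1 ≤ R ^ 2 - 1 := by
      have : ‖z‖ ^ 2 ≤ R ^ 2 := by gcongr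
      linarith
    have ho2 : 0 ≤ 1 - ‖o‖ ^ 2 := by nlinarith [norm_nonneg o]
    have ho3 : 1 - ‖o‖ ^ 2 ≤ 1 := by nlinarith [norm_nonneg o]
    have hR0 : 0 ≤ R ^ 2 - 1 := by nlinarith
    have hb : (‖z‖ ^ 2 - 1) * (1 - ‖o‖ ^ 2) ≤ x * ‖1 - starRingEnd ℂ o * z‖ ^ 2 := by
      calc (‖z‖ ^ 2 - 1) * (1 - ‖o‖ ^ 2) ≤ (R ^ 2 - 1) * (1 - ‖o‖ ^ 2) :=
            mul_le_mul_of_nonneg_right hz2 ho2
        _ ≤ (R ^ 2 - 1) * 1 := mul_le_mul_of_nonneg_left ho3 hR0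
        _ = x * (1 - ρ * R) ^ 2 := by rw [hxm, mul_one]
        _ ≤ _ := mul_le_mul_of_nonneg_left hsqD hx0
    have hsq : ‖z - o‖ ^ 2 ≤ ((1 + x) * ‖1 - starRingEnd ℂ o * z‖) ^ 2 := by
      have h3 : 0 ≤ (x + x ^ 2) * ‖1 - starRingEnd ℂ o * z‖ ^ 2 := by positivity
      nlinarith
    exact (sq_le_sq₀ (norm_nonneg _) (by positivity)).1 hsq
  calc _ ≤ (1 + x) ^ Multiset.card s := blaa_prod_le hfac
    _ ≤ (1 + x) ^ n := by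
        rw [hs]
        exact pow_le_pow_right₀ (by linarith) hB.le
    _ ≤ _ := hR.le

theorem bl_lower (n : ℕ) {ρ : ℝ} (hρ : 0 < ρ) (hρ1 : ρ < 1) : ∃ C : ℝ, 0 < C ∧
    ∀ B : ℝ[X], Hyp n ρ B → ∀ z : ℂ, ra ρ ≤ ‖z‖ → ‖z‖ < 1 / ρ →
      Real.exp (-(C * max 0 (1 - ‖z‖))) ≤ ‖bl B z‖ := by
  have h1 : 0 < 1 - ρ := by linarith
  refine ⟨(n + 1) * (16 / (1 - ρ) ^ 2), by positivity, fun B hB z hz1 hz2 => ?_⟩
  obtain ⟨s, hs, hs1, -, hs2⟩ := bla_prod hB.roots hB.monic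
  rw [hs2]
  set m : ℝ := max 0 (1 - ‖z‖) with hm
  have hm0 : 0 ≤ m := le_max_left _ _
  set C₁ : ℝ := 16 / (1 - ρ) ^ 2 with hC₁
  have hC0 : 0 ≤ C₁ := by positivity
  have hfac : ∀ o ∈ s, Real.exp (-(C₁ * m)) ≤ ‖(z - o) / (1 - starRingEnd ℂ o * z)‖ := by
    intro o ho
    have hD1 : 1 - ρ * ‖z‖ ≤ ‖1 - starRingEnd ℂ o * z‖ := bla_den (hs1 o ho)
    have hD0 : 0 < ‖1 - starRingEnd ℂ o * z‖ := by
      rw [lt_div_iff₀ hρ] at hz2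
      linarith
    have hN : (1 - ρ) / 4 ≤ ‖z - o‖ := by
      have h3 := norm_sub_norm_le z o
      have h4 := hs1 o ho
      unfold ra at hz1
      linarith
    have ho1 : ‖o‖ ≤ 1 := (hs1 o ho).trans hρ1.le
    have ho2 : 0 ≤ 1 - ‖o‖ ^ 2 := by nlinarith [norm_nonneg o]
    have ho3 : 1 - ‖o‖ ^ 2 ≤ 1 := by nlinarith [norm_nonneg o]
    have hid := bla_id o z
    have hkey : ‖1 - starRingEnd ℂ o * z‖ ≤ ‖z - o‖ * (1 + C₁ * m) := by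
      have hmul : (1 - ‖z‖ ^ 2) * (1 - ‖o‖ ^ 2) ≤ 2 * m := by
        rcases le_or_gt 1 ‖z‖ with hz | hz
        · have : (1 - ‖z‖ ^ 2) * (1 - ‖o‖ ^ 2) ≤ 0 :=
            mul_nonpos_of_nonpos_of_nonneg (by nlinarith) ho2
          linarith
        · have hm1 : m = 1 - ‖z‖ := max_eq_right (by linarith)
          have h5 : 0 ≤ 1 - ‖z‖ ^ 2 := by nlinarith [norm_nonneg z]
          calc (1 - ‖z‖ ^ 2) * (1 - ‖o‖ ^ 2) ≤ (1 - ‖z‖ ^ 2) * 1 := mul_le_mul_of_nonneg_left ho3 h5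
            _ ≤ 2 * m := by rw [hm1]; nlinarith [norm_nonneg z]
      have hN2 : 1 ≤ C₁ * ‖z - o‖ ^ 2 := by
        have h6 : ((1 - ρ) / 4) ^ 2 ≤ ‖z - o‖ ^ 2 := by gcongr
        calc (1 : ℝ) = C₁ * ((1 - ρ) / 4) ^ 2 := by rw [hC₁]; field_simp; norm_num
          _ ≤ _ := mul_le_mul_of_nonneg_left h6 hC0
      have hsq : ‖1 - starRingEnd ℂ o * z‖ ^ 2 ≤ (‖z - o‖ * (1 + C₁ * m)) ^ 2 := by
        have e1 : ‖1 - starRingEnd ℂ o * z‖ ^ 2 = ‖z - o‖ ^ 2 + (1 - ‖z‖ ^ 2) * (1 - ‖o‖ ^ 2) := by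
          rw [hid]; ring
        have e2 : (‖z - o‖ * (1 + C₁ * m)) ^ 2 =
            ‖z - o‖ ^ 2 + 2 * m * (C₁ * ‖z - o‖ ^ 2) + (‖z - o‖ * (C₁ * m)) ^ 2 := by ring
        rw [e1, e2]
        have h7 : 2 * m * 1 ≤ 2 * m * (C₁ * ‖z - o‖ ^ 2) := mul_le_mul_of_nonneg_left hN2 (by positivity)
        have h8 := sq_nonneg (‖z - o‖ * (C₁ * m))
        linarith
      exact (sq_le_sq₀ (norm_nonneg _) (by positivity)).1 hsq
    rw [norm_div, le_div_iff₀ hD0]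
    have hexp : 1 + C₁ * m ≤ Real.exp (C₁ * m) := by
      have := Real.add_one_le_exp (C₁ * m)
      linarith
    calc Real.exp (-(C₁ * m)) * ‖1 - starRingEnd ℂ o * z‖
        ≤ Real.exp (-(C₁ * m)) * (‖z - o‖ * Real.exp (C₁ * m)) := by
          refine mul_le_mul_of_nonneg_left (hkey.trans ?_) (Real.exp_pos _).le
          exact mul_le_mul_of_nonneg_left hexp (norm_nonneg _)
      _ = ‖z - o‖ := by
          rw [mul_left_comm, ← Real.exp_add, neg_add_cancel, Real.exp_zero, mul_one]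
  calc Real.exp (-((n + 1) * C₁ * m)) ≤ Real.exp (-(C₁ * m)) ^ Multiset.card s := by
        rw [← Real.exp_nat_mul]
        refine Real.exp_le_exp.2 ?_
        have h9 : (Multiset.card s : ℝ) ≤ n + 1 := by
          rw [hs]
          have : (B.natDegree : ℝ) ≤ n := by exact_mod_cast hB.le
          linarith
        have h10 : 0 ≤ C₁ * m := by positivity
        nlinarith
    _ ≤ _ := blaa_le_prod (Real.exp_pos _).le hfac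

theorem bl_small (n : ℕ) {ρ : ℝ} (hρ : 0 < ρ) (hρ1 : ρ < 1) : ∃ C : ℝ, 0 < C ∧
    ∀ B : ℝ[X], Hyp n ρ B → ∀ a b : ℂ, ‖a‖ ≤ ρ → aeval b B = 0 → ‖bl B a‖ ≤ C * ‖a - b‖ := by
  have h1 : 0 < 1 - ρ := by linarith
  refine ⟨1 / (1 - ρ), by positivity, fun B hB a b ha hb => ?_⟩
  obtain ⟨s, hs, hs1, hs3, hs2⟩ := bla_prod hB.roots hB.monic
  have hbs := hs3 b hb
  rw [hs2, ← Multiset.cons_erase hbs, Multiset.map_cons, Multiset.prod_cons, norm_mul]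
  have hD : ∀ o ∈ s, 1 - ρ ≤ ‖1 - starRingEnd ℂ o * a‖ := by
    intro o ho
    have h3 : 1 - ρ * ‖a‖ ≤ ‖1 - starRingEnd ℂ o * a‖ := bla_den (hs1 o ho)
    have h4 : ρ * ‖a‖ ≤ ρ * 1 := mul_le_mul_of_nonneg_left (by linarith) hρ.le
    linarith
  have hone : ∀ o ∈ s.erase b, ‖(a - o) / (1 - starRingEnd ℂ o * a)‖ ≤ 1 := by
    intro o ho
    have hos := Multiset.mem_of_mem_erase ho
    have hD0 : 0 < ‖1 - starRingEnd ℂ o * a‖ := h1.trans_le (hD o hos)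
    rw [norm_div, div_le_one hD0]
    refine (sq_le_sq₀ (norm_nonneg _) (norm_nonneg _)).1 ?_
    rw [bla_id]
    have ho1 : ‖o‖ ≤ 1 := (hs1 o hos).trans hρ1.le
    have ha1 : ‖a‖ ≤ 1 := ha.trans hρ1.le
    have ho2 : 0 ≤ 1 - ‖o‖ ^ 2 := by nlinarith [norm_nonneg o]
    have ha2 : ‖a‖ ^ 2 - 1 ≤ 0 := by nlinarith [norm_nonneg a]
    have := mul_nonpos_of_nonpos_of_nonneg ha2 ho2
    linarith
  have h5 : ‖((s.erase b).map fun o => (a - o) / (1 - starRingEnd ℂ o * a)).prod‖ ≤ 1 := by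
    have := blaa_prod_le hone
    rwa [one_pow] at this
  have h6 : ‖(a - b) / (1 - starRingEnd ℂ b * a)‖ ≤ 1 / (1 - ρ) * ‖a - b‖ := by
    rw [norm_div, one_div, inv_mul_eq_div]
    exact div_le_div_of_nonneg_left (norm_nonneg _) h1 (hD b hbs)
  calc _ ≤ (1 / (1 - ρ) * ‖a - b‖) * 1 := mul_le_mul h6 h5 (norm_nonneg _) (by positivity)
    _ = _ := mul_one _

end Pool.Agent.CZ
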