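import Pool.Agent.Lib.MP_2b3e36_an.CZ.Defs

/-!
BlaA. Factorisation of `A` and `A.reverse` over `ℂ`; lower and upper bounds.

Proof. Over `ℂ` the monic `A` is `prod (X - o)` over the multiset `s` of the roots of `A.map (algebraMap ℝ ℂ)`
(`IsAlgClosed.splits`, `Polynomial.Splits.eq_prod_roots_of_monic` or the like; `card s = natDegree`), and `A.reverse` maps to
`prod (1 - C o * X)` (`Polynomial.reverse_mul_of_domain`, induction over the multiset; `reverse (X - C o) = 1 - C o * X`;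
`Polynomial.reverse_map`). The roots are closed under conjugation (real polynomial), so `prod (1 - o z) = prod (1 - conj o z)`:
`fac` gives everything at once. `rev_ne`: `‖o z‖ ≤ ρ ‖z‖ < 1`. `poly_lower`, `poly_upper`: factor by factor.
-/

set_option autoImplicit false

open Complex Set Filter Topology Metric Polynomial

namespace Pool.Agent.CZ

theorem blaa_reverse_linear (o : ℂ) : (X - C o : ℂ[X]).reverse = 1 - C o * X := by
  have h : (X - C o : ℂ[X]).natDegree = 1 := natDegree_X_sub_C o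
  rw [reverse, h, reflect_sub]
  have h1 : reflect 1 (X : ℂ[X]) = 1 := by
    simp
  have h2 : reflect 1 (C o : ℂ[X]) = C o * X := by
    simp
  rw [h1, h2]

theorem blaa_reverse_prod (s : Multiset ℂ) :
    (s.map fun o => (X - C o : ℂ[X])).prod.reverse = (s.map fun o => (1 - C o * X : ℂ[X])).prod := by
  induction s using Multiset.induction_on with
  | empty =>
    simp only [Multiset.map_zero, Multiset.prod_zero]
    rw [reverse, natDegree_one]
    simp
  | cons a s ih =>
    rw [Multiset.map_cons, Multiset.prod_cons, reverse_mul_of_domain, ih, blaa_reverse_linear,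
      Multiset.map_cons, Multiset.prod_cons]

theorem blaa_reverse_map (A : ℝ[X]) :
    (A.map (algebraMap ℝ ℂ)).reverse = A.reverse.map (algebraMap ℝ ℂ) := by
  rw [reverse, reverse, natDegree_map, reflect_map]

theorem fac {A : ℝ[X]} {ρ : ℝ} (hA : RootsIn A ρ) (hAm : A.Monic) : ∃ s : Multiset ℂ,
    Multiset.card s = A.natDegree ∧ (∀ o ∈ s, ‖o‖ ≤ ρ ∧ aeval o A = 0) ∧
    (∀ b : ℂ, aeval b A = 0 → b ∈ s) ∧
    (∀ z : ℂ, aeval z A = (s.map fun o => z - o).prod) ∧
    (∀ z : ℂ, aeval z A.reverse = (s.map fun o => 1 - o * z).prod) ∧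
    ∀ z : ℂ, aeval z A.reverse = (s.map fun o => 1 - starRingEnd ℂ o * z).prod := by
  set P : ℂ[X] := A.map (algebraMap ℝ ℂ) with hP
  have hPm : P.Monic := hAm.map _
  have hP0 : P ≠ 0 := hPm.ne_zero
  have hsp : P.Splits := IsAlgClosed.splits P
  have hev : ∀ z : ℂ, aeval z A = P.eval z := fun z => by
    rw [hP, eval_map_algebraMap]
  have hev' : ∀ z : ℂ, aeval z A.reverse = P.reverse.eval z := fun z => by
    rw [hP, blaa_reverse_map, eval_map_algebraMap]
  have hprod : P = (P.roots.map fun o => (X - C o : ℂ[X])).prod := hsp.eq_prod_roots_of_monic hPm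
  have hroot : ∀ o : ℂ, o ∈ P.roots ↔ aeval o A = 0 := by
    intro o
    rw [mem_roots hP0, IsRoot.def, hev]
  have h5 : ∀ z : ℂ, aeval z A.reverse = (P.roots.map fun o => 1 - o * z).prod := by
    intro z
    rw [hev', hprod, blaa_reverse_prod, ← hprod, eval_multiset_prod, Multiset.map_map]
    congr 1
    refine Multiset.map_congr rfl fun o _ => ?_
    simp
  refine ⟨P.roots, ?_, fun o ho => ⟨hA o ((hroot o).1 ho), (hroot o).1 ho⟩,
    fun b hb => (hroot b).2 hb, ?_, h5, ?_⟩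
  · rw [← hsp.natDegree_eq_card_roots, hP, natDegree_map]
  · intro z
    rw [hev, hsp.eval_eq_prod_roots_of_monic hPm]
  · intro z
    have h := h5 (starRingEnd ℂ z)
    rw [aeval_conj] at h
    have h' := congrArg (starRingEnd ℂ) h
    rw [Complex.conj_conj] at h'
    rw [h', map_multiset_prod, Multiset.map_map]
    congr 1
    refine Multiset.map_congr rfl fun o _ => ?_
    simp

theorem blaa_prod_ne {s : Multiset ℂ} {f : ℂ → ℂ} (h : ∀ o ∈ s, f o ≠ 0) : (s.map f).prod ≠ 0 := by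
  rw [Ne, Multiset.prod_eq_zero_iff]
  intro h0
  obtain ⟨o, ho, h1⟩ := Multiset.mem_map.1 h0
  exact h o ho h1

theorem rev_ne {B : ℝ[X]} {ρ : ℝ} (hρ : 0 < ρ) (hB : RootsIn B ρ) (hBm : B.Monic) {z : ℂ}
    (hz : ‖z‖ < 1 / ρ) : aeval z B.reverse ≠ 0 := by
  obtain ⟨s, -, h1, -, -, h2, -⟩ := fac hB hBm
  rw [h2]
  refine blaa_prod_ne fun o ho h0 => ?_
  have h3 : ‖o * z‖ < 1 := by
    rw [norm_mul]
    calc ‖o‖ * ‖z‖ ≤ ρ * ‖z‖ := mul_le_mul_of_nonneg_right (h1 o ho).1 (norm_nonneg _)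
      _ < ρ * (1 / ρ) := by gcongr
      _ = 1 := by field_simp
  have h4 : o * z = 1 := (sub_eq_zero.1 h0).symm
  rw [h4, norm_one] at h3
  exact lt_irrefl _ h3

theorem blaa_norm_prod (s : Multiset ℂ) (f : ℂ → ℂ) : ‖(s.map f).prod‖ = (s.map fun o => ‖f o‖).prod := by
  induction s using Multiset.induction_on with
  | empty => simp
  | cons a s ih => rw [Multiset.map_cons, Multiset.prod_cons, norm_mul, ih, Multiset.map_cons, Multiset.prod_cons]

theorem blaa_prod_le {s : Multiset ℂ} {f : ℂ → ℂ} {c : ℝ} (h : ∀ o ∈ s, ‖f o‖ ≤ c) :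
    ‖(s.map f).prod‖ ≤ c ^ Multiset.card s := by
  induction s using Multiset.induction_on with
  | empty => simp
  | cons a s ih =>
    rw [Multiset.map_cons, Multiset.prod_cons, norm_mul, Multiset.card_cons, pow_succ, mul_comm (c ^ _)]
    have h1 := h a (Multiset.mem_cons_self a s)
    exact mul_le_mul h1 (ih fun o ho => h o (Multiset.mem_cons_of_mem ho)) (norm_nonneg _)
      ((norm_nonneg _).trans h1)

theorem blaa_le_prod {s : Multiset ℂ} {f : ℂ → ℂ} {c : ℝ} (hc : 0 ≤ c) (h : ∀ o ∈ s, c ≤ ‖f o‖) :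
    c ^ Multiset.card s ≤ ‖(s.map f).prod‖ := by
  induction s using Multiset.induction_on with
  | empty => simp
  | cons a s ih =>
    rw [Multiset.map_cons, Multiset.prod_cons, norm_mul, Multiset.card_cons, pow_succ, mul_comm (c ^ _)]
    exact mul_le_mul (h a (Multiset.mem_cons_self a s)) (ih fun o ho => h o (Multiset.mem_cons_of_mem ho))
      (pow_nonneg hc _) (norm_nonneg _)

/-- lower bound of a monic polynomial outside its roots -/
theorem poly_lower {A : ℝ[X]} {n : ℕ} {ρ : ℝ} (hA : Hyp n ρ A) (hρ : 0 < ρ) {z : ℂ} (hz : ρ < ‖z‖)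
    (hz1 : ‖z‖ ≤ 1) : (‖z‖ - ρ) ^ n ≤ ‖aeval z A‖ := by
  obtain ⟨s, hs, h1, -, h2, -, -⟩ := fac hA.roots hA.monic
  rw [h2]
  calc (‖z‖ - ρ) ^ n ≤ (‖z‖ - ρ) ^ Multiset.card s := by
        rw [hs]
        exact pow_le_pow_of_le_one (by linarith) (by linarith) hA.le
    _ ≤ _ := blaa_le_prod (by linarith) fun o ho => by
        have h3 := norm_sub_norm_le z o
        linarith [(h1 o ho).1]

/-- upper bound of a monic polynomial -/
theorem poly_upper {A : ℝ[X]} {n : ℕ} {ρ : ℝ} (hA : Hyp n ρ A) (hρ1 : ρ < 1) {z : ℂ}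
    (hz1 : ‖z‖ ≤ 2) : ‖aeval z A‖ ≤ 3 ^ n ∧ ‖aeval z A.reverse‖ ≤ 3 ^ n := by
  obtain ⟨s, hs, h1, -, h2, h3, -⟩ := fac hA.roots hA.monic
  have hpow : (3 : ℝ) ^ Multiset.card s ≤ 3 ^ n := by
    rw [hs]
    exact pow_le_pow_right₀ (by norm_num) hA.le
  constructor
  · rw [h2]
    refine (blaa_prod_le (c := 3) fun o ho => ?_).trans hpow
    have h4 := norm_sub_le z o
    linarith [(h1 o ho).1]
  · rw [h3]
    refine (blaa_prod_le (c := 3) fun o ho => ?_).trans hpow
    have h4 := norm_sub_le (1 : ℂ) (o * z)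
    rw [norm_one, norm_mul] at h4
    have h5 : ‖o‖ * ‖z‖ ≤ 1 * 2 :=
      mul_le_mul ((h1 o ho).1.trans hρ1.le) hz1 (norm_nonneg _) zero_le_one
    linarith

end Pool.Agent.CZ
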