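import Pool.Agent.Lib.MP_2b3e36_an.Ex.Defs

/-!
# Zeros and ones close together: definitions

`A`, `B` are the monic real polynomials of the prescribed zeros and ones.
-/

set_option autoImplicit false

open Complex Polynomial Metric

namespace Pool.Agent.CZ

noncomputable section

/-- All complex roots of `A` have modulus at most `ρ`. -/
def RootsIn (A : ℝ[X]) (ρ : ℝ) : Prop := ∀ z : ℂ, aeval z A = 0 → ‖z‖ ≤ ρ

/-- There is a real rational function `q = P / Q` without poles in the closed unit disc whose zeros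
there are the roots of `A` (with multiplicity: `P = A P₁` with `P₁` zero free) and whose ones there are
the roots of `B` (with multiplicity: `q - 1 = (P - Q) / Q`, `P - Q = B P₂` with `P₂` zero free). -/
def Solvable (A B : ℝ[X]) : Prop :=
  ∃ P Q P₁ P₂ : ℝ[X], P = A * P₁ ∧ P - Q = B * P₂ ∧
    ∀ z : ℂ, ‖z‖ ≤ 1 → aeval z Q ≠ 0 ∧ aeval z P₁ ≠ 0 ∧ aeval z P₂ ≠ 0

/-- The Blaschke product `prod (z - o) / (1 - o z)` over the roots `o` of the monic polynomial `B`. -/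
def bl (B : ℝ[X]) (z : ℂ) : ℂ := aeval z B / aeval z B.reverse

/-- The Nevanlinna-Pick problem: on a disc of radius `R > 1` there is a zero free holomorphic function
`N`, real on the real axis, with `|N| < c` and `N = - bl B` on the roots of `A` with multiplicity. -/
def NP (A B : ℝ[X]) (c : ℝ) : Prop :=
  ∃ R : ℝ, 1 < R ∧ ∃ N h : ℂ → ℂ, DifferentiableOn ℂ N (ball 0 R) ∧ DifferentiableOn ℂ h (ball 0 R) ∧
    (∀ z ∈ ball (0 : ℂ) R, N z ≠ 0 ∧ ‖N z‖ < c ∧ N (starRingEnd ℂ z) = starRingEnd ℂ (N z)) ∧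
    ∀ z ∈ ball (0 : ℂ) R, N z * aeval z B.reverse + aeval z B = aeval z A * h z

/-- the open annulus -/
def Ann (a b : ℝ) : Set ℂ := {z | a < ‖z‖ ∧ ‖z‖ < b}

/-- real on the real axis -/
def Sym (k : ℂ → ℂ) (S : Set ℂ) : Prop := ∀ z ∈ S, k (starRingEnd ℂ z) = starRingEnd ℂ (k z)

/-- Cauchy integral over the circle of radius `r` -/
def cau (r : ℝ) (k : ℂ → ℂ) (z : ℂ) : ℂ := (2 * Real.pi * I)⁻¹ * ∮ w in C(0, r), k w / (w - z)

/-- the coefficients of the remainder of the Cauchy integral modulo `A` -/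
def rc (A : ℝ[X]) (r : ℝ) (k : ℂ → ℂ) (m : ℕ) : ℂ :=
  (2 * Real.pi * I)⁻¹ * ∮ w in C(0, r),
    k w * ((∑ j ∈ Finset.Ico (m + 1) (A.natDegree + 1), (A.coeff j : ℂ) * w ^ (j - 1 - m)) / aeval w A)

/-- the remainder of the Cauchy integral modulo `A` -/
def rem (A : ℝ[X]) (r : ℝ) (k : ℂ → ℂ) (z : ℂ) : ℂ := ∑ m ∈ Finset.range A.natDegree, rc A r k m * z ^ m

/-- the radii -/
def ra (ρ : ℝ) : ℝ := ρ + (1 - ρ) / 4
def rb (ρ : ℝ) : ℝ := ρ + 2 * (1 - ρ) / 4
def rd (ρ : ℝ) : ℝ := ρ + 3 * (1 - ρ) / 4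

/-- the standing hypotheses on `A`, `B` -/
structure Hyp (n : ℕ) (ρ : ℝ) (A : ℝ[X]) : Prop where
  monic : A.Monic
  pos : 1 ≤ A.natDegree
  le : A.natDegree ≤ n
  roots : RootsIn A ρ

/-- some root of `A` and some root of `B` are at distance less than `κ` -/
def Close (A B : ℝ[X]) (κ : ℝ) : Prop := ∃ a b : ℂ, aeval a A = 0 ∧ aeval b B = 0 ∧ ‖a - b‖ < κ

end

end Pool.Agent.CZ
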