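import Pool.Agent.Lib.MP_2b3e36_an.CZ.Defs

/-!
Deg. Equal numbers of zeros and ones.

Proof. `(2πi)⁻¹ ∮ A'/A = deg A` over `‖w‖ = r`: `A'/A = sum over the complex roots 1/(w - z_i)`
(`Polynomial.aeval_root_derivative...`, e.g. `Polynomial.eval_derivative_div_eval_of_ne_zero_of_splits` or induction on the product of
linear factors), each term has the integral `2πi` (`circleIntegral.integral_sub_inv_of_mem_ball`). The same for
`B`. `∮ u'/u = 0` by Cauchy's theorem (`u'/u` holomorphic on `ball 0 R`). The function `g = A u / B` satisfies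
`‖g w - 1‖ < 1` on the circle, so also on a neighbourhood of it; `log ∘ g` is a primitive of `g'/g = A'/A + u'/u - B'/B`
near the circle: `circleIntegral.integral_eq_zero_of_hasDerivWithinAt'`. So `deg A = deg B`.
-/

set_option autoImplicit false

open Complex Set Filter Topology Metric Polynomial

namespace Pool.Agent.CZ

/-- the integral of a sum of simple poles inside the circle -/
theorem deg_sum (s : Multiset ℂ) {r : ℝ} (h : ∀ z ∈ s, ‖z‖ < r) :
    CircleIntegrable (fun w : ℂ => (s.map fun z => 1 / (w - z)).sum) 0 r ∧
      (∮ w in C(0, r), (s.map fun z => 1 / (w - z)).sum) = (s.card : ℂ) * (2 * Real.pi * I) := by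
  induction s using Multiset.induction_on with
  | empty =>
      refine ⟨?_, by simp [circleIntegral]⟩
      exact (continuousOn_const : ContinuousOn (fun _ : ℂ => (0 : ℂ)) (sphere 0 |r|)).circleIntegrable'
  | cons a t ih =>
      obtain ⟨h1, h2⟩ := ih fun z hz => h z (Multiset.mem_cons_of_mem hz)
      have ha : ‖a‖ < r := h a (Multiset.mem_cons_self a t)
      have hr : 0 < r := (norm_nonneg a).trans_lt ha
      have hc : CircleIntegrable (fun w : ℂ => 1 / (w - a)) 0 r := by
        refine ContinuousOn.circleIntegrable' ?_
        refine continuousOn_const.div (continuousOn_id.sub continuousOn_const) ?_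
        intro w hw h0
        have : w = a := by simpa [sub_eq_zero] using h0
        rw [this, mem_sphere_zero_iff_norm, abs_of_pos hr] at hw
        linarith
      refine ⟨?_, ?_⟩
      · have := hc.add h1
        convert this using 1
        funext w
        simp
      · have e : (fun w : ℂ => (((a ::ₘ t).map fun z => 1 / (w - z)).sum)) =
            fun w => 1 / (w - a) + (t.map fun z => 1 / (w - z)).sum := by
          funext w; simp
        rw [e, circleIntegral.integral_add hc h1, h2]
        have e2 : (∮ w in C(0, r), 1 / (w - a)) = 2 * Real.pi * I := by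
          rw [← circleIntegral.integral_sub_inv_of_mem_ball (c := 0) (R := r) (w := a) (by simpa using ha)]
          simp only [one_div]
        rw [e2, Multiset.card_cons]
        push_cast
        ring

/-- the logarithmic derivative of `A` -/
theorem deg_int {A : ℝ[X]} {ρ r : ℝ} (hA : RootsIn A ρ) (hAm : A.Monic) (hρ : 0 < ρ) (hr : ρ < r) :
    CircleIntegrable (fun w : ℂ => aeval w (derivative A) / aeval w A) 0 r ∧
      (∮ w in C(0, r), aeval w (derivative A) / aeval w A) = (A.natDegree : ℂ) * (2 * Real.pi * I) := by
  set a : ℂ[X] := A.map (algebraMap ℝ ℂ) with ha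
  have hr0 : 0 < r := hρ.trans hr
  have hne : a ≠ 0 := (Polynomial.Monic.map _ hAm).ne_zero
  have hroots : ∀ z ∈ a.roots, ‖z‖ < r := by
    intro z hz
    have h1 : a.eval z = 0 := by simpa [hne] using hz
    have h2 : aeval z A = 0 := by rwa [ha, eval_map_algebraMap] at h1
    exact (hA z h2).trans_lt hr
  obtain ⟨h1, h2⟩ := deg_sum a.roots hroots
  have hcard : a.roots.card = A.natDegree := by
    rw [IsAlgClosed.card_roots_eq_natDegree, ha, natDegree_map]
  have key : ∀ w ∈ sphere (0 : ℂ) |r|,
      aeval w (derivative A) / aeval w A = (a.roots.map fun z => 1 / (w - z)).sum := by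
    intro w hw
    rw [abs_of_pos hr0, mem_sphere_zero_iff_norm] at hw
    have h0 : a.eval w ≠ 0 := by
      intro h0
      have h2 : aeval w A = 0 := by rwa [ha, eval_map_algebraMap] at h0
      have := hA w h2
      linarith
    rw [← (IsAlgClosed.splits a).eval_derivative_div_eval_of_ne_zero h0, ha, derivative_map,
      eval_map_algebraMap, eval_map_algebraMap]
  refine ⟨?_, ?_⟩
  · refine (h1.congr ?_)
    intro t _
    exact (key _ (circleMap_mem_sphere' _ _ _)).symm
  · rw [← hcard, ← h2]
    refine circleIntegral.integral_congr hr0.le ?_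
    intro w hw
    exact key w (by rwa [abs_of_pos hr0])

theorem deg_eq {A B : ℝ[X]} {ρ r R : ℝ} (hA : RootsIn A ρ) (hB : RootsIn B ρ) (hAm : A.Monic)
    (hBm : B.Monic) (hρ : 0 < ρ) (hr : ρ < r) (hR : r < R) {u : ℂ → ℂ}
    (hu : DifferentiableOn ℂ u (ball 0 R)) (hu0 : ∀ z ∈ ball (0 : ℂ) R, u z ≠ 0)
    (h : ∀ w : ℂ, ‖w‖ = r → ‖aeval w A * u w / aeval w B - 1‖ < 1) : A.natDegree = B.natDegree := by
  have hr0 : 0 < r := hρ.trans hr
  obtain ⟨iA, eA⟩ := deg_int hA hAm hρ hr
  obtain ⟨iB, eB⟩ := deg_int hB hBm hρ hr

  have hdu : DifferentiableOn ℂ (fun w => deriv u w / u w) (ball 0 R) :=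
    (hu.deriv isOpen_ball).div hu hu0
  have hsub : closedBall (0 : ℂ) r ⊆ ball 0 R := closedBall_subset_ball hR
  have iu : CircleIntegrable (fun w => deriv u w / u w) 0 r := by
    refine ContinuousOn.circleIntegrable hr0.le ?_
    exact hdu.continuousOn.mono (sphere_subset_closedBall.trans hsub)
  have eu : (∮ w in C(0, r), deriv u w / u w) = 0 := by
    refine circleIntegral_eq_zero_of_differentiable_on_off_countable hr0.le countable_empty
      (hdu.continuousOn.mono hsub) ?_
    intro z hz
    exact hdu.differentiableAt (isOpen_ball.mem_nhds (hsub (ball_subset_closedBall hz.1)))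
  have e0 : (∮ w in C(0, r), (aeval w (derivative A) / aeval w A + deriv u w / u w -
      aeval w (derivative B) / aeval w B)) = 0 := by
    refine circleIntegral.integral_eq_zero_of_hasDerivWithinAt
      (f := fun w => log (aeval w A * u w / aeval w B)) hr0.le ?_
    intro w hw
    have hw' : ‖w‖ = r := by simpa using hw
    have hwb : w ∈ ball (0 : ℂ) R := by simpa [hw'] using hR
    have hA0 : aeval w A ≠ 0 := fun h0 => by
      have := hA w h0
      linarith
    have hB0 : aeval w B ≠ 0 := fun h0 => by
      have := hB w h0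
      linarith
    have hu0' := hu0 w hwb
    have dA : HasDerivAt (fun w : ℂ => aeval w A) (aeval w (derivative A)) w :=
      A.hasDerivAt_aeval w
    have dB : HasDerivAt (fun w : ℂ => aeval w B) (aeval w (derivative B)) w :=
      B.hasDerivAt_aeval w
    have du : HasDerivAt u (deriv u w) w :=
      (hu.differentiableAt (isOpen_ball.mem_nhds hwb)).hasDerivAt
    have dg := ((dA.mul du).div dB hB0)
    have hs : aeval w A * u w / aeval w B ∈ slitPlane := by
      have h1 := h w hw'
      rw [mem_slitPlane_iff]
      left
      have h2 := (abs_re_le_norm (aeval w A * u w / aeval w B - 1)).trans_lt h1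
      rw [sub_re, one_re, abs_lt] at h2
      linarith [h2.1]
    have dl := dg.clog hs
    refine (dl.congr_deriv ?_).hasDerivWithinAt
    simp only [Pi.mul_apply, Pi.div_apply]
    field_simp
  have i1 : CircleIntegrable (fun w => aeval w (derivative A) / aeval w A + deriv u w / u w) 0 r :=
    iA.add iu
  rw [circleIntegral.integral_sub i1 iB, circleIntegral.integral_add iA iu, eA, eB, eu, add_zero,
    sub_eq_zero] at e0
  have h2 : (2 * Real.pi * I : ℂ) ≠ 0 := two_pi_I_ne_zero
  have := mul_right_cancel₀ h2 e0
  exact_mod_cast this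

end Pool.Agent.CZ
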