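import Pool.Agent.Lib.MP_2b3e36_an.CZ.Kf

/-!
KfB. Bounds for `K` and `J`.

Proof. `K_lip`: `K` is holomorphic on the ball of radius `1`, so its derivative is bounded on the closed ball of
radius `1/2` (compact, convex: `Convex.norm_image_sub_le_of_norm_deriv_le`).
`J_inv_far`: the closed ball of radius `exp (-η) < 1` is compact and `t ↦ ‖(J t)⁻¹‖` is continuous and
positive there (`J_diff`, `J_ne_zero`), `t ↦ ‖(J t)⁻¹ - 1‖` continuous.
-/

set_option autoImplicit false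

open Complex Set Filter Topology Metric

namespace Pool.Agent.CZ

open Pool.Agent.Choc

theorem K_lip : ∃ C : ℝ, 0 < C ∧ ∀ t t' : ℂ, ‖t‖ ≤ 1 / 2 → ‖t'‖ ≤ 1 / 2 →
    ‖K t - K t'‖ ≤ C * ‖t - t'‖ := by
  have h1 : DifferentiableOn ℂ (deriv K) (ball 0 1) := K_diff.deriv isOpen_ball
  have hs : closedBall (0 : ℂ) (1 / 2) ⊆ ball 0 1 := closedBall_subset_ball (by norm_num)
  obtain ⟨C, hC⟩ := (isCompact_closedBall (0 : ℂ) (1 / 2)).exists_bound_of_continuousOn
    (h1.continuousOn.mono hs)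
  refine ⟨max C 1, lt_max_of_lt_right one_pos, fun t t' ht ht' => ?_⟩
  refine (convex_closedBall (0 : ℂ) (1 / 2)).norm_image_sub_le_of_norm_deriv_le (fun x hx => ?_)
    (fun x hx => (hC x hx).trans (le_max_left _ _)) (by simpa using ht') (by simpa using ht)
  exact K_diff.differentiableAt (isOpen_ball.mem_nhds (hs hx))

theorem J_inv_far {η : ℝ} (hη : 0 < η) : ∃ c C : ℝ, 0 < c ∧ 0 < C ∧ ∀ t : ℂ, ‖t‖ ≤ Real.exp (-η) →
    c ≤ ‖(J t)⁻¹‖ ∧ ‖(J t)⁻¹ - 1‖ ≤ C := by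
  have he : Real.exp (-η) < 1 := by rw [Real.exp_lt_one_iff]; linarith
  have hs : closedBall (0 : ℂ) (Real.exp (-η)) ⊆ ball 0 1 := closedBall_subset_ball he
  have h1 : ContinuousOn (fun t => (J t)⁻¹) (closedBall (0 : ℂ) (Real.exp (-η))) :=
    (J_diff.continuousOn.mono hs).inv₀ fun t ht => J_ne_zero (by simpa using hs ht)
  have hne : (closedBall (0 : ℂ) (Real.exp (-η))).Nonempty := ⟨0, by simp [(Real.exp_pos _).le]⟩
  obtain ⟨t₀, ht₀, hmin⟩ := (isCompact_closedBall (0 : ℂ) (Real.exp (-η))).exists_isMinOn hne h1.norm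
  obtain ⟨C, hC⟩ := (isCompact_closedBall (0 : ℂ) (Real.exp (-η))).exists_bound_of_continuousOn
    (h1.sub continuousOn_const : ContinuousOn (fun t => (J t)⁻¹ - 1) _)
  refine ⟨‖(J t₀)⁻¹‖, max C 1, norm_pos_iff.2 (inv_ne_zero (J_ne_zero (by simpa using hs ht₀))),
    lt_max_of_lt_right one_pos, fun t ht => ⟨hmin (by simpa using ht), (hC t (by simpa using ht)).trans (le_max_left _ _)⟩⟩

end Pool.Agent.CZ
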