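import Pool.Agent.Lib.MP_2b3e36_an.CZ.RemA
import Pool.Agent.Lib.MP_2b3e36_an.CZ.RemB
import Pool.Agent.Lib.MP_2b3e36_an.CZ.KfB

/-!
Fix. The correcting polynomial by contraction.

Proof. `r = rb ρ`. For `c : Fin (deg A) → ℝ` let `p_c = sum c_i X^i`; on `‖z‖ ≤ 2`
`‖p_c z - p_c' z‖ ≤ n 2^n ‖c - c'‖` (sup norm). Let `S = {‖c‖ ≤ η/(n 2^n)}` (closed ball, complete), so `‖p_c z‖ ≤ η`
on `‖z‖ ≤ 2`. `Φ(c)_m = Re rc A r k_c m`, `k_c w = K (T w exp (- p_c w))`. With `‖T w‖ ≤ ε` on the circle: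
`‖T w exp(-p_c w)‖ ≤ ε e^η ≤ 1/2`, `‖k_c w‖ ≤ C_K ε e^η` (`K_lip`, `K 0 = 0`) and
`‖k_c w - k_c' w‖ ≤ C_K ε ‖exp(-p_c w) - exp(-p_c' w)‖ ≤ C_K ε e^η n 2^n ‖c - c'‖` (`‖exp x - exp y‖ ≤ e^η ‖x - y‖` for
`‖x‖, ‖y‖ ≤ η`). By `rc_le`, `rc_sub` `Φ` maps `S` to itself and is a contraction (constant 1/2) if `ε` is small
(depending on `n`, `ρ`, `η` only). Banach: `ContractingWith.exists_fixedPoint'` (closed ball complete) or the
iteration. `rc` is real (`rc_im`: `k_c` is symmetric by `K_conj`, `T` symmetric, `p_c` real), so the fixed point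
satisfies `rc A r k_c m = c_m`, and `p = sum c_m X^m : ℝ[X]` is as claimed (`rem` is the sum of `rc _ m z^m`).
Continuity of `k_c` on the circle: `K` continuous on the ball, values of norm ≤ 1/2.
-/

set_option autoImplicit false

open Complex Set Filter Topology Metric Polynomial

namespace Pool.Agent.CZ

private noncomputable def fix_p {d : ℕ} (c : Fin d → ℝ) : ℝ[X] := ∑ i : Fin d, Polynomial.C (c i) * X ^ (i : ℕ)

private theorem fix_aeval {d : ℕ} (c : Fin d → ℝ) (z : ℂ) :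
    aeval z (fix_p c) = ∑ i : Fin d, (c i : ℂ) * z ^ (i : ℕ) := by
  simp only [fix_p, map_sum, map_mul, aeval_C, map_pow, aeval_X]
  rfl

private theorem fix_pow_le {n i : ℕ} (hi : i ≤ n) {z : ℂ} (hz : ‖z‖ ≤ 2) : ‖z ^ i‖ ≤ 2 ^ n := by
  rw [norm_pow]
  calc ‖z‖ ^ i ≤ 2 ^ i := pow_le_pow_left₀ (norm_nonneg _) hz i
    _ ≤ 2 ^ n := pow_le_pow_right₀ (by norm_num) hi

private theorem fix_diff {n d : ℕ} (hd : d ≤ n) (c c' : Fin d → ℝ) {z : ℂ} (hz : ‖z‖ ≤ 2) :
    ‖aeval z (fix_p c) - aeval z (fix_p c')‖ ≤ (((n : ℝ) + 1) * 2 ^ n) * ‖c - c'‖ := by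
  rw [fix_aeval, fix_aeval, ← Finset.sum_sub_distrib]
  have h1 : ∀ i : Fin d, ‖(c i : ℂ) * z ^ (i : ℕ) - (c' i : ℂ) * z ^ (i : ℕ)‖ ≤ ‖c - c'‖ * 2 ^ n := by
    intro i
    rw [← sub_mul, norm_mul, ← ofReal_sub, norm_real]
    exact mul_le_mul (norm_le_pi_norm (c - c') i) (fix_pow_le (le_trans i.2.le hd) hz) (norm_nonneg _)
      (norm_nonneg _)
  calc ‖∑ i : Fin d, ((c i : ℂ) * z ^ (i : ℕ) - (c' i : ℂ) * z ^ (i : ℕ))‖
      ≤ ∑ _i : Fin d, ‖c - c'‖ * 2 ^ n := norm_sum_le_of_le _ fun i _ => h1 i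
    _ = (d : ℝ) * (‖c - c'‖ * 2 ^ n) := by
        rw [Finset.sum_const, Finset.card_univ, Fintype.card_fin, nsmul_eq_mul]
    _ ≤ ((n : ℝ) + 1) * (‖c - c'‖ * 2 ^ n) := by
        refine mul_le_mul_of_nonneg_right ?_ (by positivity)
        have : (d : ℝ) ≤ n := by exact_mod_cast hd
        linarith
    _ = (((n : ℝ) + 1) * 2 ^ n) * ‖c - c'‖ := by ring

private theorem fix_bound {n d : ℕ} (hd : d ≤ n) (c : Fin d → ℝ) {z : ℂ} (hz : ‖z‖ ≤ 2) :
    ‖aeval z (fix_p c)‖ ≤ (((n : ℝ) + 1) * 2 ^ n) * ‖c‖ := by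
  have h := fix_diff hd c 0 hz
  have h0 : aeval z (fix_p (0 : Fin d → ℝ)) = 0 := by
    rw [fix_aeval]
    simp
  rwa [h0, sub_zero, sub_zero] at h

private theorem fix_exp {η : ℝ} {x y : ℂ} (hx : ‖x‖ ≤ η) (hy : ‖y‖ ≤ η) :
    ‖exp (-x) - exp (-y)‖ ≤ Real.exp η * ‖x - y‖ := by
  have h := Convex.norm_image_sub_le_of_norm_deriv_le (𝕜 := ℂ) (f := Complex.exp) (C := Real.exp η)
    (s := closedBall (0 : ℂ) η) (x := -y) (y := -x) (fun z _ => Complex.differentiableAt_exp)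
    (fun z hz => by
      rw [Complex.deriv_exp]
      rw [mem_closedBall_zero_iff] at hz
      exact (Complex.norm_exp_le_exp_norm z).trans (Real.exp_le_exp.2 hz))
    (convex_closedBall _ _) (by rwa [mem_closedBall_zero_iff, norm_neg])
    (by rwa [mem_closedBall_zero_iff, norm_neg])
  have e : -x - -y = -(x - y) := by ring
  rwa [e, norm_neg] at h

theorem fix (n : ℕ) {ρ η : ℝ} (hρ : 0 < ρ) (hρ1 : ρ < 1) (hη : 0 < η) : ∃ ε : ℝ, 0 < ε ∧
    ε * Real.exp η ≤ 1 / 2 ∧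
    ∀ A : ℝ[X], Hyp n ρ A → ∀ T : ℂ → ℂ, ContinuousOn T (sphere 0 (rb ρ)) → Sym T (sphere 0 (rb ρ)) →
      (∀ w : ℂ, ‖w‖ = rb ρ → ‖T w‖ ≤ ε) →
      ∃ p : ℝ[X], (∀ z : ℂ, ‖z‖ ≤ 2 → ‖aeval z p‖ ≤ η) ∧
        ∀ z : ℂ, rem A (rb ρ) (fun w => K (T w * exp (-aeval w p))) z = aeval z p := by
  have hrb : ρ < rb ρ := by unfold rb; linarith
  have hrb1 : rb ρ < 1 := by unfold rb; linarith
  have hrb0 : 0 < rb ρ := hρ.trans hrb
  obtain ⟨CK, hCK, hK⟩ := K_lip
  obtain ⟨C, hC, hrc⟩ := rc_le n hρ hrb hrb1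
  set M : ℝ := ((n : ℝ) + 1) * 2 ^ n with hM
  have hM0 : 0 < M := by positivity
  set D : ℝ := 1 + C * CK * M with hD
  have hD0 : 0 < D := by positivity
  have hEe : 0 < Real.exp η := Real.exp_pos η
  have hm0 : 0 < min 1 η := lt_min one_pos hη
  refine ⟨min 1 η / (2 * Real.exp η * D), by positivity, ?_, ?_⟩
  · have e1 : min 1 η / (2 * Real.exp η * D) * Real.exp η = min 1 η / (2 * D) := by
      field_simp
    rw [e1, div_le_div_iff₀ (by positivity) (by norm_num)]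
    have h1 : min 1 η ≤ 1 := min_le_left _ _
    have h2 : 1 ≤ D := by
      rw [hD]
      have : 0 < C * CK * M := by positivity
      linarith
    nlinarith
  intro A hA T hTc hTs hTb
  set ε : ℝ := min 1 η / (2 * Real.exp η * D) with hε
  have hε0 : 0 < ε := by positivity
  have hεe : ε * Real.exp η = min 1 η / (2 * D) := by
    rw [hε]
    field_simp
  have hD1 : 1 ≤ D := by
    rw [hD]
    have : 0 < C * CK * M := by positivity
    linarith
  have hε1 : ε * Real.exp η ≤ 1 / 2 := by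
    rw [hεe, div_le_div_iff₀ (by positivity) (by norm_num)]
    have h1 : min 1 η ≤ 1 := min_le_left _ _
    nlinarith
  have hε2 : C * (CK * (ε * Real.exp η)) ≤ η / M := by
    rw [hεe, le_div_iff₀ hM0]
    have e2 : C * (CK * (min 1 η / (2 * D))) * M = (C * CK * M) * min 1 η / (2 * D) := by ring
    rw [e2, div_le_iff₀ (by positivity)]
    have h1 : min 1 η ≤ η := min_le_right _ _
    have h2 : 0 < C * CK * M := by positivity
    have h3 : C * CK * M ≤ D := by rw [hD]; linarith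
    calc (C * CK * M) * min 1 η ≤ D * η := mul_le_mul h3 h1 hm0.le hD0.le
      _ ≤ η * (2 * D) := by nlinarith
  have hε3 : C * (CK * (ε * Real.exp η * M)) ≤ 1 / 2 := by
    rw [hεe]
    have e2 : C * (CK * (min 1 η / (2 * D) * M)) = (C * CK * M) * min 1 η / (2 * D) := by ring
    rw [e2, div_le_iff₀ (by positivity)]
    have h1 : min 1 η ≤ 1 := min_le_left _ _
    have h2 : 0 < C * CK * M := by positivity
    have h3 : C * CK * M ≤ D := by rw [hD]; linarith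
    calc (C * CK * M) * min 1 η ≤ D * 1 := mul_le_mul h3 h1 hm0.le hD0.le
      _ = 1 / 2 * (2 * D) := by ring
  -- the map
  set d : ℕ := A.natDegree with hd
  have hdn : d ≤ n := hA.le
  set k : (Fin d → ℝ) → ℂ → ℂ := fun c w => K (T w * exp (-aeval w (fix_p c))) with hk
  have hr2 : ∀ w : ℂ, ‖w‖ = rb ρ → ‖w‖ ≤ 2 := fun w hw => by rw [hw]; linarith
  have hS : ∀ c ∈ closedBall (0 : Fin d → ℝ) (η / M), ∀ z : ℂ, ‖z‖ ≤ 2 → ‖aeval z (fix_p c)‖ ≤ η := by
    intro c hc z hz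
    rw [mem_closedBall_zero_iff, le_div_iff₀ hM0] at hc
    refine (fix_bound hdn c hz).trans ?_
    rw [← hM, mul_comm]
    exact hc
  have harg : ∀ c ∈ closedBall (0 : Fin d → ℝ) (η / M), ∀ w : ℂ, ‖w‖ = rb ρ →
      ‖T w * exp (-aeval w (fix_p c))‖ ≤ ε * Real.exp η := by
    intro c hc w hw
    rw [norm_mul]
    refine mul_le_mul (hTb w hw) ?_ (norm_nonneg _) hε0.le
    refine (Complex.norm_exp_le_exp_norm _).trans (Real.exp_le_exp.2 ?_)
    rw [norm_neg]
    exact hS c hc w (hr2 w hw)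
  have hkc : ∀ c ∈ closedBall (0 : Fin d → ℝ) (η / M), ContinuousOn (k c) (sphere 0 (rb ρ)) := by
    intro c hc
    have h1 : ContinuousOn (fun w => T w * exp (-aeval w (fix_p c))) (sphere 0 (rb ρ)) := by
      refine hTc.mul (Continuous.continuousOn ?_)
      exact Complex.continuous_exp.comp (fix_p c).continuous_aeval.neg
    refine K_diff.continuousOn.comp h1 ?_
    intro w hw
    rw [mem_sphere_zero_iff_norm] at hw
    rw [mem_ball_zero_iff]
    have := harg c hc w hw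
    linarith
  have hkb : ∀ c ∈ closedBall (0 : Fin d → ℝ) (η / M), ∀ w : ℂ, ‖w‖ = rb ρ →
      ‖k c w‖ ≤ CK * (ε * Real.exp η) := by
    intro c hc w hw
    have h1 := harg c hc w hw
    have h2 := hK (T w * exp (-aeval w (fix_p c))) 0 (by linarith) (by rw [norm_zero]; norm_num)
    rw [K_zero, sub_zero, sub_zero] at h2
    exact h2.trans (mul_le_mul_of_nonneg_left h1 hCK.le)
  have hkd : ∀ c ∈ closedBall (0 : Fin d → ℝ) (η / M), ∀ c' ∈ closedBall (0 : Fin d → ℝ) (η / M),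
      ∀ w : ℂ, ‖w‖ = rb ρ → ‖k c w - k c' w‖ ≤ CK * (ε * Real.exp η * M * ‖c - c'‖) := by
    intro c hc c' hc' w hw
    have h1 := harg c hc w hw
    have h2 := harg c' hc' w hw
    refine (hK _ _ (by linarith) (by linarith)).trans (mul_le_mul_of_nonneg_left ?_ hCK.le)
    rw [← mul_sub, norm_mul]
    have h3 := fix_exp (hS c hc w (hr2 w hw)) (hS c' hc' w (hr2 w hw))
    have h4 := fix_diff hdn c c' (hr2 w hw)
    rw [← hM] at h4
    calc ‖T w‖ * ‖exp (-aeval w (fix_p c)) - exp (-aeval w (fix_p c'))‖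
        ≤ ε * (Real.exp η * (M * ‖c - c'‖)) :=
          mul_le_mul (hTb w hw) (h3.trans (mul_le_mul_of_nonneg_left h4 hEe.le)) (norm_nonneg _) hε0.le
      _ = ε * Real.exp η * M * ‖c - c'‖ := by ring
  set Φ : (Fin d → ℝ) → (Fin d → ℝ) := fun c m => (rc A (rb ρ) (k c) m).re with hΦ
  have hmaps : MapsTo Φ (closedBall (0 : Fin d → ℝ) (η / M)) (closedBall (0 : Fin d → ℝ) (η / M)) := by
    intro c hc
    rw [mem_closedBall_zero_iff]
    refine (pi_norm_le_iff_of_nonneg (by positivity)).2 fun m => ?_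
    rw [Real.norm_eq_abs]
    refine (Complex.abs_re_le_norm _).trans ?_
    exact (hrc A hA (k c) _ (hkb c hc) m).trans hε2
  have hcontr : ContractingWith (1 / 2 : NNReal) (hmaps.restrict Φ _ _) := by
    refine ⟨by rw [← NNReal.coe_lt_coe]; norm_num, LipschitzWith.of_dist_le_mul ?_⟩
    rintro ⟨c, hc⟩ ⟨c', hc'⟩
    rw [Subtype.dist_eq, Subtype.dist_eq]
    change dist (Φ c) (Φ c') ≤ _ * dist c c'
    rw [dist_eq_norm, dist_eq_norm]
    refine (pi_norm_le_iff_of_nonneg (by positivity)).2 fun m => ?_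
    have h1 : (Φ c - Φ c') m = (rc A (rb ρ) (fun w => k c w - k c' w) m).re := by
      rw [← rc_sub hA.roots hρ hrb (hkc c hc) (hkc c' hc') m, Complex.sub_re]
      rfl
    rw [h1, Real.norm_eq_abs]
    refine (Complex.abs_re_le_norm _).trans ?_
    refine (hrc A hA _ _ (hkd c hc c' hc') m).trans ?_
    have h2 : C * (CK * (ε * Real.exp η * M * ‖c - c'‖)) = C * (CK * (ε * Real.exp η * M)) * ‖c - c'‖ := by ring
    rw [h2]
    have h3 : ((1 / 2 : NNReal) : ℝ) = 1 / 2 := by norm_num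
    rw [h3]
    exact mul_le_mul_of_nonneg_right hε3 (norm_nonneg _)
  obtain ⟨c, hc, hfix, -⟩ := hcontr.exists_fixedPoint' isClosed_closedBall.isComplete hmaps
    (x := 0) (mem_closedBall_self (by positivity)) (edist_ne_top _ _)
  refine ⟨fix_p c, hS c hc, fun z => ?_⟩
  have hsym : Sym (k c) (sphere 0 (rb ρ)) := by
    intro w hw
    have hw' := hw
    rw [mem_sphere_zero_iff_norm] at hw
    have h1 := harg c hc w hw
    have h2 : T (starRingEnd ℂ w) * exp (-aeval (starRingEnd ℂ w) (fix_p c)) =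
        starRingEnd ℂ (T w * exp (-aeval w (fix_p c))) := by
      rw [hTs w hw', map_mul, ← Complex.exp_conj, map_neg, Polynomial.aeval_conj]
    change K (T (starRingEnd ℂ w) * exp (-aeval (starRingEnd ℂ w) (fix_p c))) =
      starRingEnd ℂ (K (T w * exp (-aeval w (fix_p c))))
    rw [h2]
    exact K_conj (by linarith)
  have hcm : ∀ m : Fin d, rc A (rb ρ) (k c) m = (c m : ℂ) := by
    intro m
    have h1 : (rc A (rb ρ) (k c) m).re = c m := congrFun hfix m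
    have h2 := rc_im (A := A) hrb0 hsym m
    apply Complex.ext
    · rw [h1, Complex.ofReal_re]
    · rw [h2, Complex.ofReal_im]
  rw [fix_aeval]
  unfold rem
  rw [Finset.sum_range]
  exact Finset.sum_congr rfl fun m _ => by rw [← hcm m]

end Pool.Agent.CZ
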