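import Pool.Agent.Lib.MP_2b3e36_an.CZ.Defs
import Pool.Agent.Lib.MP_2b3e36_an.Ex.L0

/-!
Har. Harnack's inequality for `log (c / ‖N‖)`.

Proof. `exists_log` (Ex/L0) on the ball: `N z = exp (l z)`; `F = log c - l` is holomorphic on `ball 0 R` with
`Re F = log (c/‖N‖) > 0`. `φ = (F - F 0)/(F + conj (F 0))` maps `ball 0 R` into the unit disc, `φ 0 = 0`, so by the
Schwarz lemma `‖φ z‖ ≤ ‖z‖/R`, which gives `(R - ‖z‖)/(R + ‖z‖) Re F 0 ≤ Re F z ≤ (R + ‖z‖)/(R - ‖z‖) Re F 0`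
(with `x = Re F z`, `x₀ = Re F 0`: `‖φ‖ ≥ |x - x₀|/(x + x₀)`). Use the upper estimate at `a`, the lower one at `z`.
-/

set_option autoImplicit false

open Complex Set Filter Topology Metric

namespace Pool.Agent.CZ

/-- Harnack's inequality in the form of the Schwarz lemma -/
theorem har_schwarz {R : ℝ} (hR : 0 < R) {F : ℂ → ℂ} (hF : DifferentiableOn ℂ F (ball 0 R))
    (hp : ∀ z ∈ ball (0 : ℂ) R, 0 < (F z).re) {z : ℂ} (hz : z ∈ ball (0 : ℂ) R) :
    |(F z).re - (F 0).re| * R ≤ ‖z‖ * ((F z).re + (F 0).re) := by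
  have h0 : (0 : ℂ) ∈ ball (0 : ℂ) R := mem_ball_self hR
  have hx0 := hp 0 h0
  -- the norms
  have key : ∀ w : ℂ, ‖w - F 0‖ ^ 2 = (w.re - (F 0).re) ^ 2 + (w.im - (F 0).im) ^ 2 ∧
      ‖w + starRingEnd ℂ (F 0)‖ ^ 2 = (w.re + (F 0).re) ^ 2 + (w.im - (F 0).im) ^ 2 := by
    intro w
    constructor
    · rw [← Complex.normSq_eq_norm_sq, Complex.normSq_apply]
      simp only [Complex.sub_re, Complex.sub_im]
      ring
    · rw [← Complex.normSq_eq_norm_sq, Complex.normSq_apply]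
      simp only [Complex.add_re, Complex.add_im, Complex.conj_re, Complex.conj_im]
      ring
  have hden : ∀ w ∈ ball (0 : ℂ) R, F w + starRingEnd ℂ (F 0) ≠ 0 := by
    intro w hw h
    have h1 := congrArg Complex.re h
    simp only [Complex.add_re, Complex.conj_re, Complex.zero_re] at h1
    have := hp w hw
    linarith
  set φ : ℂ → ℂ := fun w => (F w - F 0) / (F w + starRingEnd ℂ (F 0)) with hφ
  have hφd : DifferentiableOn ℂ φ (ball 0 R) :=
    (hF.sub_const _).div (hF.add_const _) hden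
  have hφ0 : φ 0 = 0 := by
    rw [hφ]
    simp
  have hφm : MapsTo φ (ball 0 R) (ball (φ 0) 1) := by
    intro w hw
    rw [hφ0, mem_ball_zero_iff, hφ]
    simp only [norm_div]
    rw [div_lt_one (norm_pos_iff.2 (hden w hw))]
    obtain ⟨k1, k2⟩ := key (F w)
    have hlt : ‖F w - F 0‖ ^ 2 < ‖F w + starRingEnd ℂ (F 0)‖ ^ 2 := by
      rw [k1, k2]
      have := hp w hw
      nlinarith [mul_pos this hx0]
    exact lt_of_pow_lt_pow_left₀ 2 (norm_nonneg _) hlt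
  have hS := Complex.dist_le_div_mul_dist_of_mapsTo_ball hφd
    (hφm.mono_right ball_subset_closedBall) hz
  rw [hφ0, dist_zero_right, dist_zero_right, hφ] at hS
  simp only [norm_div] at hS
  have hpos : 0 < ‖F z + starRingEnd ℂ (F 0)‖ := norm_pos_iff.2 (hden z hz)
  rw [div_le_iff₀ hpos] at hS
  have hzR : ‖z‖ < R := by rwa [mem_ball_zero_iff] at hz
  -- multiply by `R`
  have hS2 : ‖F z - F 0‖ * R ≤ ‖z‖ * ‖F z + starRingEnd ℂ (F 0)‖ := by
    calc ‖F z - F 0‖ * R ≤ (1 / R * ‖z‖ * ‖F z + starRingEnd ℂ (F 0)‖) * R :=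
          mul_le_mul_of_nonneg_right hS hR.le
      _ = ‖z‖ * ‖F z + starRingEnd ℂ (F 0)‖ := by field_simp
  obtain ⟨k1, k2⟩ := key (F z)
  have hS3 : ‖F z - F 0‖ ^ 2 * R ^ 2 ≤ ‖z‖ ^ 2 * ‖F z + starRingEnd ℂ (F 0)‖ ^ 2 := by
    have := pow_le_pow_left₀ (by positivity) hS2 2
    rw [mul_pow, mul_pow] at this
    exact this
  rw [k1, k2] at hS3
  have hzp := hp z hz
  have h2 : ((F z).im - (F 0).im) ^ 2 * ‖z‖ ^ 2 ≤ ((F z).im - (F 0).im) ^ 2 * R ^ 2 :=
    mul_le_mul_of_nonneg_left (pow_le_pow_left₀ (norm_nonneg _) hzR.le 2) (sq_nonneg _)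
  have h3 : (|(F z).re - (F 0).re| * R) ^ 2 ≤ (‖z‖ * ((F z).re + (F 0).re)) ^ 2 := by
    rw [mul_pow, mul_pow, sq_abs]
    nlinarith
  exact le_of_sq_le_sq h3 (by positivity)

theorem harnack {R c : ℝ} (hR : 0 < R) (hc : 0 < c) {N : ℂ → ℂ}
    (hN : DifferentiableOn ℂ N (ball 0 R)) (h0 : ∀ z ∈ ball (0 : ℂ) R, N z ≠ 0 ∧ ‖N z‖ < c) {a z : ℂ}
    (ha : ‖a‖ < R) (hz : ‖z‖ < R) :
    Real.log (c / ‖N a‖) * ((R - ‖a‖) / (R + ‖a‖)) * ((R - ‖z‖) / (R + ‖z‖)) ≤
      Real.log (c / ‖N z‖) := by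
  have hm0 : (0 : ℂ) ∈ ball (0 : ℂ) R := mem_ball_self hR
  obtain ⟨l, hl, hle, -⟩ := Pool.Agent.Choc.exists_log isOpen_ball hm0
    ((convex_ball (0 : ℂ) R).starConvex hm0) hN (fun z hz => (h0 z hz).1)
    (c := Complex.log (N 0)) (Complex.exp_log (h0 0 hm0).1)
  set F : ℂ → ℂ := fun w => (Real.log c : ℂ) - l w with hF
  have hFd : DifferentiableOn ℂ F (ball 0 R) := (differentiableOn_const _).sub hl
  have hFre : ∀ w ∈ ball (0 : ℂ) R, (F w).re = Real.log (c / ‖N w‖) := by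
    intro w hw
    rw [hF]
    simp only [Complex.sub_re, Complex.ofReal_re]
    rw [Real.log_div hc.ne' (norm_pos_iff.2 (h0 w hw).1).ne', ← hle w hw, Complex.norm_exp,
      Real.log_exp]
  have hpos : ∀ w ∈ ball (0 : ℂ) R, 0 < (F w).re := by
    intro w hw
    rw [hFre w hw]
    refine Real.log_pos ?_
    rw [one_lt_div (norm_pos_iff.2 (h0 w hw).1)]
    exact (h0 w hw).2
  have haM : a ∈ ball (0 : ℂ) R := by rwa [mem_ball_zero_iff]
  have hzM : z ∈ ball (0 : ℂ) R := by rwa [mem_ball_zero_iff]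
  have h1 := har_schwarz hR hFd hpos haM
  have h2 := har_schwarz hR hFd hpos hzM
  rw [← hFre a haM, ← hFre z hzM]
  have hx0 := hpos 0 hm0
  have ha0 := norm_nonneg a
  have hz0 := norm_nonneg z
  -- upper estimate at `a`
  have h3 : (F a).re * ((R - ‖a‖) / (R + ‖a‖)) ≤ (F 0).re := by
    rw [← mul_div_assoc, div_le_iff₀ (by linarith)]
    have := le_abs_self ((F a).re - (F 0).re)
    have h4 : ((F a).re - (F 0).re) * R ≤ ‖a‖ * ((F a).re + (F 0).re) :=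
      (mul_le_mul_of_nonneg_right this hR.le).trans h1
    nlinarith
  -- lower estimate at `z`
  have h5 : (F 0).re * ((R - ‖z‖) / (R + ‖z‖)) ≤ (F z).re := by
    rw [← mul_div_assoc, div_le_iff₀ (by linarith)]
    have := neg_le_abs ((F z).re - (F 0).re)
    have h4 : -((F z).re - (F 0).re) * R ≤ ‖z‖ * ((F z).re + (F 0).re) :=
      (mul_le_mul_of_nonneg_right this hR.le).trans h2
    nlinarith
  refine le_trans (mul_le_mul_of_nonneg_right h3 ?_) h5
  exact div_nonneg (by linarith) (by linarith)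

end Pool.Agent.CZ
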