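import Pool.Agent.Lib.MP_2b3e36_an.CZ.Defs
import Pool.Agent.Lib.MP_2b3e36_an.Ex.S2

/-!
Hol. Rational and holomorphic solutions.

`Hol A B`: `A u - N = B` with `u`, `N` real, holomorphic, zero free on a disc of radius `> 1`
(`q = A u / N`, `q - 1 = B / N`).
`hol_of_solvable`: `u = P₁/P₂`, `N = Q/P₂`; the finitely many complex roots of `P₁`, `P₂`, `Q` (nonzero polynomials)
have modulus `> 1`, so there is `R > 1` below all of them (`s2_radius`). `A P₁ - Q = B P₂`.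
`solvable_of_hol`: `s2_approx_real` gives a real polynomial `P₁` with `‖P₁ - u‖ < ε` on `‖z‖ = 1`, hence on
`‖z‖ ≤ 1` (`s2_max` for `P₁ - u`). Let `Q = A P₁ - B`, `P₂ = 1`, `P = A P₁`; `‖Q - N‖ = ‖A‖ ‖P₁ - u‖` is small. `u`, `N` are
bounded below on the closed disc (`s2_min`), so `P₁`, `Q` have no zeros there.
-/

set_option autoImplicit false

open Complex Set Filter Topology Metric Polynomial

namespace Pool.Agent.CZ

/-- holomorphic solution -/
def Hol (A B : ℝ[X]) : Prop := ∃ R : ℝ, 1 < R ∧ ∃ u N : ℂ → ℂ, DifferentiableOn ℂ u (ball 0 R) ∧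
  DifferentiableOn ℂ N (ball 0 R) ∧ (∀ z ∈ ball (0 : ℂ) R, u z ≠ 0 ∧ N z ≠ 0) ∧ Sym u (ball 0 R) ∧
  Sym N (ball 0 R) ∧ ∀ z ∈ ball (0 : ℂ) R, aeval z A * u z - N z = aeval z B

theorem hol_of_solvable {A B : ℝ[X]} (h : Solvable A B) : Hol A B := by
  classical
  obtain ⟨P, Q, P₁, P₂, hP, hPQ, hz⟩ := h
  have h0 := hz 0 (by simp)
  have hQ0 : Q ≠ 0 := by
    rintro rfl
    exact h0.1 (by simp)
  have hP10 : P₁ ≠ 0 := by
    rintro rfl
    exact h0.2.1 (by simp)
  have hP20 : P₂ ≠ 0 := by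
    rintro rfl
    exact h0.2.2 (by simp)
  have hR0 : Q * P₁ * P₂ ≠ 0 := mul_ne_zero (mul_ne_zero hQ0 hP10) hP20
  set T : ℂ[X] := (Q * P₁ * P₂).map (algebraMap ℝ ℂ) with hT
  have hT1 : T ≠ 0 := (Polynomial.map_ne_zero_iff (algebraMap ℝ ℂ).injective).2 hR0
  obtain ⟨r, hr, hrT⟩ := Pool.Agent.Choc.s2_radius (T.roots.toFinset.filter (fun z => 1 < ‖z‖))
    (fun z hz => (Finset.mem_filter.1 hz).2)
  have key : ∀ z ∈ ball (0 : ℂ) r, aeval z (Q * P₁ * P₂) = 0 → ‖z‖ ≤ 1 := by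
    intro z hz h0
    by_contra hcon
    push Not at hcon
    have h1 : z ∈ T.roots.toFinset.filter (fun z => 1 < ‖z‖) := by
      rw [Finset.mem_filter, Multiset.mem_toFinset, Polynomial.mem_roots hT1]
      refine ⟨?_, hcon⟩
      rw [Polynomial.IsRoot, hT, Polynomial.eval_map_algebraMap]
      exact h0
    have h2 := hrT z h1
    rw [mem_ball_zero_iff] at hz
    linarith
  have kQ : ∀ z ∈ ball (0 : ℂ) r, aeval z Q ≠ 0 := by
    intro z hz' h0
    exact (hz z (key z hz' (by rw [map_mul, map_mul, h0]; ring))).1 h0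
  have kP1 : ∀ z ∈ ball (0 : ℂ) r, aeval z P₁ ≠ 0 := by
    intro z hz' h0
    exact (hz z (key z hz' (by rw [map_mul, map_mul, h0]; ring))).2.1 h0
  have kP2 : ∀ z ∈ ball (0 : ℂ) r, aeval z P₂ ≠ 0 := by
    intro z hz' h0
    exact (hz z (key z hz' (by rw [map_mul, map_mul, h0]; ring))).2.2 h0
  refine ⟨r, hr, fun z => aeval z P₁ / aeval z P₂, fun z => aeval z Q / aeval z P₂, ?_, ?_, ?_, ?_, ?_, ?_⟩
  · exact P₁.differentiable_aeval.differentiableOn.div P₂.differentiable_aeval.differentiableOn kP2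
  · exact Q.differentiable_aeval.differentiableOn.div P₂.differentiable_aeval.differentiableOn kP2
  · intro z hz'
    exact ⟨div_ne_zero (kP1 z hz') (kP2 z hz'), div_ne_zero (kQ z hz') (kP2 z hz')⟩
  · intro z _
    show aeval _ P₁ / aeval _ P₂ = _
    rw [Pool.Agent.Choc.s2_aeval_conj, Pool.Agent.Choc.s2_aeval_conj, ← map_div₀]
  · intro z _
    show aeval _ Q / aeval _ P₂ = _
    rw [Pool.Agent.Choc.s2_aeval_conj, Pool.Agent.Choc.s2_aeval_conj, ← map_div₀]
  · intro z hz'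
    have h2 := kP2 z hz'
    have h1 : aeval z A * aeval z P₁ - aeval z Q = aeval z B * aeval z P₂ := by
      have h3 := congrArg (fun p : ℝ[X] => aeval z p) hPQ
      simp only [hP, map_sub, map_mul] at h3
      exact h3
    show aeval z A * (aeval z P₁ / aeval z P₂) - aeval z Q / aeval z P₂ = aeval z B
    rw [← mul_div_assoc, ← sub_div, h1, mul_div_cancel_right₀ _ h2]

theorem solvable_of_hol {A B : ℝ[X]} (h : Hol A B) : Solvable A B := by
  obtain ⟨R, hR, u, N, hu, hN, h0, hsu, _, heq⟩ := h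
  have hreal : ∀ z : ℂ, ‖z‖ = 1 → u (starRingEnd ℂ z) = starRingEnd ℂ (u z) := by
    intro z hz
    exact hsu z (by rw [mem_ball_zero_iff, hz]; exact hR)
  obtain ⟨δu, hδu, hmu⟩ := Pool.Agent.Choc.s2_min hR hu (fun z hz => (h0 z hz).1)
  obtain ⟨δN, hδN, hmN⟩ := Pool.Agent.Choc.s2_min hR hN (fun z hz => (h0 z hz).2)
  have hWd : ∀ P : ℝ[X], DifferentiableOn ℂ (fun z : ℂ => aeval z P) (ball 0 R) :=
    fun P => P.differentiable_aeval.differentiableOn
  obtain ⟨M, hM⟩ : ∃ M : ℝ, ∀ z : ℂ, ‖z‖ ≤ 1 → ‖aeval z A‖ ≤ M := by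
    have hc : ContinuousOn (fun z : ℂ => ‖aeval z A‖) (closedBall 0 1) :=
      (A.differentiable_aeval.continuous.continuousOn).norm
    obtain ⟨M, hM⟩ := (isCompact_closedBall (0 : ℂ) 1).bddAbove_image hc
    exact ⟨M, fun z hz => hM ⟨z, mem_closedBall_zero_iff.2 hz, rfl⟩⟩
  have hM0 : 0 ≤ M := (norm_nonneg _).trans (hM 0 (by simp))
  obtain ⟨ε, hε, hε1, hε2⟩ : ∃ ε > 0, ε < δu ∧ M * ε < δN := by
    refine ⟨min (δu / 2) (δN / (2 * (M + 1))), by positivity, ?_, ?_⟩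
    · have := min_le_left (δu / 2) (δN / (2 * (M + 1)))
      linarith
    · have h1 := min_le_right (δu / 2) (δN / (2 * (M + 1)))
      have h2 : M * min (δu / 2) (δN / (2 * (M + 1))) ≤ M * (δN / (2 * (M + 1))) :=
        mul_le_mul_of_nonneg_left h1 hM0
      have h3 : M * (δN / (2 * (M + 1))) = (M / (M + 1)) * (δN / 2) := by
        field_simp
      have h4 : M / (M + 1) ≤ 1 := by
        rw [div_le_one (by linarith)]
        linarith
      have h5 : (M / (M + 1)) * (δN / 2) ≤ 1 * (δN / 2) := mul_le_mul_of_nonneg_right h4 (by linarith)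
      linarith
  obtain ⟨W, hW⟩ := Pool.Agent.Choc.s2_approx_real hR hu hreal hε
  have hWu : ∀ z : ℂ, ‖z‖ ≤ 1 → ‖aeval z W - u z‖ ≤ ε :=
    Pool.Agent.Choc.s2_max hR ((hWd W).sub hu) (fun z hz => (hW z hz).le)
  refine ⟨A * W, A * W - B, W, 1, rfl, by ring, fun z hz => ⟨fun hc => ?_, fun hc => ?_, ?_⟩⟩
  · have hzR : z ∈ ball (0 : ℂ) R := by
      rw [mem_ball_zero_iff]
      linarith
    rw [map_sub, map_mul] at hc
    have h1 := heq z hzR
    have h2 : N z = -(aeval z A * (aeval z W - u z)) := by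
      linear_combination -h1 + hc
    have h3 := hmN z hz
    rw [h2, norm_neg, norm_mul] at h3
    have h4 : ‖aeval z A‖ * ‖aeval z W - u z‖ ≤ M * ε :=
      mul_le_mul (hM z hz) (hWu z hz) (norm_nonneg _) hM0
    linarith
  · have h1 := hWu z hz
    rw [hc, zero_sub, norm_neg] at h1
    have h2 := hmu z hz
    linarith
  · rw [map_one]
    exact one_ne_zero

end Pool.Agent.CZ
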