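import Pool.Agent.Lib.MP_2b3e36_an.CZ.Defs
import Pool.Agent.Lib.MP_2b3e36_an.Ex.L4

/-!
JLoc. `J` near `0`.
-/

set_option autoImplicit false

open Complex Set Filter Topology Metric

namespace Pool.Agent.CZ

open Pool.Agent.Choc

theorem J_local : ∃ ε₁ : ℝ, 0 < ε₁ ∧ ε₁ ≤ 1 / 4 ∧ InjOn J (ball 0 ε₁) ∧
    (∀ t : ℂ, ‖t‖ < ε₁ → ‖t‖ ≤ ‖J t - 1‖) ∧
    ∃ δ₁ : ℝ, 0 < δ₁ ∧ ∀ w : ℂ, ‖w - 1‖ < δ₁ → ∃ t : ℂ, ‖t‖ < ε₁ ∧ J t = w := by
  have ha : AnalyticAt ℂ J 0 := J_diff.analyticAt (isOpen_ball.mem_nhds (mem_ball_self one_pos))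
  have hst : HasStrictDerivAt J (-16) 0 := by
    have := ha.hasStrictDerivAt
    rwa [J_hasDerivAt_zero.deriv] at this
  have h1 := hst.hasStrictFDerivAt.isLittleO.def one_pos
  obtain ⟨ε, hε, h2⟩ := Metric.eventually_nhds_iff.1 h1
  have h3 : ∀ x y : ℂ, ‖x‖ < ε → ‖y‖ < ε → ‖J x - J y + 16 * (x - y)‖ ≤ ‖x - y‖ := by
    intro x y hx hy
    have h4 := h2 (y := (x, y)) (by
      rw [Prod.dist_eq]
      exact max_lt (by simpa using hx) (by simpa using hy))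
    have h5 : J x - J y + 16 * (x - y) = J x - J y - (x - y) • (-16 : ℂ) := by
      simp only [smul_eq_mul]
      ring
    rw [h5]
    simpa using h4
  have hm : 0 < min ε (1 / 4) := lt_min hε (by norm_num)
  refine ⟨min ε (1 / 4), hm, min_le_right _ _, ?_, ?_, ?_⟩
  · intro x hx y hy hxy
    rw [mem_ball_zero_iff] at hx hy
    have h4 := h3 x y (hx.trans_le (min_le_left _ _)) (hy.trans_le (min_le_left _ _))
    rw [hxy, sub_self, zero_add, norm_mul] at h4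
    have h5 : ‖(16 : ℂ)‖ = 16 := by simp
    rw [h5] at h4
    have h6 : ‖x - y‖ = 0 := le_antisymm (by linarith [norm_nonneg (x - y)]) (norm_nonneg _)
    exact sub_eq_zero.1 (norm_eq_zero.1 h6)
  · intro t ht
    have h4 := h3 t 0 (ht.trans_le (min_le_left _ _)) (by simpa using hε)
    rw [J_zero, sub_zero] at h4
    have h5 : ‖(16 : ℂ) * t‖ = 16 * ‖t‖ := by rw [norm_mul]; simp
    have h6 : ‖(16 : ℂ) * t‖ ≤ ‖J t - 1 + 16 * t‖ + ‖J t - 1‖ := by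
      have h7 : (16 : ℂ) * t = (J t - 1 + 16 * t) - (J t - 1) := by ring
      conv_lhs => rw [h7]
      exact norm_sub_le _ _
    rw [h5] at h6
    have h8 := norm_nonneg t
    linarith
  · obtain ⟨δ, hδ, h4⟩ := Metric.mem_nhds_iff.1 (l4_J_onto hm)
    refine ⟨δ, hδ, fun w hw => ?_⟩
    obtain ⟨t, ht, h5⟩ := h4 (by rw [mem_ball, dist_eq_norm]; exact hw)
    exact ⟨t, by rwa [mem_ball_zero_iff] at ht, h5⟩

end Pool.Agent.CZ
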