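import Pool.Agent.Lib.MP_2b3e36_an.CZ.Defs
import Pool.Agent.Lib.MP_2b3e36_an.Ex.L4

/-!
Kf. The function `K` with `1 / J t - 1 = 16 t exp (K t)`.

Proof. `X t = (J t)⁻¹ - 1` is holomorphic on the unit disc (`J_diff`, `J_ne_zero`), `X 0 = 0` (`J_zero`),
`X t = 0` only for `t = 0` (`J_eq_one_iff`), `X' 0 = 16` (`J_hasDerivAt_zero`). So `g = dslope X 0 / 16` is
holomorphic and zero free on the ball with `g 0 = 1`, and `X t = 16 t g t`. `exists_log` (Ex/L0, the ball
is star convex about `0`) gives `K` with `exp (K t) = g t`, `K 0 = 0`. Symmetry: `t ↦ conj (K (conj t))` is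
another holomorphic logarithm of `g` (`J_conj`) with the value `0` at `0`; two continuous logarithms on a
connected set which agree at a point are equal (their difference is continuous with values in `2 π i ℤ`), or:
both have the derivative `g'/g`.
-/

set_option autoImplicit false

open Complex Set Filter Topology Metric

namespace Pool.Agent.CZ

open Pool.Agent.Choc

/-- a continuous function on a convex set with values in `2 π i ℤ` which vanishes at a point -/
private theorem kf_const {S : Set ℂ} (hS : Convex ℝ S) {d : ℂ → ℂ} (hd : ContinuousOn d S)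
    (he : ∀ t ∈ S, exp (d t) = 1) {t₀ : ℂ} (h0 : t₀ ∈ S) (hz : d t₀ = 0) : ∀ t ∈ S, d t = 0 := by
  intro t ht
  have hint : ∀ t ∈ S, ∃ n : ℤ, d t = n * (2 * Real.pi * I) := fun t ht => exp_eq_one_iff.1 (he t ht)
  have hpi := Real.pi_pos
  have hφ : ∀ (t : ℂ) (n : ℤ), d t = n * (2 * Real.pi * I) → (d t).im / (2 * Real.pi) = n := by
    intro t n h
    rw [h]
    have : ((n : ℂ) * (2 * Real.pi * I)).im = n * (2 * Real.pi) := by simp
    rw [this]
    field_simp
  have hcont : ContinuousOn (fun t => (d t).im / (2 * Real.pi)) S :=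
    (continuous_im.comp_continuousOn hd).div_const _
  have himg := (hS.isPreconnected.image _ hcont).ordConnected
  obtain ⟨n, hn⟩ := hint t ht
  have hn' := hφ t n hn
  have h0' : (d t₀).im / (2 * Real.pi) = 0 := by rw [hz]; simp
  have hno : ∀ (x : ℝ), x ∈ (fun t => (d t).im / (2 * Real.pi)) '' S → ∃ k : ℤ, x = k := by
    rintro x ⟨t, ht, rfl⟩
    obtain ⟨k, hk⟩ := hint t ht
    exact ⟨k, hφ t k hk⟩
  have hn0 : n = 0 := by
    rcases lt_trichotomy n 0 with h | h | h
    · exfalso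
      have h1 : (n : ℝ) ≤ -1 := by exact_mod_cast (by omega : n ≤ -1)
      have h2 : (-(1 / 2) : ℝ) ∈ (fun t => (d t).im / (2 * Real.pi)) '' S := by
        refine himg.out ⟨t, ht, hn'⟩ ⟨t₀, h0, h0'⟩ ⟨by linarith, by norm_num⟩
      obtain ⟨k, hk⟩ := hno _ h2
      have h3 : (-1 : ℝ) = 2 * k := by linarith
      have h4 : (-1 : ℤ) = 2 * k := by exact_mod_cast h3
      omega
    · exact h
    · exfalso
      have h1 : (1 : ℝ) ≤ n := by exact_mod_cast (by omega : 1 ≤ n)
      have h2 : ((1 / 2) : ℝ) ∈ (fun t => (d t).im / (2 * Real.pi)) '' S := by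
        refine himg.out ⟨t₀, h0, h0'⟩ ⟨t, ht, hn'⟩ ⟨by norm_num, by linarith⟩
      obtain ⟨k, hk⟩ := hno _ h2
      have h3 : (1 : ℝ) = 2 * k := by linarith
      have h4 : (1 : ℤ) = 2 * k := by exact_mod_cast h3
      omega
  rw [hn, hn0]
  simp

theorem exists_K : ∃ K : ℂ → ℂ, DifferentiableOn ℂ K (ball 0 1) ∧ K 0 = 0 ∧
    (∀ t ∈ ball (0 : ℂ) 1, (J t)⁻¹ - 1 = 16 * t * exp (K t)) ∧
    ∀ t ∈ ball (0 : ℂ) 1, K (starRingEnd ℂ t) = starRingEnd ℂ (K t) := by
  have hnorm : ∀ t ∈ ball (0 : ℂ) 1, ‖t‖ < 1 := fun t ht => mem_ball_zero_iff.1 ht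
  have h0m : (0 : ℂ) ∈ ball (0 : ℂ) 1 := mem_ball_self one_pos
  set X : ℂ → ℂ := fun t => (J t)⁻¹ - 1 with hX
  have hXd : DifferentiableOn ℂ X (ball 0 1) :=
    (J_diff.inv fun t ht => J_ne_zero (hnorm t ht)).sub_const 1
  have hX0 : X 0 = 0 := by simp [hX, J_zero]
  have hXne : ∀ t ∈ ball (0 : ℂ) 1, t ≠ 0 → X t ≠ 0 := by
    intro t ht h0 h
    have h1 : (J t)⁻¹ = 1 := sub_eq_zero.1 h
    exact h0 ((J_eq_one_iff (hnorm t ht)).1 (inv_eq_one.1 h1))
  have hXder : deriv X 0 = 16 := by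
    have h1 := (J_hasDerivAt_zero.inv (J_ne_zero (q := 0) (by simp))).sub_const 1
    rw [J_zero] at h1
    have h2 := h1.deriv
    rw [show deriv X 0 = deriv (fun t => J⁻¹ t - 1) 0 from rfl, h2]
    norm_num
  set g : ℂ → ℂ := fun t => dslope X 0 t / 16 with hg
  have hgd : DifferentiableOn ℂ g (ball 0 1) :=
    ((differentiableOn_dslope (isOpen_ball.mem_nhds h0m)).2 hXd).div_const 16
  have hg0 : g 0 = 1 := by
    simp only [hg, dslope_same, hXder]
    norm_num
  have hgX : ∀ t, t ≠ 0 → g t = X t / t / 16 := by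
    intro t ht
    simp only [hg]
    rw [dslope_of_ne _ ht, slope_def_field, hX0, sub_zero, sub_zero]
  have hgne : ∀ t ∈ ball (0 : ℂ) 1, g t ≠ 0 := by
    intro t ht
    rcases eq_or_ne t 0 with h | h
    · rw [h, hg0]
      exact one_ne_zero
    · rw [hgX t h]
      exact div_ne_zero (div_ne_zero (hXne t ht h) h) (by norm_num)
  obtain ⟨l, hld, hle, hl0⟩ := exists_log isOpen_ball h0m ((convex_ball (0 : ℂ) 1).starConvex h0m) hgd hgne
    (c := 0) (by rw [exp_zero, hg0])
  refine ⟨l, hld, hl0, ?_, ?_⟩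
  · intro t ht
    rw [hle t ht]
    rcases eq_or_ne t 0 with h | h
    · rw [h, mul_zero, zero_mul]
      exact hX0
    · rw [hgX t h]
      change X t = _
      field_simp
  · have hcb : ∀ t ∈ ball (0 : ℂ) 1, starRingEnd ℂ t ∈ ball (0 : ℂ) 1 := by
      intro t ht
      rw [mem_ball_zero_iff, RCLike.norm_conj]
      exact hnorm t ht
    have hgc : ∀ t, g (starRingEnd ℂ t) = starRingEnd ℂ (g t) := by
      intro t
      rcases eq_or_ne t 0 with h | h
      · rw [h, map_zero, hg0, map_one]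
      · have h' : starRingEnd ℂ t ≠ 0 := fun hh => h ((map_eq_zero _).1 hh)
        rw [hgX t h, hgX _ h']
        have h1 : X (starRingEnd ℂ t) = starRingEnd ℂ (X t) := by
          simp only [hX]
          rw [J_conj, map_sub, map_inv₀, map_one]
        rw [h1, map_div₀, map_div₀, map_ofNat]
    have hcont : ContinuousOn (fun t => starRingEnd ℂ (l (starRingEnd ℂ t)) - l t) (ball (0 : ℂ) 1) := by
      refine ContinuousOn.sub ?_ hld.continuousOn
      refine continuous_conj.comp_continuousOn ?_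
      exact hld.continuousOn.comp continuous_conj.continuousOn hcb
    have h1 := kf_const (convex_ball (0 : ℂ) 1) hcont (by
      intro t ht
      rw [exp_sub, exp_conj, hle _ (hcb t ht), hle t ht, hgc, Complex.conj_conj, div_self (hgne t ht)])
      h0m (by simp [hl0])
    intro t ht
    have h2 := h1 t ht
    have h3 : starRingEnd ℂ (l (starRingEnd ℂ t)) = l t := sub_eq_zero.1 h2
    rw [← h3, Complex.conj_conj]

/-- the logarithm of `((J t)⁻¹ - 1) / (16 t)` -/
noncomputable def K : ℂ → ℂ := Classical.choose exists_K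

theorem K_diff : DifferentiableOn ℂ K (ball 0 1) := (Classical.choose_spec exists_K).1

theorem K_zero : K 0 = 0 := (Classical.choose_spec exists_K).2.1

theorem K_eq {t : ℂ} (h : ‖t‖ < 1) : (J t)⁻¹ - 1 = 16 * t * exp (K t) :=
  (Classical.choose_spec exists_K).2.2.1 t (by rwa [mem_ball_zero_iff])

theorem K_conj {t : ℂ} (h : ‖t‖ < 1) : K (starRingEnd ℂ t) = starRingEnd ℂ (K t) :=
  (Classical.choose_spec exists_K).2.2.2 t (by rwa [mem_ball_zero_iff])

end Pool.Agent.CZ
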