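import Pool.Agent.Lib.MP_2b3e36_an.CZ.LiftA
import Pool.Agent.Lib.MP_2b3e36_an.Ex.L4

/-!
Lift. Lifting a function without the values `0`, `1` through `J` on a convex set, with a point where the
function is near `1` (in place of the base point `f z₀ = 1` of Ex/L4).

Proof = Ex/L4 (`l4_bound`, `l4_S_*`, `l4_G_*`, `l4_local`, `lift_exists`) with the following changes. `l m` = holomorphic
logarithm of `(1 + k m)/2` on `Ω` with `l m s₀ = log ((1 + k m s₀)/2)` (principal). In `l4_bound` and `l4_local` `l4_principal` is used with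
this base value. The definitions `l4S`, `l4G` and the lemmas `l4_term`, `l4_summable`, `l4_S_le`, `l4_S_succ`, `l4_hull`,
`l4_principal` can be used as they are; `l4_G_succ`, `l4_G_pow`, `l4_G_lt`, `l4_G_diff` are to be copied for `AGM`.
Local identification: choose `δ` so small (`l4_J_onto` for `min δ_nome ε`) that `‖w - 1‖ < δ` implies `w = J q` with
`‖q‖ < δ_nome`, `‖q‖ < ε`; near `s₀` (where still `‖f - 1‖ < δ`, a ball of `agm_near`) `f z = J q`,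
`k m z = rho (q^(2^m))^2` for all `m` (induction as in `l4_local`), so `l4G k l 0 z = q` (`nome_formula`):
`J (l4G ..) = f` near `s₀` and `‖l4G k l 0 s₀‖ = ‖q‖ < ε`. Identity theorem on `Ω`.
-/

set_option autoImplicit false

open Complex Set Filter Topology Metric

namespace Pool.Agent.CZ

open Pool.Agent.Choc

/-- logarithms of the sequence -/
structure LftLog (Ω : Set ℂ) (z₀ : ℂ) (k l : ℕ → ℂ → ℂ) : Prop where
  diff : ∀ m, DifferentiableOn ℂ (l m) Ω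
  eq : ∀ m, ∀ z ∈ Ω, exp (l m z) = (1 + k m z) / 2
  base : ∀ m, l m z₀ = log ((1 + k m z₀) / 2)

theorem lft_bound {Ω : Set ℂ} (hc : Convex ℝ Ω) (ho : IsOpen Ω) {z₀ : ℂ} (hz : z₀ ∈ Ω)
    {f : ℂ → ℂ} {k l : ℕ → ℂ → ℂ} (hk : AGM Ω z₀ f k) (hl : LftLog Ω z₀ k l) {z : ℂ}
    (hzΩ : z ∈ Ω) : ∃ s > 0, ball z s ⊆ Ω ∧ ∃ C : ℝ, ∀ j, ∀ w ∈ ball z s, ‖l j w‖ ≤ C := by
  obtain ⟨s, hs, K, hK, hKc, hKΩ, hz₀K, hsK⟩ := l4_hull hc ho hz hzΩ
  have h1 := (tendstoLocallyUniformlyOn_iff_forall_isCompact ho).mp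
    (agm_tends hc ho hz hk) K hKΩ hK
  rw [Metric.tendstoUniformlyOn_iff] at h1
  obtain ⟨m₀, hm₀⟩ := eventually_atTop.mp (h1 1 one_pos)
  have hbig : ∀ m, m₀ ≤ m → ∀ w ∈ K, ‖l m w‖ ≤ 1 := by
    intro m hm w hw
    have h2 : ∀ w ∈ K, ‖(1 + k m w) / 2 - 1‖ ≤ 1 / 2 := by
      intro w hw
      have h3 := hm₀ m hm w hw
      rw [dist_eq_norm, norm_sub_rev] at h3
      have e1 : (1 + k m w) / 2 - 1 = (k m w - 1) / 2 := by ring
      rw [e1, norm_div]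
      have : ‖(2 : ℂ)‖ = 2 := by simp
      rw [this]; linarith
    have h4 := l4_principal hKc ((hl.diff m).continuousOn.mono hKΩ)
      (g := fun w => (1 + k m w) / 2)
      ((((hk.diff m).const_add 1).div_const 2).continuousOn.mono hKΩ)
      (fun w hw => hl.eq m w (hKΩ hw)) h2 hz₀K (hl.base m) w hw
    have h5 := norm_log_one_add_half_le_self (h2 w hw)
    rw [add_sub_cancel] at h5
    rw [h4]
    have h6 := h2 w hw
    linarith
  have hex : ∀ j, ∃ C : ℝ, ∀ w ∈ closedBall z s, ‖l j w‖ ≤ C := fun j =>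
    (isCompact_closedBall z s).exists_bound_of_continuousOn
      ((hl.diff j).continuousOn.mono (hsK.trans hKΩ))
  choose C hC using hex
  refine ⟨s, hs, ball_subset_closedBall.trans (hsK.trans hKΩ),
    1 + ∑ j ∈ Finset.range m₀, |C j|, ?_⟩
  intro j w hw
  have hw' := ball_subset_closedBall hw
  by_cases hj : m₀ ≤ j
  · have h7 := hbig j hj w (hsK hw')
    have h8 : 0 ≤ ∑ j ∈ Finset.range m₀, |C j| := Finset.sum_nonneg fun _ _ => abs_nonneg _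
    linarith
  · push Not at hj
    have h9 : |C j| ≤ ∑ j ∈ Finset.range m₀, |C j| :=
      Finset.single_le_sum (f := fun j => |C j|) (fun _ _ => abs_nonneg _)
        (Finset.mem_range.mpr hj)
    have h10 := (hC j w hw').trans (le_abs_self (C j))
    linarith

theorem lft_G_succ {Ω : Set ℂ} {z₀ : ℂ} {f : ℂ → ℂ} {k l : ℕ → ℂ → ℂ} (hk : AGM Ω z₀ f k)
    (hl : LftLog Ω z₀ k l) {z : ℂ} (hzΩ : z ∈ Ω) {C : ℝ} (h : ∀ j, ‖l j z‖ ≤ C) (m : ℕ) :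
    l4G k l (m + 1) z = l4G k l m z ^ 2 := by
  have h1 := l4_S_succ h m
  have hne := hk.neNeg m z hzΩ
  have h2 := hl.eq m z hzΩ
  have h3 : -l4S l (m + 1) z = (-l4S l m z + -l4S l m z) +
      (l m z + l m z + (l m z + l m z)) := by
    linear_combination 2 * h1
  have h4 := l2_rec hne (hk.step m z hzΩ)
  have h5 : 1 - k (m + 1) z ^ 2 = (k m z - 1) ^ 2 / (1 + k m z) ^ 2 := by
    linear_combination -h4
  rw [l4G, l4G, h3, exp_add, exp_add, exp_add, exp_add, h2, h5]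
  field_simp
  ring

theorem lft_G_pow {Ω : Set ℂ} {z₀ : ℂ} {f : ℂ → ℂ} {k l : ℕ → ℂ → ℂ} (hk : AGM Ω z₀ f k)
    (hl : LftLog Ω z₀ k l) {z : ℂ} (hzΩ : z ∈ Ω) {C : ℝ} (h : ∀ j, ‖l j z‖ ≤ C) (m : ℕ) :
    l4G k l m z = l4G k l 0 z ^ (2 ^ m) := by
  induction m with
  | zero => simp
  | succ m ih => rw [lft_G_succ hk hl hzΩ h, ih, ← pow_mul, ← pow_succ]

theorem lft_G_lt {Ω : Set ℂ} (hc : Convex ℝ Ω) (ho : IsOpen Ω) {z₀ : ℂ} (hz : z₀ ∈ Ω)
    {f : ℂ → ℂ} {k l : ℕ → ℂ → ℂ} (hk : AGM Ω z₀ f k) (hl : LftLog Ω z₀ k l) {z : ℂ}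
    (hzΩ : z ∈ Ω) : ‖l4G k l 0 z‖ < 1 := by
  obtain ⟨s, hs, -, C, hC⟩ := lft_bound hc ho hz hk hl hzΩ
  have h : ∀ j, ‖l j z‖ ≤ C := fun j => hC j z (mem_ball_self hs)
  have hlim : Tendsto (fun m => k m z) atTop (𝓝 1) :=
    (agm_tends hc ho hz hk).tendsto_at hzΩ
  have h2 : Tendsto (fun m => ‖(1 - k m z ^ 2) / 16‖ * Real.exp (4 * C)) atTop (𝓝 0) := by
    have h3 : Tendsto (fun m => (1 - k m z ^ 2) / 16) atTop (𝓝 ((1 - 1 ^ 2) / 16)) :=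
      ((tendsto_const_nhds.sub (hlim.pow 2)).div_const 16)
    rw [one_pow, sub_self, zero_div] at h3
    have h4 := h3.norm.mul_const (Real.exp (4 * C))
    rwa [norm_zero, zero_mul] at h4
  obtain ⟨m, hm⟩ := (h2.eventually (gt_mem_nhds one_pos)).exists
  have h5 : ‖l4G k l m z‖ ≤ ‖(1 - k m z ^ 2) / 16‖ * Real.exp (4 * C) := by
    rw [l4G, norm_mul]
    apply mul_le_mul_of_nonneg_left _ (norm_nonneg _)
    refine (norm_exp_le_exp_norm _).trans ?_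
    rw [norm_neg]
    exact Real.exp_le_exp.mpr (l4_S_le h m)
  by_contra hcon
  push Not at hcon
  have h6 : 1 ≤ ‖l4G k l m z‖ := by
    rw [lft_G_pow hk hl hzΩ h m, norm_pow]
    exact one_le_pow₀ hcon
  linarith

theorem lft_G_diff {Ω : Set ℂ} (hc : Convex ℝ Ω) (ho : IsOpen Ω) {z₀ : ℂ} (hz : z₀ ∈ Ω)
    {f : ℂ → ℂ} {k l : ℕ → ℂ → ℂ} (hk : AGM Ω z₀ f k) (hl : LftLog Ω z₀ k l) :
    DifferentiableOn ℂ (l4G k l 0) Ω := by
  have hS : DifferentiableOn ℂ (l4S l 0) Ω := by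
    intro z hzΩ
    obtain ⟨s, hs, hsΩ, C, hC⟩ := lft_bound hc ho hz hk hl hzΩ
    have h1 : DifferentiableOn ℂ (fun w => ∑' j : ℕ, (2 : ℂ) * (1 / 2) ^ j * l (0 + j) w)
        (ball z s) := by
      refine differentiableOn_tsum_of_summable_norm
        (u := fun j => (1 / 2 : ℝ) ^ j * (2 * C)) (summable_geometric_two.mul_right (2 * C))
        (fun j => ((hl.diff (0 + j)).mono hsΩ).const_mul _) isOpen_ball ?_
      intro j w hw
      exact l4_term (fun j => hC j w hw) 0 j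
    exact ((h1 z (mem_ball_self hs)).differentiableAt
      (isOpen_ball.mem_nhds (mem_ball_self hs))).differentiableWithinAt
  exact ((((hk.diff 0).pow 2).const_sub 1).div_const 16).mul hS.neg.cexp

theorem lft_local {Ω : Set ℂ} (ho : IsOpen Ω) {z₀ : ℂ} (hz : z₀ ∈ Ω)
    {f : ℂ → ℂ} (hf : DifferentiableOn ℂ f Ω) {δ₁ η δ : ℝ}
    (hnome : δ₁ < 1 ∧ ∀ q : ℂ, ‖q‖ < δ₁ →
      (∀ m : ℕ, ‖rho (q ^ (2 ^ m)) ^ 2 - 1‖ ≤ 1 / 4) ∧
      q = (1 - J q) / 16 *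
        exp (-∑' m : ℕ, (2 : ℂ) * (1 / 2) ^ m * log ((1 + rho (q ^ (2 ^ m)) ^ 2) / 2)))
    (hη : η ≤ δ₁) (hon : ball (1 : ℂ) δ ⊆ J '' (ball 0 η)) (h1 : ‖f z₀ - 1‖ < δ)
    {k l : ℕ → ℂ → ℂ} (hk : AGM Ω z₀ f k) (hl : LftLog Ω z₀ k l) :
    ∀ᶠ z in 𝓝 z₀, J (l4G k l 0 z) = f z ∧ ‖l4G k l 0 z‖ < η := by
  obtain ⟨s, hs, hsΩ, hnear⟩ := agm_near ho hz hk
  obtain ⟨hδ1, hnome⟩ := hnome
  have hfc : ∀ᶠ z in 𝓝 z₀, f z ∈ ball (1 : ℂ) δ := by
    have h2 : ContinuousAt f z₀ := hf.continuousOn.continuousAt (ho.mem_nhds hz)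
    refine h2.tendsto.eventually (isOpen_ball.mem_nhds ?_)
    rw [mem_ball, dist_eq_norm]
    exact h1
  filter_upwards [hfc, ball_mem_nhds z₀ hs] with z hzJ hzs
  obtain ⟨q, hqη, hJq⟩ := hon hzJ
  rw [mem_ball_zero_iff] at hqη
  have hq : ‖q‖ < δ₁ := lt_of_lt_of_le hqη hη
  obtain ⟨hq1, hq2⟩ := hnome q hq
  have hzΩ := hsΩ hzs
  have hqm : ∀ m : ℕ, ‖q ^ (2 ^ m)‖ < 1 := by
    intro m
    rw [norm_pow]
    refine lt_of_le_of_lt ?_ (hq.trans hδ1)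
    exact pow_le_of_le_one (norm_nonneg _) (by linarith) (by positivity)
  -- values with the same square near one
  have hsqeq : ∀ a b : ℂ, ‖a - 1‖ ≤ 1 / 4 → ‖b - 1‖ ≤ 1 / 4 → a ^ 2 = b ^ 2 → a = b := by
    intro a b ha hb hab
    rcases sq_eq_sq_iff_eq_or_eq_neg.mp hab with h | h
    · exact h
    · exfalso
      have e1 : (2 : ℂ) = -((a - 1) + (b - 1)) := by rw [h]; ring
      have e2 : ‖(2 : ℂ)‖ ≤ 1 / 2 := by
        rw [e1, norm_neg]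
        refine (norm_add_le _ _).trans ?_
        linarith
      have : ‖(2 : ℂ)‖ = 2 := by simp
      rw [this] at e2
      norm_num at e2
  have hmatch : ∀ m : ℕ, k m z = rho (q ^ (2 ^ m)) ^ 2 := by
    intro m
    induction m with
    | zero =>
      refine hsqeq _ _ (hnear 0 z hzs) (hq1 0) ?_
      rw [hk.zero z hzΩ, ← hJq, pow_zero, pow_one, J]
      ring
    | succ m ih =>
      refine hsqeq _ _ (hnear (m + 1) z hzs) (hq1 (m + 1)) ?_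
      have h3 := hk.step m z hzΩ
      have h4 := J_sq (hqm m)
      rw [← pow_mul, ← pow_succ] at h4
      have h5 : J (q ^ 2 ^ (m + 1)) = (rho (q ^ 2 ^ (m + 1)) ^ 2) ^ 2 := by
        rw [J]; ring
      rw [← h5, h4, ← ih]
      have hne := hk.neNeg m z hzΩ
      rw [eq_div_iff (pow_ne_zero 2 hne)]
      exact h3
  -- the logarithms are principal
  have hball2 : ∀ m, ∀ w ∈ ball z₀ s, ‖(1 + k m w) / 2 - 1‖ ≤ 1 / 2 := by
    intro m w hw
    have h3 := hnear m w hw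
    have e1 : (1 + k m w) / 2 - 1 = (k m w - 1) / 2 := by ring
    rw [e1, norm_div]
    have : ‖(2 : ℂ)‖ = 2 := by simp
    rw [this]; linarith
  have hlog : ∀ m, l m z = log ((1 + k m z) / 2) := by
    intro m
    exact l4_principal (convex_ball z₀ s).isPreconnected ((hl.diff m).continuousOn.mono hsΩ)
      (g := fun w => (1 + k m w) / 2)
      ((((hk.diff m).const_add 1).div_const 2).continuousOn.mono hsΩ)
      (fun w hw => hl.eq m w (hsΩ hw)) (hball2 m) (mem_ball_self hs) (hl.base m) z hzs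
  have hG : l4G k l 0 z = q := by
    rw [hq2, l4G]
    have e1 : k 0 z ^ 2 = J q := by
      rw [hJq, hk.zero z hzΩ]
    rw [e1]
    congr 3
    rw [l4S]
    refine tsum_congr fun m => ?_
    rw [zero_add, hlog m, hmatch m]
  rw [hG, hJq]
  exact ⟨rfl, hqη⟩

theorem lift_far (ε : ℝ) (hε : 0 < ε) : ∃ δ : ℝ, 0 < δ ∧ ∀ (Ω : Set ℂ) (s₀ : ℂ) (f : ℂ → ℂ),
    Convex ℝ Ω → IsOpen Ω → s₀ ∈ Ω → DifferentiableOn ℂ f Ω → (∀ s ∈ Ω, f s ≠ 0 ∧ f s ≠ 1) →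
    ‖f s₀ - 1‖ < δ →
    ∃ t : ℂ → ℂ, DifferentiableOn ℂ t Ω ∧ (∀ s ∈ Ω, ‖t s‖ < 1 ∧ J (t s) = f s) ∧ ‖t s₀‖ < ε := by
  obtain ⟨δ₁, hδ₁, hδ1, hnome⟩ := nome_formula
  have hη : 0 < min δ₁ ε := lt_min hδ₁ hε
  obtain ⟨δ₂, hδ₂, hon⟩ := Metric.mem_nhds_iff.mp (l4_J_onto hη)
  refine ⟨min δ₂ (1 / 32), lt_min hδ₂ (by norm_num), ?_⟩
  intro Ω s₀ f hc ho hs hf h0 h1
  obtain ⟨k, hk⟩ := agm_ex hc ho hs hf h0 (h1.le.trans (min_le_right _ _))
  have hex : ∀ m, ∃ l : ℂ → ℂ, DifferentiableOn ℂ l Ω ∧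
      (∀ z ∈ Ω, exp (l z) = (1 + k m z) / 2) ∧ l s₀ = log ((1 + k m s₀) / 2) := by
    intro m
    refine exists_log ho hs (hc.starConvex hs) (((hk.diff m).const_add 1).div_const 2) ?_ ?_
    · intro z hz
      exact div_ne_zero (hk.neNeg m z hz) two_ne_zero
    · rw [exp_log (div_ne_zero (hk.neNeg m s₀ hs) two_ne_zero)]
  choose l hl1 hl2 hl3 using hex
  have hl : LftLog Ω s₀ k l := ⟨hl1, hl2, hl3⟩
  have hd := lft_G_diff hc ho hs hk hl
  have hlt : ∀ z ∈ Ω, ‖l4G k l 0 z‖ < 1 := fun z hz' => lft_G_lt hc ho hs hk hl hz'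
  have hloc := lft_local ho hs hf ⟨hδ1, hnome⟩ (min_le_left δ₁ ε) hon
    (lt_of_lt_of_le h1 (min_le_left _ _)) hk hl
  refine ⟨l4G k l 0, hd, ?_, lt_of_lt_of_le hloc.self_of_nhds.2 (min_le_right _ _)⟩
  have hJd : DifferentiableOn ℂ (fun z => J (l4G k l 0 z)) Ω :=
    J_diff.comp hd (fun z hz' => by rw [mem_ball_zero_iff]; exact hlt z hz')
  have heq := (hJd.analyticOnNhd ho).eqOn_of_preconnected_of_eventuallyEq
    (hf.analyticOnNhd ho) hc.isPreconnected hs (hloc.mono fun z hz => hz.1)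
  intro z hz'
  exact ⟨hlt z hz', heq hz'⟩

end Pool.Agent.CZ
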