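import Pool.Agent.Lib.MP_2b3e36_an.CZ.Defs
import Pool.Agent.Lib.MP_2b3e36_an.Ex.L2

/-!
LiftA. The arithmetic-geometric sequence of a function without the values `0`, `1` on a convex open set,
with a point `s₀` where the function is near `1`: adaptation of Ex/L1 and Ex/L2.

Proof. `agm_ex`: `κ` = logarithm of `f` on `Ω` (`exists_log`) with `κ s₀ = log (f s₀)` (principal; `‖f s₀ - 1‖ ≤ 1/32`, so
`‖κ s₀‖ ≤ 1/16`), `k 0 = exp (κ/2)`, `‖k 0 s₀ - 1‖ ≤ 1/8`, `k 0 ^2 = f`. Given `k m` holomorphic, zero free, `(k m)^2 ≠ 1` on `Ω`,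
`‖k m s₀ - 1‖ ≤ 1/8`: `1 + k m ≠ 0`; `g = 4 k m/(1 + k m)^2` is zero free and `g - 1 = -((k m - 1)/(1 + k m))^2` (`l2_rec`), so
`‖g s₀ - 1‖ ≤ 1/64`; take the square root of `g` with the value near `1` at `s₀` (`exists_log`, `c = log (g s₀)`); if
`(k (m+1))^2 = 1` at a point then `(k m - 1)^2 = 0` there, impossible. As in `agm_exists` with a recursion on a subtype.
`agm_near` = `l4_near` (Ex/L4): near `s₀` `‖k 0 - 1‖ ≤ 1/4` on a ball, then `l2_sign` and induction.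
`agm_tends` = `l2_base`, `l2_closed`, `l2_good`, `agm_tendsto` (Ex/L2) with `z ≠ z₀` replaced by nothing (here `f ≠ 1` everywhere,
so the ball need not avoid a point); for the base: on the ball of `agm_near`
`‖k (m+1) w - 1‖ ≤ ‖k m w - 1‖^2 ≤ (1/4) ‖k m w - 1‖`.
-/

set_option autoImplicit false

open Complex Set Filter Topology Metric

namespace Pool.Agent.CZ

open Pool.Agent.Choc

/-- the sequence of the arithmetic-geometric mean -/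
structure AGM (Ω : Set ℂ) (s₀ : ℂ) (f : ℂ → ℂ) (k : ℕ → ℂ → ℂ) : Prop where
  diff : ∀ m, DifferentiableOn ℂ (k m) Ω
  zero : ∀ z ∈ Ω, k 0 z ^ 2 = f z
  step : ∀ m, ∀ z ∈ Ω, k (m + 1) z ^ 2 * (1 + k m z) ^ 2 = 4 * k m z
  ne0 : ∀ m, ∀ z ∈ Ω, k m z ≠ 0
  neNeg : ∀ m, ∀ z ∈ Ω, 1 + k m z ≠ 0
  ne1 : ∀ m, ∀ z ∈ Ω, k m z ^ 2 ≠ 1
  near : ∀ m, ‖k m s₀ - 1‖ ≤ 1 / 8

/-- a square root near `1` at `s₀` -/
theorem la_sqrt {Ω : Set ℂ} (hc : Convex ℝ Ω) (ho : IsOpen Ω) {s₀ : ℂ} (hs : s₀ ∈ Ω)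
    {g : ℂ → ℂ} (hg : DifferentiableOn ℂ g Ω) (h0 : ∀ z ∈ Ω, g z ≠ 0) (h1 : ‖g s₀ - 1‖ ≤ 1 / 8) :
    ∃ s : ℂ → ℂ, DifferentiableOn ℂ s Ω ∧ ‖s s₀ - 1‖ ≤ 1 / 8 ∧ ∀ z ∈ Ω, s z ^ 2 = g z := by
  obtain ⟨l, hl, hle, hl0⟩ := exists_log ho hs (hc.starConvex hs) hg h0
    (c := log (g s₀)) (exp_log (h0 s₀ hs))
  have hsq : ∀ z ∈ Ω, exp (l z / 2) ^ 2 = g z := by
    intro z hzΩ
    rw [← exp_nat_mul, ← hle z hzΩ]
    congr 1
    push_cast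
    ring
  refine ⟨fun z => exp (l z / 2), (hl.div_const 2).cexp, ?_, hsq⟩
  have hpos : 0 < (exp (l s₀ / 2)).re := by
    rw [exp_re]
    refine mul_pos (Real.exp_pos _) (Real.cos_pos_of_mem_Ioo ?_)
    have h2 : (l s₀ / 2).im = (log (g s₀)).im / 2 := by
      rw [hl0]
      have : (log (g s₀) / 2) = ((1 / 2 : ℝ) : ℂ) * log (g s₀) := by push_cast; ring
      rw [this, im_ofReal_mul]
      ring
    rw [h2, log_im]
    have h3 := neg_pi_lt_arg (g s₀)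
    have h4 : arg (g s₀) < Real.pi := by
      refine lt_of_le_of_ne (arg_le_pi _) ?_
      intro h5
      rw [arg_eq_pi_iff] at h5
      have h6 := abs_re_le_norm (g s₀ - 1)
      rw [sub_re, one_re] at h6
      have h7 := (abs_le.mp (h6.trans h1)).1
      linarith [h5.1]
    constructor <;> linarith
  have h6 : 1 ≤ ‖exp (l s₀ / 2) + 1‖ := by
    have h7 := abs_re_le_norm (exp (l s₀ / 2) + 1)
    rw [add_re, one_re] at h7
    have h8 := le_abs_self ((exp (l s₀ / 2)).re + 1)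
    linarith
  calc ‖exp (l s₀ / 2) - 1‖ ≤ ‖exp (l s₀ / 2) - 1‖ * ‖exp (l s₀ / 2) + 1‖ :=
        le_mul_of_one_le_right (norm_nonneg _) h6
    _ = ‖exp (l s₀ / 2) ^ 2 - 1‖ := by rw [← norm_mul]; congr 1; ring
    _ ≤ 1 / 8 := by rw [hsq s₀ hs]; exact h1

/-- one step of the sequence -/
structure LAP (Ω : Set ℂ) (s₀ : ℂ) (k : ℂ → ℂ) : Prop where
  diff : DifferentiableOn ℂ k Ω
  near : ‖k s₀ - 1‖ ≤ 1 / 8
  ne0 : ∀ z ∈ Ω, k z ≠ 0
  ne1 : ∀ z ∈ Ω, k z ^ 2 ≠ 1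

theorem LAP.neNeg {Ω : Set ℂ} {s₀ : ℂ} {k : ℂ → ℂ} (h : LAP Ω s₀ k) :
    ∀ z ∈ Ω, 1 + k z ≠ 0 := by
  intro z hz h1
  have h2 : k z = -1 := by linear_combination h1
  exact h.ne1 z hz (by rw [h2]; norm_num)

theorem la_one_le {b : ℂ} {δ : ℝ} (hδ : δ ≤ 1) (h : ‖b - 1‖ ≤ δ) : 1 ≤ ‖1 + b‖ := by
  have h6 : (1 : ℂ) + b = 2 + (b - 1) := by ring
  have h7 := norm_sub_norm_le (2 : ℂ) (-(b - 1))
  rw [norm_neg, sub_neg_eq_add, ← h6] at h7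
  have h8 : ‖(2 : ℂ)‖ = 2 := by simp
  rw [h8] at h7
  linarith

theorem la_rec_le {a b : ℂ} (h : a ^ 2 * (1 + b) ^ 2 = 4 * b) {δ : ℝ} (hδ : δ ≤ 1)
    (hb : ‖b - 1‖ ≤ δ) : ‖a ^ 2 - 1‖ ≤ ‖b - 1‖ ^ 2 := by
  have h5 := la_one_le hδ hb
  have hne : 1 + b ≠ 0 := by
    intro h0
    rw [h0, norm_zero] at h5
    linarith
  rw [l2_rec hne h, norm_neg, norm_div, norm_pow, norm_pow]
  have h9 : 1 ≤ ‖1 + b‖ ^ 2 := one_le_pow₀ h5
  rw [div_le_iff₀ (by positivity)]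
  exact le_mul_of_one_le_right (by positivity) h9

theorem la_step {Ω : Set ℂ} (hc : Convex ℝ Ω) (ho : IsOpen Ω) {s₀ : ℂ} (hs : s₀ ∈ Ω)
    {k : ℂ → ℂ} (h : LAP Ω s₀ k) :
    ∃ k' : ℂ → ℂ, LAP Ω s₀ k' ∧ ∀ z ∈ Ω, k' z ^ 2 * (1 + k z) ^ 2 = 4 * k z := by
  have hneg := h.neNeg
  have hd : DifferentiableOn ℂ (fun z => 4 * k z / (1 + k z) ^ 2) Ω := by
    refine DifferentiableOn.div (h.diff.const_mul 4) ((h.diff.const_add 1).pow 2) ?_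
    intro z hz
    exact pow_ne_zero 2 (hneg z hz)
  have hn : ∀ z ∈ Ω, 4 * k z / (1 + k z) ^ 2 ≠ 0 := by
    intro z hz
    exact div_ne_zero (mul_ne_zero (by norm_num) (h.ne0 z hz)) (pow_ne_zero 2 (hneg z hz))
  have hnear : ‖4 * k s₀ / (1 + k s₀) ^ 2 - 1‖ ≤ 1 / 8 := by
    have h2 : (1 + k s₀) ^ 2 ≠ 0 := pow_ne_zero 2 (hneg s₀ hs)
    have e1 : 4 * k s₀ / (1 + k s₀) ^ 2 - 1 = -((k s₀ - 1) ^ 2 / (1 + k s₀) ^ 2) := by
      rw [div_sub_one h2, ← neg_div]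
      congr 1
      ring
    have h5 := la_one_le (by norm_num) h.near
    have h9 : 1 ≤ ‖1 + k s₀‖ ^ 2 := one_le_pow₀ h5
    rw [e1, norm_neg, norm_div, norm_pow, norm_pow, div_le_iff₀ (by positivity)]
    have h10 := h.near
    have h11 := norm_nonneg (k s₀ - 1)
    nlinarith
  obtain ⟨s, hsd, hs0, hse⟩ := la_sqrt hc ho hs hd hn hnear
  have hstep : ∀ z ∈ Ω, s z ^ 2 * (1 + k z) ^ 2 = 4 * k z := by
    intro z hz
    rw [hse z hz, div_mul_cancel₀ _ (pow_ne_zero 2 (hneg z hz))]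
  refine ⟨s, ⟨hsd, hs0, ?_, ?_⟩, hstep⟩
  · intro z hz h1
    have := hse z hz
    rw [h1] at this
    exact hn z hz (by rw [← this]; norm_num)
  · intro z hz h1
    have h2 := hstep z hz
    rw [h1] at h2
    have h3 : (1 - k z) ^ 2 = 0 := by linear_combination h2
    have h4 : 1 - k z = 0 := by
      exact pow_eq_zero_iff (two_ne_zero) |>.mp h3
    have h5 : k z = 1 := by linear_combination -h4
    exact h.ne1 z hz (by rw [h5]; norm_num)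

theorem agm_ex {Ω : Set ℂ} (hc : Convex ℝ Ω) (ho : IsOpen Ω) {s₀ : ℂ} (hs : s₀ ∈ Ω)
    {f : ℂ → ℂ} (hf : DifferentiableOn ℂ f Ω) (h0 : ∀ z ∈ Ω, f z ≠ 0 ∧ f z ≠ 1)
    (h1 : ‖f s₀ - 1‖ ≤ 1 / 32) : ∃ k : ℕ → ℂ → ℂ, AGM Ω s₀ f k := by
  obtain ⟨k₀, hk₀, hk₀0, hk₀e⟩ := la_sqrt hc ho hs hf (fun z hz => (h0 z hz).1)
    (h1.trans (by norm_num))
  have hP : LAP Ω s₀ k₀ := by
    refine ⟨hk₀, hk₀0, ?_, ?_⟩
    · intro z hz h2
      have := hk₀e z hz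
      rw [h2] at this
      exact (h0 z hz).1 (by rw [← this]; norm_num)
    · intro z hz h2
      rw [hk₀e z hz] at h2
      exact (h0 z hz).2 h2
  have hst : ∀ s : {k : ℂ → ℂ // LAP Ω s₀ k}, ∃ s' : {k : ℂ → ℂ // LAP Ω s₀ k},
      ∀ z ∈ Ω, s'.1 z ^ 2 * (1 + s.1 z) ^ 2 = 4 * s.1 z := by
    intro s
    obtain ⟨k', hk', he⟩ := la_step hc ho hs s.2
    exact ⟨⟨k', hk'⟩, he⟩
  choose next hnext using hst
  let seq : ℕ → {k : ℂ → ℂ // LAP Ω s₀ k} := fun m => Nat.rec ⟨k₀, hP⟩ (fun _ s => next s) m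
  refine ⟨fun m => (seq m).1, ?_⟩
  exact
    { diff := fun m => (seq m).2.diff
      zero := fun z hz => hk₀e z hz
      step := fun m z hz => hnext (seq m) z hz
      ne0 := fun m => (seq m).2.ne0
      neNeg := fun m => (seq m).2.neNeg
      ne1 := fun m => (seq m).2.ne1
      near := fun m => (seq m).2.near }

theorem la_re {b : ℂ} (h : ‖b - 1‖ ≤ 1 / 8) : 0 < b.re := by
  have h6 := abs_re_le_norm (b - 1)
  rw [sub_re, one_re] at h6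
  have h7 := (abs_le.mp (h6.trans h)).1
  linarith

theorem la_nhds {Ω : Set ℂ} (ho : IsOpen Ω) {s₀ : ℂ} (hs : s₀ ∈ Ω)
    {f : ℂ → ℂ} {k : ℕ → ℂ → ℂ} (hk : AGM Ω s₀ f k) :
    ∃ s > 0, ball s₀ s ⊆ Ω ∧ ∀ m : ℕ, ∀ w ∈ ball s₀ s, ‖k m w - 1‖ ≤ (1 / 4) ^ (m + 1) := by
  have hc0 : ContinuousAt (k 0) s₀ := ((hk.diff 0).continuousOn.continuousAt (ho.mem_nhds hs))
  have h1 : ∀ᶠ z in 𝓝 s₀, ‖k 0 z - 1‖ < 1 / 4 := by
    have h2 : Tendsto (fun z => ‖k 0 z - 1‖) (𝓝 s₀) (𝓝 ‖k 0 s₀ - 1‖) :=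
      (hc0.sub tendsto_const_nhds).norm
    exact h2.eventually (gt_mem_nhds (lt_of_le_of_lt (hk.near 0) (by norm_num)))
  obtain ⟨s, hs', hsub⟩ := Metric.mem_nhds_iff.mp (h1.and (ho.mem_nhds hs))
  have hsΩ : ball s₀ s ⊆ Ω := fun w hw => (hsub hw).2
  refine ⟨s, hs', hsΩ, ?_⟩
  intro m
  induction m with
  | zero =>
    intro w hw
    have := (hsub hw).1
    simp only [zero_add, pow_one]
    exact this.le
  | succ m ih =>
    have hδ : ((1 : ℝ) / 4) ^ (m + 1) ≤ 1 / 4 := by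
      rw [pow_succ]
      have : ((1 : ℝ) / 4) ^ m ≤ 1 := pow_le_one₀ (by norm_num) (by norm_num)
      linarith
    have hδ0 : (0 : ℝ) < (1 / 4) ^ (m + 1) := by positivity
    have hδ' : ((1 : ℝ) / 4) ^ (m + 1 + 1) = (1 / 4) ^ (m + 1) * (1 / 4) := pow_succ _ _
    refine l2_sign (convex_ball s₀ s).isPreconnected
      ((hk.diff (m + 1)).continuousOn.mono hsΩ) (mem_ball_self hs') (la_re (hk.near (m + 1))) ?_ ?_
    · rw [hδ']; linarith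
    · intro w hw
      have h4 := ih w hw
      refine (la_rec_le (hk.step m w (hsΩ hw)) (hδ.trans (by norm_num)) h4).trans ?_
      rw [hδ', sq]
      exact mul_le_mul h4 (h4.trans hδ) (norm_nonneg _) hδ0.le

theorem agm_near {Ω : Set ℂ} (ho : IsOpen Ω) {s₀ : ℂ} (hs : s₀ ∈ Ω)
    {f : ℂ → ℂ} {k : ℕ → ℂ → ℂ} (hk : AGM Ω s₀ f k) :
    ∃ s > 0, ball s₀ s ⊆ Ω ∧ ∀ m : ℕ, ∀ w ∈ ball s₀ s, ‖k m w - 1‖ ≤ 1 / 4 := by
  obtain ⟨s, hs', hsΩ, h⟩ := la_nhds ho hs hk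
  refine ⟨s, hs', hsΩ, ?_⟩
  intro m w hw
  refine (h m w hw).trans ?_
  rw [pow_succ]
  have : ((1 : ℝ) / 4) ^ m ≤ 1 := pow_le_one₀ (by norm_num) (by norm_num)
  linarith

theorem la_base {Ω : Set ℂ} (ho : IsOpen Ω) {s₀ : ℂ} (hs : s₀ ∈ Ω)
    {f : ℂ → ℂ} {k : ℕ → ℂ → ℂ} (hk : AGM Ω s₀ f k) : L2Good Ω k s₀ := by
  obtain ⟨s, hs', hsΩ, h⟩ := la_nhds ho hs hk
  refine ⟨s, hs', hsΩ, ?_⟩
  intro ε hε
  have hlim : Tendsto (fun m : ℕ => ((1 : ℝ) / 4) ^ (m + 1)) atTop (𝓝 0) :=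
    (tendsto_pow_atTop_nhds_zero_of_lt_one (by norm_num) (by norm_num)).comp (tendsto_add_atTop_nat 1)
  filter_upwards [hlim.eventually (gt_mem_nhds hε)] with m hm w hw
  exact (h m w hw).trans hm.le

theorem la_closed {Ω : Set ℂ} (ho : IsOpen Ω) {s₀ : ℂ}
    {f : ℂ → ℂ} {k : ℕ → ℂ → ℂ} (hk : AGM Ω s₀ f k) {zs : ℂ} (hzs : zs ∈ Ω)
    (hcl : zs ∈ closure {z | L2Good Ω k z}) : L2Good Ω k zs := by
  obtain ⟨R, hR, hRsub⟩ := Metric.mem_nhds_iff.mp (ho.mem_nhds hzs)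
  obtain ⟨z₁, hz₁, hdist⟩ := Metric.mem_closure_iff.mp hcl (R / 16) (by positivity)
  obtain ⟨s, hs, hsΩ, hsconv⟩ := hz₁
  have hdist' : dist z₁ zs < R / 16 := by rwa [dist_comm]
  have hb : ball z₁ (R / 2) ⊆ ball zs R := by
    intro w hw
    rw [mem_ball] at hw ⊢
    calc dist w zs ≤ dist w z₁ + dist z₁ zs := dist_triangle _ _ _
      _ < R := by linarith
  have hbΩ : ball z₁ (R / 2) ⊆ Ω := fun w hw => hRsub (hb hw)
  have hz₁Ω : z₁ ∈ Ω := hbΩ (mem_ball_self (by positivity))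
  obtain ⟨M', hM'⟩ := Pool.Agent.Lib.MP_e4ee3e_an.schottky01 2
  -- k m z₁ → 1
  have hk1 : ∀ ε > 0, ∀ᶠ m in atTop, ‖k m z₁ - 1‖ ≤ ε := by
    intro ε hε
    filter_upwards [hsconv ε hε] with m hm
    exact hm z₁ (mem_ball_self hs)
  have hbd : ∀ᶠ m in atTop, ∀ w ∈ ball z₁ (R / 4), ‖k m w ^ 2 - 1‖ ≤ M' + 1 := by
    filter_upwards [hk1 (1 / 8) (by norm_num)] with m hm w hw
    have hd : DifferentiableOn ℂ (fun w => k m w ^ 2) (ball z₁ (R / 2)) :=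
      ((hk.diff m).mono hbΩ).pow 2
    have hsq : ‖k m z₁ ^ 2 - 1‖ ≤ 1 / 2 := by
      have e1 : k m z₁ ^ 2 - 1 = (k m z₁ - 1) * (2 + (k m z₁ - 1)) := by ring
      rw [e1, norm_mul]
      have e2 : ‖(2 : ℂ) + (k m z₁ - 1)‖ ≤ 2 + 1 / 8 := by
        refine (norm_add_le _ _).trans ?_
        have : ‖(2 : ℂ)‖ = 2 := by simp
        rw [this]; linarith
      calc ‖k m z₁ - 1‖ * ‖(2 : ℂ) + (k m z₁ - 1)‖ ≤ (1 / 8) * (2 + 1 / 8) :=
            mul_le_mul hm e2 (norm_nonneg _) (by norm_num)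
        _ ≤ 1 / 2 := by norm_num
    have h1 : ‖k m z₁ ^ 2‖ ≤ 2 := by
      have e3 : k m z₁ ^ 2 = 1 + (k m z₁ ^ 2 - 1) := by ring
      have e4 := norm_add_le (1 : ℂ) (k m z₁ ^ 2 - 1)
      rw [← e3, norm_one] at e4
      linarith
    have h2 : 1 / 2 ≤ ‖k m z₁ ^ 2‖ := by
      have e4 := norm_sub_norm_le (1 : ℂ) (1 - k m z₁ ^ 2)
      rw [norm_one, sub_sub_cancel, norm_sub_rev] at e4
      linarith
    have h3 := hM' z₁ (R / 2) (fun w => k m w ^ 2) (by positivity) hd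
      (by
        intro z hz
        refine ⟨pow_ne_zero 2 (hk.ne0 m z (hbΩ hz)), ?_⟩
        exact hk.ne1 m z (hbΩ hz)) h2 h1 w
      (by rw [show R / 2 / 2 = R / 4 by ring]; exact hw)
    calc ‖k m w ^ 2 - 1‖ ≤ ‖k m w ^ 2‖ + ‖(1 : ℂ)‖ := norm_sub_le _ _
      _ ≤ M' + 1 := by rw [norm_one]; linarith
  have hsm : ∀ ε > 0, ∀ᶠ m in atTop, ∀ w ∈ ball z₁ s, ‖k m w ^ 2 - 1‖ ≤ ε := by
    intro ε hε
    filter_upwards [hsconv (min (ε / 3) 1) (lt_min (by positivity) one_pos)] with m hm w hw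
    have h4 := hm w hw
    have h5 : ‖k m w - 1‖ ≤ ε / 3 := h4.trans (min_le_left _ _)
    have h6 : ‖k m w - 1‖ ≤ 1 := h4.trans (min_le_right _ _)
    have e1 : k m w ^ 2 - 1 = (k m w - 1) * (2 + (k m w - 1)) := by ring
    rw [e1, norm_mul]
    have e2 : ‖(2 : ℂ) + (k m w - 1)‖ ≤ 3 := by
      refine (norm_add_le _ _).trans ?_
      have : ‖(2 : ℂ)‖ = 2 := by simp
      rw [this]; linarith
    calc ‖k m w - 1‖ * ‖(2 : ℂ) + (k m w - 1)‖ ≤ (ε / 3) * 3 :=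
          mul_le_mul h5 e2 (norm_nonneg _) (by positivity)
      _ = ε := by ring
  have hb4 : ball z₁ (R / 4) ⊆ Ω := (ball_subset_ball (by linarith)).trans hbΩ
  have hcirc := l2_circles (h := fun m w => k m w ^ 2 - 1) (by positivity : 0 < R / 4) hs
    (Filter.Eventually.of_forall fun m => (((hk.diff m).mono hb4).pow 2).sub_const 1) hbd hsm
  refine ⟨R / 16, by positivity, ?_, ?_⟩
  · exact (ball_subset_ball (by linarith)).trans (fun w hw => hRsub hw)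
  · intro ε hε
    filter_upwards [hcirc (min ε (1 / 2)) (lt_min hε (by norm_num)), hk1 (1 / 2) (by norm_num)]
      with m hm hm1 w hw
    have hw' : w ∈ ball z₁ (R / 4 / 2) := by
      rw [mem_ball] at hw ⊢
      calc dist w z₁ ≤ dist w zs + dist zs z₁ := dist_triangle _ _ _
        _ < R / 4 / 2 := by linarith
    have hpos : 0 < (k m z₁).re := by
      have h7 := abs_re_le_norm (k m z₁ - 1)
      rw [sub_re, one_re] at h7
      have h8 := (abs_le.mp (h7.trans hm1)).1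
      linarith
    have h9 := l2_sign (convex_ball z₁ (R / 4 / 2)).isPreconnected
      ((hk.diff m).continuousOn.mono ((ball_subset_ball (by linarith)).trans hb4))
      (mem_ball_self (by positivity)) hpos
      (lt_of_le_of_lt (min_le_right _ _) (by norm_num) : min ε (1 / 2) < (1 : ℝ)) hm w hw'
    exact h9.trans (min_le_left _ _)

theorem la_good {Ω : Set ℂ} (hc : Convex ℝ Ω) (ho : IsOpen Ω) {s₀ : ℂ} (hs : s₀ ∈ Ω)
    {f : ℂ → ℂ} {k : ℕ → ℂ → ℂ} (hk : AGM Ω s₀ f k) : ∀ z ∈ Ω, L2Good Ω k z := by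
  have hopen : IsOpen {z | L2Good Ω k z} := by
    rw [Metric.isOpen_iff]
    rintro z ⟨s, hs, hsΩ, hconv⟩
    refine ⟨s, hs, ?_⟩
    intro w hw
    have hd : 0 < s - dist w z := by rw [mem_ball] at hw; linarith
    have hsub : ball w (s - dist w z) ⊆ ball z s := by
      intro v hv
      rw [mem_ball] at hv ⊢
      calc dist v z ≤ dist v w + dist w z := dist_triangle _ _ _
        _ < s := by linarith
    refine ⟨s - dist w z, hd, hsub.trans hsΩ, ?_⟩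
    intro ε hε
    filter_upwards [hconv ε hε] with m hm v hv
    exact hm v (hsub hv)
  refine hc.isPreconnected.subset_of_closure_inter_subset hopen ⟨s₀, hs, la_base ho hs hk⟩ ?_
  rintro z ⟨hzc, hzΩ⟩
  exact la_closed ho hk hzΩ hzc

theorem agm_tends {Ω : Set ℂ} (hc : Convex ℝ Ω) (ho : IsOpen Ω) {s₀ : ℂ} (hs : s₀ ∈ Ω)
    {f : ℂ → ℂ} {k : ℕ → ℂ → ℂ} (hk : AGM Ω s₀ f k) :
    TendstoLocallyUniformlyOn k (fun _ => (1 : ℂ)) atTop Ω := by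
  rw [Metric.tendstoLocallyUniformlyOn_iff]
  intro ε hε z hzΩ
  obtain ⟨s, hs, hsΩ, hconv⟩ := la_good hc ho hs hk z hzΩ
  refine ⟨ball z s, mem_nhdsWithin_of_mem_nhds (ball_mem_nhds z hs), ?_⟩
  filter_upwards [hconv (ε / 2) (by positivity)] with m hm w hw
  rw [dist_comm, dist_eq_norm]
  exact lt_of_le_of_lt (hm w hw) (by linarith)

end Pool.Agent.CZ
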