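import Pool.Agent.Lib.MP_2b3e36_an.CZ.Lift
import Pool.Agent.Lib.MP_2b3e36_an.CZ.JLoc

/-!
LiftAnn. The lift on an annulus: lift on the strip `{s : log a < re s < log R}` and periodicity.
-/

set_option autoImplicit false

open Complex Set Filter Topology Metric

namespace Pool.Agent.CZ

open Pool.Agent.Choc

/-- the strip -/
def liftannS (a R : ℝ) : Set ℂ := Complex.re ⁻¹' Ioo (Real.log a) (Real.log R)

theorem liftann_open (a R : ℝ) : IsOpen (liftannS a R) := isOpen_Ioo.preimage continuous_re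

theorem liftann_convex (a R : ℝ) : Convex ℝ (liftannS a R) :=
  (convex_Ioo (Real.log a) (Real.log R)).linear_preimage Complex.reLm

theorem liftann_exp {a R : ℝ} (ha : 0 < a) (hR : 0 < R) {s : ℂ} (hs : s ∈ liftannS a R) :
    exp s ∈ Ann a R := by
  obtain ⟨h1, h2⟩ := hs
  rw [Ann, mem_setOf_eq, norm_exp]
  exact ⟨(Real.log_lt_iff_lt_exp ha).1 h1, (Real.lt_log_iff_exp_lt hR).1 h2⟩

theorem liftann_log {a R : ℝ} (ha : 0 < a) {z : ℂ} (hz : z ∈ Ann a R) :
    z ≠ 0 ∧ log z ∈ liftannS a R := by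
  obtain ⟨h1, h2⟩ := hz
  have h3 : 0 < ‖z‖ := ha.trans h1
  refine ⟨norm_pos_iff.1 h3, ?_⟩
  change (log z).re ∈ Ioo (Real.log a) (Real.log R)
  rw [log_re]
  exact ⟨Real.log_lt_log ha h1, Real.log_lt_log h3 h2⟩

/-- the identity theorem on the strip -/
theorem liftann_ident {a b R : ℝ} (ha : 0 < a) (hab : a < b) (hbR : b < R) {T₁ T₂ : ℂ → ℂ}
    (h₁ : DifferentiableOn ℂ T₁ (liftannS a R)) (h₂ : DifferentiableOn ℂ T₂ (liftannS a R))
    (h : ∀ s ∈ liftannS a R, s.re ≤ Real.log b → T₁ s = T₂ s) : EqOn T₁ T₂ (liftannS a R) := by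
  have h1 : Real.log a < Real.log b := Real.log_lt_log ha hab
  have h2 : Real.log b < Real.log R := Real.log_lt_log (ha.trans hab) hbR
  set s₁ : ℂ := (((Real.log a + Real.log b) / 2 : ℝ) : ℂ) with hs₁
  have h3 : s₁.re = (Real.log a + Real.log b) / 2 := by rw [hs₁, ofReal_re]
  have h4 : liftannS a b ∈ 𝓝 s₁ := by
    refine (liftann_open a b).mem_nhds ?_
    change s₁.re ∈ Ioo (Real.log a) (Real.log b)
    rw [h3]
    constructor <;> linarith
  have h5 : s₁ ∈ liftannS a R := by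
    change s₁.re ∈ Ioo (Real.log a) (Real.log R)
    rw [h3]
    constructor <;> linarith
  have hev : T₁ =ᶠ[𝓝 s₁] T₂ := by
    filter_upwards [h4] with s hs
    exact h s ⟨hs.1, hs.2.trans h2⟩ hs.2.le
  exact (h₁.analyticOnNhd (liftann_open a R)).eqOn_of_preconnected_of_eventuallyEq
    (h₂.analyticOnNhd (liftann_open a R)) (liftann_convex a R).isPreconnected h5 hev

/-- periodic functions on the strip are functions on the annulus -/
theorem liftann_desc {a R : ℝ} (ha : 0 < a) (hR : 0 < R) {T : ℂ → ℂ}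
    (hT : DifferentiableOn ℂ T (liftannS a R))
    (hper : ∀ s ∈ liftannS a R, T (s + 2 * Real.pi * I) = T s) :
    DifferentiableOn ℂ (fun z => T (log z)) (Ann a R) ∧
      ∀ s ∈ liftannS a R, T (log (exp s)) = T s := by
  have hre : ∀ (s : ℂ) (n : ℤ), (s + n * (2 * Real.pi * I)).re = s.re := by
    intro s n
    have h1 : (n : ℂ) * (2 * Real.pi * I) = ((n * (2 * Real.pi) : ℝ) : ℂ) * I := by
      push_cast; ring
    rw [h1, add_re, re_ofReal_mul, I_re, mul_zero, add_zero]
  have hmem : ∀ (s : ℂ) (n : ℤ), s ∈ liftannS a R → s + n * (2 * Real.pi * I) ∈ liftannS a R := by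
    intro s n hs
    change (s + n * (2 * Real.pi * I)).re ∈ Ioo (Real.log a) (Real.log R)
    rw [hre]
    exact hs
  have hper' : ∀ (n : ℤ), ∀ s ∈ liftannS a R, T (s + n * (2 * Real.pi * I)) = T s := by
    intro n
    induction n using Int.induction_on with
    | zero => intro s _; simp
    | succ n ih =>
      intro s hs
      have h1 : s + ((n : ℤ) + 1 : ℤ) * (2 * Real.pi * I) =
          (s + (n : ℤ) * (2 * Real.pi * I)) + 2 * Real.pi * I := by push_cast; ring
      rw [h1, hper _ (hmem s n hs), ih s hs]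
    | pred n ih =>
      intro s hs
      have h1 : s + (-(n : ℤ) : ℤ) * (2 * Real.pi * I) =
          (s + (-(n : ℤ) - 1 : ℤ) * (2 * Real.pi * I)) + 2 * Real.pi * I := by push_cast; ring
      rw [← ih s hs, h1, hper _ (hmem s _ hs)]
  have hlog : ∀ s ∈ liftannS a R, T (log (exp s)) = T s := by
    intro s hs
    obtain ⟨n, hn⟩ := exp_eq_exp_iff_exists_int.1 (exp_log (exp_ne_zero s))
    rw [hn, hper' n s hs]
  refine ⟨fun z hz => ?_, hlog⟩
  obtain ⟨hz0, hzs⟩ := liftann_log ha hz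
  -- a local logarithm
  set L : ℂ → ℂ := fun w => log (w / z) + log z with hL
  have hLz : L z = log z := by simp [hL, div_self hz0]
  have hLd : DifferentiableAt ℂ L z := by
    have h1 : DifferentiableAt ℂ (fun w => log (w / z)) z := by
      refine DifferentiableAt.clog (by fun_prop) ?_
      rw [div_self hz0]
      exact one_mem_slitPlane
    exact h1.add_const _
  have hTd : DifferentiableAt ℂ T (L z) := by
    rw [hLz]
    exact (hT _ hzs).differentiableAt ((liftann_open a R).mem_nhds hzs)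
  have hcomp : DifferentiableAt ℂ (fun w => T (L w)) z :=
    DifferentiableAt.comp z hTd hLd
  have hev : (fun w => T (log w)) =ᶠ[𝓝 z] fun w => T (L w) := by
    have h1 : ∀ᶠ w in 𝓝 z, L w ∈ liftannS a R := by
      have h2 : Tendsto L (𝓝 z) (𝓝 (L z)) := hLd.continuousAt
      exact h2.eventually ((liftann_open a R).mem_nhds (by rw [hLz]; exact hzs))
    have h3 : ∀ᶠ w in 𝓝 z, w ≠ 0 := eventually_ne_nhds hz0
    filter_upwards [h1, h3] with w hw hw0
    have h4 : exp (L w) = w := by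
      rw [hL]
      simp only
      rw [exp_add, exp_log (div_ne_zero hw0 hz0), exp_log hz0, div_mul_cancel₀ _ hz0]
    have h5 := hlog (L w) hw
    rw [h4] at h5
    exact h5
  exact (hcomp.congr_of_eventuallyEq hev).differentiableWithinAt

theorem lift_ann : ∃ δ : ℝ, 0 < δ ∧ ∀ (a b R : ℝ) (f : ℂ → ℂ), 0 < a → a < b → b < R →
    DifferentiableOn ℂ f (Ann a R) → (∀ z ∈ Ann a R, f z ≠ 0 ∧ f z ≠ 1) → Sym f (Ann a R) →
    (∀ z ∈ Ann a R, ‖z‖ ≤ b → ‖f z - 1‖ < δ) →
    ∃ t : ℂ → ℂ, DifferentiableOn ℂ t (Ann a R) ∧ (∀ z ∈ Ann a R, ‖t z‖ < 1 ∧ J (t z) = f z) ∧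
      (∀ z ∈ Ann a R, ‖z‖ ≤ b → ‖t z‖ ≤ ‖f z - 1‖) ∧ Sym t (Ann a R) := by
  obtain ⟨ε, hε, hε4, hinj, hlow, δ₁, hδ₁, hsurj⟩ := J_local
  obtain ⟨δ₀, hδ₀, hlift⟩ := lift_far ε hε
  refine ⟨min (min δ₀ δ₁) (ε / 2), lt_min (lt_min hδ₀ hδ₁) (by linarith), ?_⟩
  intro a b R f ha hab hbR hf h01 hsym hnear
  have hb : 0 < b := ha.trans hab
  have hR : 0 < R := hb.trans hbR
  have hlab : Real.log a < Real.log b := Real.log_lt_log ha hab
  have hlbR : Real.log b < Real.log R := Real.log_lt_log hb hbR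
  set F : ℂ → ℂ := fun s => f (exp s) with hF
  have hFd : DifferentiableOn ℂ F (liftannS a R) :=
    hf.comp differentiable_exp.differentiableOn (fun s hs => liftann_exp ha hR hs)
  have hF01 : ∀ s ∈ liftannS a R, F s ≠ 0 ∧ F s ≠ 1 := fun s hs => h01 _ (liftann_exp ha hR hs)
  have hFnear : ∀ s ∈ liftannS a R, s.re ≤ Real.log b →
      ‖F s - 1‖ < min (min δ₀ δ₁) (ε / 2) := by
    intro s hs hsb
    refine hnear _ (liftann_exp ha hR hs) ?_
    rw [norm_exp]
    exact (Real.le_log_iff_exp_le hb).1 hsb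
  set s₀ : ℂ := (Real.log b : ℂ) with hs₀
  have hs₀r : s₀.re = Real.log b := by rw [hs₀, ofReal_re]
  have hs₀m : s₀ ∈ liftannS a R := by
    change s₀.re ∈ Ioo (Real.log a) (Real.log R)
    rw [hs₀r]
    exact ⟨hlab, hlbR⟩
  obtain ⟨T, hTd, hTJ, hT0⟩ := hlift (liftannS a R) s₀ F (liftann_convex a R) (liftann_open a R)
    hs₀m hFd hF01 ((hFnear s₀ hs₀m hs₀r.le).trans_le ((min_le_left _ _).trans (min_le_left _ _)))
  -- the lift is small on the inner part
  have hsmall : ∀ s ∈ liftannS a R, s.re ≤ Real.log b → ‖T s‖ < ε := by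
    set E : Set ℂ := Complex.re ⁻¹' Ioc (Real.log a) (Real.log b) with hE
    have hEc : IsPreconnected E :=
      ((convex_Ioc (Real.log a) (Real.log b)).linear_preimage Complex.reLm).isPreconnected
    have hEs : E ⊆ liftannS a R := fun s hs => ⟨hs.1, hs.2.trans_lt hlbR⟩
    have hgap : ∀ s ∈ E, ‖T s‖ < ε → ‖T s‖ < ε / 2 := by
      intro s hs hT
      have h1 := hlow (T s) hT
      rw [(hTJ s (hEs hs)).2] at h1
      exact h1.trans_lt ((hFnear s (hEs hs) hs.2).trans_le (min_le_right _ _))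
    have hs₀E : s₀ ∈ E := by
      change s₀.re ∈ Ioc (Real.log a) (Real.log b)
      rw [hs₀r]
      exact ⟨hlab, le_refl _⟩
    intro s hs hsb
    by_contra hcon
    push Not at hcon
    have hsE : s ∈ E := ⟨hs.1, hsb⟩
    have hcont : ContinuousOn (fun v => ‖T v‖) E := (hTd.continuousOn.mono hEs).norm
    have h1 := hgap s₀ hs₀E hT0
    obtain ⟨v, hv, hv2⟩ := hEc.intermediate_value hs₀E hsE hcont
      (show 3 * ε / 4 ∈ Icc ‖T s₀‖ ‖T s‖ from ⟨by linarith, by linarith⟩)
    have h2 : ‖T v‖ = 3 * ε / 4 := hv2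
    have h3 := hgap v hv (by rw [h2]; linarith)
    rw [h2] at h3
    linarith
  -- periodicity
  have hper : ∀ s ∈ liftannS a R, T (s + 2 * Real.pi * I) = T s := by
    have hre : ∀ s : ℂ, (s + 2 * Real.pi * I).re = s.re := by
      intro s
      have h1 : (2 : ℂ) * Real.pi * I = ((2 * Real.pi : ℝ) : ℂ) * I := by push_cast; ring
      rw [h1, add_re, re_ofReal_mul, I_re, mul_zero, add_zero]
    have hmem : ∀ s ∈ liftannS a R, s + 2 * Real.pi * I ∈ liftannS a R := by
      intro s hs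
      change (s + 2 * Real.pi * I).re ∈ Ioo (Real.log a) (Real.log R)
      rw [hre]
      exact hs
    have hd : DifferentiableOn ℂ (fun s => T (s + 2 * Real.pi * I)) (liftannS a R) :=
      hTd.comp (by fun_prop) hmem
    refine liftann_ident ha hab hbR hd hTd ?_
    intro s hs hsb
    refine hinj ?_ ?_ ?_
    · rw [mem_ball_zero_iff]
      exact hsmall _ (hmem s hs) (by rw [hre]; exact hsb)
    · rw [mem_ball_zero_iff]
      exact hsmall s hs hsb
    · rw [(hTJ _ (hmem s hs)).2, (hTJ s hs).2, hF]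
      simp only
      rw [exp_add, exp_two_pi_mul_I, mul_one]
  -- symmetry
  have hconj : ∀ s ∈ liftannS a R, T (starRingEnd ℂ s) = starRingEnd ℂ (T s) := by
    have hmem : ∀ s ∈ liftannS a R, starRingEnd ℂ s ∈ liftannS a R := by
      intro s hs
      change (starRingEnd ℂ s).re ∈ Ioo (Real.log a) (Real.log R)
      rw [conj_re]
      exact hs
    have hd : DifferentiableOn ℂ (fun s => starRingEnd ℂ (T (starRingEnd ℂ s))) (liftannS a R) := by
      intro s hs
      have h1 : DifferentiableAt ℂ T (starRingEnd ℂ s) :=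
        (hTd _ (hmem s hs)).differentiableAt ((liftann_open a R).mem_nhds (hmem s hs))
      have h2 := h1.conj_conj
      rw [conj_conj] at h2
      exact h2.differentiableWithinAt
    have h1 := liftann_ident ha hab hbR hd hTd (by
      intro s hs hsb
      refine hinj ?_ ?_ ?_
      · rw [mem_ball_zero_iff, RCLike.norm_conj]
        exact hsmall _ (hmem s hs) (by rw [conj_re]; exact hsb)
      · rw [mem_ball_zero_iff]
        exact hsmall s hs hsb
      · rw [J_conj, (hTJ _ (hmem s hs)).2, (hTJ s hs).2, hF]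
        simp only
        rw [exp_conj, hsym _ (liftann_exp ha hR hs), conj_conj])
    intro s hs
    have h2 := h1 hs
    simp only at h2
    rw [← h2, conj_conj]
  obtain ⟨ht1, ht2⟩ := liftann_desc ha hR hTd hper
  refine ⟨fun z => T (log z), ht1, ?_, ?_, ?_⟩
  · intro z hz
    obtain ⟨hz0, hzs⟩ := liftann_log ha hz
    obtain ⟨h1, h2⟩ := hTJ _ hzs
    refine ⟨h1, ?_⟩
    rw [h2, hF]
    simp only
    rw [exp_log hz0]
  · intro z hz hzb
    obtain ⟨hz0, hzs⟩ := liftann_log ha hz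
    have h1 : (log z).re ≤ Real.log b := by
      rw [log_re]
      exact Real.log_le_log (norm_pos_iff.2 hz0) hzb
    have h2 := hlow _ (hsmall _ hzs h1)
    rw [(hTJ _ hzs).2, hF] at h2
    simp only at h2
    rw [exp_log hz0] at h2
    exact h2
  · intro z hz
    obtain ⟨hz0, hzs⟩ := liftann_log ha hz
    have h1 : starRingEnd ℂ (log z) ∈ liftannS a R := by
      change (starRingEnd ℂ (log z)).re ∈ Ioo (Real.log a) (Real.log R)
      rw [conj_re]
      exact hzs
    have h2 := ht2 _ h1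
    rw [exp_conj, exp_log hz0, hconj _ hzs] at h2
    exact h2

end Pool.Agent.CZ
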