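import Pool.Agent.Lib.MP_2b3e36_an.CZ.RemA
import Pool.Agent.Lib.MP_2b3e36_an.CZ.RemB
import Pool.Agent.Lib.MP_2b3e36_an.CZ.Cau
import Pool.Agent.Lib.MP_2b3e36_an.CZ.CauB
import Pool.Agent.Lib.MP_2b3e36_an.CZ.KfB
import Pool.Agent.Lib.MP_2b3e36_an.CZ.Bla
import Pool.Agent.Lib.MP_2b3e36_an.CZ.Asm

/-!
OneA. From the lift to the Nevanlinna-Pick function.

Proof. Shrink `R` so that `R` is at most the radius of `bl_upper n (η/4)`. `r = rb ρ`, `k z = K (t z)` on `Ann (ra ρ) R`,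
holomorphic, `‖k‖ ≤ C_K ε` on `‖z‖ = r` (`K_lip`, `K_zero`); `kp` from `cau_split`; `p z = rem A r k z` (entire),
`‖p z‖ ≤ C ε` for `‖z‖ ≤ 2` (`rem_le`). `N' z = N z exp (-kp z) exp (p z) / B.reverse z` on `ball 0 R`: holomorphic, zero free.
Bound: for `rd ρ ≤ ‖z‖ < R`: `‖N'‖ = 16 ‖t‖ ‖bl B z‖ ‖exp (k - kp + p)‖ < 16 exp (η/4) exp (C ε) ≤ 16 exp (η/2)`
(`cau_split`, `cau_out_le`); by the maximum principle (on `ball 0 s`, `rd ρ < s < R`) `‖N'‖ ≤ 16 exp (η/2) < 16 exp η` everywhere.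
`A ∣ N' B.reverse + B`: for `‖z‖ < r` `kp z - p z = A z g z` (`rem_cau`), `N' B.reverse + B = N exp (-A g) + B = A u + N (exp (-A g) - 1) =
A (u - N g E(-A g))`, `E x = (exp x - 1)/x`; for `‖z‖ ≥ r` divide by `A z ≠ 0`. Symmetric as in TwoA.
-/

set_option autoImplicit false

open Complex Set Filter Topology Metric Polynomial

namespace Pool.Agent.CZ

theorem one_asm (n : ℕ) {ρ η : ℝ} (hρ : 0 < ρ) (hρ1 : ρ < 1) (hη : 0 < η) : ∃ ε : ℝ, 0 < ε ∧
    ∀ A B : ℝ[X], Hyp n ρ A → Hyp n ρ B →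
      ∀ (R : ℝ) (u N t : ℂ → ℂ), 1 < R → DifferentiableOn ℂ u (ball 0 R) →
      DifferentiableOn ℂ N (ball 0 R) → (∀ z ∈ ball (0 : ℂ) R, u z ≠ 0 ∧ N z ≠ 0) →
      Sym u (ball 0 R) → Sym N (ball 0 R) →
      (∀ z ∈ ball (0 : ℂ) R, aeval z A * u z - N z = aeval z B) →
      DifferentiableOn ℂ t (Ann (ra ρ) R) → Sym t (Ann (ra ρ) R) →
      (∀ z ∈ Ann (ra ρ) R, ‖t z‖ < 1 ∧ N z = 16 * t z * aeval z B * exp (K (t z))) →
      (∀ z ∈ Ann (ra ρ) R, ‖z‖ ≤ rd ρ → ‖t z‖ ≤ ε) → NP A B (16 * Real.exp η) := by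
  obtain ⟨h1, h2, h3, h4, h5, h6⟩ := asm_rad hρ hρ1
  obtain ⟨CK, hCK, KL⟩ := K_lip
  obtain ⟨CR, hCR, RL⟩ := rem_le n hρ (h1.trans h2) (h3.trans h4)
  obtain ⟨R₁, hR₁, hR₁ρ, hR₁2, BU⟩ := bl_upper n hρ hρ1 (show 0 < η / 4 by positivity)
  set q : ℝ := rb ρ / (rd ρ - rb ρ) with hq
  have hq0 : 0 < q := div_pos h6 (sub_pos.2 h3)
  refine ⟨min (1 / 2) (η / (4 * CK * (q + CR))), by positivity, ?_⟩
  intro A B hA hB R u N t hR hu hN h0 hsu hsN he ht hst ht1 ht2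
  set ε : ℝ := min (1 / 2) (η / (4 * CK * (q + CR))) with hε
  have hε2 : ε ≤ 1 / 2 := min_le_left _ _
  have hε3 : ε * (CK * (q + CR)) ≤ η / 4 := by
    calc ε * (CK * (q + CR)) ≤ η / (4 * CK * (q + CR)) * (CK * (q + CR)) :=
          mul_le_mul_of_nonneg_right (min_le_right _ _) (by positivity)
      _ = η / 4 := by field_simp
  obtain ⟨S, hS⟩ : ∃ S, S = min R R₁ := ⟨_, rfl⟩
  have hS1 : 1 < S := hS ▸ lt_min hR hR₁
  have hSR : S ≤ R := hS ▸ min_le_left _ _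
  have hSR₁ : S ≤ R₁ := hS ▸ min_le_right _ _
  have hSρ : S < 1 / ρ := hSR₁.trans_lt hR₁ρ
  have hS2 : S ≤ 2 := hSR₁.trans hR₁2
  have hrdS : rd ρ < S := h4.trans hS1
  have hball : ball (0 : ℂ) S ⊆ ball 0 R := ball_subset_ball hSR
  have hAnn : Ann (ra ρ) S ⊆ Ann (ra ρ) R := fun z hz => ⟨hz.1, hz.2.trans_le hSR⟩
  obtain ⟨k, hkdef⟩ : ∃ k : ℂ → ℂ, k = fun z => K (t z) := ⟨_, rfl⟩
  have hk : DifferentiableOn ℂ k (Ann (ra ρ) S) := by
    rw [hkdef]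
    refine K_diff.comp (ht.mono hAnn) fun z hz => ?_
    rw [mem_ball_zero_iff]
    exact (ht1 z (hAnn hz)).1
  have hks : Sym k (Ann (ra ρ) S) := by
    intro z hz
    rw [hkdef]
    simp only
    rw [hst z (hAnn hz), K_conj (ht1 z (hAnn hz)).1]
  have hkm : ∀ w : ℂ, ‖w‖ = rb ρ → ‖k w‖ ≤ CK * ε := by
    intro w hw
    have hw1 : w ∈ Ann (ra ρ) R := ⟨hw ▸ h2, hw ▸ (h3.trans (h4.trans hR))⟩
    have hw2 := ht2 w hw1 (hw ▸ h3.le)
    have hw3 := KL (t w) 0 (hw2.trans hε2) (by rw [norm_zero]; norm_num)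
    rw [K_zero, sub_zero, sub_zero] at hw3
    rw [hkdef]
    exact hw3.trans (mul_le_mul_of_nonneg_left hw2 hCK.le)
  obtain ⟨kp, g, hkp, hkps, hg, hkg, hkb⟩ := asm_core hρ hρ1 hS1 hA.roots hk hks hkm
  obtain ⟨p, hp⟩ : ∃ p : ℂ → ℂ, p = rem A (rb ρ) k := ⟨_, rfl⟩
  have hpd : Differentiable ℂ p := hp ▸ asm_rem_diff A (rb ρ) k
  have hps : ∀ z, p (starRingEnd ℂ z) = starRingEnd ℂ (p z) := fun z => by
    rw [hp]
    exact asm_rem_sym h6 (asm_sym_sphere hks h2 (h3.trans (h4.trans hS1))) z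
  have hpb : ∀ z : ℂ, ‖z‖ ≤ 2 → ‖p z‖ ≤ CR * (CK * ε) := fun z hz => by
    rw [hp]
    exact RL A hA k _ hkm z hz
  have hrev : ∀ z : ℂ, ‖z‖ < S → aeval z B.reverse ≠ 0 := fun z hz =>
    rev_ne hρ hB.roots hB.monic (hz.trans hSρ)
  obtain ⟨M, hM⟩ : ∃ M : ℂ → ℂ, M = fun z => N z * exp (-kp z) * exp (p z) / aeval z B.reverse := ⟨_, rfl⟩
  have hMd : DifferentiableOn ℂ M (ball 0 S) := by
    rw [hM]
    refine (((hN.mono hball).mul hkp.neg.cexp).mul hpd.differentiableOn.cexp).div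
      (asm_poly_diff B.reverse).differentiableOn fun z hz => ?_
    rw [mem_ball_zero_iff] at hz
    exact hrev z hz
  have hMout : ∀ z : ℂ, rd ρ ≤ ‖z‖ → ‖z‖ < S → ‖M z‖ ≤ 16 * Real.exp (η / 2) := by
    intro z hz hzS
    have hz1 : z ∈ Ann (ra ρ) R := ⟨(h2.trans h3).trans_le hz, hzS.trans_le hSR⟩
    have hz2 : N z = 16 * t z * aeval z B * exp (k z) := by
      rw [hkdef]
      exact (ht1 z hz1).2
    have hz3 : M z = 16 * t z * bl B z * exp ((k z - kp z) + p z) := by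
      rw [hM, bl]
      simp only
      rw [hz2, exp_add, exp_sub, exp_neg]
      have := hrev z hzS
      field_simp
    have hb1 : ‖t z‖ ≤ 1 := (ht1 z hz1).1.le
    have hb2 : ‖bl B z‖ ≤ Real.exp (η / 4) := BU B hB z (hzS.trans_le hSR₁)
    have hb3 : ‖exp ((k z - kp z) + p z)‖ ≤ Real.exp (η / 4) := by
      refine (norm_exp_le_exp_norm _).trans (Real.exp_le_exp.2 ?_)
      refine (norm_add_le _ _).trans ((add_le_add (hkb z hz hzS) (hpb z (hzS.le.trans hS2))).trans ?_)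
      calc q * (CK * ε) + CR * (CK * ε) = ε * (CK * (q + CR)) := by ring
        _ ≤ η / 4 := hε3
    rw [hz3, norm_mul, norm_mul, norm_mul]
    have h16 : ‖(16 : ℂ)‖ = 16 := by norm_num
    rw [h16]
    calc 16 * ‖t z‖ * ‖bl B z‖ * ‖exp ((k z - kp z) + p z)‖
        ≤ 16 * 1 * Real.exp (η / 4) * Real.exp (η / 4) := by gcongr
      _ = 16 * Real.exp (η / 2) := by
          rw [mul_one, mul_assoc, ← Real.exp_add]; ring_nf
  have hrd0 : 0 < rd ρ := h6.trans h3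
  have hMall : ∀ z : ℂ, ‖z‖ < S → ‖M z‖ ≤ 16 * Real.exp (η / 2) := by
    intro z hz
    rcases le_or_gt (rd ρ) ‖z‖ with h | h
    · exact hMout z h hz
    · exact asm_max hrdS hrd0 hMd (fun w hw => hMout w hw.ge (hw ▸ hrdS)) h.le
  -- divisibility
  have hdiv : ∃ H : ℂ → ℂ, DifferentiableOn ℂ H (ball 0 S) ∧ ∀ z ∈ ball (0 : ℂ) S,
      N z * exp (-kp z) * exp (p z) + aeval z B = aeval z A * H z := by
    refine div_ext (g := fun z => u z - N z * g z * asmE (-(aeval z A * g z))) hA.roots (h1.trans h2) ?_ ?_ ?_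
    · exact (((hN.mono hball).mul hkp.neg.cexp).mul hpd.differentiableOn.cexp).add
        (asm_poly_diff B).differentiableOn
    · have hb : ball (0 : ℂ) (rb ρ) ⊆ ball 0 R := ball_subset_ball (h3.trans (h4.trans hR)).le
      exact (hu.mono hb).sub (((hN.mono hb).mul hg).mul
        (asmE_diff.comp_differentiableOn (((asm_poly_diff A).differentiableOn.mul hg).neg)))
    · intro z hz hzS
      have e1 := he z (by rw [mem_ball_zero_iff]; exact hzS.trans_le hSR)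
      have e2 := hkg z hz
      have e3 := asmE_eq (-(aeval z A * g z))
      have e4 : exp (-kp z) * exp (p z) = exp (-(aeval z A * g z)) := by
        rw [← exp_add, ← e2, hp]
        congr 1
        ring
      rw [mul_assoc, e4]
      linear_combination (-1 : ℂ) * e1 + N z * e3
  obtain ⟨H, hH, hHe⟩ := hdiv
  refine ⟨S, hS1, M, H, hMd, hH, fun z hz => ⟨?_, ?_, ?_⟩, fun z hz => ?_⟩
  · rw [mem_ball_zero_iff] at hz
    rw [hM]
    exact div_ne_zero (mul_ne_zero (mul_ne_zero (h0 z (by rw [mem_ball_zero_iff]; exact hz.trans_le hSR)).2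
      (exp_ne_zero _)) (exp_ne_zero _)) (hrev z hz)
  · rw [mem_ball_zero_iff] at hz
    refine (hMall z hz).trans_lt ?_
    have : Real.exp (η / 2) < Real.exp η := Real.exp_lt_exp.2 (by linarith)
    linarith
  · rw [hM]
    simp only
    rw [hsN z (hball hz), hkps z hz, hps z, asm_conj, map_div₀, map_mul, map_mul, ← exp_conj, ← exp_conj, map_neg]
  · have hz' := hz
    rw [mem_ball_zero_iff] at hz'
    rw [← hHe z hz, hM]
    simp only
    rw [div_mul_cancel₀ _ (hrev z hz')]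

end Pool.Agent.CZ
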