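import Pool.Agent.Lib.MP_2b3e36_an.CZ.Bla
import Pool.Agent.Lib.MP_2b3e36_an.CZ.Har

/-!
TB. Bounds for `N / (16 bl B)` when `N = - bl B` at a root of `A` close to a root of `B`.

Proof. Let `c = 16 exp (-η)`, `a` the root of `A`, `b` the root of `B`, `‖a - b‖ < κ`, `‖a‖ ≤ ρ`. `‖N a‖ = ‖bl B a‖ ≤ C₁ κ`
(`bl_small`), so `log (c/‖N a‖) ≥ M₀ := log (c/(C₁ κ))`, which tends to infinity for `κ → 0`. By `harnack`
(`1 < R ≤ 2`): `log (c/‖N z‖) ≥ M₀ (1-ρ)/3 * (R - ‖z‖)/4 = M (R - ‖z‖)`. So `‖N z‖ ≤ c exp (-M (R - ‖z‖))`, and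
`R - ‖z‖ ≥ max 0 (1 - ‖z‖)`. With `bl_lower`: `‖N z/(16 bl B z)‖ ≤ exp(-η) exp (-(M - C) max 0 (1 - ‖z‖)) ≤ exp (-η)` once `M ≥ C`, and for
`‖z‖ ≤ rd ρ` (`1 - ‖z‖ ≥ (1-ρ)/4`) it is `≤ exp (-(M - C)(1-ρ)/4) ≤ ε` for `M` large. The same for `‖N z‖`.
-/

set_option autoImplicit false

open Complex Set Filter Topology Metric Polynomial

namespace Pool.Agent.CZ

theorem t_bounds (n : ℕ) {ρ η ε : ℝ} (hρ : 0 < ρ) (hρ1 : ρ < 1) (hη : 0 < η) (hε : 0 < ε) :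
    ∃ κ : ℝ, 0 < κ ∧ ∀ A B : ℝ[X], Hyp n ρ A → Hyp n ρ B → Close A B κ →
      ∀ (R : ℝ) (N : ℂ → ℂ), 1 < R → R ≤ 2 → R < 1 / ρ → DifferentiableOn ℂ N (ball 0 R) →
      (∀ z ∈ ball (0 : ℂ) R, N z ≠ 0 ∧ ‖N z‖ < 16 * Real.exp (-η)) →
      (∀ a : ℂ, aeval a A = 0 → N a = -bl B a) →
      (∀ z : ℂ, ra ρ ≤ ‖z‖ → ‖z‖ < R → ‖N z / (16 * bl B z)‖ ≤ Real.exp (-η)) ∧
      (∀ z : ℂ, ra ρ ≤ ‖z‖ → ‖z‖ ≤ rd ρ → ‖N z / (16 * bl B z)‖ ≤ ε) ∧
      ∀ z : ℂ, ‖z‖ ≤ rd ρ → ‖N z‖ ≤ ε := by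
  obtain ⟨C, hC0, hC⟩ := bl_lower n hρ hρ1
  obtain ⟨C₁, hC₁0, hC₁⟩ := bl_small n hρ hρ1
  have h1ρ : 0 < 1 - ρ := by linarith
  -- the constants
  obtain ⟨c, hc⟩ : ∃ c : ℝ, c = 16 * Real.exp (-η) := ⟨_, rfl⟩
  have hc0 : 0 < c := by rw [hc]; positivity
  have hc16 : c ≤ 16 := by
    rw [hc]
    have : Real.exp (-η) ≤ 1 := Real.exp_le_one_iff.2 (by linarith)
    linarith
  obtain ⟨M, hM⟩ : ∃ M : ℝ, M = C + 4 / (1 - ρ) * |Real.log (16 / ε)| := ⟨_, rfl⟩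
  have hMC : (M - C) * ((1 - ρ) / 4) = |Real.log (16 / ε)| := by
    rw [hM]
    field_simp
    ring
  have hMC0 : 0 ≤ M - C := by
    rw [hM]
    have : 0 ≤ 4 / (1 - ρ) * |Real.log (16 / ε)| := by positivity
    linarith
  have hM0 : 0 ≤ M := by linarith
  have hexp : Real.exp (-|Real.log (16 / ε)|) ≤ ε / 16 := by
    calc Real.exp (-|Real.log (16 / ε)|) ≤ Real.exp (-Real.log (16 / ε)) :=
          Real.exp_le_exp.2 (neg_le_neg (le_abs_self _))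
      _ = ε / 16 := by
          rw [Real.exp_neg, Real.exp_log (by positivity)]
          field_simp
  obtain ⟨M₀, hM₀⟩ : ∃ M₀ : ℝ, M₀ = 12 * M / (1 - ρ) := ⟨_, rfl⟩
  have hM₀M : M₀ * ((1 - ρ) / 3) / 4 = M := by
    rw [hM₀]
    field_simp
    ring
  have hM₀0 : 0 ≤ M₀ := by rw [hM₀]; positivity
  refine ⟨c * Real.exp (-M₀) / C₁, by positivity, ?_⟩
  intro A B hA hB hcl R N hR1 hR2 hRρ hNd hN hNa
  obtain ⟨a, b, ha, hb, hab⟩ := hcl
  have haρ : ‖a‖ ≤ ρ := hA.roots a ha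
  rw [← hc] at hN
  have hR0 : 0 < R := by linarith
  -- the value at `a`
  have hNa1 : ‖N a‖ ≤ c * Real.exp (-M₀) := by
    rw [hNa a ha, norm_neg]
    calc ‖bl B a‖ ≤ C₁ * ‖a - b‖ := hC₁ B hB a b haρ hb
      _ ≤ C₁ * (c * Real.exp (-M₀) / C₁) := mul_le_mul_of_nonneg_left hab.le hC₁0.le
      _ = c * Real.exp (-M₀) := by field_simp
  have haR : ‖a‖ < R := by linarith
  have hNa0 : 0 < ‖N a‖ := norm_pos_iff.2 (hN a (by rwa [mem_ball_zero_iff])).1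
  have hlog : M₀ ≤ Real.log (c / ‖N a‖) := by
    rw [Real.le_log_iff_exp_le (by positivity), le_div_iff₀ hNa0]
    calc Real.exp M₀ * ‖N a‖ ≤ Real.exp M₀ * (c * Real.exp (-M₀)) :=
          mul_le_mul_of_nonneg_left hNa1 (Real.exp_pos _).le
      _ = c * (Real.exp M₀ * Real.exp (-M₀)) := by ring
      _ = c := by rw [← Real.exp_add]; simp
  -- the bound for `N`
  have hNz : ∀ z : ℂ, ‖z‖ < R → ‖N z‖ ≤ c * Real.exp (-(M * max 0 (1 - ‖z‖))) := by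
    intro z hz
    have hzn := norm_nonneg z
    have han := norm_nonneg a
    have h1 := harnack hR0 hc0 hNd hN haR hz
    have hNz0 : 0 < ‖N z‖ := norm_pos_iff.2 (hN z (by rwa [mem_ball_zero_iff])).1
    have e1 : (1 - ρ) / 3 ≤ (R - ‖a‖) / (R + ‖a‖) := by
      rw [div_le_div_iff₀ (by norm_num) (by linarith)]
      nlinarith
    have e2 : (R - ‖z‖) / 4 ≤ (R - ‖z‖) / (R + ‖z‖) := by
      refine div_le_div_of_nonneg_left (by linarith) (by linarith) (by linarith)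
    have e3 : max 0 (1 - ‖z‖) ≤ R - ‖z‖ := max_le (by linarith) (by linarith)
    have e4 : M * max 0 (1 - ‖z‖) ≤ Real.log (c / ‖N z‖) := by
      calc M * max 0 (1 - ‖z‖) ≤ M * (R - ‖z‖) := mul_le_mul_of_nonneg_left e3 hM0
        _ = M₀ * ((1 - ρ) / 3) * ((R - ‖z‖) / 4) := by rw [← hM₀M]; ring
        _ ≤ Real.log (c / ‖N a‖) * ((R - ‖a‖) / (R + ‖a‖)) * ((R - ‖z‖) / (R + ‖z‖)) := by
            refine mul_le_mul (mul_le_mul hlog e1 (by positivity) (hM₀0.trans hlog)) e2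
              (by linarith) (mul_nonneg (hM₀0.trans hlog) ?_)
            exact div_nonneg (by linarith) (by linarith)
        _ ≤ _ := h1
    rw [Real.exp_neg, ← div_eq_mul_inv, le_div_iff₀ (Real.exp_pos _)]
    rw [Real.le_log_iff_exp_le (by positivity), le_div_iff₀ hNz0] at e4
    linarith
  -- the bound for the quotient
  have hq : ∀ z : ℂ, ra ρ ≤ ‖z‖ → ‖z‖ < R →
      ‖N z / (16 * bl B z)‖ ≤ Real.exp (-η) * Real.exp (-((M - C) * max 0 (1 - ‖z‖))) := by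
    intro z hz1 hz2
    have h1 := hNz z hz2
    have h2 := hC B hB z hz1 (hz2.trans hRρ)
    have hb0 : 0 < ‖bl B z‖ := lt_of_lt_of_le (Real.exp_pos _) h2
    rw [norm_div, norm_mul, Complex.norm_ofNat, div_le_iff₀ (by positivity)]
    calc ‖N z‖ ≤ c * Real.exp (-(M * max 0 (1 - ‖z‖))) := h1
      _ = Real.exp (-η) * Real.exp (-((M - C) * max 0 (1 - ‖z‖))) *
          (16 * Real.exp (-(C * max 0 (1 - ‖z‖)))) := by
          have : Real.exp (-(M * max 0 (1 - ‖z‖))) =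
              Real.exp (-((M - C) * max 0 (1 - ‖z‖))) * Real.exp (-(C * max 0 (1 - ‖z‖))) := by
            rw [← Real.exp_add]
            congr 1
            ring
          rw [hc, this]
          ring
      _ ≤ Real.exp (-η) * Real.exp (-((M - C) * max 0 (1 - ‖z‖))) * (16 * ‖bl B z‖) := by
          gcongr
  have hrd : rd ρ < R := by
    unfold rd
    linarith
  have hmrd : ∀ z : ℂ, ‖z‖ ≤ rd ρ → (1 - ρ) / 4 ≤ max 0 (1 - ‖z‖) := by
    intro z hz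
    refine le_max_of_le_right ?_
    unfold rd at hz
    linarith
  refine ⟨fun z hz1 hz2 => ?_, fun z hz1 hz2 => ?_, fun z hz => ?_⟩
  · refine (hq z hz1 hz2).trans ?_
    have : Real.exp (-((M - C) * max 0 (1 - ‖z‖))) ≤ 1 := by
      rw [Real.exp_le_one_iff]
      have := mul_nonneg hMC0 (le_max_left 0 (1 - ‖z‖))
      linarith
    calc Real.exp (-η) * Real.exp (-((M - C) * max 0 (1 - ‖z‖))) ≤ Real.exp (-η) * 1 :=
          mul_le_mul_of_nonneg_left this (Real.exp_pos _).le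
      _ = Real.exp (-η) := mul_one _
  · refine (hq z hz1 (lt_of_le_of_lt hz2 hrd)).trans ?_
    have h1 : Real.exp (-((M - C) * max 0 (1 - ‖z‖))) ≤ ε / 16 := by
      refine le_trans (Real.exp_le_exp.2 ?_) hexp
      rw [← hMC]
      exact neg_le_neg (mul_le_mul_of_nonneg_left (hmrd z hz2) hMC0)
    have h2 : Real.exp (-η) ≤ 1 := Real.exp_le_one_iff.2 (by linarith)
    calc Real.exp (-η) * Real.exp (-((M - C) * max 0 (1 - ‖z‖))) ≤ 1 * (ε / 16) :=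
          mul_le_mul h2 h1 (Real.exp_pos _).le zero_le_one
      _ ≤ ε := by linarith
  · refine (hNz z (lt_of_le_of_lt hz hrd)).trans ?_
    have h1 : Real.exp (-(M * max 0 (1 - ‖z‖))) ≤ ε / 16 := by
      refine le_trans (Real.exp_le_exp.2 ?_) hexp
      rw [← hMC]
      refine neg_le_neg ?_
      calc (M - C) * ((1 - ρ) / 4) ≤ M * ((1 - ρ) / 4) :=
            mul_le_mul_of_nonneg_right (by linarith) (by linarith)
        _ ≤ M * max 0 (1 - ‖z‖) := mul_le_mul_of_nonneg_left (hmrd z hz) hM0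
    calc c * Real.exp (-(M * max 0 (1 - ‖z‖))) ≤ 16 * (ε / 16) :=
          mul_le_mul hc16 h1 (Real.exp_pos _).le (by norm_num)
      _ = ε := by ring

end Pool.Agent.CZ
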