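import Pool.Agent.Lib.MP_2b3e36_an.CZ.RemA
import Mathlib.Analysis.Polynomial.Basic

/-!
RemC. The remainder of a holomorphic function congruent to `-B` modulo `A`.

Proof. Let `D = B - A` (degree `< deg A`, both monic of the same degree `≥ 1`), `N = -D + A (h - 1)` on `ball 0 s`.
`rc` is linear (`rc_sub`-type, continuity on the circle). (a) `rc A r (A g) m = 0` for `g = h - 1` holomorphic in `ball 0 s`: the integrand is
`g w * polynomial` (`A w ≠ 0` on the circle cancels), Cauchy's theorem
(`Complex.circleIntegral_eq_zero_of_differentiable_on_off_countable`). (b) `rem A r D z = D z` for all `z`: for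
`‖z‖ < r`: `cau r D z = D z` (Cauchy's formula) and `cau r (D/A) z = 0`, because `w ↦ D w/(A w (w - z))` is holomorphic outside the
circle and `o(1/‖w‖)`: its circle integral does not depend on the radius (annulus theorem) and tends to `0`; by `rem_cau`
`rem A r D z = D z` for `‖z‖ < r`; both sides are polynomials in `z`, so they agree everywhere (infinitely many
points). So `rem A r N = -rem A r D + 0 = -D`.
-/

set_option autoImplicit false

open Complex Set Filter Topology Metric Polynomial

namespace Pool.Agent.CZ

/-- the integral of `P / Q` over a circle around all roots of `Q` vanishes if `deg P + 2 ≤ deg Q` -/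
private theorem remc_zero {P Q : ℂ[X]} {r : ℝ} (hr : 0 < r) (hd : (X * P).degree < Q.degree)
    (hQ : ∀ z, Q.eval z = 0 → ‖z‖ < r) : (∮ w in C(0, r), P.eval w / Q.eval w) = 0 := by
  have hQne : ∀ z : ℂ, r ≤ ‖z‖ → Q.eval z ≠ 0 := fun z hz h => absurd (hQ z h) (not_lt.mpr hz)
  have hann : ∀ R : ℝ, r ≤ R →
      (∮ w in C(0, R), P.eval w / Q.eval w) = ∮ w in C(0, r), P.eval w / Q.eval w := by
    intro R hR
    refine Complex.circleIntegral_eq_of_differentiable_on_annulus_off_countable hr hR
      countable_empty ?_ ?_
    · refine ContinuousOn.div P.continuous.continuousOn Q.continuous.continuousOn ?_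
      rintro z ⟨-, hz⟩
      apply hQne
      simpa using hz
    · rintro z ⟨⟨-, hz⟩, -⟩
      refine DifferentiableAt.div P.differentiable.differentiableAt Q.differentiable.differentiableAt
        (hQne z ?_)
      have : r < ‖z‖ := by simpa using hz
      exact this.le
  have hlit := Polynomial.isLittleO_cobounded_of_degree_lt (R := ℂ) hd
  have hb : ∀ ε : ℝ, 0 < ε → ‖∮ w in C(0, r), P.eval w / Q.eval w‖ ≤ 2 * Real.pi * ε := by
    intro ε hε
    have h1 := hlit.bound hε
    rw [← comap_norm_atTop, eventually_comap] at h1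
    obtain ⟨R₀, hR₀⟩ := eventually_atTop.1 h1
    obtain ⟨R, hR⟩ : ∃ R : ℝ, R = max r (max R₀ 1) := ⟨_, rfl⟩
    have hRr : r ≤ R := by rw [hR]; exact le_max_left _ _
    have hR0 : R₀ ≤ R := by rw [hR]; exact (le_max_left _ _).trans (le_max_right _ _)
    have hRpos : 0 < R := hr.trans_le hRr
    rw [← hann R hRr]
    have h2 : ∀ z ∈ sphere (0 : ℂ) R, ‖P.eval z / Q.eval z‖ ≤ ε / R := by
      intro z hz
      have hzR : ‖z‖ = R := by simpa using hz
      have h3 := hR₀ R hR0 z hzR
      rw [Polynomial.eval_mul, Polynomial.eval_X, norm_mul, hzR] at h3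
      have hQp : 0 < ‖Q.eval z‖ := norm_pos_iff.mpr (hQne z (by rw [hzR]; exact hRr))
      rw [norm_div, div_le_div_iff₀ hQp hRpos]
      linarith
    refine (circleIntegral.norm_integral_le_of_norm_le_const hRpos.le h2).trans (le_of_eq ?_)
    field_simp
  have h0 : ‖∮ w in C(0, r), P.eval w / Q.eval w‖ ≤ 0 := by
    refine le_of_forall_pos_le_add fun δ hδ => ?_
    have := hb (δ / (2 * Real.pi)) (by positivity)
    rw [mul_div_cancel₀ _ (by positivity)] at this
    linarith
  exact norm_le_zero_iff.mp h0

/-- the remainder of a multiple of `A` vanishes -/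
private theorem remc_mul {A : ℝ[X]} {ρ r s : ℝ} (hA : RootsIn A ρ) (hρ : 0 < ρ) (hr : ρ < r)
    (hs : r < s) {g : ℂ → ℂ} (hg : DifferentiableOn ℂ g (ball 0 s)) (m : ℕ) :
    rc A r (fun w => aeval w A * g w) m = 0 := by
  have hr0 : 0 < r := hρ.trans hr
  unfold rc
  have h1 : (∮ w in C(0, r), aeval w A * g w *
      ((∑ j ∈ Finset.Ico (m + 1) (A.natDegree + 1), (A.coeff j : ℂ) * w ^ (j - 1 - m)) / aeval w A)) =
      ∮ w in C(0, r), g w *
        ∑ j ∈ Finset.Ico (m + 1) (A.natDegree + 1), (A.coeff j : ℂ) * w ^ (j - 1 - m) := by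
    refine circleIntegral.integral_congr hr0.le ?_
    intro w hw
    have hwr : ‖w‖ = r := by simpa using hw
    have hne : aeval w A ≠ 0 := aeval_ne hA (by rw [hwr]; exact hr)
    simp only
    field_simp
  rw [h1]
  have hd : DifferentiableOn ℂ (fun w => g w *
      ∑ j ∈ Finset.Ico (m + 1) (A.natDegree + 1), (A.coeff j : ℂ) * w ^ (j - 1 - m)) (ball 0 s) := by
    refine hg.mul ?_
    refine DifferentiableOn.fun_sum fun j _ => ?_
    fun_prop
  rw [Complex.circleIntegral_eq_zero_of_differentiable_on_off_countable hr0.le countable_empty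
    (hd.continuousOn.mono (closedBall_subset_ball hs)) (fun z hz =>
      hd.differentiableAt (isOpen_ball.mem_nhds (ball_subset_ball hs.le hz.1))), mul_zero]

/-- a polynomial of smaller degree is its own remainder, inside the circle -/
private theorem remc_self {A : ℝ[X]} {ρ r : ℝ} (hA : RootsIn A ρ) (hρ : 0 < ρ) (hr : ρ < r)
    {D : ℝ[X]} (hD : D.degree < A.degree) {z : ℂ} (hz : ‖z‖ < r) :
    rem A r (fun w => aeval w D) z = aeval z D := by
  have hr0 : 0 < r := hρ.trans hr
  have hcont : Continuous (fun w : ℂ => aeval w D) := D.continuous_aeval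
  have h1 := rem_cau (A := A) hA hρ hr (k := fun w => aeval w D) hcont.continuousOn hz
  have h2 : cau r (fun w => aeval w D) z = aeval z D := by
    unfold cau
    have hd : Differentiable ℂ (fun w : ℂ => aeval w D) := D.differentiable_aeval
    have h3 := Complex.two_pi_I_inv_smul_circleIntegral_sub_inv_smul_of_differentiable_on_off_countable
      (R := r) (c := 0) (w := z) (f := fun w : ℂ => aeval w D) countable_empty (by simpa using hz)
      hcont.continuousOn (fun x _ => hd.differentiableAt)
    rw [smul_eq_mul] at h3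
    rw [← h3]
    congr 1
    refine circleIntegral.integral_congr hr0.le ?_
    intro w _
    simp only [smul_eq_mul]
    rw [div_eq_inv_mul]
  have h4 : cau r (fun w => aeval w D / aeval w A) z = 0 := by
    unfold cau
    have hA0 : A ≠ 0 := by
      rintro rfl
      simp at hD
    let i : ℝ →+* ℂ := algebraMap ℝ ℂ
    have hinj : Function.Injective i := (algebraMap ℝ ℂ).injective
    have key := remc_zero (P := D.map i) (Q := A.map i * (X - Polynomial.C z)) hr0 (by
      rw [Polynomial.degree_mul, Polynomial.degree_mul, Polynomial.degree_X,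
        Polynomial.degree_X_sub_C, Polynomial.degree_map, Polynomial.degree_map, add_comm]
      by_cases hD0 : D = 0
      · rw [hD0, Polynomial.degree_zero, WithBot.bot_add]
        rw [bot_lt_iff_ne_bot, Polynomial.degree_eq_natDegree hA0]
        exact_mod_cast WithBot.coe_ne_bot
      · rw [Polynomial.degree_eq_natDegree hD0, Polynomial.degree_eq_natDegree hA0] at *
        have : D.natDegree < A.natDegree := by exact_mod_cast hD
        exact_mod_cast Nat.add_lt_add_right this 1) (by
      intro w hw
      rw [Polynomial.eval_mul, mul_eq_zero] at hw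
      rcases hw with hw | hw
      · rw [Polynomial.eval_map_algebraMap] at hw
        exact (hA w hw).trans_lt hr
      · rw [Polynomial.eval_sub, Polynomial.eval_X, Polynomial.eval_C, sub_eq_zero] at hw
        rw [hw]
        exact hz)
    have h5 : (∮ w in C(0, r), aeval w D / aeval w A / (w - z)) =
        ∮ w in C(0, r), (D.map i).eval w / (A.map i * (X - Polynomial.C z)).eval w := by
      refine circleIntegral.integral_congr hr0.le ?_
      intro w _
      simp only [Polynomial.eval_mul, Polynomial.eval_sub, Polynomial.eval_X, Polynomial.eval_C]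
      rw [Polynomial.eval_map_algebraMap, Polynomial.eval_map_algebraMap, div_div]
    rw [h5, key, mul_zero]
  rw [h2, h4, mul_zero, sub_eq_zero] at h1
  exact h1.symm

/-- a polynomial of smaller degree is its own remainder -/
private theorem remc_self' {A : ℝ[X]} {ρ r : ℝ} (hA : RootsIn A ρ) (hρ : 0 < ρ) (hr : ρ < r)
    {D : ℝ[X]} (hD : D.degree < A.degree) (z : ℂ) :
    rem A r (fun w => aeval w D) z = aeval z D := by
  have hr0 : 0 < r := hρ.trans hr
  let P : ℂ[X] := ∑ m ∈ Finset.range A.natDegree,
    Polynomial.C (rc A r (fun w => aeval w D) m) * X ^ m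
  have hP : ∀ x : ℂ, P.eval x = rem A r (fun w => aeval w D) x := by
    intro x
    unfold rem
    rw [Polynomial.eval_finsetSum]
    refine Finset.sum_congr rfl fun m _ => ?_
    simp
  have hPD : P = D.map (algebraMap ℝ ℂ) := by
    refine Polynomial.eq_of_infinite_eval_eq P _ ?_
    refine (infinite_of_mem_nhds (0 : ℂ) (ball_mem_nhds 0 hr0)).mono ?_
    intro x hx
    have hx' : ‖x‖ < r := by simpa using hx
    change P.eval x = (D.map (algebraMap ℝ ℂ)).eval x
    rw [hP, remc_self hA hρ hr hD hx', Polynomial.eval_map_algebraMap]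
  rw [← hP, hPD, Polynomial.eval_map_algebraMap]

theorem rem_diff {A B : ℝ[X]} {ρ r s : ℝ} (hA : RootsIn A ρ) (hAm : A.Monic) (hBm : B.Monic)
    (hd : A.natDegree = B.natDegree) (h1 : 1 ≤ A.natDegree) (hρ : 0 < ρ) (hr : ρ < r) (hs : r < s)
    {N h : ℂ → ℂ}
    (hN : DifferentiableOn ℂ N (ball 0 s)) (hh : DifferentiableOn ℂ h (ball 0 s))
    (he : ∀ z ∈ ball (0 : ℂ) s, N z + aeval z B = aeval z A * h z) (z : ℂ) :
    rem A r N z = -(aeval z B - aeval z A) := by
  have hr0 : 0 < r := hρ.trans hr
  have hD : (B - A).degree < A.degree := by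
    have hdeg : B.degree = A.degree := by
      rw [Polynomial.degree_eq_natDegree hAm.ne_zero, Polynomial.degree_eq_natDegree hBm.ne_zero, hd]
    have := Polynomial.degree_sub_lt_left hdeg hBm.ne_zero (by rw [hAm.leadingCoeff, hBm.leadingCoeff])
    rwa [hdeg] at this
  have hsph : sphere (0 : ℂ) r ⊆ ball 0 s := by
    intro w hw
    have : ‖w‖ = r := by simpa using hw
    simpa [this] using hs
  have hg : DifferentiableOn ℂ (fun w => h w - 1) (ball 0 s) := hh.sub_const 1
  have hAc : Continuous (fun w : ℂ => aeval w A) := A.continuous_aeval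
  have hDc : Continuous (fun w : ℂ => aeval w (B - A)) := (B - A).continuous_aeval
  have hrc : ∀ m, rc A r N m = -rc A r (fun w => aeval w (B - A)) m := by
    intro m
    have h2 := rc_sub (A := A) hA hρ hr (k := fun w => aeval w A * (h w - 1))
      (k' := fun w => aeval w (B - A)) (hAc.continuousOn.mul (hg.continuousOn.mono hsph))
      hDc.continuousOn m
    rw [remc_mul hA hρ hr hs hg m, zero_sub] at h2
    rw [h2]
    unfold rc
    congr 1
    refine circleIntegral.integral_congr hr0.le ?_
    intro w hw
    have h3 := he w (hsph hw)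
    simp only
    congr 1
    rw [map_sub]
    linear_combination h3
  have h4 : rem A r N z = -rem A r (fun w => aeval w (B - A)) z := by
    unfold rem
    rw [← Finset.sum_neg_distrib]
    refine Finset.sum_congr rfl fun m _ => ?_
    rw [hrc m, neg_mul]
  rw [h4, remc_self' hA hρ hr hD z, map_sub]

end Pool.Agent.CZ
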