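import Pool.Agent.Lib.MP_2b3e36_an.CZ.Fix
import Pool.Agent.Lib.MP_2b3e36_an.CZ.RemC
import Pool.Agent.Lib.MP_2b3e36_an.CZ.Cau
import Pool.Agent.Lib.MP_2b3e36_an.CZ.CauB
import Pool.Agent.Lib.MP_2b3e36_an.CZ.Bla
import Pool.Agent.Lib.MP_2b3e36_an.CZ.Hol
import Pool.Agent.Lib.MP_2b3e36_an.CZ.Asm

/-!
TwoA. From the Nevanlinna-Pick function to a solution.

Data: `N` as in `NP A B (16 exp (-η))` with `R ≤ 2`, `R < 1/ρ` (shrink `R`), `T = N/(16 bl B)`,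
`‖T‖ ≤ exp (-η)` on `ra ρ ≤ ‖z‖ < R`, `‖T‖ ≤ ε` on `ra ρ ≤ ‖z‖ ≤ rd ρ`, `‖N‖ ≤ ε` on `‖z‖ ≤ rd ρ`, `ε` small.
Proof. `r = rb ρ`. Let `p` be the polynomial of `fix` (with `η/2` in place of `η`) for `T`. `t z = T z exp (-p z)` on
`Ann (ra ρ) R`: `‖t‖ ≤ exp (-η/2)`, `‖t‖ ≤ ε e^{η/2}` for `‖z‖ ≤ rd ρ`. `k z = K (t z)`, holomorphic on `Ann (ra ρ) R`; `kp` from
`cau_split`; `N' z = N z * B.reverse z * exp (-p z) * exp (kp z)` on `ball 0 R`, zero free (`rev_ne`), holomorphic.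
(i) `A ∣ N' + B`: for `‖z‖ < r`: `kp z - p z = cau r k z - rem A r k z = A z g z` (`rem_cau`), so
`N' + B = (N B.reverse + B) + N B.reverse (exp (A g) - 1) = A (h + N B.reverse g E(A g))`, `E x = (exp x - 1)/x` entire
(`dslope exp 0`). For `‖z‖ > ρ` `A z ≠ 0`. So `u = (N' + B)/A` extends to a holomorphic function on
`ball 0 R`: define `u z = h z + N B.reverse g E` for `‖z‖ < r` and `(N' + B)/A` otherwise (they agree for
`ρ < ‖z‖ < r`).
(ii) for `rd ρ ≤ ‖z‖ < R`: `N'/B = 16 t exp (kp) = ((J t)⁻¹ - 1) exp (kp - k)` (`K_eq`), `‖kp - k‖ ≤ C ε` (`cau_split`,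
`cau_out_le` with `r₂ = rd ρ`), `‖(J t)⁻¹‖ ≥ c`, `‖(J t)⁻¹ - 1‖ ≤ C'` (`J_inv_far` with `η/2`), so `N'/B + 1 ≠ 0`, `u z ≠ 0`.
(iii) for `‖z‖ ≤ rd ρ`: `‖N'‖ ≤ C ε` (on `‖z‖ = rd ρ`, `kp = k + cau r k` is bounded there, or everywhere for `‖z‖ ≤ rd ρ` by the
maximum principle), `‖B z - A z‖ = ‖rem A r N' z‖ ≤ C ε` (`rem_diff`, `rem_le`). On `‖z‖ = rd ρ`
`‖u - 1‖ = ‖N' + B - A‖/‖A‖ ≤ C ε/(rd ρ - ρ)^n < 1/2` (`poly_lower`), so by the maximum principle on `‖z‖ ≤ rd ρ`: `u ≠ 0`.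
Symmetric: all the ingredients are real on the real axis (`kp` by `cau_conj` near `0` and `sym_of_small`; `T`, `p`, `B.reverse` are symmetric).

-/

set_option autoImplicit false

open Complex Set Filter Topology Metric Polynomial

namespace Pool.Agent.CZ

open Pool.Agent.Choc

theorem two_asm (n : ℕ) {ρ η : ℝ} (hρ : 0 < ρ) (hρ1 : ρ < 1) (hη : 0 < η) : ∃ ε : ℝ, 0 < ε ∧
    ∀ A B : ℝ[X], Hyp n ρ A → Hyp n ρ B → A.natDegree = B.natDegree →
      ∀ (R : ℝ) (N h : ℂ → ℂ), 1 < R → R ≤ 2 → R < 1 / ρ → DifferentiableOn ℂ N (ball 0 R) →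
      DifferentiableOn ℂ h (ball 0 R) → (∀ z ∈ ball (0 : ℂ) R, N z ≠ 0) → Sym N (ball 0 R) →
      (∀ z ∈ ball (0 : ℂ) R, N z * aeval z B.reverse + aeval z B = aeval z A * h z) →
      (∀ z : ℂ, ra ρ ≤ ‖z‖ → ‖z‖ < R → ‖N z / (16 * bl B z)‖ ≤ Real.exp (-η)) →
      (∀ z : ℂ, ra ρ ≤ ‖z‖ → ‖z‖ ≤ rd ρ → ‖N z / (16 * bl B z)‖ ≤ ε) →
      (∀ z : ℂ, ‖z‖ ≤ rd ρ → ‖N z‖ ≤ ε) → Hol A B := by
  obtain ⟨h1, h2, h3, h4, h5, h6⟩ := asm_rad hρ hρ1
  obtain ⟨CK, hCK, KL⟩ := K_lip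
  obtain ⟨CR, hCR, RL⟩ := rem_le n hρ (h1.trans h2) (h3.trans h4)
  obtain ⟨ε₀, hε₀, hε₀E, FX⟩ := fix n hρ hρ1 (show 0 < η / 2 by positivity)
  obtain ⟨cJ, CJ, hcJ, hCJ, JF⟩ := J_inv_far (show 0 < η / 2 by positivity)
  have hrd0 : 0 < rd ρ := h6.trans h3
  set q : ℝ := rb ρ / (rd ρ - rb ρ) with hq
  have hq0 : 0 < q := div_pos h6 (sub_pos.2 h3)
  set E : ℝ := Real.exp (η / 2) with hE
  have hE0 : 0 < E := Real.exp_pos _
  have hE1 : 1 ≤ E := Real.one_le_exp (by positivity)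
  -- the bounds in terms of `ε`
  set D : ℝ := CK * E * (1 + q) with hD
  have hD0 : 0 < D := by positivity
  set MN : ℝ := 3 ^ n * E * Real.exp 1 with hMN
  have hMN0 : 0 < MN := by positivity
  set dd : ℝ := (rd ρ - ρ) ^ n with hdd
  have hdd0 : 0 < dd := pow_pos (by linarith) n
  obtain ⟨ε, hε⟩ : ∃ ε : ℝ, ε = min (min ε₀ (1 / D)) (min (cJ / (4 * CJ * D)) (dd / (4 * (1 + CR) * MN))) :=
    ⟨_, rfl⟩
  have hε0 : 0 < ε := by rw [hε]; positivity
  have e1 : ε ≤ ε₀ := hε ▸ (min_le_left _ _).trans (min_le_left _ _)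
  have e2 : ε * D ≤ 1 := by
    have : ε ≤ 1 / D := hε ▸ (min_le_left _ _).trans (min_le_right _ _)
    calc ε * D ≤ 1 / D * D := mul_le_mul_of_nonneg_right this hD0.le
      _ = 1 := by field_simp
  have e3 : CJ * (2 * (ε * D)) ≤ cJ / 2 := by
    have : ε ≤ cJ / (4 * CJ * D) := hε ▸ (min_le_right _ _).trans (min_le_left _ _)
    calc CJ * (2 * (ε * D)) ≤ CJ * (2 * (cJ / (4 * CJ * D) * D)) := by gcongr
      _ = cJ / 2 := by field_simp; ring
  have e4 : (1 + CR) * (ε * MN) ≤ dd / 4 := by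
    have : ε ≤ dd / (4 * (1 + CR) * MN) := hε ▸ (min_le_right _ _).trans (min_le_right _ _)
    calc (1 + CR) * (ε * MN) ≤ (1 + CR) * (dd / (4 * (1 + CR) * MN) * MN) := by gcongr
      _ = dd / 4 := by field_simp
  have e5 : ε * E ≤ 1 / 2 := (mul_le_mul_of_nonneg_right e1 hE0.le).trans hε₀E
  refine ⟨ε, hε0, ?_⟩
  intro A B hA hB hdeg R N h hR hR2 hRρ hN hh h0 hNs he hT1 hT2 hNε
  have hrdR : rd ρ < R := h4.trans hR
  have hrev : ∀ z : ℂ, ‖z‖ < R → aeval z B.reverse ≠ 0 := fun z hz =>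
    rev_ne hρ hB.roots hB.monic (hz.trans hRρ)
  have hBne : ∀ z : ℂ, ρ < ‖z‖ → aeval z B ≠ 0 := fun z hz => aeval_ne hB.roots hz
  have hAne : ∀ z : ℂ, ρ < ‖z‖ → aeval z A ≠ 0 := fun z hz => aeval_ne hA.roots hz
  obtain ⟨T, hTdef⟩ : ∃ T : ℂ → ℂ, T = fun z => N z / (16 * bl B z) := ⟨_, rfl⟩
  have hblne : ∀ z ∈ Ann (ra ρ) R, bl B z ≠ 0 := fun z hz =>
    div_ne_zero (hBne z (h1.trans hz.1)) (hrev z hz.2)
  have hbld : DifferentiableOn ℂ (bl B) (Ann (ra ρ) R) :=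
    (asm_poly_diff B).differentiableOn.div (asm_poly_diff B.reverse).differentiableOn
      fun z hz => hrev z hz.2
  have hAb : Ann (ra ρ) R ⊆ ball (0 : ℂ) R := fun z hz => by
    rw [mem_ball_zero_iff]; exact hz.2
  have hTd : DifferentiableOn ℂ T (Ann (ra ρ) R) := by
    rw [hTdef]
    refine (hN.mono hAb).div (hbld.const_mul _) fun z hz => ?_
    exact mul_ne_zero (by norm_num) (hblne z hz)
  have hTs : Sym T (Ann (ra ρ) R) := by
    intro z hz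
    rw [hTdef]
    simp only [bl]
    rw [hNs z (hAb hz), asm_conj, asm_conj, map_div₀, map_mul, map_div₀, Complex.conj_ofNat]
  have hTn1 : ∀ z ∈ Ann (ra ρ) R, ‖T z‖ ≤ Real.exp (-η) := fun z hz => hTdef ▸ hT1 z hz.1.le hz.2
  have hTn2 : ∀ z : ℂ, ra ρ ≤ ‖z‖ → ‖z‖ ≤ rd ρ → ‖T z‖ ≤ ε := fun z hz hz' => hTdef ▸ hT2 z hz hz'
  obtain ⟨p, hpb, hpr⟩ := FX A hA T (asm_cont_sphere hTd h2 (h3.trans hrdR))
    (asm_sym_sphere hTs h2 (h3.trans hrdR)) fun w hw => (hTn2 w (hw ▸ h2.le) (hw ▸ h3.le)).trans e1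
  obtain ⟨t, htdef⟩ : ∃ t : ℂ → ℂ, t = fun z => T z * exp (-aeval z p) := ⟨_, rfl⟩
  have htd : DifferentiableOn ℂ t (Ann (ra ρ) R) := by
    rw [htdef]
    exact hTd.mul (asm_poly_diff p).differentiableOn.neg.cexp
  have hts : Sym t (Ann (ra ρ) R) := by
    intro z hz
    rw [htdef]
    simp only
    rw [hTs z hz, asm_conj, map_mul, ← exp_conj, map_neg]
  have hexpp : ∀ z : ℂ, ‖z‖ ≤ 2 → ‖exp (-aeval z p)‖ ≤ E := fun z hz => by
    refine (norm_exp_le_exp_norm _).trans (Real.exp_le_exp.2 ?_)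
    rw [norm_neg]
    exact hpb z hz
  have htn1 : ∀ z ∈ Ann (ra ρ) R, ‖t z‖ ≤ Real.exp (-(η / 2)) := fun z hz => by
    rw [htdef]
    simp only
    rw [norm_mul]
    calc ‖T z‖ * ‖exp (-aeval z p)‖ ≤ Real.exp (-η) * E :=
          mul_le_mul (hTn1 z hz) (hexpp z (hz.2.le.trans hR2)) (norm_nonneg _) (Real.exp_pos _).le
      _ = Real.exp (-(η / 2)) := by rw [hE, ← Real.exp_add]; ring_nf
  have htn1' : ∀ z ∈ Ann (ra ρ) R, ‖t z‖ < 1 := fun z hz =>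
    (htn1 z hz).trans_lt (by rw [Real.exp_lt_one_iff]; linarith)
  have htn2 : ∀ z : ℂ, ra ρ ≤ ‖z‖ → ‖z‖ ≤ rd ρ → ‖t z‖ ≤ ε * E := fun z hz hz' => by
    rw [htdef]
    simp only
    rw [norm_mul]
    exact mul_le_mul (hTn2 z hz hz') (hexpp z (hz'.trans (h4.le.trans (by norm_num)))) (norm_nonneg _) hε0.le
  obtain ⟨k, hkdef⟩ : ∃ k : ℂ → ℂ, k = fun z => K (t z) := ⟨_, rfl⟩
  have hk : DifferentiableOn ℂ k (Ann (ra ρ) R) := by
    rw [hkdef]
    refine K_diff.comp htd fun z hz => ?_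
    rw [mem_ball_zero_iff]
    exact htn1' z hz
  have hks : Sym k (Ann (ra ρ) R) := by
    intro z hz
    rw [hkdef]
    simp only
    rw [hts z hz, K_conj (htn1' z hz)]
  have hkm : ∀ z : ℂ, ra ρ ≤ ‖z‖ → ‖z‖ ≤ rd ρ → ‖k z‖ ≤ CK * (ε * E) := by
    intro z hz hz'
    have hw2 := htn2 z hz hz'
    have hw3 := KL (t z) 0 (hw2.trans e5) (by rw [norm_zero]; norm_num)
    rw [K_zero, sub_zero, sub_zero] at hw3
    rw [hkdef]
    exact hw3.trans (mul_le_mul_of_nonneg_left hw2 hCK.le)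
  have hkmb : ∀ w : ℂ, ‖w‖ = rb ρ → ‖k w‖ ≤ CK * (ε * E) := fun w hw => hkm w (hw ▸ h2.le) (hw ▸ h3.le)
  obtain ⟨kp, g, hkp, hkps, hg, hkg, hkb⟩ := asm_core hρ hρ1 hR hA.roots hk hks hkmb
  have hkg' : ∀ z : ℂ, ‖z‖ < rb ρ → kp z - aeval z p = aeval z A * g z := fun z hz => by
    rw [← hkg z hz, ← hpr z, hkdef, htdef]
  have hkb' : ∀ z : ℂ, rd ρ ≤ ‖z‖ → ‖z‖ < R → ‖k z - kp z‖ ≤ ε * D := fun z hz hz' =>
    (hkb z hz hz').trans (by
      rw [hD]
      have : 0 ≤ CK * (ε * E) := by positivity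
      nlinarith)
  have hkpb : ∀ z : ℂ, ‖z‖ ≤ rd ρ → ‖kp z‖ ≤ 1 := by
    intro z hz
    refine asm_max hrdR hrd0 hkp (fun w hw => ?_) hz
    have hw1 := hkb w hw.ge (hw ▸ hrdR)
    have hw2 := hkm w (hw ▸ (h2.trans h3).le) hw.le
    have hw3 : kp w = k w - (k w - kp w) := by ring
    rw [hw3]
    refine (norm_sub_le _ _).trans ((add_le_add hw2 hw1).trans (le_trans (le_of_eq ?_) e2))
    rw [hD]
    ring
  obtain ⟨M, hM⟩ : ∃ M : ℂ → ℂ, M = fun z => N z * aeval z B.reverse * exp (-aeval z p) * exp (kp z) := ⟨_, rfl⟩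
  have hMd : DifferentiableOn ℂ M (ball 0 R) := by
    rw [hM]
    exact ((hN.mul (asm_poly_diff B.reverse).differentiableOn).mul
      (asm_poly_diff p).differentiableOn.neg.cexp).mul hkp.cexp
  have hMs : Sym M (ball 0 R) := by
    intro z hz
    rw [hM]
    simp only
    rw [hNs z hz, asm_conj, asm_conj, hkps z hz, map_mul, map_mul, map_mul, ← exp_conj, ← exp_conj, map_neg]
  have hMin : ∀ z : ℂ, ‖z‖ ≤ rd ρ → ‖M z‖ ≤ ε * MN := by
    intro z hz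
    have hz2 : ‖z‖ ≤ 2 := hz.trans (h4.le.trans (by norm_num))
    have b1 := (poly_upper hB hρ1 hz2).2
    have b2 : ‖exp (kp z)‖ ≤ Real.exp 1 :=
      (norm_exp_le_exp_norm _).trans (Real.exp_le_exp.2 (hkpb z hz))
    rw [hM]
    simp only
    rw [norm_mul, norm_mul, norm_mul]
    calc ‖N z‖ * ‖aeval z B.reverse‖ * ‖exp (-aeval z p)‖ * ‖exp (kp z)‖
        ≤ ε * 3 ^ n * E * Real.exp 1 := by
          have := hNε z hz
          have := hexpp z hz2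
          gcongr
      _ = ε * MN := by rw [hMN]; ring
  -- divisibility
  have hdiv : ∃ u : ℂ → ℂ, DifferentiableOn ℂ u (ball 0 R) ∧ ∀ z ∈ ball (0 : ℂ) R,
      M z + aeval z B = aeval z A * u z := by
    refine div_ext (g := fun z => h z + N z * aeval z B.reverse * g z * asmE (aeval z A * g z))
      hA.roots (h1.trans h2) ?_ ?_ ?_
    · exact hMd.add (asm_poly_diff B).differentiableOn
    · have hb : ball (0 : ℂ) (rb ρ) ⊆ ball 0 R := ball_subset_ball (h3.trans hrdR).le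
      exact (hh.mono hb).add ((((hN.mono hb).mul (asm_poly_diff B.reverse).differentiableOn).mul hg).mul
        (asmE_diff.comp_differentiableOn ((asm_poly_diff A).differentiableOn.mul hg)))
    · intro z hz hzR
      have e1 := he z (by rw [mem_ball_zero_iff]; exact hzR)
      have e2 := hkg' z hz
      have e3 := asmE_eq (aeval z A * g z)
      have e4 : exp (-aeval z p) * exp (kp z) = exp (aeval z A * g z) := by
        rw [← exp_add, ← e2]
        congr 1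
        ring
      rw [hM]
      simp only
      rw [mul_assoc (N z * aeval z B.reverse), e4]
      linear_combination e1 + N z * aeval z B.reverse * e3
  obtain ⟨u, hu, hue⟩ := hdiv
  have hMne : ∀ z ∈ ball (0 : ℂ) R, M z ≠ 0 := by
    intro z hz
    have hz' := hz
    rw [mem_ball_zero_iff] at hz'
    rw [hM]
    exact mul_ne_zero (mul_ne_zero (mul_ne_zero (h0 z hz) (hrev z hz')) (exp_ne_zero _)) (exp_ne_zero _)
  -- outside
  have hout : ∀ z : ℂ, rd ρ ≤ ‖z‖ → ‖z‖ < R → u z ≠ 0 := by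
    intro z hz hzR hu0
    have hzA : z ∈ Ann (ra ρ) R := ⟨(h2.trans h3).trans_le hz, hzR⟩
    have hBz := hBne z (h1.trans hzA.1)
    have c1 : M z = aeval z B * (((J (t z))⁻¹ - 1) * exp (kp z - k z)) := by
      rw [K_eq (htn1' z hzA)]
      have c2 : N z * aeval z B.reverse = 16 * T z * aeval z B := by
        rw [hTdef]
        simp only [bl]
        have := hrev z hzR
        field_simp
      have c3 : exp (K (t z)) = exp (k z) := by rw [hkdef]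
      rw [hM, c3, exp_sub]
      simp only
      rw [c2, htdef]
      simp only
      have := exp_ne_zero (k z)
      field_simp
    have c4 := hue z (by rw [mem_ball_zero_iff]; exact hzR)
    rw [hu0, mul_zero, c1] at c4
    have c5 : (J (t z))⁻¹ + ((J (t z))⁻¹ - 1) * (exp (kp z - k z) - 1) = 0 := by
      have : aeval z B * ((J (t z))⁻¹ + ((J (t z))⁻¹ - 1) * (exp (kp z - k z) - 1)) = 0 := by
        linear_combination c4
      exact (mul_eq_zero.1 this).resolve_left hBz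
    obtain ⟨j1, j2⟩ := JF (t z) (htn1 z hzA)
    have c6 : ‖kp z - k z‖ ≤ ε * D := by rw [norm_sub_rev]; exact hkb' z hz hzR
    have c7 : ‖exp (kp z - k z) - 1‖ ≤ 2 * ‖kp z - k z‖ := norm_exp_sub_one_le (c6.trans e2)
    have c8 : ‖(J (t z))⁻¹‖ ≤ cJ / 2 := by
      have : (J (t z))⁻¹ = -(((J (t z))⁻¹ - 1) * (exp (kp z - k z) - 1)) := by linear_combination c5
      rw [this, norm_neg, norm_mul]
      calc ‖(J (t z))⁻¹ - 1‖ * ‖exp (kp z - k z) - 1‖ ≤ CJ * (2 * (ε * D)) :=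
            mul_le_mul j2 (c7.trans (by linarith)) (norm_nonneg _) hCJ.le
        _ ≤ cJ / 2 := e3
    linarith
  -- inside
  have hrem : ∀ z : ℂ, ‖z‖ ≤ 2 → ‖aeval z B - aeval z A‖ ≤ CR * (ε * MN) := by
    intro z hz
    have c1 := rem_diff hA.roots hA.monic hB.monic hdeg hA.pos hρ (h1.trans h2) (h3.trans hrdR) hMd hu hue z
    have c2 := RL A hA M (ε * MN) (fun w hw => hMin w (hw ▸ h3.le)) z hz
    rwa [c1, norm_neg] at c2
  have hin : ∀ z : ℂ, ‖z‖ ≤ rd ρ → u z ≠ 0 := by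
    intro z hz hu0
    have c1 : ‖u z - 1‖ ≤ 1 / 2 := by
      refine asm_max (f := fun z => u z - 1) hrdR hrd0 (hu.sub (differentiableOn_const _)) (fun w hw => ?_) hz
      have hw1 : ρ < ‖w‖ := hw ▸ (h1.trans (h2.trans h3))
      have c2 := hue w (by rw [mem_ball_zero_iff, hw]; exact hrdR)
      have c3 : dd ≤ ‖aeval w A‖ := by
        have := poly_lower hA hρ hw1 (hw ▸ h4.le)
        rwa [hw] at this
      have c4 : u w - 1 = (M w + (aeval w B - aeval w A)) / aeval w A := by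
        rw [eq_div_iff (hAne w hw1)]
        linear_combination -c2
      rw [c4, norm_div, div_le_iff₀ (hdd0.trans_le c3)]
      calc ‖M w + (aeval w B - aeval w A)‖ ≤ ε * MN + CR * (ε * MN) :=
            (norm_add_le _ _).trans (add_le_add (hMin w hw.le) (hrem w (hw ▸ (h4.le.trans (by norm_num)))))
        _ = (1 + CR) * (ε * MN) := by ring
        _ ≤ dd / 4 := e4
        _ ≤ 1 / 2 * ‖aeval w A‖ := by linarith
    rw [hu0, zero_sub, norm_neg, norm_one] at c1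
    norm_num at c1
  have huS : Sym u (ball 0 R) := by
    refine sym_of_ann h5 ((h2.trans h3).trans hrdR) hu fun z hz => ?_
    have c1 := hue z (hAb hz)
    have hz' : starRingEnd ℂ z ∈ ball (0 : ℂ) R := by
      rw [mem_ball_zero_iff, asm_norm_conj]; exact hz.2
    have c2 := hue _ hz'
    rw [hMs z (hAb hz), asm_conj, asm_conj, ← map_add, c1, map_mul] at c2
    have c3 : starRingEnd ℂ (aeval z A) ≠ 0 := by
      rw [Ne, map_eq_zero]
      exact hAne z (h1.trans hz.1)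
    exact (mul_left_cancel₀ c3 c2).symm
  refine ⟨R, hR, u, M, hu, hMd, fun z hz => ⟨?_, hMne z hz⟩, huS, hMs, fun z hz => ?_⟩
  · rw [mem_ball_zero_iff] at hz
    rcases le_or_gt (rd ρ) ‖z‖ with h' | h'
    · exact hout z h' hz
    · exact hin z h'.le
  · linear_combination -(hue z hz)

end Pool.Agent.CZ
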