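import Pool.Agent.Lib.MP_2b3e36_an.CZ.OneT
import Pool.Agent.Lib.MP_2b3e36_an.CZ.OneA
import Pool.Agent.Lib.MP_2b3e36_an.CZ.TwoA
import Pool.Agent.Lib.MP_2b3e36_an.CZ.TB

/-!
Main. Assembly.
-/

set_option autoImplicit false

open Complex Set Filter Topology Metric Polynomial

namespace Pool.Agent.CZ

theorem np_bl {A B : ℝ[X]} {R ρ : ℝ} {N h : ℂ → ℂ} (hR : R < 1 / ρ) (hR1 : 1 < R) (hρ : 0 < ρ)
    (hρ1 : ρ < 1) (hA : RootsIn A ρ) (hB : RootsIn B ρ) (hBm : B.Monic)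
    (h2 : ∀ z ∈ ball (0 : ℂ) R, N z * aeval z B.reverse + aeval z B = aeval z A * h z) :
    ∀ a : ℂ, aeval a A = 0 → N a = -bl B a := by
  intro a ha
  have h3 : ‖a‖ ≤ ρ := hA a ha
  have h4 : a ∈ ball (0 : ℂ) R := by
    rw [mem_ball_zero_iff]; linarith
  have h5 := h2 a h4
  rw [ha, zero_mul] at h5
  have h6 : aeval a B.reverse ≠ 0 := rev_ne hρ hB hBm (by linarith)
  rw [bl, eq_neg_iff_add_eq_zero, ← sub_eq_zero]
  field_simp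
  linear_combination h5

theorem main (n : ℕ) {ρ η : ℝ} (hρ : 0 < ρ) (hρ1 : ρ < 1) (hη : 0 < η) : ∃ κ : ℝ, 0 < κ ∧
    ∀ A B : ℝ[X], Hyp n ρ A → Hyp n ρ B → Close A B κ →
      (Solvable A B → A.natDegree = B.natDegree ∧ NP A B (16 * Real.exp η)) ∧
      (A.natDegree = B.natDegree → NP A B (16 * Real.exp (-η)) → Solvable A B) := by
  obtain ⟨ε₁, hε₁, H1⟩ := one_asm n hρ hρ1 hη
  obtain ⟨κ₁, hκ₁, H2⟩ := one_t n hρ hρ1 hε₁
  obtain ⟨ε₂, hε₂, H3⟩ := two_asm n hρ hρ1 hη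
  obtain ⟨κ₂, hκ₂, H4⟩ := t_bounds n hρ hρ1 hη hε₂
  refine ⟨min κ₁ κ₂, lt_min hκ₁ hκ₂, fun A B hA hB hc => ⟨fun hs => ?_, fun hd hnp => ?_⟩⟩
  · obtain ⟨a, b, ha, hb, hab⟩ := hc
    obtain ⟨R, hR, u, N, hu, hN, h0, hsu, hsN, he⟩ := hol_of_solvable hs
    obtain ⟨hdeg, t, ht, hst, ht1, ht2⟩ := H2 A B hA hB ⟨a, b, ha, hb, hab.trans_le (min_le_left _ _)⟩
      R u N hR hu hN h0 hsu hsN he
    exact ⟨hdeg, H1 A B hA hB R u N t hR hu hN h0 hsu hsN he ht hst ht1 ht2⟩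
  · obtain ⟨a, b, ha, hb, hab⟩ := hc
    obtain ⟨R₀, hR₀, N, h, hN, hh, h1, h2⟩ := hnp
    have h1ρ : 1 < 1 / ρ := by rw [lt_div_iff₀ hρ]; linarith
    obtain ⟨R, hR, hR'⟩ := exists_between (lt_min hR₀ (lt_min h1ρ (by norm_num : (1 : ℝ) < 2)))
    have hRR : R < R₀ := hR'.trans_le (min_le_left _ _)
    have hRρ : R < 1 / ρ := hR'.trans_le ((min_le_right _ _).trans (min_le_left _ _))
    have hR2 : R < 2 := hR'.trans_le ((min_le_right _ _).trans (min_le_right _ _))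
    have hsub : ball (0 : ℂ) R ⊆ ball 0 R₀ := ball_subset_ball hRR.le
    have h2' : ∀ z ∈ ball (0 : ℂ) R, N z * aeval z B.reverse + aeval z B = aeval z A * h z :=
      fun z hz => h2 z (hsub hz)
    have hbl := np_bl hRρ hR hρ hρ1 hA.roots hB.roots hB.monic h2'
    obtain ⟨b1, b2, b3⟩ := H4 A B hA hB ⟨a, b, ha, hb, hab.trans_le (min_le_right _ _)⟩ R N hR hR2.le hRρ
      (hN.mono hsub) (fun z hz => ⟨(h1 z (hsub hz)).1, (h1 z (hsub hz)).2.1⟩) hbl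
    exact solvable_of_hol (H3 A B hA hB hd R N h hR hR2.le hRρ (hN.mono hsub) (hh.mono hsub)
      (fun z hz => (h1 z (hsub hz)).1) (fun z hz => (h1 z (hsub hz)).2.2) h2' b1 b2 b3)

end Pool.Agent.CZ
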