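import Pool.Agent.Lib.MP_2b3e36_an.CZ.Big
import Pool.Agent.Lib.MP_2b3e36_an.CZ.Deg
import Pool.Agent.Lib.MP_2b3e36_an.CZ.LiftAnn
import Pool.Agent.Lib.MP_2b3e36_an.CZ.KfB

/-!
OneT. A holomorphic solution with a zero close to a one: equal degrees and the lift near the circle.

Proof. `A u - N = B` on `ball 0 R`, `q = A u / N = (N + B)/N`, `q - 1 = B/N`: holomorphic on `ball 0 1`, without
zeros and ones for `ρ < ‖z‖ < R`. `q a = 0`, `q b = 1` for the close roots. `big` with `r₀ = ra ρ`, `r₂ = rd ρ` and `L` large: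
`‖q z‖ > L` for `ra ρ ≤ ‖z‖ ≤ rd ρ`. `f = B/(A u) = (q - 1)/q` on `Ann (ra ρ) R` omits `0` and `1`, `‖f - 1‖ = 1/‖q‖ < 1/L` for `‖z‖ ≤ rd ρ`.
`lift_ann` (a = ra ρ, b = rd ρ): `t` with `J t = f`, `‖t‖ ≤ ‖f - 1‖ ≤ ε` for `‖z‖ ≤ rd ρ`. `N/B = 1/(q-1) = 1/f - 1 = (J t)⁻¹ - 1 = 16 t exp (K t)`.
Degrees: `A u/B - 1 = N/B` has norm `≤ 1/(L-1) < 1` on `‖w‖ = rb ρ`: `deg_eq`.
-/

set_option autoImplicit false

open Complex Set Filter Topology Metric Polynomial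

namespace Pool.Agent.CZ

private theorem onet_conj (P : ℝ[X]) (z : ℂ) : aeval (starRingEnd ℂ z) P = starRingEnd ℂ (aeval z P) :=
  Polynomial.aeval_conj P z

theorem one_t (n : ℕ) {ρ ε : ℝ} (hρ : 0 < ρ) (hρ1 : ρ < 1) (hε : 0 < ε) :
    ∃ κ : ℝ, 0 < κ ∧ ∀ A B : ℝ[X], Hyp n ρ A → Hyp n ρ B → Close A B κ →
      ∀ (R : ℝ) (u N : ℂ → ℂ), 1 < R → DifferentiableOn ℂ u (ball 0 R) →
      DifferentiableOn ℂ N (ball 0 R) → (∀ z ∈ ball (0 : ℂ) R, u z ≠ 0 ∧ N z ≠ 0) →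
      Sym u (ball 0 R) → Sym N (ball 0 R) →
      (∀ z ∈ ball (0 : ℂ) R, aeval z A * u z - N z = aeval z B) →
      A.natDegree = B.natDegree ∧ ∃ t : ℂ → ℂ, DifferentiableOn ℂ t (Ann (ra ρ) R) ∧
        Sym t (Ann (ra ρ) R) ∧
        (∀ z ∈ Ann (ra ρ) R, ‖t z‖ < 1 ∧ N z = 16 * t z * aeval z B * exp (K (t z))) ∧
        ∀ z ∈ Ann (ra ρ) R, ‖z‖ ≤ rd ρ → ‖t z‖ ≤ ε := by
  obtain ⟨δ, hδ, hlift⟩ := lift_ann
  have ha1 : ρ < ra ρ := by unfold ra; linarith
  have hab : ra ρ < rd ρ := by unfold ra rd; linarith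
  have hd1 : rd ρ < 1 := by unfold rd; linarith
  have hb1 : ρ < rb ρ := by unfold rb; linarith
  have hb2 : ra ρ ≤ rb ρ := by unfold ra rb; linarith
  have hb3 : rb ρ ≤ rd ρ := by unfold rb rd; linarith
  set L : ℝ := 2 + 1 / δ + 1 / ε with hL
  have hL2 : 2 < L := by
    have h1 : 0 < 1 / δ := by positivity
    have h2 : 0 < 1 / ε := by positivity
    rw [hL]; linarith
  have hL0 : 0 < L := by linarith
  have hLδ : 1 / L ≤ δ := by
    rw [div_le_iff₀ hL0]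
    have h2 : 0 < 1 / ε := by positivity
    have : δ * (1 / δ) = 1 := by field_simp
    nlinarith
  have hLε : 1 / L ≤ ε := by
    rw [div_le_iff₀ hL0]
    have h2 : 0 < 1 / δ := by positivity
    have : ε * (1 / ε) = 1 := by field_simp
    nlinarith
  obtain ⟨κ, hκ, hbig⟩ := big hρ ha1 hd1 L
  refine ⟨κ, hκ, ?_⟩
  intro A B hA hB hcl R u N hR hu hN h0 hus hNs hq
  obtain ⟨a, b, haA, hbB, hab'⟩ := hcl
  have hAne : ∀ z : ℂ, ρ < ‖z‖ → aeval z A ≠ 0 := fun z hz h => absurd (hA.roots z h) (not_le.2 hz)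
  have hBne : ∀ z : ℂ, ρ < ‖z‖ → aeval z B ≠ 0 := fun z hz h => absurd (hB.roots z h) (not_le.2 hz)
  have hsub : ball (0 : ℂ) 1 ⊆ ball 0 R := ball_subset_ball hR.le
  have hpd : ∀ P : ℝ[X], Differentiable ℂ (fun z : ℂ => aeval z P) := fun P => Polynomial.differentiable_aeval P
  have hρR : ∀ z : ℂ, ‖z‖ ≤ ρ → z ∈ ball (0 : ℂ) R := fun z hz => by
    rw [mem_ball_zero_iff]; linarith
  set q : ℂ → ℂ := fun z => aeval z A * u z / N z with hqdef
  have hqd : DifferentiableOn ℂ q (ball 0 R) :=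
    ((hpd A).differentiableOn.mul hu).div hN fun z hz => (h0 z hz).2
  have hq1 : ∀ z ∈ ball (0 : ℂ) R, q z - 1 = aeval z B / N z := fun z hz => by
    rw [hqdef]
    dsimp only
    rw [div_sub_one (h0 z hz).2, hq z hz]
  have hqL : ∀ z : ℂ, ra ρ ≤ ‖z‖ → ‖z‖ ≤ rd ρ → L < ‖q z‖ := by
    refine hbig q a b (hqd.mono hsub) ?_ (hA.roots a haA) (hB.roots b hbB) hab' ?_ ?_
    · intro z hz hz1
      have hzR : z ∈ ball (0 : ℂ) R := hsub (by rwa [mem_ball_zero_iff])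
      refine ⟨div_ne_zero (mul_ne_zero (hAne z hz) (h0 z hzR).1) (h0 z hzR).2, fun h => ?_⟩
      have h1 := hq1 z hzR
      rw [h, sub_self] at h1
      exact div_ne_zero (hBne z hz) (h0 z hzR).2 h1.symm
    · rw [hqdef]
      dsimp only
      rw [haA, zero_mul, zero_div]
    · have h1 := hq1 b (hρR b (hB.roots b hbB))
      rw [hbB, zero_div] at h1
      exact sub_eq_zero.1 h1
  have hAnn : ∀ z ∈ Ann (ra ρ) R, z ∈ ball (0 : ℂ) R := fun z hz => by
    rw [mem_ball_zero_iff]; exact hz.2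
  have hAnnρ : ∀ z ∈ Ann (ra ρ) R, ρ < ‖z‖ := fun z hz => ha1.trans hz.1
  set f : ℂ → ℂ := fun z => aeval z B / (aeval z A * u z) with hf
  have hAu : ∀ z ∈ Ann (ra ρ) R, aeval z A * u z ≠ 0 := fun z hz =>
    mul_ne_zero (hAne z (hAnnρ z hz)) (h0 z (hAnn z hz)).1
  have hf1 : ∀ z ∈ Ann (ra ρ) R, f z - 1 = - (q z)⁻¹ := fun z hz => by
    rw [hf, hqdef]
    dsimp only
    rw [div_sub_one (hAu z hz), inv_div, ← neg_div, ← hq z (hAnn z hz)]
    congr 1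
    ring
  have hfsmall : ∀ z ∈ Ann (ra ρ) R, ‖z‖ ≤ rd ρ → ‖f z - 1‖ < 1 / L := fun z hz hz2 => by
    rw [hf1 z hz, norm_neg, norm_inv, ← one_div]
    exact one_div_lt_one_div_of_lt hL0 (hqL z hz.1.le hz2)
  obtain ⟨t, htd, htJ, htb, hts⟩ := hlift (ra ρ) (rd ρ) R f (by linarith) hab (by linarith)
    (((hpd B).differentiableOn.div ((hpd A).differentiableOn.mul (hu.mono fun z hz => hAnn z hz)) fun z hz => hAu z hz))
    (fun z hz => ⟨div_ne_zero (hBne z (hAnnρ z hz)) (hAu z hz), fun h => by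
      have h1 := hf1 z hz
      rw [h, sub_self] at h1
      have h2 : q z = 0 := by
        have := neg_eq_zero.1 h1.symm
        exact inv_eq_zero.1 this
      exact div_ne_zero (hAu z hz) (h0 z (hAnn z hz)).2 h2⟩)
    (fun z hz => by
      rw [hf]
      dsimp only
      rw [onet_conj, onet_conj, hus z (hAnn z hz), map_div₀, map_mul])
    (fun z hz hz2 => (hfsmall z hz hz2).trans_le hLδ)
  refine ⟨?_, t, htd, hts, ?_, ?_⟩
  · refine deg_eq hA.roots hB.roots hA.monic hB.monic hρ hb1 (show rb ρ < R by linarith) hu (fun z hz => (h0 z hz).1) ?_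
    intro w hw
    have hwR : w ∈ ball (0 : ℂ) R := by rw [mem_ball_zero_iff, hw]; linarith
    have hwB : aeval w B ≠ 0 := hBne w (by rw [hw]; exact hb1)
    have hwq := hqL w (by rw [hw]; exact hb2) (by rw [hw]; exact hb3)
    have e : aeval w A * u w / aeval w B - 1 = (q w - 1)⁻¹ := by
      rw [hq1 w hwR, inv_div, div_sub_one hwB, ← hq w hwR]
      congr 1
      ring
    rw [e, norm_inv]
    have h1 : 1 < ‖q w - 1‖ := by
      have := norm_sub_norm_le (q w) 1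
      rw [norm_one] at this
      linarith
    exact inv_lt_one_of_one_lt₀ h1
  · intro z hz
    refine ⟨(htJ z hz).1, ?_⟩
    have h1 := K_eq (htJ z hz).1
    rw [(htJ z hz).2] at h1
    have hB0 := hBne z (hAnnρ z hz)
    have h2 : (f z)⁻¹ - 1 = N z / aeval z B := by
      rw [hf]
      dsimp only
      rw [inv_div, div_sub_one hB0, ← hq z (hAnn z hz)]
      congr 1
      ring
    rw [h2, div_eq_iff hB0] at h1
    rw [h1]
    ring
  · intro z hz hz2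
    exact (htb z hz hz2).trans ((hfsmall z hz hz2).le.trans hLε)

end Pool.Agent.CZ
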