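import Pool.Agent.Lib.MP_2b3e36_an.CZ.PkN

/-!
PkA. Two distinct real zeros.

Proof. Let `b₁ = blr B x`, `b₂ = blr B y`, `W_i = log (c/|b_i|)`. (→) `np_log`: at `x`: `σ c exp (-F x) = - bl B x`, `F x` real
positive (Sym), so `-b₁`, `-b₂` have the sign `σ`, `F x = W₁ > 0`, `F y = W₂ > 0`; `pick_two`. (←) `σ` = sign of `-b₁`;
`ψ z = (z - x)/(1 - x z)`, `λ = ((W₂ - W₁)/(W₂ + W₁))/ψ(y)`, `|λ| < 1`; `F = W₁ (1 + λ ψ)/(1 - λ ψ)`; for `R > 1` near `1`
`|λ ψ| < 1` on `ball 0 R` (`ψ` is continuous, `|ψ| ≤ 1` on the closed unit disc; explicitly `‖ψ z‖ ≤ (R + |x|)/(1 + |x| R)` or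
compactness), so `Re F > 0`; `F x = W₁`, `F y = W₂`; `G = σ c exp (-F) B.reverse + B` vanishes at `x`, `y`: `div_two`, `np_of_log`.
-/

set_option autoImplicit false

open Complex Set Filter Topology Metric Polynomial

namespace Pool.Agent.CZ

/-- the Blaschke product on the real axis -/
noncomputable def blr (B : ℝ[X]) (x : ℝ) : ℝ := B.eval x / B.reverse.eval x

theorem pka_aeval (P : ℝ[X]) (x : ℝ) : aeval (x : ℂ) P = ((P.eval x : ℝ) : ℂ) := by
  have h := Polynomial.aeval_algebraMap_apply ℂ x P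
  simpa using h

theorem pka_real {F : ℂ → ℂ} {S : Set ℂ} (hs : Sym F S) {x : ℝ} (hx : (x : ℂ) ∈ S) :
    F (x : ℂ) = (((F x).re : ℝ) : ℂ) := by
  have h := hs x hx
  rw [Complex.conj_ofReal] at h
  exact (Complex.conj_eq_iff_re.1 h.symm).symm

theorem pka_rev {B : ℝ[X]} {ρ : ℝ} (hρ : 0 < ρ) (hρ1 : ρ < 1) (hBm : B.Monic) (hB : RootsIn B ρ)
    {x : ℝ} (hx : |x| ≤ ρ) : B.reverse.eval x ≠ 0 := by
  have h1 : aeval (x : ℂ) B.reverse ≠ 0 := by
    refine rev_ne hρ hB hBm ?_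
    rw [Complex.norm_real, Real.norm_eq_abs]
    have h2 : (1 : ℝ) < 1 / ρ := by
      rw [lt_div_iff₀ hρ]
      linarith
    linarith
  intro h0
  apply h1
  rw [pka_aeval, h0]
  simp

/-- the value of the solution at a real point -/
theorem pka_val {b r c σ f : ℝ} (hc : 0 < c) (hr : r ≠ 0) (hσ : σ = 1 ∨ σ = -1)
    (h : σ * c * Real.exp (-f) * r + b = 0) (hf : 0 < f) :
    b / r = -σ * (c * Real.exp (-f)) ∧ |b / r| = c * Real.exp (-f) ∧ |b / r| < c ∧
      Real.log (c / |b / r|) = f := by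
  have h1 : b / r = -σ * (c * Real.exp (-f)) := by
    rw [div_eq_iff hr]
    linear_combination h
  have he := Real.exp_pos (-f)
  have h2 : |b / r| = c * Real.exp (-f) := by
    rw [h1, abs_mul, abs_of_pos (mul_pos hc he)]
    rcases hσ with rfl | rfl <;> simp
  refine ⟨h1, h2, ?_, ?_⟩
  · rw [h2]
    have h3 : Real.exp (-f) < 1 := by
      rw [Real.exp_lt_one_iff]
      linarith
    nlinarith
  · rw [h2]
    have h4 : c / (c * Real.exp (-f)) = Real.exp f := by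
      rw [Real.exp_neg]
      field_simp
    rw [h4, Real.log_exp]

theorem pka_eq {B : ℝ[X]} {c R σ : ℝ} {F g : ℂ → ℂ} {A : ℝ[X]} (hs : Sym F (ball 0 R)) {x : ℝ}
    (hxR : (x : ℂ) ∈ ball (0 : ℂ) R) (hA : A.eval x = 0)
    (he : σ * c * exp (-F x) * aeval (x : ℂ) B.reverse + aeval (x : ℂ) B = aeval (x : ℂ) A * g x) :
    σ * c * Real.exp (-(F x).re) * B.reverse.eval x + B.eval x = 0 := by
  rw [pka_aeval, pka_aeval, pka_aeval, hA, pka_real hs hxR] at he
  have h2 : ((σ * c * Real.exp (-(F x).re) * B.reverse.eval x + B.eval x : ℝ) : ℂ) = 0 := by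
    push_cast
    simpa using he
  exact_mod_cast h2

theorem pka_mp {B : ℝ[X]} {ρ : ℝ} (hρ : 0 < ρ) (hρ1 : ρ < 1) (hBm : B.Monic) (hB : RootsIn B ρ)
    {x y c : ℝ} (hx : |x| ≤ ρ) (hy : |y| ≤ ρ) (hxy : x < y) (hc : 0 < c)
    (h : NP ((X - C x) * (X - C y)) B c) : 0 < blr B x * blr B y ∧ |blr B x| < c ∧ |blr B y| < c ∧
      |Real.log (c / |blr B x|) - Real.log (c / |blr B y|)| * (1 - x * y) <
        (Real.log (c / |blr B x|) + Real.log (c / |blr B y|)) * (y - x) := by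
  obtain ⟨R, σ, F, g, hR, hσ, hF, hg, hp, hs, he⟩ := np_log hc h
  have hxR : (x : ℂ) ∈ ball (0 : ℂ) R := by
    rw [mem_ball_zero_iff, Complex.norm_real, Real.norm_eq_abs]
    linarith
  have hyR : (y : ℂ) ∈ ball (0 : ℂ) R := by
    rw [mem_ball_zero_iff, Complex.norm_real, Real.norm_eq_abs]
    linarith
  have ex := pka_eq (B := B) hs hxR (by simp) (he x hxR)
  have ey := pka_eq (B := B) hs hyR (by simp) (he y hyR)
  obtain ⟨a1, a2, a3, a4⟩ := pka_val hc (pka_rev hρ hρ1 hBm hB hx) hσ ex (hp x hxR)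
  obtain ⟨b1, b2, b3, b4⟩ := pka_val hc (pka_rev hρ hρ1 hBm hB hy) hσ ey (hp y hyR)
  have hpk := pick_two hR hF hp (a := (x : ℂ)) (b := (y : ℂ))
    (by rw [Complex.norm_real, Real.norm_eq_abs]; linarith)
    (by rw [Complex.norm_real, Real.norm_eq_abs]; linarith)
    (by intro h0; exact hxy.ne (by exact_mod_cast h0))
  have px := hp x hxR
  have py := hp y hyR
  rw [pka_real hs hxR, pka_real hs hyR, Complex.conj_ofReal, Complex.conj_ofReal] at hpk
  have hxy1 : x * y < 1 := by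
    have h1 : |x * y| ≤ ρ * ρ := by
      rw [abs_mul]
      exact mul_le_mul hx hy (abs_nonneg _) hρ.le
    have h2 := le_abs_self (x * y)
    nlinarith
  have k1 : ‖(((F x).re : ℝ) : ℂ) - (((F y).re : ℝ) : ℂ)‖ = |(F x).re - (F y).re| := by
    rw [← Complex.ofReal_sub, Complex.norm_real, Real.norm_eq_abs]
  have k2 : ‖1 - (y : ℂ) * (x : ℂ)‖ = 1 - x * y := by
    rw [← Complex.ofReal_mul, ← Complex.ofReal_one, ← Complex.ofReal_sub, Complex.norm_real,
      Real.norm_eq_abs, abs_of_pos (by nlinarith)]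
    ring
  have k3 : ‖(((F x).re : ℝ) : ℂ) + (((F y).re : ℝ) : ℂ)‖ = (F x).re + (F y).re := by
    rw [← Complex.ofReal_add, Complex.norm_real, Real.norm_eq_abs, abs_of_pos (by linarith)]
  have k4 : ‖(x : ℂ) - (y : ℂ)‖ = y - x := by
    rw [← Complex.ofReal_sub, Complex.norm_real, Real.norm_eq_abs, abs_of_neg (by linarith)]
    ring
  rw [k1, k2, k3, k4] at hpk
  unfold blr
  refine ⟨?_, a3, b3, ?_⟩
  · rw [a1, b1]
    have e1 := Real.exp_pos (-(F x).re)
    have e2 := Real.exp_pos (-(F y).re)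
    have h3 : 0 < (c * Real.exp (-(F x).re)) * (c * Real.exp (-(F y).re)) := by positivity
    rcases hσ with rfl | rfl <;> linarith
  · rw [a4, b4]
    exact hpk

/-- the radius -/
theorem pka_rad {x ρ l : ℝ} (hρ1 : ρ < 1) (hx : |x| ≤ ρ) (hl : |l| < 1) : ∃ R : ℝ, 1 < R ∧
    ∀ z ∈ ball (0 : ℂ) R, ‖(l : ℂ) * (z - x)‖ ^ 2 < ‖1 - (x : ℂ) * z‖ ^ 2 := by
  have hl2 : l ^ 2 < 1 := by
    rw [← sq_abs]
    nlinarith [abs_nonneg l]
  have hxx := abs_nonneg x
  set e : ℝ := (1 - l ^ 2) * (1 - ρ) ^ 2 with he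
  have he0 : 0 < e := by
    have h1 : 0 < 1 - l ^ 2 := by linarith
    have h2 : 0 < 1 - ρ := by linarith
    positivity
  refine ⟨Real.sqrt (1 + e), ?_, ?_⟩
  · rw [Real.lt_sqrt (by norm_num)]
    linarith
  intro z hz
  rw [mem_ball_zero_iff, Real.lt_sqrt (norm_nonneg _)] at hz
  have n1 : ‖(l : ℂ) * (z - x)‖ ^ 2 = l ^ 2 * ‖z - x‖ ^ 2 := by
    rw [norm_mul, mul_pow, Complex.norm_real, Real.norm_eq_abs, sq_abs]
  have n2 : ‖1 - (x : ℂ) * z‖ ^ 2 = ‖z - x‖ ^ 2 + (1 - ‖z‖ ^ 2) * (1 - x ^ 2) := by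
    rw [← Complex.normSq_eq_norm_sq, ← Complex.normSq_eq_norm_sq, ← Complex.normSq_eq_norm_sq]
    simp only [Complex.normSq_apply, Complex.sub_re, Complex.sub_im, Complex.mul_re, Complex.mul_im,
      Complex.ofReal_re, Complex.ofReal_im, Complex.one_re, Complex.one_im]
    ring
  rw [n1, n2]
  have hx2 : x ^ 2 < 1 := by
    rw [← sq_abs]
    nlinarith
  have n3 : ‖z‖ ≤ ‖z - x‖ + |x| := by
    have h3 := norm_sub_norm_le z (x : ℂ)
    rw [Complex.norm_real, Real.norm_eq_abs] at h3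
    linarith
  have hz0 := norm_nonneg z
  have hzx := norm_nonneg (z - (x : ℂ))
  rcases lt_or_ge (‖z‖ ^ 2) 1 with h1 | h1
  · have h2 : 0 < (1 - ‖z‖ ^ 2) * (1 - x ^ 2) := mul_pos (by linarith) (by linarith)
    have h3 : 0 ≤ (1 - l ^ 2) * ‖z - (x : ℂ)‖ ^ 2 := mul_nonneg (by linarith) (by positivity)
    linarith
  · have h2 : 1 ≤ ‖z‖ := by
      by_contra hcon
      push Not at hcon
      nlinarith
    have h3 : 1 - ρ ≤ ‖z - (x : ℂ)‖ := by linarith
    have h4 : (1 - ρ) ^ 2 ≤ ‖z - (x : ℂ)‖ ^ 2 := by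
      have : 0 ≤ 1 - ρ := by linarith
      exact pow_le_pow_left₀ this h3 2
    have h5 : e ≤ (1 - l ^ 2) * ‖z - (x : ℂ)‖ ^ 2 :=
      mul_le_mul_of_nonneg_left h4 (by linarith)
    have h6 : (‖z‖ ^ 2 - 1) * (1 - x ^ 2) ≤ ‖z‖ ^ 2 - 1 := by
      nlinarith [sq_nonneg x]
    linarith

theorem pka_re {a b : ℂ} (h : ‖b‖ ^ 2 < ‖a‖ ^ 2) : a - b ≠ 0 ∧ 0 < ((a + b) / (a - b)).re := by
  have h1 : a - b ≠ 0 := by
    intro h0
    have h2 : a = b := sub_eq_zero.1 h0
    rw [h2] at h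
    exact lt_irrefl _ h
  refine ⟨h1, ?_⟩
  have h2 : 0 < Complex.normSq (a - b) := Complex.normSq_pos.2 h1
  rw [Complex.div_re]
  have h3 : 0 < (a + b).re * (a - b).re + (a + b).im * (a - b).im := by
    rw [← Complex.normSq_eq_norm_sq, ← Complex.normSq_eq_norm_sq, Complex.normSq_apply,
      Complex.normSq_apply] at h
    simp only [Complex.sub_re, Complex.sub_im, Complex.add_re, Complex.add_im]
    nlinarith
  rw [← add_div]
  exact div_pos h3 h2

/-- the function with the two prescribed values -/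
theorem pka_fun {x y ρ W V : ℝ} (hρ1 : ρ < 1) (hx : |x| ≤ ρ) (hy : |y| ≤ ρ) (hxy : x < y)
    (hW : 0 < W) (hV : 0 < V) (h : |W - V| * (1 - x * y) < (W + V) * (y - x)) :
    ∃ (R : ℝ) (F : ℂ → ℂ), 1 < R ∧ DifferentiableOn ℂ F (ball 0 R) ∧
      (∀ z ∈ ball (0 : ℂ) R, 0 < (F z).re) ∧ Sym F (ball 0 R) ∧ F x = W ∧ F y = V := by
  have hxy1 : 0 < 1 - x * y := by
    have hxx := abs_nonneg x
    have h1 : |x * y| ≤ ρ * ρ := by
      rw [abs_mul]
      exact mul_le_mul hx hy (abs_nonneg _) (by linarith)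
    have h2 := le_abs_self (x * y)
    nlinarith
  have hyx : 0 < y - x := by linarith
  have hs : 0 < V + W := by linarith
  set l : ℝ := (V - W) / (V + W) * ((1 - x * y) / (y - x)) with hl
  have hl1 : |l| < 1 := by
    rw [hl, abs_mul, abs_div, abs_div, abs_of_pos hs, abs_of_pos hxy1, abs_of_pos hyx, div_mul_div_comm,
      div_lt_one (mul_pos hs hyx), abs_sub_comm]
    linarith
  obtain ⟨R, hR, hz⟩ := pka_rad hρ1 hx hl1
  refine ⟨R, fun z => W * (((1 - (x : ℂ) * z) + (l : ℂ) * (z - x)) /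
    ((1 - (x : ℂ) * z) - (l : ℂ) * (z - x))), hR, ?_, ?_, ?_, ?_, ?_⟩
  · intro z hzR
    have h1 := (pka_re (hz z hzR)).1
    refine DifferentiableAt.differentiableWithinAt ?_
    have d1 : DifferentiableAt ℂ (fun z : ℂ => (1 - (x : ℂ) * z) + (l : ℂ) * (z - x)) z := by fun_prop
    have d2 : DifferentiableAt ℂ (fun z : ℂ => (1 - (x : ℂ) * z) - (l : ℂ) * (z - x)) z := by fun_prop
    exact (DifferentiableAt.div d1 d2 h1).const_mul _
  · intro z hzR
    have h1 := (pka_re (hz z hzR)).2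
    rw [Complex.re_ofReal_mul]
    exact mul_pos hW h1
  · intro z hzR
    simp
  · have h1 : (1 - (x : ℂ) * x) ≠ 0 := by
      have h2 : (1 - x * x : ℝ) ≠ 0 := by
        have hxx := abs_nonneg x
        have h3 : x * x < 1 := by
          rw [← abs_mul_abs_self]
          nlinarith
        linarith
      exact_mod_cast h2
    simp only [sub_self, mul_zero, add_zero, sub_zero]
    rw [div_self h1, mul_one]
  · have h1 : (l * (y - x) : ℝ) = (V - W) / (V + W) * (1 - x * y) := by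
      rw [hl]
      field_simp
    have h2 : (l : ℂ) * ((y : ℂ) - x) = (((V - W) / (V + W) * (1 - x * y) : ℝ) : ℂ) := by
      rw [← h1]
      push_cast
      ring
    have h3 : (1 - (x : ℂ) * y) = ((1 - x * y : ℝ) : ℂ) := by push_cast; ring
    simp only
    rw [h2, h3, ← Complex.ofReal_add, ← Complex.ofReal_sub, ← Complex.ofReal_div, ← Complex.ofReal_mul]
    congr 1
    have h4 : V + W ≠ 0 := hs.ne'
    have h5 : (1 - x * y) + (V - W) / (V + W) * (1 - x * y) = 2 * V / (V + W) * (1 - x * y) := by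
      field_simp
      ring
    have h6 : (1 - x * y) - (V - W) / (V + W) * (1 - x * y) = 2 * W / (V + W) * (1 - x * y) := by
      field_simp
      ring
    rw [h5, h6]
    field_simp

theorem pka_mpr {B : ℝ[X]} {ρ : ℝ} (hρ : 0 < ρ) (hρ1 : ρ < 1) (hBm : B.Monic) (hB : RootsIn B ρ)
    {x y c : ℝ} (hx : |x| ≤ ρ) (hy : |y| ≤ ρ) (hxy : x < y) (hc : 0 < c)
    (h0 : 0 < blr B x * blr B y) (h1 : |blr B x| < c) (h2 : |blr B y| < c)
    (h3 : |Real.log (c / |blr B x|) - Real.log (c / |blr B y|)| * (1 - x * y) <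
        (Real.log (c / |blr B x|) + Real.log (c / |blr B y|)) * (y - x)) :
    NP ((X - C x) * (X - C y)) B c := by
  have hrx := pka_rev hρ hρ1 hBm hB hx
  have hry := pka_rev hρ hρ1 hBm hB hy
  have hbx : blr B x ≠ 0 := by
    intro h4
    rw [h4, zero_mul] at h0
    exact lt_irrefl _ h0
  have hby : blr B y ≠ 0 := by
    intro h4
    rw [h4, mul_zero] at h0
    exact lt_irrefl _ h0
  have hax : 0 < |blr B x| := abs_pos.2 hbx
  have hay : 0 < |blr B y| := abs_pos.2 hby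
  have hW : 0 < Real.log (c / |blr B x|) := Real.log_pos (by rw [lt_div_iff₀ hax]; linarith)
  have hV : 0 < Real.log (c / |blr B y|) := Real.log_pos (by rw [lt_div_iff₀ hay]; linarith)
  obtain ⟨R, F, hR, hF, hp, hs, hFx, hFy⟩ := pka_fun hρ1 hx hy hxy hW hV h3
  obtain ⟨σ, hσ, s1, s2⟩ : ∃ σ : ℝ, (σ = 1 ∨ σ = -1) ∧ blr B x = -σ * |blr B x| ∧
      blr B y = -σ * |blr B y| := by
    rcases lt_or_gt_of_ne hbx with h4 | h4
    · have h5 : blr B y < 0 := by
        by_contra hcon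
        push Not at hcon
        nlinarith
      refine ⟨1, Or.inl rfl, ?_, ?_⟩
      · rw [abs_of_neg h4]; ring
      · rw [abs_of_neg h5]; ring
    · have h5 : 0 < blr B y := by
        by_contra hcon
        push Not at hcon
        nlinarith
      refine ⟨-1, Or.inr rfl, ?_, ?_⟩
      · rw [abs_of_pos h4]; ring
      · rw [abs_of_pos h5]; ring
  have key : ∀ t : ℝ, B.reverse.eval t ≠ 0 → 0 < |blr B t| → blr B t = -σ * |blr B t| →
      F t = ((Real.log (c / |blr B t|) : ℝ) : ℂ) →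
      σ * c * exp (-F t) * aeval (t : ℂ) B.reverse + aeval (t : ℂ) B = 0 := by
    intro t ht ha hst hFt
    rw [hFt, pka_aeval, pka_aeval]
    have h4 : c * Real.exp (-Real.log (c / |blr B t|)) = |blr B t| := by
      rw [Real.exp_neg, Real.exp_log (div_pos hc ha)]
      field_simp
    have h5 : B.eval t = blr B t * B.reverse.eval t := by
      unfold blr
      rw [div_mul_cancel₀ _ ht]
    have h6 : σ * c * Real.exp (-Real.log (c / |blr B t|)) * B.reverse.eval t + B.eval t = 0 := by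
      rw [mul_assoc σ c, h4, h5]
      have h7 : σ * |blr B t| + blr B t = 0 := by rw [hst.trans rfl] at *; linarith [hst]
      linear_combination (B.reverse.eval t) * h7
    exact_mod_cast h6
  have hxR : ‖(x : ℂ)‖ < R := by
    rw [Complex.norm_real, Real.norm_eq_abs]
    linarith
  have hyR : ‖(y : ℂ)‖ < R := by
    rw [Complex.norm_real, Real.norm_eq_abs]
    linarith
  have hG : DifferentiableOn ℂ (fun z => σ * c * exp (-F z) * aeval z B.reverse + aeval z B)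
      (ball 0 R) := by
    refine DifferentiableOn.add (DifferentiableOn.mul ?_ ?_) ?_
    · exact (hF.neg.cexp).const_mul _
    · exact (Polynomial.differentiable_aeval _).differentiableOn
    · exact (Polynomial.differentiable_aeval _).differentiableOn
  obtain ⟨g, hg, hgz⟩ := div_two hG hxR hyR (key x hrx hax s1 hFx)
    (Or.inl ⟨by intro h4; exact hxy.ne (by exact_mod_cast h4), key y hry hay s2 hFy⟩)
  refine np_of_log hc hR hσ hF hg hp hs ?_
  intro z hz
  rw [hgz z hz]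
  simp

theorem np_real {B : ℝ[X]} {ρ : ℝ} (hρ : 0 < ρ) (hρ1 : ρ < 1) (hBm : B.Monic) (hB : RootsIn B ρ)
    {x y c : ℝ} (hx : |x| ≤ ρ) (hy : |y| ≤ ρ) (hxy : x < y) (hc : 0 < c) :
    NP ((X - C x) * (X - C y)) B c ↔ 0 < blr B x * blr B y ∧ |blr B x| < c ∧ |blr B y| < c ∧
      |Real.log (c / |blr B x|) - Real.log (c / |blr B y|)| * (1 - x * y) <
        (Real.log (c / |blr B x|) + Real.log (c / |blr B y|)) * (y - x) :=
  ⟨fun h => pka_mp hρ hρ1 hBm hB hx hy hxy hc h,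
    fun h => pka_mpr hρ hρ1 hBm hB hx hy hxy hc h.1 h.2.1 h.2.2.1 h.2.2.2⟩

end Pool.Agent.CZ
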