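import Pool.Agent.Lib.MP_2b3e36_an.CZ.PkN
import Pool.Agent.Lib.MP_2b3e36_an.CZ.PkA

/-!
PkB. A double real zero.

Proof. `b = blr B x`, `b' = deriv (blr B) x`, `W = log (c/|b|)`. (→) `np_log`: `σ c exp (-F z) + bl B z = A z g z/B.reverse z` near `x` has a
double zero at `x`: `σ c exp (-F x) = -b`, `- F'(x) σ c exp (-F x) = - b'`, so `F x = W`, `F'(x) = - b'/b` (real); `pick_one`.
(←) `λ = - b'/b (1 - x^2)/(2 W)`, `|λ| < 1`, `F = W (1 + λ ψ)/(1 - λ ψ)`, `ψ z = (z - x)/(1 - x z)`, `ψ'(x) = 1/(1 - x^2)`, `F x = W`,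
`F'(x) = 2 W λ/(1 - x^2) = -b'/b`. As in PkA with `div_two` (second alternative).
-/

set_option autoImplicit false

open Complex Set Filter Topology Metric Polynomial

namespace Pool.Agent.CZ

/-- values at real points -/
private theorem pkb_aeval (B : ℝ[X]) (x : ℝ) : aeval (x : ℂ) B = ((B.eval x : ℝ) : ℂ) := by
  exact Polynomial.aeval_algebraMap_apply_eq_algebraMap_eval (A := ℂ) x B

private theorem pkb_hasDeriv (B : ℝ[X]) (z : ℂ) :
    HasDerivAt (fun w : ℂ => aeval w B) (aeval z (derivative B)) z := by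
  simpa using Polynomial.hasDerivAt_aeval B z

private theorem pkb_rev {B : ℝ[X]} {ρ : ℝ} (hρ : 0 < ρ) (hρ1 : ρ < 1) (hBm : B.Monic)
    (hB : RootsIn B ρ) {x : ℝ} (hx : |x| ≤ ρ) : B.reverse.eval x ≠ 0 := by
  have h1 : ‖(x : ℂ)‖ < 1 / ρ := by
    rw [Complex.norm_real, Real.norm_eq_abs]
    have : 1 < 1 / ρ := by rw [lt_div_iff₀ hρ]; linarith
    linarith
  have h2 := rev_ne hρ hB hBm h1
  rw [pkb_aeval] at h2
  exact fun h => h2 (by rw [h]; simp)

private theorem pkb_deriv {B : ℝ[X]} {x : ℝ} (h : B.reverse.eval x ≠ 0) :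
    deriv (blr B) x * B.reverse.eval x =
      (derivative B).eval x - blr B x * (derivative B.reverse).eval x := by
  have h1 : HasDerivAt (fun y : ℝ => B.eval y / B.reverse.eval y)
      (((derivative B).eval x * B.reverse.eval x - B.eval x * (derivative B.reverse).eval x) /
        (B.reverse.eval x) ^ 2) x :=
    (B.hasDerivAt x).div (B.reverse.hasDerivAt x) h
  have h2 : deriv (blr B) x = _ := h1.deriv
  rw [h2]
  unfold blr
  field_simp

private theorem pkb_re {w : ℂ} (hw : ‖w‖ < 1) : 0 < ((1 + w) / (1 - w)).re := by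
  have h1 : ‖w‖ ^ 2 < 1 := by nlinarith [norm_nonneg w]
  rw [← Complex.normSq_eq_norm_sq, Complex.normSq_apply] at h1
  have h2 : 1 - w ≠ 0 := by
    intro h
    have : w = 1 := by linear_combination -h
    rw [this] at hw
    simp at hw
  have h3 : 0 < Complex.normSq (1 - w) := Complex.normSq_pos.2 h2
  rw [Complex.div_re, ← add_div]
  apply div_pos _ h3
  simp only [Complex.add_re, Complex.one_re, Complex.sub_re, Complex.add_im, Complex.one_im,
    Complex.sub_im]
  nlinarith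

/-- the radius -/
private theorem pkb_radius {x l : ℝ} (hx : |x| < 1) (hl : |l| < 1) : ∃ R : ℝ, 1 < R ∧
    ∀ z ∈ ball (0 : ℂ) R, 1 - (x : ℂ) * z ≠ 0 ∧ ‖(l : ℂ) * ((z - x) / (1 - x * z))‖ < 1 := by
  have hl2 : 0 < 1 - l ^ 2 := by
    have := (sq_lt_one_iff_abs_lt_one l).2 hl
    linarith
  have hx2 : 0 < 1 - x ^ 2 := by
    have := (sq_lt_one_iff_abs_lt_one x).2 hx
    linarith
  have hev : ∀ᶠ R in 𝓝 (1 : ℝ), 0 < (1 - l ^ 2) * (1 - |x| * R) ^ 2 +
      l ^ 2 * (1 - x ^ 2) * (1 - R ^ 2) ∧ |x| * R < 1 := by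
    apply Filter.Eventually.and
    · have hc : ContinuousAt (fun R : ℝ => (1 - l ^ 2) * (1 - |x| * R) ^ 2 +
          l ^ 2 * (1 - x ^ 2) * (1 - R ^ 2)) 1 := by fun_prop
      apply hc.eventually (lt_mem_nhds _)
      have : 0 < 1 - |x| := by linarith
      have h3 : 0 < (1 - l ^ 2) * (1 - |x| * 1) ^ 2 := by
        rw [mul_one]
        positivity
      linarith
    · have hc : ContinuousAt (fun R : ℝ => |x| * R) 1 := by fun_prop
      exact hc.eventually (gt_mem_nhds (by linarith))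
  obtain ⟨R, ⟨hR1, hR2⟩, hR⟩ := ((hev.filter_mono nhdsWithin_le_nhds).and
    (self_mem_nhdsWithin (s := Ioi (1 : ℝ)))).exists
  refine ⟨R, hR, fun z hz => ?_⟩
  have hzR : ‖z‖ < R := by simpa using hz
  have hz0 := norm_nonneg z
  have h1 : 1 - |x| * R ≤ ‖1 - (x : ℂ) * z‖ := by
    have h2 := norm_sub_norm_le (1 : ℂ) (x * z)
    rw [norm_one, norm_mul, Complex.norm_real, Real.norm_eq_abs] at h2
    have h3 : |x| * ‖z‖ ≤ |x| * R := mul_le_mul_of_nonneg_left hzR.le (abs_nonneg x)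
    linarith
  have hpos : 0 < 1 - |x| * R := by linarith
  have hne : 1 - (x : ℂ) * z ≠ 0 := norm_pos_iff.1 (lt_of_lt_of_le hpos h1)
  refine ⟨hne, ?_⟩
  have hid : ‖1 - (x : ℂ) * z‖ ^ 2 - l ^ 2 * ‖z - x‖ ^ 2 =
      (1 - l ^ 2) * ‖1 - (x : ℂ) * z‖ ^ 2 + l ^ 2 * (1 - x ^ 2) * (1 - ‖z‖ ^ 2) := by
    rw [← Complex.normSq_eq_norm_sq, ← Complex.normSq_eq_norm_sq, ← Complex.normSq_eq_norm_sq,
      Complex.normSq_apply, Complex.normSq_apply, Complex.normSq_apply]
    simp only [Complex.sub_re, Complex.sub_im, Complex.one_re, Complex.one_im, Complex.mul_re,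
      Complex.mul_im, Complex.ofReal_re, Complex.ofReal_im]
    ring
  have h4 : (1 - |x| * R) ^ 2 ≤ ‖1 - (x : ℂ) * z‖ ^ 2 := pow_le_pow_left₀ hpos.le h1 2
  have h5 : ‖z‖ ^ 2 ≤ R ^ 2 := pow_le_pow_left₀ hz0 hzR.le 2
  have h6 : (1 - l ^ 2) * (1 - |x| * R) ^ 2 ≤ (1 - l ^ 2) * ‖1 - (x : ℂ) * z‖ ^ 2 :=
    mul_le_mul_of_nonneg_left h4 hl2.le
  have h7 : l ^ 2 * (1 - x ^ 2) * (1 - R ^ 2) ≤ l ^ 2 * (1 - x ^ 2) * (1 - ‖z‖ ^ 2) :=
    mul_le_mul_of_nonneg_left (by linarith) (by positivity)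
  have h8 : (|l| * ‖z - x‖) ^ 2 < ‖1 - (x : ℂ) * z‖ ^ 2 := by
    rw [mul_pow, sq_abs]
    linarith
  have h9 : |l| * ‖z - x‖ < ‖1 - (x : ℂ) * z‖ := lt_of_pow_lt_pow_left₀ 2 (norm_nonneg _) h8
  rw [norm_mul, norm_div, Complex.norm_real, Real.norm_eq_abs, ← mul_div_assoc,
    div_lt_one (norm_pos_iff.2 hne)]
  exact h9

private theorem pkb_aevalA (x : ℝ) (z : ℂ) : aeval z ((X - C x) ^ 2 : ℝ[X]) = (z - x) ^ 2 := by
  simp

theorem np_dbl {B : ℝ[X]} {ρ : ℝ} (hρ : 0 < ρ) (hρ1 : ρ < 1) (hBm : B.Monic) (hB : RootsIn B ρ)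
    {x c : ℝ} (hx : |x| ≤ ρ) (hc : 0 < c) :
    NP ((X - C x) ^ 2) B c ↔ blr B x ≠ 0 ∧ |blr B x| < c ∧
      |deriv (blr B) x| * (1 - x ^ 2) < 2 * |blr B x| * Real.log (c / |blr B x|) := by
  have hrev := pkb_rev hρ hρ1 hBm hB hx
  have hder := pkb_deriv hrev
  have hx1 : |x| < 1 := lt_of_le_of_lt hx hρ1
  have hxn : ‖(x : ℂ)‖ < 1 := by rw [Complex.norm_real, Real.norm_eq_abs]; exact hx1
  have hx2 : 0 < 1 - x ^ 2 := by
    have := (sq_lt_one_iff_abs_lt_one x).2 hx1
    linarith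
  have hPb : B.eval x = blr B x * B.reverse.eval x := by
    unfold blr
    field_simp
  obtain ⟨b, hb⟩ : ∃ b, b = blr B x := ⟨_, rfl⟩
  obtain ⟨b', hb'⟩ : ∃ b', b' = deriv (blr B) x := ⟨_, rfl⟩
  rw [← hb] at hPb hder ⊢
  rw [← hb'] at hder ⊢
  constructor
  · intro h
    obtain ⟨R, σ, F, g, hR, hσ, hF, hg, hp, hs, he⟩ := np_log hc h
    have hxR : (x : ℂ) ∈ ball (0 : ℂ) R := by
      rw [mem_ball_zero_iff]; linarith
    have hFr : F x = ((F x).re : ℂ) := by
      have h1 := hs x hxR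
      rw [Complex.conj_ofReal] at h1
      exact (Complex.conj_eq_iff_re.1 h1.symm).symm
    obtain ⟨f, hf⟩ : ∃ f : ℝ, f = (F x).re := ⟨_, rfl⟩
    rw [← hf] at hFr
    have hf0 : 0 < f := by rw [hf]; exact hp x hxR
    have hFd : HasDerivAt F (deriv F x) x :=
      (hF.differentiableAt (isOpen_ball.mem_nhds hxR)).hasDerivAt
    have hgd : HasDerivAt g (deriv g x) x :=
      (hg.differentiableAt (isOpen_ball.mem_nhds hxR)).hasDerivAt
    -- the two functions agree near x
    have hd1 : HasDerivAt (fun z : ℂ => (σ : ℂ) * c * exp (-F z) * aeval z B.reverse + aeval z B)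
        ((σ : ℂ) * c * (exp (-F x) * (-deriv F x)) * aeval (x : ℂ) B.reverse +
          (σ : ℂ) * c * exp (-F x) * aeval (x : ℂ) (derivative B.reverse) +
          aeval (x : ℂ) (derivative B)) x := by
      have h1 := (((hFd.neg.cexp).const_mul ((σ : ℂ) * c)).mul (pkb_hasDeriv B.reverse x)).add
        (pkb_hasDeriv B x)
      exact h1
    have hd2 : HasDerivAt (fun z : ℂ => aeval z ((X - C x) ^ 2 : ℝ[X]) * g z) 0 x := by
      have h1 : HasDerivAt (fun z : ℂ => (z - x) ^ 2 * g z)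
          ((2 : ℕ) * ((x : ℂ) - x) ^ (2 - 1) * 1 * g x + ((x : ℂ) - x) ^ 2 * deriv g x) x :=
        (((hasDerivAt_id (x : ℂ)).sub_const (x : ℂ)).pow 2).mul hgd
      simp only [pkb_aevalA]
      convert h1 using 1
      simp
    have hev : (fun z : ℂ => (σ : ℂ) * c * exp (-F z) * aeval z B.reverse + aeval z B) =ᶠ[𝓝 (x : ℂ)]
        fun z : ℂ => aeval z ((X - C x) ^ 2 : ℝ[X]) * g z := by
      filter_upwards [isOpen_ball.mem_nhds hxR] with z hz
      exact he z hz
    have hd3 := hd1.unique (hd2.congr_of_eventuallyEq hev)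
    have h0 := he x hxR
    rw [pkb_aevalA, sub_self, zero_pow two_ne_zero, zero_mul, pkb_aeval, pkb_aeval, hPb, hFr] at h0
    have hRv : ((B.reverse.eval x : ℝ) : ℂ) ≠ 0 := Complex.ofReal_ne_zero.2 hrev
    have hE : (σ : ℂ) * c * exp (-(f : ℂ)) = -(b : ℂ) := by
      have h1 : ((σ : ℂ) * c * exp (-(f : ℂ)) + b) * ((B.reverse.eval x : ℝ) : ℂ) = 0 := by
        push_cast at h0 ⊢
        linear_combination h0
      rcases mul_eq_zero.1 h1 with h2 | h2
      · linear_combination h2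
      · exact absurd h2 hRv
    have hEr : σ * c * Real.exp (-f) = -b := by
      have : ((σ * c * Real.exp (-f) : ℝ) : ℂ) = ((-b : ℝ) : ℂ) := by
        push_cast
        exact hE
      exact Complex.ofReal_injective this
    have hσa : |σ| = 1 := by
      rcases hσ with h1 | h1 <;> simp [h1]
    have hbabs : |b| = c * Real.exp (-f) := by
      rw [← abs_neg b, ← hEr, abs_mul, abs_mul, hσa, one_mul, abs_of_pos hc,
        abs_of_pos (Real.exp_pos _)]
    have hbpos : 0 < |b| := by rw [hbabs]; positivity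
    have hlog : Real.log (c / |b|) = f := by
      rw [hbabs, Real.exp_neg]
      rw [show c / (c * (Real.exp f)⁻¹) = Real.exp f by field_simp]
      exact Real.log_exp f
    have hlt : |b| < c := by
      rw [hbabs]
      have : Real.exp (-f) < 1 := by
        have h9 := Real.exp_lt_exp.2 (show -f < 0 by linarith)
        rwa [Real.exp_zero] at h9
      nlinarith
    refine ⟨abs_pos.1 hbpos, hlt, ?_⟩
    rw [hlog]
    -- the derivative
    have hb'c : (b' : ℂ) = -(b : ℂ) * deriv F x := by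
      rw [hFr, pkb_aeval, pkb_aeval, pkb_aeval] at hd3
      have h1 : (b' : ℂ) * ((B.reverse.eval x : ℝ) : ℂ) =
          (((derivative B).eval x : ℝ) : ℂ) - (b : ℂ) * (((derivative B.reverse).eval x : ℝ) : ℂ) := by
        have := congrArg (fun t : ℝ => (t : ℂ)) hder
        push_cast at this
        exact this
      have h2 : ((b' : ℂ) - -(b : ℂ) * deriv F x) * ((B.reverse.eval x : ℝ) : ℂ) = 0 := by
        linear_combination h1 + hd3 +
          (deriv F x * ((B.reverse.eval x : ℝ) : ℂ) - (((derivative B.reverse).eval x : ℝ) : ℂ)) * hE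
      rcases mul_eq_zero.1 h2 with h3 | h3
      · linear_combination h3
      · exact absurd h3 hRv
    have hb'n : |b'| = |b| * ‖deriv F x‖ := by
      have h1 := congrArg norm hb'c
      rw [norm_mul, norm_neg, Complex.norm_real, Complex.norm_real, Real.norm_eq_abs,
        Real.norm_eq_abs] at h1
      exact h1
    have hpick := pick_one hR hF hp hxn
    rw [Complex.norm_real, Real.norm_eq_abs, sq_abs, ← hf] at hpick
    rw [hb'n]
    nlinarith
  · rintro ⟨hb0, hbc, hlt⟩
    have hbpos : 0 < |b| := abs_pos.2 hb0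
    obtain ⟨W, hW⟩ : ∃ W, W = Real.log (c / |b|) := ⟨_, rfl⟩
    rw [← hW] at hlt
    have hW0 : 0 < W := by
      rw [hW]
      apply Real.log_pos
      rwa [lt_div_iff₀ hbpos, one_mul]
    have hexpW : c * Real.exp (-W) = |b| := by
      rw [Real.exp_neg, hW, Real.exp_log (by positivity)]
      field_simp
    obtain ⟨l, hl⟩ : ∃ l : ℝ, l = -(b' / b) * (1 - x ^ 2) / (2 * W) := ⟨_, rfl⟩
    have hl1 : |l| < 1 := by
      rw [hl, abs_div, abs_mul, abs_neg, abs_div, abs_of_pos hx2, abs_of_pos (by positivity : 0 < 2 * W),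
        div_lt_one (by positivity), div_mul_eq_mul_div, div_lt_iff₀ hbpos]
      linarith
    obtain ⟨R, hR, hRz⟩ := pkb_radius hx1 hl1
    obtain ⟨σ, hσ, hσb⟩ : ∃ σ : ℝ, (σ = 1 ∨ σ = -1) ∧ σ * |b| = -b := by
      rcases lt_or_gt_of_ne hb0 with h | h
      · exact ⟨1, Or.inl rfl, by rw [abs_of_neg h]; ring⟩
      · exact ⟨-1, Or.inr rfl, by rw [abs_of_pos h]; ring⟩
    have hxR : (x : ℂ) ∈ ball (0 : ℂ) R := by
      rw [mem_ball_zero_iff]; linarith
    set ψ : ℂ → ℂ := fun z => (z - x) / (1 - x * z) with hψ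
    set F : ℂ → ℂ := fun z => (W : ℂ) * ((1 + l * ψ z) / (1 - l * ψ z)) with hFdef
    have hne1 : ∀ z ∈ ball (0 : ℂ) R, 1 - (l : ℂ) * ψ z ≠ 0 := by
      intro z hz h0
      have h1 := (hRz z hz).2
      have h2 : (l : ℂ) * ψ z = 1 := by linear_combination -h0
      rw [show (l : ℂ) * ((z - x) / (1 - x * z)) = l * ψ z from rfl, h2] at h1
      simp at h1
    have hψd : ∀ z ∈ ball (0 : ℂ) R, DifferentiableAt ℂ ψ z := by
      intro z hz
      exact (differentiableAt_id.sub_const _).div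
        ((differentiableAt_const _).sub ((differentiableAt_const _).mul differentiableAt_id))
        (hRz z hz).1
    have hFd : DifferentiableOn ℂ F (ball 0 R) := by
      intro z hz
      have h1 : DifferentiableAt ℂ F z :=
        ((((differentiableAt_const _).add ((differentiableAt_const _).mul (hψd z hz))).div
          ((differentiableAt_const _).sub ((differentiableAt_const _).mul (hψd z hz)))
          (hne1 z hz))).const_mul _
      exact h1.differentiableWithinAt
    have hFp : ∀ z ∈ ball (0 : ℂ) R, 0 < (F z).re := by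
      intro z hz
      have h1 := pkb_re (hRz z hz).2
      have h2 : (F z).re = W * ((1 + l * ψ z) / (1 - l * ψ z)).re := by
        rw [hFdef]
        simp only [Complex.mul_re, Complex.ofReal_re, Complex.ofReal_im, zero_mul, sub_zero]
      rw [h2]
      exact mul_pos hW0 h1
    have hFs : Sym F (ball 0 R) := by
      intro z hz
      rw [hFdef]
      simp only [hψ, map_mul, map_div₀, map_add, map_sub, map_one, Complex.conj_ofReal]
    have hψx : ψ x = 0 := by rw [hψ]; simp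
    have hFx : F x = (W : ℂ) := by rw [hFdef]; simp only [hψx]; simp
    have hx2c : (1 - (x : ℂ) * x) ≠ 0 := (hRz x hxR).1
    have hψ' : HasDerivAt ψ (1 / (1 - (x : ℂ) * x)) x := by
      have h1 : HasDerivAt (fun z : ℂ => z - (x : ℂ)) 1 (x : ℂ) := (hasDerivAt_id _).sub_const _
      have h2 : HasDerivAt (fun z : ℂ => 1 - (x : ℂ) * z) (-((x : ℂ) * 1)) (x : ℂ) := by
        have := ((hasDerivAt_id (x : ℂ)).const_mul (x : ℂ)).const_sub 1
        exact this
      have h3 := h1.div h2 hx2c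
      refine h3.congr_deriv ?_
      rw [sub_self, zero_mul, sub_zero, one_mul]
      field_simp
    have hF' : HasDerivAt F ((W : ℂ) * (2 * l * (1 / (1 - (x : ℂ) * x)))) x := by
      have h1 : HasDerivAt (fun z => 1 + (l : ℂ) * ψ z) ((l : ℂ) * (1 / (1 - (x : ℂ) * x))) x :=
        (hψ'.const_mul (l : ℂ)).const_add 1
      have h2 : HasDerivAt (fun z => 1 - (l : ℂ) * ψ z) (-((l : ℂ) * (1 / (1 - (x : ℂ) * x)))) x :=
        (hψ'.const_mul (l : ℂ)).const_sub 1
      have h3 := (h1.div h2 (hne1 x hxR)).const_mul (W : ℂ)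
      refine h3.congr_deriv ?_
      rw [hψx]
      ring
    set G : ℂ → ℂ := fun z => (σ : ℂ) * c * exp (-F z) * aeval z B.reverse + aeval z B with hG
    have hexpc : (c : ℂ) * exp (-(W : ℂ)) = ((|b| : ℝ) : ℂ) := by
      rw [← hexpW]
      push_cast
      ring
    have hσbc : (σ : ℂ) * ((|b| : ℝ) : ℂ) = -(b : ℂ) := by
      rw [← Complex.ofReal_mul, hσb]
      push_cast
      ring
    have hGx : G x = 0 := by
      rw [hG]
      simp only [hFx, pkb_aeval, hPb]
      push_cast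
      linear_combination (σ : ℂ) * ((B.reverse.eval x : ℝ) : ℂ) * hexpc +
        ((B.reverse.eval x : ℝ) : ℂ) * hσbc
    have hGd : DifferentiableOn ℂ G (ball 0 R) := by
      intro z hz
      have hFz : DifferentiableAt ℂ F z := hFd.differentiableAt (isOpen_ball.mem_nhds hz)
      have h1 : DifferentiableAt ℂ G z :=
        ((hFz.neg.cexp.const_mul ((σ : ℂ) * c)).mul (pkb_hasDeriv B.reverse z).differentiableAt).add
          (pkb_hasDeriv B z).differentiableAt
      exact h1.differentiableWithinAt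
    have hGder : deriv G x = 0 := by
      have h1 : HasDerivAt G ((σ : ℂ) * c * (exp (-F x) * (-((W : ℂ) * (2 * l * (1 / (1 - (x : ℂ) * x)))))) *
          aeval (x : ℂ) B.reverse + (σ : ℂ) * c * exp (-F x) * aeval (x : ℂ) (derivative B.reverse) +
          aeval (x : ℂ) (derivative B)) x :=
        (((hF'.neg.cexp).const_mul ((σ : ℂ) * c)).mul (pkb_hasDeriv B.reverse x)).add
          (pkb_hasDeriv B x)
      rw [h1.deriv, hFx, pkb_aeval, pkb_aeval, pkb_aeval]
      have h2 : (b' : ℂ) * ((B.reverse.eval x : ℝ) : ℂ) =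
          (((derivative B).eval x : ℝ) : ℂ) - (b : ℂ) * (((derivative B.reverse).eval x : ℝ) : ℂ) := by
        have := congrArg (fun t : ℝ => (t : ℂ)) hder
        push_cast at this
        exact this
      have h3 : (W : ℂ) * (2 * l * (1 / (1 - (x : ℂ) * x))) * b = -(b' : ℂ) := by
        have h4 : W * (2 * l * (1 / (1 - x * x))) * b = -b' := by
          rw [hl]
          have h5 : 1 - x * x ≠ 0 := by nlinarith
          have h6 : 1 - x ^ 2 ≠ 0 := hx2.ne'
          field_simp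
        have := congrArg (fun t : ℝ => (t : ℂ)) h4
        push_cast at this
        exact this
      have h4 : (σ : ℂ) * c * exp (-(W : ℂ)) = -(b : ℂ) := by
        linear_combination (σ : ℂ) * hexpc + hσbc
      linear_combination (((derivative B.reverse).eval x : ℝ) : ℂ) * h4 -
        (W : ℂ) * (2 * l * (1 / (1 - (x : ℂ) * x))) * ((B.reverse.eval x : ℝ) : ℂ) * h4 - h2 +
        ((B.reverse.eval x : ℝ) : ℂ) * h3
    have hxR' : ‖(x : ℂ)‖ < R := by linarith
    obtain ⟨g, hg, hGg⟩ := div_two hGd hxR' hxR' hGx (Or.inr ⟨rfl, hGder⟩)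
    refine np_of_log hc hR hσ hFd hg hFp hFs (fun z hz => ?_)
    rw [pkb_aevalA]
    have := hGg z hz
    rw [hG] at this
    simp only at this
    rw [this]
    ring

end Pool.Agent.CZ
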