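import Pool.Agent.Lib.MP_2b3e36_an.CZ.PkN

/-!
PkC. Two conjugate zeros.

Proof. `A = (X - z)(X - conj z)`, `β = bl B z`, `W = log (c/‖β‖)`, `s = |arg (β^2)|`, `m = 1 - ‖z‖^2`. As
`‖1 - z^2‖^2 = 4 (Im z)^2 + m^2`, the last condition is `s m < 4 (Im z) W` (`pkc_iff`). (→) `np_log`:
`σ c exp (-F z) = -β`, so `Re (F z) = W`, `s ≤ 2 |Im (F z)|`; `F (conj z) = conj (F z)`; `pick_two` with `a = z`, `b = conj z`
gives `|Im (F z)| m < 2 (Im z) W`. (←) `α = arg (β^2)/2`, `F w = q (1 + t w)/(1 - t w) + q' (1 - t w)/(1 + t w)` with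
`t < 1` near `1` and the positive `q`, `q'` with `F z = W - i α`; `div_two`, `np_of_log`.
-/

set_option autoImplicit false

open Complex Set Filter Topology Metric Polynomial

namespace Pool.Agent.CZ

theorem pkc_arg (w : ℂ) : |arg (exp w)| ≤ |w.im| := by
  by_cases h : -Real.pi < w.im ∧ w.im ≤ Real.pi
  · have h1 : arg (exp w) = w.im := by
      have h3 := log_exp h.1 h.2
      have h2 : (log (exp w)).im = arg (exp w) := log_im _
      rw [← h2, h3]
    rw [h1]
  · have h2 : Real.pi ≤ |w.im| := by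
      by_contra h3
      push Not at h3
      rw [abs_lt] at h3
      exact h ⟨h3.1, h3.2.le⟩
    exact (abs_arg_le_pi _).trans h2

theorem pkc_iff {s x y m D : ℝ} (hs : 0 ≤ s) (hx : 0 < x) (hy : 0 < y) (hm : 0 < m) (hD : 0 ≤ D)
    (h : D ^ 2 = 4 * y ^ 2 + m ^ 2) :
    s * D < 2 * y * Real.sqrt (4 * x ^ 2 + s ^ 2) ↔ s * m < 4 * y * x := by
  have h0 : 0 ≤ 4 * x ^ 2 + s ^ 2 := by positivity
  rw [← sq_lt_sq₀ (mul_nonneg hs hD) (by positivity), ← sq_lt_sq₀ (mul_nonneg hs hm.le) (by positivity)]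
  rw [mul_pow, mul_pow (2 * y), Real.sq_sqrt h0, h]
  constructor <;> intro h1 <;> nlinarith

theorem pkc_norm (z : ℂ) : ‖1 - z ^ 2‖ ^ 2 = 4 * z.im ^ 2 + (1 - ‖z‖ ^ 2) ^ 2 := by
  rw [← normSq_eq_norm_sq, ← normSq_eq_norm_sq, normSq_apply, normSq_apply]
  simp only [sub_re, sub_im, one_re, one_im, pow_two, mul_re, mul_im]
  ring

theorem pkc_aeval (z w : ℂ) :
    aeval w (X ^ 2 - C (2 * z.re) * X + C (Complex.normSq z) : ℝ[X]) =
      (w - z) * (w - starRingEnd ℂ z) := by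
  have h1 : z + starRingEnd ℂ z = ((2 * z.re : ℝ) : ℂ) := Complex.add_conj z
  have h2 : z * starRingEnd ℂ z = (Complex.normSq z : ℂ) := Complex.mul_conj z
  simp only [map_add, map_sub, map_mul, map_pow, aeval_X, aeval_C, coe_algebraMap]
  rw [← h2]
  push_cast at h1 ⊢
  linear_combination (w : ℂ) * h1

theorem pkc_re {u : ℂ} (hu : ‖u‖ < 1) : 0 < ((1 + u) / (1 - u)).re := by
  have hne : (1 - u) ≠ 0 := by
    intro h
    have : u = 1 := (sub_eq_zero.1 h).symm
    rw [this, norm_one] at hu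
    exact lt_irrefl _ hu
  have hn : 0 < normSq (1 - u) := normSq_pos.2 hne
  have h1 : u.re ^ 2 + u.im ^ 2 < 1 := by
    have h2 : ‖u‖ ^ 2 < 1 := by nlinarith [norm_nonneg u]
    rw [← normSq_eq_norm_sq, normSq_apply] at h2
    nlinarith
  rw [div_re, ← add_div]
  refine div_pos ?_ hn
  simp only [add_re, add_im, sub_re, sub_im, one_re, one_im]
  nlinarith

theorem pkc_ne {u : ℂ} (hu : ‖u‖ < 1) : (1 - u) ≠ 0 ∧ (1 + u) ≠ 0 := by
  refine ⟨fun h => ?_, fun h => ?_⟩
  · have : u = 1 := (sub_eq_zero.1 h).symm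
    rw [this, norm_one] at hu
    exact lt_irrefl _ hu
  · have : u = -1 := (neg_eq_of_add_eq_zero_right h).symm
    rw [this, norm_neg, norm_one] at hu
    exact lt_irrefl _ hu

/-- a real function with positive real part and a prescribed value at `z` -/
theorem pkc_fun {z : ℂ} (hz : ‖z‖ < 1) (him : 0 < z.im) {W α : ℝ}
    (h : |α| * (1 - ‖z‖ ^ 2) < 2 * z.im * W) : ∃ (R : ℝ) (F : ℂ → ℂ), 1 < R ∧
    DifferentiableOn ℂ F (ball 0 R) ∧ (∀ w ∈ ball (0 : ℂ) R, 0 < (F w).re) ∧ Sym F (ball 0 R) ∧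
    F z = W - α * I := by
  obtain ⟨t, ht1, ht2, ht3⟩ : ∃ t : ℝ, 0 < t ∧ t < 1 ∧
      |α| * (1 - t ^ 2 * ‖z‖ ^ 2) < 2 * t * z.im * W := by
    have hc : ContinuousAt (fun t : ℝ => 2 * t * z.im * W - |α| * (1 - t ^ 2 * ‖z‖ ^ 2)) 1 := by
      fun_prop
    have h1 : ∀ᶠ t in 𝓝 (1 : ℝ), 0 < 2 * t * z.im * W - |α| * (1 - t ^ 2 * ‖z‖ ^ 2) := by
      refine hc.eventually (lt_mem_nhds ?_)
      simp only
      linarith
    have h2 : ∀ᶠ t in 𝓝[<] (1 : ℝ), 0 < 2 * t * z.im * W - |α| * (1 - t ^ 2 * ‖z‖ ^ 2) :=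
      h1.filter_mono nhdsWithin_le_nhds
    have h3 : ∀ᶠ t in 𝓝[<] (1 : ℝ), 0 < t :=
      (lt_mem_nhds zero_lt_one).filter_mono nhdsWithin_le_nhds
    have h4 : ∀ᶠ t in 𝓝[<] (1 : ℝ), t < 1 := eventually_mem_nhdsWithin
    obtain ⟨t, ht⟩ := (h2.and (h3.and h4)).exists
    exact ⟨t, ht.2.1, ht.2.2, by linarith [ht.1]⟩
  set M : ℝ := 1 - t ^ 2 * ‖z‖ ^ 2 with hM
  have htz : ‖(t : ℂ) * z‖ < 1 := by
    rw [norm_mul, norm_real, Real.norm_of_nonneg ht1.le]
    nlinarith [norm_nonneg z]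
  have hMpos : 0 < M := by
    have h1 : ‖(t : ℂ) * z‖ ^ 2 < 1 := by nlinarith [norm_nonneg ((t : ℂ) * z)]
    rw [norm_mul, norm_real, Real.norm_of_nonneg ht1.le, mul_pow] at h1
    linarith
  have hty : 0 < 2 * t * z.im := by positivity
  set a₁ : ℝ := (W / M - α / (2 * t * z.im)) / 2 with ha₁
  set a₂ : ℝ := (W / M + α / (2 * t * z.im)) / 2 with ha₂
  have hlt : |α| / (2 * t * z.im) < W / M := by
    rw [div_lt_div_iff₀ hty hMpos]
    linarith
  have hlt1 : α / (2 * t * z.im) < W / M :=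
    (div_le_div_of_nonneg_right (le_abs_self α) hty.le).trans_lt hlt
  have hlt2 : -(α / (2 * t * z.im)) < W / M := by
    rw [← neg_div]
    exact (div_le_div_of_nonneg_right (neg_le_abs α) hty.le).trans_lt hlt
  have ha₁p : 0 < a₁ := by rw [ha₁]; linarith
  have ha₂p : 0 < a₂ := by rw [ha₂]; linarith
  have hn₁ : 0 < normSq (1 - t * z) := normSq_pos.2 (pkc_ne htz).1
  have hn₂ : 0 < normSq (1 + t * z) := normSq_pos.2 (pkc_ne htz).2
  have hball : ∀ w ∈ ball (0 : ℂ) (1 / t), ‖(t : ℂ) * w‖ < 1 := by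
    intro w hw
    rw [mem_ball_zero_iff] at hw
    rw [norm_mul, norm_real, Real.norm_of_nonneg ht1.le]
    have := mul_lt_mul_of_pos_left hw ht1
    rwa [mul_one_div_cancel ht1.ne'] at this
  refine ⟨1 / t, fun w => ((a₁ * normSq (1 - t * z) : ℝ) : ℂ) * ((1 + t * w) / (1 - t * w)) +
    ((a₂ * normSq (1 + t * z) : ℝ) : ℂ) * ((1 - t * w) / (1 + t * w)), ?_, ?_, ?_, ?_, ?_⟩
  · rw [lt_div_iff₀ ht1]
    linarith
  · intro w hw
    obtain ⟨h1, h2⟩ := pkc_ne (hball w hw)
    refine DifferentiableAt.differentiableWithinAt ?_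
    refine DifferentiableAt.add ?_ ?_
    · refine DifferentiableAt.const_mul ?_ _
      exact ((differentiableAt_const _).add ((differentiableAt_const _).mul differentiableAt_id)).div
        ((differentiableAt_const _).sub ((differentiableAt_const _).mul differentiableAt_id)) h1
    · refine DifferentiableAt.const_mul ?_ _
      exact ((differentiableAt_const _).sub ((differentiableAt_const _).mul differentiableAt_id)).div
        ((differentiableAt_const _).add ((differentiableAt_const _).mul differentiableAt_id)) h2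
  · intro w hw
    have h1 := hball w hw
    rw [add_re, re_ofReal_mul, re_ofReal_mul]
    have e1 := pkc_re h1
    have e2 := pkc_re (u := -(t * w)) (by rwa [norm_neg])
    rw [sub_neg_eq_add, ← sub_eq_add_neg] at e2
    have p1 : 0 < a₁ * normSq (1 - t * z) := mul_pos ha₁p hn₁
    have p2 : 0 < a₂ * normSq (1 + t * z) := mul_pos ha₂p hn₂
    have := mul_pos p1 e1
    have := mul_pos p2 e2
    linarith
  · intro w _
    simp only [map_add, map_mul, map_div₀, map_sub, map_one, conj_ofReal]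
  · have e1 : ((normSq (1 - t * z) : ℝ) : ℂ) * ((1 + t * z) / (1 - t * z)) =
        (M : ℂ) + (2 * t * z.im : ℝ) * I := by
      have h1 := (pkc_ne htz).1
      rw [← mul_conj, mul_comm (1 - (t : ℂ) * z), mul_assoc, mul_div_cancel₀ _ h1]
      simp only [map_sub, map_one, map_mul, conj_ofReal]
      have h2 : z - starRingEnd ℂ z = ((2 * z.im : ℝ) : ℂ) * I := Complex.sub_conj z
      have h3 : z * starRingEnd ℂ z = ((‖z‖ ^ 2 : ℝ) : ℂ) := by
        rw [Complex.mul_conj, normSq_eq_norm_sq]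
      have h4 : (M : ℂ) = 1 - t ^ 2 * ((‖z‖ ^ 2 : ℝ) : ℂ) := by
        rw [hM]; push_cast; ring
      rw [h4, ← h3]
      push_cast at h2 ⊢
      linear_combination (t : ℂ) * h2
    have e2 : ((normSq (1 + t * z) : ℝ) : ℂ) * ((1 - t * z) / (1 + t * z)) =
        (M : ℂ) - (2 * t * z.im : ℝ) * I := by
      have h1 := (pkc_ne htz).2
      rw [← mul_conj, mul_comm (1 + (t : ℂ) * z), mul_assoc, mul_div_cancel₀ _ h1]
      simp only [map_add, map_one, map_mul, conj_ofReal]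
      have h2 : z - starRingEnd ℂ z = ((2 * z.im : ℝ) : ℂ) * I := Complex.sub_conj z
      have h3 : z * starRingEnd ℂ z = ((‖z‖ ^ 2 : ℝ) : ℂ) := by
        rw [Complex.mul_conj, normSq_eq_norm_sq]
      have h4 : (M : ℂ) = 1 - t ^ 2 * ((‖z‖ ^ 2 : ℝ) : ℂ) := by
        rw [hM]; push_cast; ring
      rw [h4, ← h3]
      push_cast at h2 ⊢
      linear_combination -(t : ℂ) * h2
    have e3 : ((a₁ * normSq (1 - t * z) : ℝ) : ℂ) * ((1 + t * z) / (1 - t * z)) +
        ((a₂ * normSq (1 + t * z) : ℝ) : ℂ) * ((1 - t * z) / (1 + t * z)) =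
        ((a₁ + a₂) * M : ℝ) + ((a₁ - a₂) * (2 * t * z.im) : ℝ) * I := by
      rw [ofReal_mul, ofReal_mul]
      linear_combination (norm := (push_cast; ring)) (a₁ : ℂ) * e1 + (a₂ : ℂ) * e2
    have e4 : (a₁ + a₂) * M = W := by
      rw [ha₁, ha₂]
      field_simp
      ring
    have e5 : (a₁ - a₂) * (2 * t * z.im) = -α := by
      rw [ha₁, ha₂]
      have := hty.ne'
      field_simp
      ring
    simp only
    rw [e3, e4, e5]
    push_cast
    ring

theorem np_conj {B : ℝ[X]} {ρ : ℝ} (hρ : 0 < ρ) (hρ1 : ρ < 1) (hBm : B.Monic) (hB : RootsIn B ρ)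
    {z : ℂ} {c : ℝ} (hz : ‖z‖ ≤ ρ) (him : 0 < z.im) (hc : 0 < c) :
    NP (X ^ 2 - C (2 * z.re) * X + C (Complex.normSq z)) B c ↔ bl B z ≠ 0 ∧ ‖bl B z‖ < c ∧
      |arg (bl B z ^ 2)| * ‖1 - z ^ 2‖ <
        2 * z.im * Real.sqrt (4 * Real.log (c / ‖bl B z‖) ^ 2 + |arg (bl B z ^ 2)| ^ 2) := by
  have hz1 : ‖z‖ < 1 := hz.trans_lt hρ1
  have hzc : ‖starRingEnd ℂ z‖ < 1 := by rwa [norm_conj]
  have hm : 0 < 1 - ‖z‖ ^ 2 := by nlinarith [norm_nonneg z]
  have hrev : aeval z B.reverse ≠ 0 := by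
    refine rev_ne hρ hB hBm (hz1.trans ?_)
    rw [lt_div_iff₀ hρ]
    linarith
  have hbl : aeval z B = bl B z * aeval z B.reverse := by
    rw [bl, div_mul_cancel₀ _ hrev]
  constructor
  · intro h
    obtain ⟨R, σ, F, g, hR, hσ, hF, hg, hp, hs, he⟩ := np_log hc h
    have hzR : z ∈ ball (0 : ℂ) R := by
      rw [mem_ball_zero_iff]; exact hz1.trans hR
    have e1 := he z hzR
    rw [pkc_aeval, sub_self, zero_mul, zero_mul, hbl, ← add_mul] at e1
    have e2 : bl B z = -(σ * c * exp (-F z)) := by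
      rcases mul_eq_zero.1 e1 with h1 | h1
      · exact (neg_eq_of_add_eq_zero_right h1).symm
      · exact absurd h1 hrev
    have hσ1 : |σ| = 1 := by rcases hσ with rfl | rfl <;> simp
    have hσ2 : σ ^ 2 = 1 := by rcases hσ with rfl | rfl <;> simp
    have e3 : ‖bl B z‖ = c * Real.exp (-(F z).re) := by
      rw [e2, norm_neg, norm_mul, norm_mul, norm_real, norm_real, Real.norm_eq_abs, hσ1, one_mul,
        Real.norm_of_nonneg hc.le, norm_exp, neg_re]
    have hFp := hp z hzR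
    have e4 : Real.log (c / ‖bl B z‖) = (F z).re := by
      rw [e3, Real.exp_neg, ← div_eq_mul_inv, div_div_cancel₀ hc.ne', Real.log_exp]
    have e5 : bl B z ^ 2 = ((c ^ 2 : ℝ) : ℂ) * exp (-2 * F z) := by
      have h1 : exp (-2 * F z) = exp (-F z) ^ 2 := by
        rw [← exp_nat_mul]; congr 1; push_cast; ring
      have h2 : (σ : ℂ) ^ 2 = 1 := by exact_mod_cast hσ2
      rw [e2, h1]
      push_cast
      linear_combination (c : ℂ) ^ 2 * exp (-F z) ^ 2 * h2
    have e6 : |arg (bl B z ^ 2)| ≤ 2 * |(F z).im| := by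
      rw [e5, arg_real_mul _ (by positivity)]
      refine (pkc_arg _).trans (le_of_eq ?_)
      have : (-2 * F z).im = -(2 * (F z).im) := by simp
      rw [this, abs_neg, abs_mul, abs_two]
    refine ⟨?_, ?_, ?_⟩
    · rw [e2]
      have hσ0 : (σ : ℂ) ≠ 0 := by rcases hσ with rfl | rfl <;> simp
      exact neg_ne_zero.2 (mul_ne_zero (mul_ne_zero hσ0 (ofReal_ne_zero.2 hc.ne')) (exp_ne_zero _))
    · rw [e3]
      have : Real.exp (-(F z).re) < 1 := Real.exp_lt_one_iff.2 (by linarith)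
      nlinarith
    · rw [e4, pkc_iff (abs_nonneg _) hFp him hm (norm_nonneg _) (pkc_norm z)]
      have hne : z ≠ starRingEnd ℂ z := by
        intro h1
        have := congrArg Complex.im h1
        rw [conj_im] at this
        linarith
      have hpk := pick_two hR hF hp hz1 hzc hne
      rw [hs z hzR, conj_conj, conj_conj, sub_conj, sub_conj, norm_mul, norm_mul, norm_I, mul_one, mul_one,
        norm_real, norm_real, Real.norm_eq_abs, Real.norm_eq_abs, abs_mul, abs_mul, abs_two,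
        abs_of_pos him, ← pow_two] at hpk
      have h2F : ‖F z + F z‖ = 2 * ‖F z‖ := by
        rw [← two_mul, norm_mul, Complex.norm_ofNat]
      rw [h2F] at hpk
      have hsq : (|(F z).im| * ‖1 - z ^ 2‖) ^ 2 < (2 * z.im * ‖F z‖) ^ 2 := by
        rw [sq_lt_sq₀ (by positivity) (by positivity)]
        linarith
      have hF2 : ‖F z‖ ^ 2 = (F z).re ^ 2 + |(F z).im| ^ 2 := by
        rw [← normSq_eq_norm_sq, normSq_apply, sq_abs]; ring
      rw [mul_pow, mul_pow _ ‖F z‖, pkc_norm, hF2] at hsq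
      have h3 : (|(F z).im| * (1 - ‖z‖ ^ 2)) ^ 2 < (2 * z.im * (F z).re) ^ 2 := by nlinarith
      rw [sq_lt_sq₀ (by positivity) (by positivity)] at h3
      nlinarith
  · rintro ⟨hb0, hbc, hlt⟩
    have hbn : 0 < ‖bl B z‖ := norm_pos_iff.2 hb0
    have hW : 0 < Real.log (c / ‖bl B z‖) := Real.log_pos (by rwa [one_lt_div hbn])
    rw [pkc_iff (abs_nonneg _) hW him hm (norm_nonneg _) (pkc_norm z)] at hlt
    obtain ⟨R, F, hR, hF, hp, hs, hFz⟩ := pkc_fun (W := Real.log (c / ‖bl B z‖))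
      (α := arg (bl B z ^ 2) / 2) hz1 him (by
      rw [abs_div, abs_two]
      linarith)
    have hzR : z ∈ ball (0 : ℂ) R := by
      rw [mem_ball_zero_iff]; exact hz1.trans hR
    have hzR' : ‖z‖ < R := hz1.trans hR
    have hsq : (c * exp (-F z)) ^ 2 = bl B z ^ 2 := by
      have h1 : exp (-F z) ^ 2 = exp (-(2 * Real.log (c / ‖bl B z‖) : ℝ)) *
          exp (arg (bl B z ^ 2) * I) := by
        rw [← exp_nat_mul, ← exp_add, hFz]
        congr 1
        push_cast
        ring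
      have h2 : exp (-(2 * Real.log (c / ‖bl B z‖) : ℝ)) = ((‖bl B z‖ ^ 2 / c ^ 2 : ℝ) : ℂ) := by
        rw [← ofReal_neg, ← ofReal_exp]
        congr 1
        rw [two_mul, neg_add, Real.exp_add, Real.exp_neg, Real.exp_log (by positivity)]
        field_simp
      have h3 : (‖bl B z ^ 2‖ : ℂ) * exp (arg (bl B z ^ 2) * I) = bl B z ^ 2 :=
        norm_mul_exp_arg_mul_I _
      rw [mul_pow, h1, h2, ← mul_assoc]
      rw [norm_pow] at h3
      have hcc : (c : ℂ) ≠ 0 := ofReal_ne_zero.2 hc.ne'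
      have h4 : (c : ℂ) ^ 2 * ((‖bl B z‖ ^ 2 / c ^ 2 : ℝ) : ℂ) = ((‖bl B z‖ ^ 2 : ℝ) : ℂ) := by
        push_cast
        field_simp
      rw [h4, h3]
    obtain ⟨σ, hσ, hσe⟩ : ∃ σ : ℝ, (σ = 1 ∨ σ = -1) ∧ σ * c * exp (-F z) + bl B z = 0 := by
      rcases sq_eq_sq_iff_eq_or_eq_neg.1 hsq with h1 | h1
      · refine ⟨-1, Or.inr rfl, ?_⟩
        rw [← h1]; push_cast; ring
      · refine ⟨1, Or.inl rfl, ?_⟩
        have : bl B z = -(c * exp (-F z)) := by rw [h1, neg_neg]
        rw [this]; push_cast; ring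
    set G : ℂ → ℂ := fun w => σ * c * exp (-F w) * aeval w B.reverse + aeval w B with hG
    have hGd : DifferentiableOn ℂ G (ball 0 R) := by
      have d1 : DifferentiableOn ℂ (fun w : ℂ => aeval w B.reverse) (ball 0 R) :=
        (Polynomial.differentiable_aeval _).differentiableOn
      have d2 : DifferentiableOn ℂ (fun w : ℂ => aeval w B) (ball 0 R) :=
        (Polynomial.differentiable_aeval _).differentiableOn
      exact (((differentiableOn_const _).mul hF.neg.cexp).mul d1).add d2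
    have hGz : G z = 0 := by
      rw [hG]
      simp only
      rw [hbl, ← add_mul, hσe, zero_mul]
    have hGc : G (starRingEnd ℂ z) = 0 := by
      have h1 : G (starRingEnd ℂ z) = starRingEnd ℂ (G z) := by
        rw [hG]
        simp only
        rw [hs z hzR, map_add, map_mul, map_mul, map_mul, conj_ofReal, conj_ofReal, ← exp_conj,
          map_neg, aeval_conj, aeval_conj]
      rw [h1, hGz, map_zero]
    have hne : z ≠ starRingEnd ℂ z := by
      intro h1
      have := congrArg Complex.im h1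
      rw [conj_im] at this
      linarith
    obtain ⟨g, hg, hge⟩ := div_two hGd hzR' (by rwa [norm_conj]) hGz (Or.inl ⟨hne, hGc⟩)
    refine np_of_log hc hR hσ hF hg hp hs ?_
    intro w hw
    rw [pkc_aeval]
    exact hge w hw

end Pool.Agent.CZ
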