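import Pool.Agent.Lib.MP_2b3e36_an.CZ.BlaA
import Pool.Agent.Lib.MP_2b3e36_an.Ex.L0

/-!
PkN. Tools for the explicit solution of the Nevanlinna-Pick problem with two points.

Proof. `np_log`: `N` from `NP`; `N 0` is real (`Sym`) and not `0`, let `σ` be its sign; `σ N / c` is zero free on the ball, let `l` be
its logarithm with `l 0 = log (σ N 0 / c)` real (`exists_log`); `F = -l`; `Re F = log (c/‖N‖) > 0`; symmetric: `conj (l (conj z))` is
another logarithm with the same value at `0` (equal: both have the derivative `N'/N`, or difference continuous with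
values in `2 π i ℤ`). `pick_two`: `φ z = (F z - F b)/(F z + conj (F b))` maps the ball of radius `R` into the
unit ball; with Schwarz-Pick on the unit ball for `φ` restricted, or: `ψ = F` on `ball 0 R`, Schwarz lemma after the Moebius
map; strict because otherwise equality in Schwarz-Pick forces `φ` to be an automorphism of the unit disc, of modulus `1`
on the unit circle, impossible as `Re F > 0` there. (Simplest: apply the non-strict inequality on the disc of radius `R`, i.e. to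
`F (R z)` at `a/R`, `b/R`: `‖φ a‖ ≤ R ‖a - b‖/‖R^2 - conj b a‖ < ‖a - b‖/‖1 - conj b a‖`, as `a ≠ b`, `‖a‖, ‖b‖ < 1 < R`:
`‖R^2 - conj b a‖ ≥ ...`; the identity `1 - ‖(x-y)/(1-conj y x)‖^2 = (1-‖x‖^2)(1-‖y‖^2)/‖1-conj y x‖^2` with `x = a/R`.)
`div_two`: `dslope` twice.
-/

set_option autoImplicit false

open Complex Set Filter Topology Metric Polynomial

namespace Pool.Agent.CZ

theorem pkn_conj0 : starRingEnd ℂ (0 : ℂ) = 0 := map_zero _

theorem pkn_ball {R : ℝ} {z : ℂ} (hz : z ∈ ball (0 : ℂ) R) : starRingEnd ℂ z ∈ ball (0 : ℂ) R := by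
  rw [mem_ball_zero_iff] at hz ⊢
  rwa [RCLike.norm_conj]

theorem pkn_log_unique {R : ℝ} (hR : 0 < R) {l l2 : ℂ → ℂ} (hl : DifferentiableOn ℂ l (ball 0 R))
    (hl2 : DifferentiableOn ℂ l2 (ball 0 R)) (he : ∀ z ∈ ball (0 : ℂ) R, exp (l z) = exp (l2 z))
    (h0 : l 0 = l2 0) : ∀ z ∈ ball (0 : ℂ) R, l z = l2 z := by
  have hd : DifferentiableOn ℂ (fun z => l z - l2 z) (ball 0 R) := hl.sub hl2
  have hder : ∀ z ∈ ball (0 : ℂ) R, deriv (fun z => l z - l2 z) z = 0 := by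
    intro z hz
    have hn : ball (0 : ℂ) R ∈ 𝓝 z := isOpen_ball.mem_nhds hz
    have h1 : HasDerivAt l (deriv l z) z := ((hl z hz).differentiableAt hn).hasDerivAt
    have h2 : HasDerivAt l2 (deriv l2 z) z := ((hl2 z hz).differentiableAt hn).hasDerivAt
    have h3 : HasDerivAt (fun z => exp (l z)) (exp (l z) * deriv l z) z := h1.cexp
    have h4 : HasDerivAt (fun z => exp (l2 z)) (exp (l2 z) * deriv l2 z) z := h2.cexp
    have h5 : HasDerivAt (fun z => exp (l z)) (exp (l2 z) * deriv l2 z) z := by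
      refine h4.congr_of_eventuallyEq ?_
      filter_upwards [hn] with w hw
      exact he w hw
    have h6 := h3.unique h5
    rw [he z hz] at h6
    have h7 := mul_left_cancel₀ (exp_ne_zero _) h6
    have h8 : HasDerivAt (fun z => l z - l2 z) (deriv l z - deriv l2 z) z := h1.sub h2
    rw [h8.deriv, h7, sub_self]
  have hc := fun {x y : ℂ} => IsOpen.is_const_of_deriv_eq_zero (isOpen_ball : IsOpen (ball (0 : ℂ) R))
    (convex_ball (0 : ℂ) R).isPreconnected hd (fun z hz => hder z hz) (x := x) (y := y)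
  intro z hz
  have h8 := hc hz (mem_ball_self hR)
  simp only [h0, sub_self] at h8
  exact sub_eq_zero.1 h8

theorem np_log {A B : ℝ[X]} {c : ℝ} (hc : 0 < c) (h : NP A B c) : ∃ (R : ℝ) (σ : ℝ) (F g : ℂ → ℂ), 1 < R ∧
    (σ = 1 ∨ σ = -1) ∧ DifferentiableOn ℂ F (ball 0 R) ∧ DifferentiableOn ℂ g (ball 0 R) ∧
    (∀ z ∈ ball (0 : ℂ) R, 0 < (F z).re) ∧ Sym F (ball 0 R) ∧
    ∀ z ∈ ball (0 : ℂ) R, σ * c * exp (-F z) * aeval z B.reverse + aeval z B = aeval z A * g z := by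
  obtain ⟨R, hR, N, k, hN, hk, h1, h2⟩ := h
  have hR0 : 0 < R := by linarith
  have h0 : (0 : ℂ) ∈ ball (0 : ℂ) R := mem_ball_self hR0
  have hreal : N 0 = ((N 0).re : ℂ) := by
    have := (h1 0 h0).2.2
    rw [pkn_conj0] at this
    exact (Complex.conj_eq_iff_real.1 this.symm).elim fun r hr => by rw [hr]; simp
  have hne : (N 0).re ≠ 0 := by
    intro h3
    rw [h3] at hreal
    exact (h1 0 h0).1 (by rw [hreal]; simp)
  obtain ⟨σ, hσ, hσ0⟩ : ∃ σ : ℝ, (σ = 1 ∨ σ = -1) ∧ 0 < σ * (N 0).re := by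
    rcases lt_or_gt_of_ne hne with h3 | h3
    · exact ⟨-1, Or.inr rfl, by linarith⟩
    · exact ⟨1, Or.inl rfl, by linarith⟩
  have hσ2 : (σ : ℂ) * σ = 1 := by
    rcases hσ with rfl | rfl <;> norm_num
  have hσne : (σ : ℂ) ≠ 0 := fun h3 => by rw [h3] at hσ2; simp at hσ2
  have hσn : ‖(σ : ℂ)‖ = 1 := by
    rcases hσ with rfl | rfl <;> simp
  have hcC : (c : ℂ) ≠ 0 := by exact_mod_cast hc.ne'
  have hgd : DifferentiableOn ℂ (fun z => (σ : ℂ) * N z / c) (ball 0 R) :=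
    (hN.const_mul _).div_const _
  have hgn : ∀ z ∈ ball (0 : ℂ) R, (σ : ℂ) * N z / c ≠ 0 := fun z hz =>
    div_ne_zero (mul_ne_zero hσne (h1 z hz).1) hcC
  have hlog : exp ((Real.log (σ * (N 0).re / c) : ℝ) : ℂ) = (σ : ℂ) * N 0 / c := by
    rw [← Complex.ofReal_exp, Real.exp_log (div_pos hσ0 hc)]
    push_cast
    rw [← hreal]
  obtain ⟨l, hl, hle, hl0⟩ := Pool.Agent.Choc.exists_log isOpen_ball h0
    ((convex_ball (0 : ℂ) R).starConvex h0) hgd hgn hlog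
  have hl2e : ∀ z ∈ ball (0 : ℂ) R, exp (starRingEnd ℂ (l (starRingEnd ℂ z))) = (σ : ℂ) * N z / c := by
    intro z hz
    rw [Complex.exp_conj, hle _ (pkn_ball hz), (h1 z hz).2.2]
    simp
  have hl2c : ContinuousOn (fun z => starRingEnd ℂ (l (starRingEnd ℂ z))) (ball 0 R) := by
    refine Complex.continuous_conj.comp_continuousOn ?_
    exact hl.continuousOn.comp Complex.continuous_conj.continuousOn fun z hz => pkn_ball hz
  have hl2 : DifferentiableOn ℂ (fun z => starRingEnd ℂ (l (starRingEnd ℂ z))) (ball 0 R) :=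
    Pool.Agent.Choc.l0_diff isOpen_ball hgd hgn hl2c hl2e
  have huni := pkn_log_unique hR0 hl hl2 (fun z hz => by rw [hle z hz, hl2e z hz])
    (by rw [pkn_conj0, hl0, Complex.conj_ofReal])
  refine ⟨R, σ, fun z => -l z, k, hR, hσ, hl.neg, hk, ?_, ?_, ?_⟩
  · intro z hz
    have h3 : ‖exp (l z)‖ < 1 := by
      rw [hle z hz, norm_div, norm_mul, hσn, one_mul, Complex.norm_real, Real.norm_of_nonneg hc.le,
        div_lt_one hc]
      exact (h1 z hz).2.1
    rw [Complex.norm_exp, Real.exp_lt_one_iff] at h3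
    simp only [Complex.neg_re]
    linarith
  · intro z hz
    have h3 := huni z hz
    simp only [map_neg]
    rw [h3, Complex.conj_conj]
  · intro z hz
    rw [neg_neg, hle z hz, ← h2 z hz]
    have h3 : (σ : ℂ) * c * ((σ : ℂ) * N z / c) = N z := by
      field_simp
      linear_combination (N z) * hσ2
    rw [h3]

theorem np_of_log {A B : ℝ[X]} {c R σ : ℝ} (hc : 0 < c) (hR : 1 < R) (hσ : σ = 1 ∨ σ = -1) {F g : ℂ → ℂ}
    (hF : DifferentiableOn ℂ F (ball 0 R)) (hg : DifferentiableOn ℂ g (ball 0 R))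
    (hp : ∀ z ∈ ball (0 : ℂ) R, 0 < (F z).re) (hs : Sym F (ball 0 R))
    (he : ∀ z ∈ ball (0 : ℂ) R,
      σ * c * exp (-F z) * aeval z B.reverse + aeval z B = aeval z A * g z) : NP A B c := by
  have hσn : ‖(σ : ℂ)‖ = 1 := by
    rcases hσ with rfl | rfl <;> simp
  have hσne : (σ : ℂ) ≠ 0 := fun h3 => by rw [h3] at hσn; simp at hσn
  have hcC : (c : ℂ) ≠ 0 := by exact_mod_cast hc.ne'
  refine ⟨R, hR, fun z => σ * c * exp (-F z), g, (hF.neg.cexp).const_mul _, hg, ?_, he⟩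
  intro z hz
  refine ⟨mul_ne_zero (mul_ne_zero hσne hcC) (exp_ne_zero _), ?_, ?_⟩
  · rw [norm_mul, norm_mul, hσn, one_mul, Complex.norm_real, Real.norm_of_nonneg hc.le,
      Complex.norm_exp, Complex.neg_re]
    have h3 : Real.exp (-(F z).re) < 1 := by
      rw [Real.exp_lt_one_iff]
      linarith [hp z hz]
    nlinarith
  · simp only [map_mul, Complex.conj_ofReal]
    rw [← Complex.exp_conj, map_neg, hs z hz]

theorem pkn_id (r : ℝ) (b w : ℂ) : ‖(r : ℂ) ^ 2 + starRingEnd ℂ b * w‖ ^ 2 - r ^ 2 * ‖w + b‖ ^ 2 =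
    (r ^ 2 - ‖w‖ ^ 2) * (r ^ 2 - ‖b‖ ^ 2) := by
  rw [← Complex.normSq_eq_norm_sq, ← Complex.normSq_eq_norm_sq, ← Complex.normSq_eq_norm_sq,
    ← Complex.normSq_eq_norm_sq, Complex.normSq_apply, Complex.normSq_apply, Complex.normSq_apply,
    Complex.normSq_apply]
  have hr : (((r : ℂ) ^ 2 + starRingEnd ℂ b * w).re) = r ^ 2 + (b.re * w.re + b.im * w.im) := by
    rw [Complex.add_re, ← Complex.ofReal_pow, Complex.ofReal_re, Complex.mul_re, Complex.conj_re,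
      Complex.conj_im]
    ring
  have hi : (((r : ℂ) ^ 2 + starRingEnd ℂ b * w).im) = b.re * w.im - b.im * w.re := by
    rw [Complex.add_im, ← Complex.ofReal_pow, Complex.ofReal_im, Complex.mul_im, Complex.conj_re,
      Complex.conj_im]
    ring
  rw [hr, hi, Complex.add_re, Complex.add_im]
  ring

theorem pkn_lt {r : ℝ} (hr : 0 < r) {b w : ℂ} (hb : ‖b‖ < r) (hw : ‖w‖ < r) :
    r * ‖w + b‖ < ‖(r : ℂ) ^ 2 + starRingEnd ℂ b * w‖ := by
  have h1 := pkn_id r b w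
  have h2 : 0 < r ^ 2 - ‖w‖ ^ 2 := by nlinarith [norm_nonneg w]
  have h3 : 0 < r ^ 2 - ‖b‖ ^ 2 := by nlinarith [norm_nonneg b]
  have h4 : (r * ‖w + b‖) ^ 2 < ‖(r : ℂ) ^ 2 + starRingEnd ℂ b * w‖ ^ 2 := by
    rw [mul_pow]
    nlinarith [mul_pos h2 h3]
  exact lt_of_pow_lt_pow_left₀ 2 (norm_nonneg _) h4

theorem pkn_lt2 {r : ℝ} (hr : 0 < r) {b w : ℂ} (hb : ‖b‖ < r) (hw : ‖w‖ < r) :
    r * ‖w - b‖ < ‖(r : ℂ) ^ 2 - starRingEnd ℂ b * w‖ := by
  have h1 := pkn_lt hr (b := -b) (w := w) (by rwa [norm_neg]) hw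
  have e1 : w + -b = w - b := by ring
  have e2 : (r : ℂ) ^ 2 + starRingEnd ℂ (-b) * w = (r : ℂ) ^ 2 - starRingEnd ℂ b * w := by
    rw [map_neg]
    ring
  rwa [e1, e2] at h1

theorem pkn_re {x y : ℂ} (hx : 0 < x.re) (hy : 0 < y.re) :
    ‖x - y‖ ≤ ‖x + starRingEnd ℂ y‖ ∧ x + starRingEnd ℂ y ≠ 0 := by
  constructor
  · have h1 : ‖x - y‖ ^ 2 ≤ ‖x + starRingEnd ℂ y‖ ^ 2 := by
      rw [← Complex.normSq_eq_norm_sq, ← Complex.normSq_eq_norm_sq, Complex.normSq_apply,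
        Complex.normSq_apply]
      simp only [Complex.sub_re, Complex.sub_im, Complex.add_re, Complex.add_im, Complex.conj_re,
        Complex.conj_im]
      nlinarith [mul_pos hx hy]
    exact le_of_sq_le_sq h1 (norm_nonneg _)
  · intro h
    have := congrArg Complex.re h
    rw [Complex.add_re, Complex.conj_re, Complex.zero_re] at this
    linarith

/-- Schwarz and Pick on the disc of radius `R` -/
theorem pkn_pick {R : ℝ} (hR : 0 < R) {F : ℂ → ℂ} (hF : DifferentiableOn ℂ F (ball 0 R))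
    (hp : ∀ z ∈ ball (0 : ℂ) R, 0 < (F z).re) {a b : ℂ} (ha : ‖a‖ < R) (hb : ‖b‖ < R) :
    ‖F a - F b‖ * ‖(R : ℂ) ^ 2 - starRingEnd ℂ b * a‖ ≤
      R * (‖F a + starRingEnd ℂ (F b)‖ * ‖a - b‖) := by
  set m : ℂ → ℂ := fun w => (R : ℂ) ^ 2 * (w + b) / ((R : ℂ) ^ 2 + starRingEnd ℂ b * w) with hm
  have hRC : (R : ℂ) ≠ 0 := by exact_mod_cast hR.ne'
  have hden : ∀ w ∈ ball (0 : ℂ) R, (R : ℂ) ^ 2 + starRingEnd ℂ b * w ≠ 0 := by
    intro w hw h
    rw [mem_ball_zero_iff] at hw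
    have := pkn_lt hR hb hw
    rw [h, norm_zero] at this
    have h2 := mul_nonneg hR.le (norm_nonneg (w + b))
    linarith
  have hmaps : ∀ w ∈ ball (0 : ℂ) R, m w ∈ ball (0 : ℂ) R := by
    intro w hw
    have h1 := hden w hw
    rw [mem_ball_zero_iff] at hw ⊢
    have h2 := pkn_lt hR hb hw
    simp only [hm]
    rw [norm_div, norm_mul, norm_pow, Complex.norm_real, Real.norm_of_nonneg hR.le,
      div_lt_iff₀ (norm_pos_iff.2 h1)]
    nlinarith [mul_lt_mul_of_pos_left h2 hR]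
  have hmd : DifferentiableOn ℂ m (ball 0 R) := by
    intro w hw
    apply DifferentiableAt.differentiableWithinAt
    simp only [hm]
    exact DifferentiableAt.div (by fun_prop) (by fun_prop) (hden w hw)
  have hbR : b ∈ ball (0 : ℂ) R := by rwa [mem_ball_zero_iff]
  have hpb := hp b hbR
  set ψ : ℂ → ℂ := fun w => (F (m w) - F b) / (F (m w) + starRingEnd ℂ (F b)) with hψ
  have hm0 : m 0 = b := by
    simp only [hm]
    rw [mul_zero, add_zero, zero_add]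
    field_simp
  have hψ0 : ψ 0 = 0 := by
    simp only [hψ, hm0]
    rw [sub_self, zero_div]
  have hψd : DifferentiableOn ℂ ψ (ball 0 R) := by
    have h1 : DifferentiableOn ℂ (fun w => F (m w)) (ball 0 R) := hF.comp hmd hmaps
    exact (h1.sub_const _).div (h1.add_const _) fun w hw => (pkn_re (hp _ (hmaps w hw)) hpb).2
  have hψm : MapsTo ψ (ball 0 R) (closedBall (ψ 0) 1) := by
    intro w hw
    rw [hψ0, mem_closedBall_zero_iff]
    have h1 := pkn_re (hp _ (hmaps w hw)) hpb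
    simp only [hψ]
    rw [norm_div, div_le_one (norm_pos_iff.2 h1.2)]
    exact h1.1
  have hd2 : (R : ℂ) ^ 2 - starRingEnd ℂ b * a ≠ 0 := by
    intro h
    have h1 := pkn_lt2 hR hb ha
    rw [h, norm_zero] at h1
    have h2 := mul_nonneg hR.le (norm_nonneg (a - b))
    linarith
  set w : ℂ := (R : ℂ) ^ 2 * (a - b) / ((R : ℂ) ^ 2 - starRingEnd ℂ b * a) with hw
  have hwn : ‖w‖ = R ^ 2 * ‖a - b‖ / ‖(R : ℂ) ^ 2 - starRingEnd ℂ b * a‖ := by
    rw [hw, norm_div, norm_mul, norm_pow, Complex.norm_real, Real.norm_of_nonneg hR.le]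
  have hwR : ‖w‖ < R := by
    have h1 := pkn_lt2 hR hb ha
    rw [hwn, div_lt_iff₀ (norm_pos_iff.2 hd2)]
    nlinarith [mul_lt_mul_of_pos_left h1 hR]
  have hwb : w ∈ ball (0 : ℂ) R := by rwa [mem_ball_zero_iff]
  have hmw : m w = a := by
    have h1 := hden w hwb
    have h3 : ‖starRingEnd ℂ b * b‖ < R ^ 2 := by
      rw [norm_mul, RCLike.norm_conj]
      nlinarith [norm_nonneg b]
    have h4 : (R : ℂ) ^ 2 - starRingEnd ℂ b * b ≠ 0 := by
      intro h
      rw [← sub_eq_zero.1 h, norm_pow, Complex.norm_real, Real.norm_of_nonneg hR.le] at h3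
      exact lt_irrefl _ h3
    simp only [hm]
    rw [div_eq_iff h1]
    have h8 : w * ((R : ℂ) ^ 2 - starRingEnd ℂ b * a) = (R : ℂ) ^ 2 * (a - b) := by
      rw [hw, div_mul_cancel₀ _ hd2]
    linear_combination h8
  have hS := Complex.dist_le_div_mul_dist_of_mapsTo_ball hψd hψm hwb
  rw [hψ0, dist_zero_right, dist_zero_right] at hS
  have hψw : ψ w = (F a - F b) / (F a + starRingEnd ℂ (F b)) := by
    simp only [hψ, hmw]
  have hpa := hp a (by rwa [mem_ball_zero_iff])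
  have h5 := (pkn_re hpa hpb).2
  rw [hψw, norm_div, hwn, div_le_iff₀ (norm_pos_iff.2 h5)] at hS
  have h6 : ‖(R : ℂ) ^ 2 - starRingEnd ℂ b * a‖ > 0 := norm_pos_iff.2 hd2
  have h7 := mul_le_mul_of_nonneg_right hS h6.le
  refine h7.trans (le_of_eq ?_)
  have h9 : R ^ 2 * ‖a - b‖ / ‖(R : ℂ) ^ 2 - starRingEnd ℂ b * a‖ *
      ‖(R : ℂ) ^ 2 - starRingEnd ℂ b * a‖ = R ^ 2 * ‖a - b‖ := div_mul_cancel₀ _ h6.ne'
  calc 1 / R * (R ^ 2 * ‖a - b‖ / ‖(R : ℂ) ^ 2 - starRingEnd ℂ b * a‖) *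
        ‖F a + starRingEnd ℂ (F b)‖ * ‖(R : ℂ) ^ 2 - starRingEnd ℂ b * a‖
      = 1 / R * (R ^ 2 * ‖a - b‖ / ‖(R : ℂ) ^ 2 - starRingEnd ℂ b * a‖ *
        ‖(R : ℂ) ^ 2 - starRingEnd ℂ b * a‖) * ‖F a + starRingEnd ℂ (F b)‖ := by ring
    _ = 1 / R * (R ^ 2 * ‖a - b‖) * ‖F a + starRingEnd ℂ (F b)‖ := by rw [h9]
    _ = R * (‖F a + starRingEnd ℂ (F b)‖ * ‖a - b‖) := by
      have : 1 / R * R ^ 2 = R := by
        field_simp
      calc 1 / R * (R ^ 2 * ‖a - b‖) * ‖F a + starRingEnd ℂ (F b)‖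
          = (1 / R * R ^ 2) * (‖F a + starRingEnd ℂ (F b)‖ * ‖a - b‖) := by ring
        _ = _ := by rw [this]

theorem pkn_aux {R : ℝ} (hR : 1 < R) {w : ℂ} (hw : ‖w‖ < 1) :
    R * ‖1 - w‖ < ‖(R : ℂ) ^ 2 - w‖ := by
  have h1 : ‖w‖ ^ 2 < 1 := by
    have := norm_nonneg w
    nlinarith
  have h2 : (R * ‖1 - w‖) ^ 2 < ‖(R : ℂ) ^ 2 - w‖ ^ 2 := by
    rw [mul_pow]
    rw [← Complex.normSq_eq_norm_sq] at h1
    rw [← Complex.normSq_eq_norm_sq, ← Complex.normSq_eq_norm_sq, Complex.normSq_apply,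
      Complex.normSq_apply]
    rw [Complex.normSq_apply] at h1
    have hr : (((R : ℂ) ^ 2 - w).re) = R ^ 2 - w.re := by
      rw [Complex.sub_re, ← Complex.ofReal_pow, Complex.ofReal_re]
    have hi : (((R : ℂ) ^ 2 - w).im) = - w.im := by
      rw [Complex.sub_im, ← Complex.ofReal_pow, Complex.ofReal_im]
      ring
    rw [hr, hi]
    simp only [Complex.sub_re, Complex.one_re, Complex.sub_im, Complex.one_im]
    have h3 : 0 < R ^ 2 - 1 := by nlinarith
    have h4 : 0 < R ^ 2 - (w.re * w.re + w.im * w.im) := by nlinarith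
    nlinarith [mul_pos h3 h4]
  exact lt_of_pow_lt_pow_left₀ 2 (norm_nonneg _) h2

theorem pick_two {R : ℝ} (hR : 1 < R) {F : ℂ → ℂ} (hF : DifferentiableOn ℂ F (ball 0 R))
    (hp : ∀ z ∈ ball (0 : ℂ) R, 0 < (F z).re) {a b : ℂ} (ha : ‖a‖ < 1) (hb : ‖b‖ < 1) (hab : a ≠ b) :
    ‖F a - F b‖ * ‖1 - starRingEnd ℂ b * a‖ < ‖F a + starRingEnd ℂ (F b)‖ * ‖a - b‖ := by
  have hR0 : 0 < R := by linarith
  have h1 := pkn_pick hR0 hF hp (ha.trans hR) (hb.trans hR)
  have hw : ‖starRingEnd ℂ b * a‖ < 1 := by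
    rw [norm_mul, RCLike.norm_conj]
    nlinarith [norm_nonneg a, norm_nonneg b]
  have h2 := pkn_aux hR hw
  have h3 : 0 < ‖F a + starRingEnd ℂ (F b)‖ := by
    rw [norm_pos_iff]
    intro h4
    have h5 := congrArg Complex.re h4
    rw [Complex.add_re, Complex.conj_re, Complex.zero_re] at h5
    have h6 := hp a (by rw [mem_ball_zero_iff]; exact ha.trans hR)
    have h7 := hp b (by rw [mem_ball_zero_iff]; exact hb.trans hR)
    linarith
  have h4 : 0 < ‖a - b‖ := norm_pos_iff.2 (sub_ne_zero.2 hab)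
  rcases (norm_nonneg (F a - F b)).eq_or_lt with h5 | h5
  · rw [← h5, zero_mul]
    exact mul_pos h3 h4
  · have h6 : ‖F a - F b‖ * (R * ‖1 - starRingEnd ℂ b * a‖) <
        R * (‖F a + starRingEnd ℂ (F b)‖ * ‖a - b‖) :=
      (mul_lt_mul_of_pos_left h2 h5).trans_le h1
    have h7 : R * (‖F a - F b‖ * ‖1 - starRingEnd ℂ b * a‖) <
        R * (‖F a + starRingEnd ℂ (F b)‖ * ‖a - b‖) := by
      calc R * (‖F a - F b‖ * ‖1 - starRingEnd ℂ b * a‖)
          = ‖F a - F b‖ * (R * ‖1 - starRingEnd ℂ b * a‖) := by ring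
        _ < _ := h6
    exact lt_of_mul_lt_mul_left h7 hR0.le

/-- the infinitesimal form -/
theorem pick_one {R : ℝ} (hR : 1 < R) {F : ℂ → ℂ} (hF : DifferentiableOn ℂ F (ball 0 R))
    (hp : ∀ z ∈ ball (0 : ℂ) R, 0 < (F z).re) {a : ℂ} (ha : ‖a‖ < 1) :
    ‖deriv F a‖ * (1 - ‖a‖ ^ 2) < 2 * (F a).re := by
  have hR0 : 0 < R := by linarith
  have haR : a ∈ ball (0 : ℂ) R := by rw [mem_ball_zero_iff]; exact ha.trans hR
  have hn : ball (0 : ℂ) R ∈ 𝓝 a := isOpen_ball.mem_nhds haR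
  have hd : HasDerivAt F (deriv F a) a := ((hF a haR).differentiableAt hn).hasDerivAt
  have hpa := hp a haR
  have key : ‖deriv F a‖ * ‖(R : ℂ) ^ 2 - starRingEnd ℂ a * a‖ ≤
      R * ‖F a + starRingEnd ℂ (F a)‖ := by
    have h1 : Tendsto (fun z => ‖slope F a z‖ * ‖(R : ℂ) ^ 2 - starRingEnd ℂ a * z‖) (𝓝[≠] a)
        (𝓝 (‖deriv F a‖ * ‖(R : ℂ) ^ 2 - starRingEnd ℂ a * a‖)) := by
      refine Tendsto.mul (hasDerivAt_iff_tendsto_slope.1 hd).norm ?_
      have : Continuous fun z : ℂ => ‖(R : ℂ) ^ 2 - starRingEnd ℂ a * z‖ := by fun_prop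
      exact (this.tendsto a).mono_left nhdsWithin_le_nhds
    have h2 : Tendsto (fun z => R * ‖F z + starRingEnd ℂ (F a)‖) (𝓝[≠] a)
        (𝓝 (R * ‖F a + starRingEnd ℂ (F a)‖)) := by
      refine Tendsto.const_mul _ (Tendsto.norm (Tendsto.add_const _ ?_))
      exact (hd.continuousAt.tendsto).mono_left nhdsWithin_le_nhds
    refine le_of_tendsto_of_tendsto h1 h2 ?_
    have hn2 : ball (0 : ℂ) R ∈ 𝓝[≠] a := mem_nhdsWithin_of_mem_nhds hn
    filter_upwards [hn2, self_mem_nhdsWithin] with z hz hza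
    have hza' : z ≠ a := hza
    have h3 := pkn_pick hR0 hF hp (a := z) (b := a) (by rwa [mem_ball_zero_iff] at hz)
      (ha.trans hR)
    have h4 : 0 < ‖z - a‖ := norm_pos_iff.2 (sub_ne_zero.2 hza')
    have h5 : ‖slope F a z‖ = ‖F z - F a‖ / ‖z - a‖ := by
      rw [slope_def_field, norm_div]
    rw [h5, div_mul_eq_mul_div, div_le_iff₀ h4]
    calc ‖F z - F a‖ * ‖(R : ℂ) ^ 2 - starRingEnd ℂ a * z‖
        ≤ R * (‖F z + starRingEnd ℂ (F a)‖ * ‖z - a‖) := h3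
      _ = _ := by ring
  have e1 : ‖(R : ℂ) ^ 2 - starRingEnd ℂ a * a‖ = R ^ 2 - ‖a‖ ^ 2 := by
    have : (R : ℂ) ^ 2 - starRingEnd ℂ a * a = ((R ^ 2 - ‖a‖ ^ 2 : ℝ) : ℂ) := by
      rw [mul_comm, Complex.mul_conj, Complex.normSq_eq_norm_sq]
      push_cast
      ring
    rw [this, Complex.norm_real, Real.norm_of_nonneg]
    nlinarith [norm_nonneg a]
  have e2 : ‖F a + starRingEnd ℂ (F a)‖ = 2 * (F a).re := by
    rw [Complex.add_conj, Complex.norm_real, Real.norm_of_nonneg (by linarith)]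
  rw [e1, e2] at key
  rcases (norm_nonneg (deriv F a)).eq_or_lt with h5 | h5
  · rw [← h5, zero_mul]
    linarith
  · have h6 : R * (1 - ‖a‖ ^ 2) < R ^ 2 - ‖a‖ ^ 2 := by
      nlinarith [norm_nonneg a, mul_pos (sub_pos.2 hR) (by positivity : 0 < R + ‖a‖ ^ 2)]
    have h7 := (mul_lt_mul_of_pos_left h6 h5).trans_le key
    have h8 : R * (‖deriv F a‖ * (1 - ‖a‖ ^ 2)) < R * (2 * (F a).re) := by
      calc R * (‖deriv F a‖ * (1 - ‖a‖ ^ 2)) = ‖deriv F a‖ * (R * (1 - ‖a‖ ^ 2)) := by ring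
        _ < _ := h7
    exact lt_of_mul_lt_mul_left h8 hR0.le

theorem div_two {R : ℝ} {G : ℂ → ℂ} (hG : DifferentiableOn ℂ G (ball 0 R)) {a b : ℂ} (ha : ‖a‖ < R)
    (hb : ‖b‖ < R) (h1 : G a = 0) (h2 : (a ≠ b ∧ G b = 0) ∨ (a = b ∧ deriv G a = 0)) :
    ∃ g : ℂ → ℂ, DifferentiableOn ℂ g (ball 0 R) ∧ ∀ z ∈ ball (0 : ℂ) R, G z = (z - a) * (z - b) * g z := by
  have hna : ball (0 : ℂ) R ∈ 𝓝 a := isOpen_ball.mem_nhds (by rw [mem_ball_zero_iff]; exact ha)
  have hnb : ball (0 : ℂ) R ∈ 𝓝 b := isOpen_ball.mem_nhds (by rw [mem_ball_zero_iff]; exact hb)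
  refine ⟨dslope (dslope G a) b, ?_, ?_⟩
  · rw [Complex.differentiableOn_dslope hnb, Complex.differentiableOn_dslope hna]
    exact hG
  · intro z _
    have h3 : G z = (z - a) * dslope G a z := by
      have := sub_smul_dslope G a z
      rw [h1, sub_zero, smul_eq_mul] at this
      exact this.symm
    have h4 : dslope G a b = 0 := by
      rcases h2 with ⟨h5, h6⟩ | ⟨h5, h6⟩
      · rw [dslope_of_ne G h5.symm, slope_def_field, h1, h6]
        simp
      · rw [← h5, dslope_same, h6]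
    have h5 : dslope G a z = (z - b) * dslope (dslope G a) b z := by
      have := sub_smul_dslope (dslope G a) b z
      rw [h4, sub_zero, smul_eq_mul] at this
      exact this.symm
    rw [h3, h5]
    ring

end Pool.Agent.CZ
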