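import Pool.Agent.Lib.MP_2b3e36_an.CZ.Defs

/-!
RemA. The remainder of a Cauchy integral modulo the polynomial `A` (roots inside the circle).

Proof. Divided difference: `D w z = sum_(m<n) (sum_(j>m) a_j w^(j-1-m)) z^m` satisfies
`(w - z) D w z = A w - A z` (`w^j - z^j = (w - z) sum_(m<j) w^(j-1-m) z^m`, `Commute.mul_geom_sum₂` or
induction; exchange of the sums over `m < j ≤ n`). So `rem A r k z = (2 π i)⁻¹ ∮ k w D w z / A w` (finite sum of integrals
of continuous functions: `circleIntegral.integral_add`, `integral_const_mul`), and for `‖z‖ < r`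
`1/(w-z) - D w z / A w = A z / ((w - z) A w)` on the circle: `rem_cau`.
`rc_im`: `θ ↦ -θ` as for `cau_conj` (CauB): the coefficients are real, so the integrand `F` satisfies `F (conj w) = conj (F w)`.
`rc_sub`: linearity (all integrands are continuous on the circle, `A w ≠ 0` there by `aeval_ne`).
`rc_int` is the integral formula with `D` if useful.
-/

set_option autoImplicit false

open Complex Set Filter Topology Metric Polynomial

namespace Pool.Agent.CZ

theorem aeval_ne {A : ℝ[X]} {ρ : ℝ} (hA : RootsIn A ρ) {z : ℂ} (hz : ρ < ‖z‖) : aeval z A ≠ 0 :=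
  fun h => absurd (hA z h) (not_le.2 hz)

/-- the coefficient of `z ^ m` in the divided difference -/
private noncomputable def dcf (A : ℝ[X]) (m : ℕ) (w : ℂ) : ℂ :=
  ∑ j ∈ Finset.Ico (m + 1) (A.natDegree + 1), (A.coeff j : ℂ) * w ^ (j - 1 - m)

private theorem dcf_cont (A : ℝ[X]) (m : ℕ) : Continuous (dcf A m) := by
  unfold dcf
  fun_prop

private theorem dcf_sum (A : ℝ[X]) (w z : ℂ) :
    (w - z) * ∑ m ∈ Finset.range A.natDegree, dcf A m w * z ^ m = aeval w A - aeval z A := by
  have h1 : ∑ m ∈ Finset.range A.natDegree, dcf A m w * z ^ m =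
      ∑ j ∈ Finset.range (A.natDegree + 1), (A.coeff j : ℂ) *
        ∑ m ∈ Finset.range j, z ^ m * w ^ (j - 1 - m) := by
    unfold dcf
    simp only [Finset.sum_mul, Finset.mul_sum]
    rw [Finset.sum_comm' (s' := fun j => Finset.range j) (t' := Finset.range (A.natDegree + 1))]
    · refine Finset.sum_congr rfl fun j _ => Finset.sum_congr rfl fun m _ => ?_
      ring
    · intro m j
      simp only [Finset.mem_range, Finset.mem_Ico]
      omega
  rw [h1, Finset.mul_sum, aeval_eq_sum_range, aeval_eq_sum_range, ← Finset.sum_sub_distrib]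
  refine Finset.sum_congr rfl fun j _ => ?_
  have h2 := geom_sum₂_mul z w j
  rw [Complex.real_smul, Complex.real_smul]
  have h3 : (w - z) * ((A.coeff j : ℂ) * ∑ m ∈ Finset.range j, z ^ m * w ^ (j - 1 - m)) =
      -((A.coeff j : ℂ) * ((∑ m ∈ Finset.range j, z ^ m * w ^ (j - 1 - m)) * (z - w))) := by ring
  rw [h3, h2]
  ring

private theorem sph_norm {r : ℝ} {w : ℂ} (hw : w ∈ sphere (0 : ℂ) r) : ‖w‖ = r := by
  rwa [mem_sphere_iff_norm, sub_zero] at hw

private theorem aeval_cont (A : ℝ[X]) : Continuous fun w : ℂ => aeval w A := by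
  have h : (fun w : ℂ => aeval w A) = fun w : ℂ => ∑ j ∈ Finset.range (A.natDegree + 1), (A.coeff j : ℂ) * w ^ j := by
    funext w
    rw [aeval_eq_sum_range]
    refine Finset.sum_congr rfl fun j _ => ?_
    rw [Complex.real_smul]
  rw [h]
  fun_prop

private theorem int_cont {A : ℝ[X]} {ρ r : ℝ} (hA : RootsIn A ρ) (hr : ρ < r) {k : ℂ → ℂ}
    (hk : ContinuousOn k (sphere 0 r)) (m : ℕ) :
    ContinuousOn (fun w => k w * (dcf A m w / aeval w A)) (sphere 0 r) := by
  refine hk.mul ((dcf_cont A m).continuousOn.div (aeval_cont A).continuousOn fun w hw => ?_)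
  exact aeval_ne hA (by rw [sph_norm hw]; exact hr)

theorem rem_cau {A : ℝ[X]} {ρ r : ℝ} (hA : RootsIn A ρ) (hρ : 0 < ρ) (hr : ρ < r) {k : ℂ → ℂ}
    (hk : ContinuousOn k (sphere 0 r)) {z : ℂ} (hz : ‖z‖ < r) :
    cau r k z - rem A r k z = aeval z A * cau r (fun w => k w / aeval w A) z := by
  have hr0 : 0 ≤ r := (hρ.trans hr).le
  have hwz : ∀ w ∈ sphere (0 : ℂ) r, w - z ≠ 0 := by
    intro w hw h
    rw [sub_eq_zero] at h
    rw [← h, sph_norm hw] at hz
    exact lt_irrefl _ hz
  have hAw : ∀ w ∈ sphere (0 : ℂ) r, aeval w A ≠ 0 := fun w hw =>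
    aeval_ne hA (by rw [sph_norm hw]; exact hr)
  have e1 : rem A r k z = (2 * Real.pi * I)⁻¹ * ∮ w in C(0, r),
      ∑ m ∈ Finset.range A.natDegree, z ^ m * (k w * (dcf A m w / aeval w A)) := by
    rw [circleIntegral.integral_fun_sum]
    · rw [Finset.mul_sum]
      unfold rem rc
      refine Finset.sum_congr rfl fun m _ => ?_
      rw [circleIntegral.integral_const_mul]
      unfold dcf
      ring
    · intro m _
      exact (continuousOn_const.mul (int_cont hA hr hk m)).circleIntegrable hr0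
  have e2 : cau r k z = (2 * Real.pi * I)⁻¹ * ∮ w in C(0, r), k w / (w - z) := rfl
  have i1 : CircleIntegrable (fun w => k w / (w - z)) 0 r :=
    (hk.div (continuousOn_id.sub continuousOn_const) hwz).circleIntegrable hr0
  have i2 : CircleIntegrable (fun w => ∑ m ∈ Finset.range A.natDegree,
      z ^ m * (k w * (dcf A m w / aeval w A))) 0 r :=
    (continuousOn_finsetSum _ fun m _ =>
      continuousOn_const.mul (int_cont hA hr hk m)).circleIntegrable hr0
  have e5 : (∮ w in C(0, r), (k w / (w - z) - ∑ m ∈ Finset.range A.natDegree,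
      z ^ m * (k w * (dcf A m w / aeval w A)))) =
      aeval z A * ∮ w in C(0, r), k w / aeval w A / (w - z) := by
    rw [← circleIntegral.integral_const_mul]
    refine circleIntegral.integral_congr hr0 fun w hw => ?_
    have h1 := dcf_sum A w z
    have h2 := hwz w hw
    have h3 := hAw w hw
    have e3 : ∑ m ∈ Finset.range A.natDegree, z ^ m * (k w * (dcf A m w / aeval w A)) =
        k w / aeval w A * ∑ m ∈ Finset.range A.natDegree, dcf A m w * z ^ m := by
      rw [Finset.mul_sum]
      refine Finset.sum_congr rfl fun m _ => ?_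
      ring
    show k w / (w - z) - ∑ m ∈ Finset.range A.natDegree, z ^ m * (k w * (dcf A m w / aeval w A)) =
      aeval z A * (k w / aeval w A / (w - z))
    rw [e3]
    have e4 : ∑ m ∈ Finset.range A.natDegree, dcf A m w * z ^ m = (aeval w A - aeval z A) / (w - z) := by
      rw [eq_div_iff h2, mul_comm]
      exact h1
    rw [e4]
    field_simp
    ring
  have e6 : cau r (fun w => k w / aeval w A) z =
      (2 * Real.pi * I)⁻¹ * ∮ w in C(0, r), k w / aeval w A / (w - z) := rfl
  rw [circleIntegral.integral_sub i1 i2] at e5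
  rw [e1, e2, e6, ← mul_sub, e5]
  ring

/-- circle integrals of symmetric functions are purely imaginary -/
private theorem circ_conj {r : ℝ} (hr : 0 < r) {F : ℂ → ℂ} (hF : Sym F (sphere 0 r)) :
    (starRingEnd ℂ) (∮ w in C(0, r), F w) = -∮ w in C(0, r), F w := by
  have hc : ∀ θ : ℝ, circleMap 0 r (2 * Real.pi - θ) = (starRingEnd ℂ) (circleMap 0 r θ) := by
    intro θ
    simp only [circleMap, zero_add, map_mul, Complex.conj_ofReal, ← Complex.exp_conj, Complex.conj_I]
    congr 1
    have e : ((2 * Real.pi - θ : ℝ) : ℂ) * I = (θ : ℂ) * -I + 2 * Real.pi * I := by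
      push_cast
      ring
    rw [e, Complex.exp_periodic]
  have hs : ∀ θ : ℝ, circleMap 0 r θ ∈ sphere (0 : ℂ) r := circleMap_mem_sphere 0 hr.le
  have h1 : ∮ w in C(0, r), F w = ∫ θ in (0 : ℝ)..2 * Real.pi, circleMap 0 r θ * I * F (circleMap 0 r θ) := by
    rw [circleIntegral]
    simp only [deriv_circleMap, smul_eq_mul]
  have h2 := intervalIntegral.integral_comp_sub_left (a := 0) (b := 2 * Real.pi)
    (fun θ : ℝ => circleMap 0 r θ * I * F (circleMap 0 r θ)) (2 * Real.pi)
  rw [sub_self, sub_zero] at h2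
  rw [h1, ← intervalIntegral.intervalIntegral_conj]
  conv_rhs => rw [← h2, ← intervalIntegral.integral_neg]
  refine intervalIntegral.integral_congr fun θ _ => ?_
  show (starRingEnd ℂ) (circleMap 0 r θ * I * F (circleMap 0 r θ)) =
    -(circleMap 0 r (2 * Real.pi - θ) * I * F (circleMap 0 r (2 * Real.pi - θ)))
  rw [hc, hF _ (hs θ), map_mul, map_mul, Complex.conj_I]
  ring

private theorem aeval_conj' (A : ℝ[X]) (w : ℂ) :
    aeval ((starRingEnd ℂ) w) A = (starRingEnd ℂ) (aeval w A) := by
  rw [aeval_eq_sum_range, aeval_eq_sum_range, map_sum]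
  refine Finset.sum_congr rfl fun j _ => ?_
  rw [Complex.real_smul, Complex.real_smul, map_mul, Complex.conj_ofReal, map_pow]

private theorem dcf_conj (A : ℝ[X]) (m : ℕ) (w : ℂ) :
    dcf A m ((starRingEnd ℂ) w) = (starRingEnd ℂ) (dcf A m w) := by
  unfold dcf
  rw [map_sum]
  refine Finset.sum_congr rfl fun j _ => ?_
  rw [map_mul, Complex.conj_ofReal, map_pow]

theorem rc_im {A : ℝ[X]} {r : ℝ} (hr : 0 < r) {k : ℂ → ℂ} (hs : Sym k (sphere 0 r)) (m : ℕ) :
    (rc A r k m).im = 0 := by
  rw [← Complex.conj_eq_iff_im]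
  have h1 : Sym (fun w => k w * (dcf A m w / aeval w A)) (sphere 0 r) := by
    intro w hw
    show k _ * (dcf A m _ / aeval _ A) = _
    rw [hs w hw, dcf_conj, aeval_conj', map_mul, map_div₀]
  have h2 := circ_conj hr h1
  have e : rc A r k m = (2 * Real.pi * I)⁻¹ * ∮ w in C(0, r), k w * (dcf A m w / aeval w A) := rfl
  rw [e, map_mul, h2, map_inv₀, map_mul, map_mul, Complex.conj_I, Complex.conj_ofReal, Complex.conj_ofNat]
  rw [mul_neg, mul_neg, inv_neg]
  ring

theorem rc_sub {A : ℝ[X]} {ρ r : ℝ} (hA : RootsIn A ρ) (hρ : 0 < ρ) (hr : ρ < r) {k k' : ℂ → ℂ}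
    (hk : ContinuousOn k (sphere 0 r)) (hk' : ContinuousOn k' (sphere 0 r)) (m : ℕ) :
    rc A r k m - rc A r k' m = rc A r (fun w => k w - k' w) m := by
  have hr0 : 0 ≤ r := (hρ.trans hr).le
  have e : ∀ f : ℂ → ℂ, rc A r f m = (2 * Real.pi * I)⁻¹ * ∮ w in C(0, r), f w * (dcf A m w / aeval w A) :=
    fun f => rfl
  rw [e, e, e, ← mul_sub, ← circleIntegral.integral_sub ((int_cont hA hr hk m).circleIntegrable hr0)
    ((int_cont hA hr hk' m).circleIntegrable hr0)]
  congr 1
  refine circleIntegral.integral_congr hr0 fun w _ => ?_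
  ring

end Pool.Agent.CZ
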