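import Pool.Agent.Lib.MP_2b3e36_an.CZ.SDefs

/-!
SGeo. Choice of radii and of a ray avoiding finitely many points.

Proof. `radius`: the midpoints `a + (2 j + 1) h`, `h = (b - a)/(2 (m+1))`, `j = 0, .., m`, are `2 h` apart; every `s` is at distance
`< h` from at most one of them; there are `m + 1` midpoints and at most `m` points. `ray`: let `u_0, .., u_m` be distinct unit
vectors, `c = min ‖u_j - u_k‖/8 ∧ 1/2 > 0`. If for every `j` there were `s_j ∈ S`, `r_j > 0` with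
`‖r_j u_j - s_j‖ < c r_j`, two of the `s_j` would be equal (`S.card ≤ m`, pigeonhole), `s = s_j = s_k`; from `‖r u - s‖ < c r`:
`‖s‖ > r / 2`, `‖‖s‖ u - s‖ < 2 c r < 4 c ‖s‖`; so `‖u_j - u_k‖ < 8 c`, contradiction.
-/

set_option autoImplicit false

open Complex Set Filter Topology Metric

namespace Pool.Agent.CZ

theorem radius (m : ℕ) {a b : ℝ} (hab : a < b) (S : Finset ℂ) (hS : S.card ≤ m) :
    ∃ t : ℝ, a ≤ t ∧ t ≤ b ∧ ∀ s ∈ S, (b - a) / (2 * (m + 1)) ≤ |‖s‖ - t| := by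
  set h : ℝ := (b - a) / (2 * (m + 1)) with hh
  have hm : (0 : ℝ) < 2 * (m + 1) := by positivity
  have hpos : 0 < h := div_pos (by linarith) hm
  have hb : h * (2 * (m + 1)) = b - a := by
    rw [hh]
    field_simp
  by_contra hcon
  push Not at hcon
  have h1 : ∀ j ∈ Finset.range (m + 1), ∃ s ∈ S, |‖s‖ - (a + (2 * (j : ℝ) + 1) * h)| < h := by
    intro j hj
    rw [Finset.mem_range] at hj
    have hj1 : (j : ℝ) ≤ m := by exact_mod_cast Nat.lt_succ_iff.mp hj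
    apply hcon
    · have : 0 ≤ (2 * (j : ℝ) + 1) * h := by positivity
      linarith
    · nlinarith
  choose! f hf hf2 using h1
  obtain ⟨j, hj, k, hk, hjk, he⟩ := Finset.exists_ne_map_eq_of_card_lt_of_maps_to
    (s := Finset.range (m + 1)) (t := S) (by rw [Finset.card_range]; omega) (f := f) (fun j hj => hf j hj)
  have h2 := hf2 j hj
  have h3 := hf2 k hk
  rw [he] at h2
  rw [abs_lt] at h2 h3
  have h4 : (1 : ℝ) ≤ |(j : ℝ) - k| := by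
    have h5 : (1 : ℤ) ≤ |(j : ℤ) - k| := Int.one_le_abs (by omega)
    exact_mod_cast h5
  rcases le_abs'.mp h4 with h5 | h5
  · nlinarith [h2.1, h2.2, h3.1, h3.2]
  · nlinarith [h2.1, h2.2, h3.1, h3.2]

theorem SGeo_units (m : ℕ) : ∃ T : Finset ℂ, (∀ u ∈ T, ‖u‖ = 1) ∧ T.card = m + 1 := by
  have h0 : (Icc (0 : ℝ) 1).Infinite := Icc_infinite (by norm_num)
  have hinj : InjOn (fun x : ℝ => (⟨Real.sqrt (1 - x ^ 2), x⟩ : ℂ)) (Icc (0 : ℝ) 1) := by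
    intro x _ y _ hxy
    exact congrArg Complex.im hxy
  have h1 := h0.image hinj
  obtain ⟨T, hT, hc⟩ := h1.exists_subset_card_eq (m + 1)
  refine ⟨T, ?_, hc⟩
  intro u hu
  obtain ⟨x, hx, rfl⟩ := hT hu
  have hx2 : (0 : ℝ) ≤ 1 - x ^ 2 := by nlinarith [hx.1, hx.2]
  rw [Complex.norm_def, Complex.normSq_mk, Real.mul_self_sqrt hx2]
  rw [show 1 - x ^ 2 + x * x = 1 by ring, Real.sqrt_one]

theorem SGeo_sep (T : Finset ℂ) : ∃ d : ℝ, 0 < d ∧ ∀ u ∈ T, ∀ v ∈ T, u ≠ v → d ≤ ‖u - v‖ := by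
  classical
  set P : Finset ℝ := insert 1 ((T.offDiag).image fun p => ‖p.1 - p.2‖) with hP
  have hne : P.Nonempty := Finset.insert_nonempty _ _
  refine ⟨P.min' hne, ?_, ?_⟩
  · rw [Finset.lt_min'_iff]
    intro y hy
    rw [hP, Finset.mem_insert, Finset.mem_image] at hy
    rcases hy with rfl | ⟨p, hp, rfl⟩
    · norm_num
    · rw [Finset.mem_offDiag] at hp
      exact norm_pos_iff.mpr (sub_ne_zero.mpr hp.2.2)
  · intro u hu v hv huv
    apply Finset.min'_le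
    rw [hP, Finset.mem_insert, Finset.mem_image]
    right
    exact ⟨(u, v), Finset.mem_offDiag.mpr ⟨hu, hv, huv⟩, rfl⟩

theorem SGeo_near {c r : ℝ} {u s : ℂ} (hc2 : c ≤ 1 / 2) (hu : ‖u‖ = 1) (hr : 0 ≤ r)
    (h : ‖(r : ℂ) * u - s‖ < c * r) : 0 < ‖s‖ ∧ ‖(‖s‖ : ℂ) * u - s‖ < 4 * c * ‖s‖ := by
  have h0 : 0 < c * r := lt_of_le_of_lt (norm_nonneg _) h
  have hr0 : 0 < r := by
    rcases hr.lt_or_eq with h1 | h1
    · exact h1
    · rw [← h1, mul_zero] at h0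
      exact absurd h0 (lt_irrefl _)
  have hc0 : 0 < c := by
    by_contra hcn
    push Not at hcn
    nlinarith
  have hru : ‖(r : ℂ) * u‖ = r := by
    rw [norm_mul, hu, mul_one, Complex.norm_real, Real.norm_of_nonneg hr]
  have h1 : |r - ‖s‖| < c * r := by
    have := abs_norm_sub_norm_le ((r : ℂ) * u) s
    rw [hru] at this
    exact lt_of_le_of_lt this h
  have h2 := abs_lt.mp h1
  have h3 : r / 2 < ‖s‖ := by nlinarith [h2.1, h2.2]
  refine ⟨by linarith, ?_⟩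
  have h4 : (‖s‖ : ℂ) * u - s = ((‖s‖ - r : ℝ) : ℂ) * u + ((r : ℂ) * u - s) := by
    push_cast
    ring
  rw [h4]
  have h5 : ‖((‖s‖ - r : ℝ) : ℂ) * u‖ = |r - ‖s‖| := by
    rw [norm_mul, hu, mul_one, Complex.norm_real, Real.norm_eq_abs, abs_sub_comm]
  have h6 := norm_add_le (((‖s‖ - r : ℝ) : ℂ) * u) ((r : ℂ) * u - s)
  rw [h5] at h6
  nlinarith

theorem ray (m : ℕ) : ∃ c : ℝ, 0 < c ∧ c ≤ 1 / 2 ∧ ∀ S : Finset ℂ, S.card ≤ m → (0 : ℂ) ∉ S →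
    ∃ u : ℂ, ‖u‖ = 1 ∧ ∀ s ∈ S, ∀ r : ℝ, 0 ≤ r → c * r ≤ ‖r * u - s‖ := by
  obtain ⟨T, hT, hTc⟩ := SGeo_units m
  obtain ⟨d, hd, hsep⟩ := SGeo_sep T
  refine ⟨min (d / 8) (1 / 2), lt_min (by linarith) (by norm_num), min_le_right _ _, ?_⟩
  intro S hS _
  by_contra hcon
  push Not at hcon
  have h1 : ∀ u ∈ T, ∃ s ∈ S, ∃ r : ℝ, 0 ≤ r ∧ ‖(r : ℂ) * u - s‖ < min (d / 8) (1 / 2) * r :=
    fun u hu => hcon u (hT u hu)
  choose! f hf hf2 using h1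
  obtain ⟨u, hu, v, hv, huv, he⟩ := Finset.exists_ne_map_eq_of_card_lt_of_maps_to
    (s := T) (t := S) (by omega) (f := f) (fun u hu => hf u hu)
  obtain ⟨r1, hr1, h1⟩ := hf2 u hu
  obtain ⟨r2, hr2, h2⟩ := hf2 v hv
  rw [he] at h1
  obtain ⟨hs, h3⟩ := SGeo_near (min_le_right _ _) (hT u hu) hr1 h1
  obtain ⟨_, h4⟩ := SGeo_near (min_le_right _ _) (hT v hv) hr2 h2
  have h5 : (‖f v‖ : ℂ) * (u - v) = ((‖f v‖ : ℂ) * u - f v) - ((‖f v‖ : ℂ) * v - f v) := by ring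
  have h6 : ‖(‖f v‖ : ℂ) * (u - v)‖ = ‖f v‖ * ‖u - v‖ := by
    rw [norm_mul, Complex.norm_real, norm_norm]
  have h7 := norm_sub_le ((‖f v‖ : ℂ) * u - f v) ((‖f v‖ : ℂ) * v - f v)
  rw [← h5, h6] at h7
  have h8 := hsep u hu v hv huv
  have h9 : min (d / 8) (1 / 2) ≤ d / 8 := min_le_left _ _
  nlinarith

end Pool.Agent.CZ
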