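import Pool.Agent.Lib.MP_2b3e36_an.CZ.SPath
import Pool.Agent.Lib.MP_2b3e36_an.CZ.SGeo

/-!
SCore. The order of the zero at `0` is bounded.

Proof. Let `D = min ‖o‖` over the `o ∈ S` with `q o = 1` (not empty by hypothesis); `0 < D ≤ ρ` (`q 0 = 0`). Let `c = (1 - ρ)/2`. `radius`
applied to `S` (it contains `0`): `t₁ ∈ [D/4, D/2]`, `t₂ ∈ [D/16, D/8]`, `t₃ ∈ [D (1 + c/2), D (1 + c)]`, all at distance
`≥ δ := c D/(64 (m+1))` from the moduli of the points of `S`; `t₃ + δ < 1` as `D (1 + c) ≤ ρ (1 + c)` and `ρ(1 + c) + ρ c/64 < 1`.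
(i) There is `x₁` with `‖x₁‖ = t₁`, `‖q x₁‖ ≤ 1`: otherwise `‖q‖ > 1` on that circle, `w = q/(q - 1)` is holomorphic on the closed disc
`‖z‖ ≤ t₁` (no ones there as `t₁ < D`), `1/2 ≤ Re w` on the circle, so `‖exp (-w)‖ ≤ exp (-1/2)` inside (maximum principle), but `w 0 = 0`.
With `sch_path` along arcs of the circle: `‖q‖ ≤ K₁` for `‖z‖ = t₁`, `K₁` depending on `m`, `ρ`.
(ii) `q z = z^k h z`: `‖h‖ ≤ K₁ t₁^(-k)` on `‖z‖ = t₁`, so on `‖z‖ ≤ t₁` (maximum principle), so `‖q z‖ ≤ K₁ (t₂/t₁)^k ≤ K₁ 2^(-k)` for `‖z‖ = t₂`.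
(iii) There is `y` with `‖y‖ = t₃`, `1/2 ≤ ‖q y‖`: otherwise `‖q‖ ≤ 1/2` for `‖z‖ ≤ t₃` (maximum principle), but there is a one of modulus
`D < t₃`. Let `g = 1/q` (omits `0`, `1` off `S`), `u` the unit vector of `ray m` for `S.erase 0`. `sch_path` along an arc of the circle of
radius `t₃` from `y` to `t₃ u`, then along the segment from `t₃ u` to `t₂ u`: `‖g (t₂ u)‖ ≤ M`.
(iv) `1/M ≤ ‖q (t₂ u)‖ ≤ K₁ 2^(-k)`, so `k < 2^k ≤ K₁ M`.
-/

set_option autoImplicit false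

open Complex Set Filter Topology Metric

namespace Pool.Agent.CZ

theorem sc_max {f : ℂ → ℂ} {R t C : ℝ} (ht : 0 < t) (htR : t < R)
    (hf : DifferentiableOn ℂ f (ball 0 R)) (hC : ∀ z : ℂ, ‖z‖ = t → ‖f z‖ ≤ C) {z : ℂ}
    (hz : ‖z‖ ≤ t) : ‖f z‖ ≤ C := by
  have hd : DiffContOnCl ℂ f (ball 0 t) := by
    apply DifferentiableOn.diffContOnCl
    rw [closure_ball _ ht.ne']
    exact hf.mono (closedBall_subset_ball htR)
  apply Complex.norm_le_of_forall_mem_frontier_norm_le isBounded_ball hd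
  · intro w hw
    rw [frontier_ball _ ht.ne'] at hw
    exact hC w (by simpa using hw)
  · rw [closure_ball _ ht.ne']
    simpa using hz

theorem sc_chord (a b : ℝ) : ‖exp ((a : ℂ) * I) - exp ((b : ℂ) * I)‖ ≤ |a - b| := by
  have h : exp ((a : ℂ) * I) - exp ((b : ℂ) * I)
      = exp ((b : ℂ) * I) * (exp (I * ((a - b : ℝ) : ℂ)) - 1) := by
    rw [mul_sub, mul_one, ← exp_add]
    congr 2
    push_cast
    ring
  rw [h, norm_mul, norm_exp_ofReal_mul_I, one_mul]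
  have := Real.norm_exp_I_mul_ofReal_sub_one_le (x := a - b)
  simpa using this

theorem sc_arc (M Λ : ℝ) : ∃ M' : ℝ, 0 < M' ∧ ∀ (g : ℂ → ℂ) (t δ : ℝ), 0 < δ → 0 < t →
    Real.pi * t ≤ Λ * δ → (∀ z : ℂ, ‖z‖ = t → DifferentiableOn ℂ g (ball z δ) ∧
      ∀ w ∈ ball z δ, g w ≠ 0 ∧ g w ≠ 1) → (∃ x : ℂ, ‖x‖ = t ∧ ‖g x‖ ≤ M) →
      ∀ z : ℂ, ‖z‖ = t → ‖g z‖ ≤ M' := by
  obtain ⟨M', hM', H⟩ := sch_path M Λ
  refine ⟨M', hM', ?_⟩
  rintro g t δ hδ ht hL hg ⟨x, hx, hxM⟩ z hz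
  have hx0 : x ≠ 0 := by
    rintro rfl
    simp at hx
    linarith
  set θ : ℝ := arg (z / x) with hθ
  have hzx : ‖z / x‖ = 1 := by rw [norm_div, hz, hx, div_self ht.ne']
  have hexp : z / x = exp (θ * I) := by
    have := Complex.norm_mul_exp_arg_mul_I (z / x)
    rw [hzx] at this
    simpa using this.symm
  have hzz : z = x * exp (θ * I) := by
    rw [← hexp]
    field_simp
  have hγn : ∀ s : ℝ, ‖x * exp (((θ * s : ℝ) : ℂ) * I)‖ = t := by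
    intro s
    rw [norm_mul, Complex.norm_exp_ofReal_mul_I, hx, mul_one]
  have hθπ : |θ| ≤ Real.pi := Complex.abs_arg_le_pi _
  have key := H g (fun s : ℝ => x * exp (((θ * s : ℝ) : ℂ) * I)) δ (Real.pi * t) hδ
    (by positivity) hL ?_ ?_ ?_ 1 ⟨zero_le_one, le_rfl⟩
  · simp only [mul_one] at key
    rw [hzz]
    exact key
  · intro s _ s' _
    rw [← mul_sub, norm_mul, hx]
    have h1 := sc_chord (θ * s) (θ * s')
    have h2 : |θ * s - θ * s'| = |θ| * |s - s'| := by rw [← mul_sub, abs_mul]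
    rw [h2] at h1
    calc t * ‖exp (((θ * s : ℝ) : ℂ) * I) - exp (((θ * s' : ℝ) : ℂ) * I)‖
        ≤ t * (|θ| * |s - s'|) := by gcongr
      _ ≤ t * (Real.pi * |s - s'|) := by gcongr
      _ = Real.pi * t * |s - s'| := by ring
  · intro s _
    exact hg _ (hγn s)
  · simpa using hxM

theorem sc_re {w : ℂ} (hw : 1 < ‖w‖) (h1 : w ≠ 1) : 1 / 2 ≤ (w / (w - 1)).re := by
  have hn : 0 < normSq (w - 1) := normSq_pos.mpr (sub_ne_zero.mpr h1)
  have hw2 : 1 < normSq w := by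
    rw [normSq_eq_norm_sq]
    nlinarith
  rw [Complex.div_re, ← add_div, le_div_iff₀ hn]
  simp only [normSq_apply, sub_re, sub_im, one_re, one_im, sub_zero] at hw2 ⊢
  nlinarith

theorem sc_small {q : ℂ → ℂ} {R t : ℝ} (ht : 0 < t) (htR : t < R)
    (hq : DifferentiableOn ℂ q (ball 0 R)) (h0 : q 0 = 0) (h1 : ∀ z ∈ ball (0 : ℂ) R, q z ≠ 1) :
    ∃ x : ℂ, ‖x‖ = t ∧ ‖q x‖ ≤ 1 := by
  by_contra hcon
  push Not at hcon
  have hw : DifferentiableOn ℂ (fun z => exp (-(q z / (q z - 1)))) (ball 0 R) := by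
    apply DifferentiableOn.cexp
    apply DifferentiableOn.neg
    apply DifferentiableOn.div hq (hq.sub_const 1)
    intro z hz
    exact sub_ne_zero.mpr (h1 z hz)
  have hb : ∀ z : ℂ, ‖z‖ = t → ‖exp (-(q z / (q z - 1)))‖ ≤ Real.exp (-(1 / 2)) := by
    intro z hz
    rw [norm_exp]
    apply Real.exp_le_exp.mpr
    rw [neg_re]
    have := sc_re (hcon z hz) (h1 z (by simpa [hz] using htR))
    linarith
  have key := sc_max ht htR hw hb (z := 0) (by simpa using ht.le)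
  simp only [h0, zero_div, neg_zero, exp_zero, norm_one] at key
  have : Real.exp (-(1 / 2)) < 1 := by
    rw [← Real.exp_zero]
    exact Real.exp_lt_exp.mpr (by norm_num)
  linarith

theorem sc_off {m : ℕ} {ρ : ℝ} {q : ℂ → ℂ} {S : Finset ℂ} (hf : Few m ρ q S) {z : ℂ} {d : ℝ}
    (hz : ‖z‖ + d ≤ 1) (hd : ∀ s ∈ S, d ≤ ‖z - s‖) :
    DifferentiableOn ℂ q (ball z d) ∧ ∀ w ∈ ball z d, q w ≠ 0 ∧ q w ≠ 1 := by
  have hsub : ball z d ⊆ ball 0 1 := by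
    apply ball_subset_ball'
    rw [dist_zero_right]
    linarith
  refine ⟨hf.diff.mono hsub, ?_⟩
  have hS : ∀ w ∈ ball z d, ¬ (q w = 0 ∨ q w = 1) := by
    intro w hw h
    have h1 := hd w (hf.mem w (hsub hw) h)
    rw [mem_ball, dist_comm, dist_eq_norm] at hw
    linarith
  intro w hw
  have := hS w hw
  push Not at this
  exact this

theorem sc_offinv {m : ℕ} {ρ : ℝ} {q : ℂ → ℂ} {S : Finset ℂ} (hf : Few m ρ q S) {z : ℂ} {d : ℝ}
    (hz : ‖z‖ + d ≤ 1) (hd : ∀ s ∈ S, d ≤ ‖z - s‖) :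
    DifferentiableOn ℂ (fun z => (q z)⁻¹) (ball z d) ∧
      ∀ w ∈ ball z d, (q w)⁻¹ ≠ 0 ∧ (q w)⁻¹ ≠ 1 := by
  obtain ⟨h1, h2⟩ := sc_off hf hz hd
  refine ⟨h1.inv (fun w hw => (h2 w hw).1), ?_⟩
  intro w hw
  refine ⟨inv_ne_zero (h2 w hw).1, ?_⟩
  intro h
  exact (h2 w hw).2 (inv_eq_one.mp h)

theorem sc_seg (M Λ : ℝ) : ∃ M' : ℝ, 0 < M' ∧ ∀ (g : ℂ → ℂ) (a b δ : ℝ) (u : ℂ), 0 < δ → ‖u‖ = 1 →
    a ≤ b → b - a ≤ Λ * δ → (∀ r : ℝ, a ≤ r → r ≤ b → DifferentiableOn ℂ g (ball (r * u) δ) ∧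
      ∀ w ∈ ball ((r : ℂ) * u) δ, g w ≠ 0 ∧ g w ≠ 1) → ‖g (b * u)‖ ≤ M → ‖g (a * u)‖ ≤ M' := by
  obtain ⟨M', hM', H⟩ := sch_path M Λ
  refine ⟨M', hM', ?_⟩
  intro g a b δ u hδ hu hab hL hg hb
  have key := H g (fun s : ℝ => ((b - s * (b - a) : ℝ) : ℂ) * u) δ (b - a) hδ
    (by linarith) hL ?_ ?_ ?_ 1 ⟨zero_le_one, le_rfl⟩
  · have e : (b - 1 * (b - a) : ℝ) = a := by ring
    simp only [e] at key
    exact key
  · intro s _ s' _
    rw [← sub_mul, norm_mul, hu, mul_one, ← ofReal_sub, norm_real, Real.norm_eq_abs]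
    have e : (b - s * (b - a)) - (b - s' * (b - a)) = -((b - a) * (s - s')) := by ring
    rw [e, abs_neg, abs_mul, abs_of_nonneg (by linarith : 0 ≤ b - a)]
  · intro s hs
    have h1 : 0 ≤ s * (b - a) := mul_nonneg hs.1 (by linarith)
    have h2 : s * (b - a) ≤ b - a := by
      nlinarith [hs.2]
    exact hg _ (by linarith) (by linarith)
  · simpa using hb

theorem order_core (m : ℕ) {ρ : ℝ} (hρ : 0 < ρ) (hρ1 : ρ < 1) : ∃ M₀ : ℕ, ∀ (q h : ℂ → ℂ)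
    (S : Finset ℂ) (k : ℕ), Few m ρ q S → q 0 = 0 → (∃ o ∈ ball (0 : ℂ) 1, q o = 1) →
    DifferentiableOn ℂ h (ball 0 1) → (∀ z ∈ ball (0 : ℂ) 1, q z = z ^ k * h z) → k ≤ M₀ := by
  set c : ℝ := (1 - ρ) / 2 with hc
  have hc0 : 0 < c := by rw [hc]; linarith
  have hc2 : c ≤ 1 / 2 := by rw [hc]; linarith
  obtain ⟨c', hc'0, hc'2, hray⟩ := ray m
  obtain ⟨K₁, hK₁, HK₁⟩ := sc_arc 1 (64 * Real.pi * (m + 1) / c)
  obtain ⟨K₂, hK₂, HK₂⟩ := sc_arc 2 (128 * Real.pi * (m + 1) / c)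
  obtain ⟨K₃, hK₃, HK₃⟩ := sc_seg K₂ (128 * (m + 1) / (c * c'))
  refine ⟨⌈K₁ * K₃⌉₊, ?_⟩
  rintro q h S k hf h0 ⟨o₀, ho₀, hqo₀⟩ hh hqh
  have hne : (S.filter (fun s => q s = 1)).Nonempty := by
    refine ⟨o₀, ?_⟩
    rw [Finset.mem_filter]
    exact ⟨hf.mem o₀ ho₀ (Or.inr hqo₀), hqo₀⟩
  obtain ⟨o, ho, hmin⟩ := Finset.exists_min_image _ (fun s => ‖s‖) hne
  rw [Finset.mem_filter] at ho
  obtain ⟨hoS, hqo⟩ := ho
  set D : ℝ := ‖o‖ with hD
  have hD0 : 0 < D := by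
    rw [hD, norm_pos_iff]
    rintro rfl
    rw [h0] at hqo
    exact zero_ne_one hqo
  have hDρ : D ≤ ρ := hf.le o hoS
  have h0S : (0 : ℂ) ∈ S := hf.mem 0 (by simp) (Or.inl h0)
  have hnoone : ∀ z ∈ ball (0 : ℂ) D, q z ≠ 1 := by
    intro z hz hq1
    have hz1 : z ∈ ball (0 : ℂ) 1 := ball_subset_ball (by linarith) hz
    have := hmin z (by rw [Finset.mem_filter]; exact ⟨hf.mem z hz1 (Or.inr hq1), hq1⟩)
    rw [mem_ball, dist_zero_right] at hz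
    linarith
  set δ : ℝ := c * D / (64 * (m + 1)) with hδ
  have hm0 : (0 : ℝ) ≤ m := Nat.cast_nonneg m
  have hm1 : (0 : ℝ) < (m : ℝ) + 1 := by linarith
  have hδ0 : 0 < δ := by rw [hδ]; positivity
  have hδc : δ ≤ c * D / 64 := by
    rw [hδ]
    apply div_le_div_of_nonneg_left (by positivity) (by norm_num)
    linarith
  have hcD : c * D ≤ D / 2 := by nlinarith
  obtain ⟨t₁, ht₁a, ht₁b, ht₁⟩ := radius m (show D / 4 < D / 2 by linarith) S hf.card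
  obtain ⟨t₂, ht₂a, ht₂b, ht₂⟩ := radius m (show D / 16 < D / 8 by linarith) S hf.card
  obtain ⟨t₃, ht₃a, ht₃b, ht₃⟩ := radius m (show D * (1 + c / 2) < D * (1 + c) by nlinarith) S hf.card
  have hcomp : ∀ x : ℝ, c * D / 32 ≤ x → δ ≤ x / (2 * (m + 1)) := by
    intro x hx
    rw [hδ, div_le_div_iff₀ (by positivity) (by positivity)]
    nlinarith
  have hd₁ : ∀ z : ℂ, ‖z‖ = t₁ → ∀ s ∈ S, δ ≤ ‖z - s‖ := by
    intro z hz s hs
    have h1 := ht₁ s hs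
    have h2 := abs_norm_sub_norm_le z s
    rw [hz, abs_sub_comm] at h2
    have h3 := hcomp (D / 2 - D / 4) (by linarith)
    linarith
  have hd₃ : ∀ z : ℂ, ‖z‖ = t₃ → ∀ s ∈ S, δ ≤ ‖z - s‖ := by
    intro z hz s hs
    have h1 := ht₃ s hs
    have h2 := abs_norm_sub_norm_le z s
    rw [hz, abs_sub_comm] at h2
    have h3 := hcomp (D * (1 + c) - D * (1 + c / 2)) (by nlinarith)
    linarith
  have ht₁0 : 0 < t₁ := by linarith
  have ht₂0 : 0 < t₂ := by linarith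
  have hDt₃ : D < t₃ := by nlinarith
  have ht₃0 : 0 < t₃ := by linarith
  have ht₃2 : t₃ ≤ 2 * D := by nlinarith
  have ht₃δ : t₃ + δ < 1 := by
    have h1 : D * (1 + c) + c * D / 64 ≤ ρ * (1 + c) + c * ρ / 64 := by
      have : D * (1 + c + c / 64) ≤ ρ * (1 + c + c / 64) := by
        apply mul_le_mul_of_nonneg_right hDρ
        positivity
      nlinarith
    have h2 : ρ * (1 + c) + c * ρ / 64 < 1 := by
      rw [hc]
      nlinarith [mul_pos hρ (sub_pos.mpr hρ1)]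
    linarith
  have hDlt : D < 1 := by linarith
  obtain ⟨x₁, hx₁, hqx₁⟩ := sc_small ht₁0 (show t₁ < D by linarith)
    (hf.diff.mono (ball_subset_ball hDlt.le)) h0 hnoone
  have hA : ∀ z : ℂ, ‖z‖ = t₁ → ‖q z‖ ≤ K₁ := by
    apply HK₁ q t₁ δ hδ0 ht₁0 _ _ ⟨x₁, hx₁, hqx₁⟩
    · have e : 64 * Real.pi * (m + 1) / c * δ = Real.pi * D := by
        rw [hδ]
        field_simp
      rw [e]
      have := Real.pi_pos
      nlinarith
    · intro z hz
      exact sc_off hf (by rw [hz]; linarith) (hd₁ z hz)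
  have hB : ∀ z : ℂ, ‖z‖ = t₂ → ‖q z‖ * 2 ^ k ≤ K₁ := by
    intro z hz
    have hz1 : ‖h z‖ ≤ K₁ / t₁ ^ k := by
      apply sc_max ht₁0 (show t₁ < 1 by linarith) hh _ (by linarith)
      intro w hw
      have hw1 : w ∈ ball (0 : ℂ) 1 := by
        rw [mem_ball, dist_zero_right]
        linarith
      have h1 := hA w hw
      rw [hqh w hw1, norm_mul, norm_pow, hw] at h1
      rw [le_div_iff₀ (by positivity)]
      linarith
    have hzb : z ∈ ball (0 : ℂ) 1 := by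
      rw [mem_ball, dist_zero_right]
      linarith
    rw [hqh z hzb, norm_mul, norm_pow, hz]
    have h2 : (2 * t₂) ^ k ≤ t₁ ^ k := by
      apply pow_le_pow_left₀ (by positivity)
      linarith
    rw [mul_pow] at h2
    rw [le_div_iff₀ (by positivity)] at hz1
    calc t₂ ^ k * ‖h z‖ * 2 ^ k = ‖h z‖ * (2 ^ k * t₂ ^ k) := by ring
      _ ≤ ‖h z‖ * t₁ ^ k := by gcongr
      _ ≤ K₁ := hz1
  obtain ⟨y, hy, hqy⟩ : ∃ y : ℂ, ‖y‖ = t₃ ∧ ‖(q y)⁻¹‖ ≤ 2 := by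
    by_contra hcon
    push Not at hcon
    have h1 : ‖q o‖ ≤ 1 / 2 := by
      apply sc_max ht₃0 (show t₃ < 1 by linarith) hf.diff _ hDt₃.le
      intro z hz
      have h2 := hcon z hz
      rw [norm_inv] at h2
      by_contra h3
      push Not at h3
      have h4 : ‖q z‖⁻¹ ≤ (1 / 2 : ℝ)⁻¹ := by
        apply inv_anti₀ (by norm_num) h3.le
      norm_num at h4
      linarith
    rw [hqo, norm_one] at h1
    norm_num at h1
  have hC : ∀ z : ℂ, ‖z‖ = t₃ → ‖(q z)⁻¹‖ ≤ K₂ := by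
    apply HK₂ (fun z => (q z)⁻¹) t₃ δ hδ0 ht₃0 _ _ ⟨y, hy, hqy⟩
    · have e : 128 * Real.pi * (m + 1) / c * δ = Real.pi * (2 * D) := by
        rw [hδ]
        field_simp
        ring
      rw [e]
      have := Real.pi_pos
      nlinarith
    · intro z hz
      exact sc_offinv hf (by rw [hz]; linarith) (hd₃ z hz)
  obtain ⟨u, hu, hur⟩ := hray (S.erase 0) ((Finset.card_erase_le).trans hf.card)
    (Finset.notMem_erase 0 S)
  have hnr : ∀ r : ℝ, 0 ≤ r → ‖(r : ℂ) * u‖ = r := by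
    intro r hr
    rw [norm_mul, hu, mul_one, norm_real, Real.norm_eq_abs, abs_of_nonneg hr]
  have hE : ‖(q ((t₂ : ℂ) * u))⁻¹‖ ≤ K₃ := by
    apply HK₃ (fun z => (q z)⁻¹) t₂ t₃ (c' * δ) u (by positivity) hu (by linarith) _ _
      (hC _ (hnr t₃ ht₃0.le))
    · have e : 128 * (m + 1) / (c * c') * (c' * δ) = 2 * D := by
        rw [hδ]
        field_simp
        ring
      rw [e]
      linarith
    · intro r hr2 hr3
      have hr0 : 0 ≤ r := by linarith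
      have hcδ : c' * δ ≤ δ := by nlinarith
      apply sc_offinv hf
      · rw [hnr r hr0]
        linarith
      · intro s hs
        have hδD : δ ≤ D / 16 := by linarith
        by_cases hs0 : s = 0
        · rw [hs0, sub_zero, hnr r hr0]
          linarith
        · have h1 := hur s (Finset.mem_erase.mpr ⟨hs0, hs⟩) r hr0
          have h2 : c' * δ ≤ c' * r := by
            apply mul_le_mul_of_nonneg_left _ hc'0.le
            linarith
          linarith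
  have hF := hB _ (hnr t₂ ht₂0.le)
  have hpos : (0 : ℝ) < 2 ^ k := by positivity
  have hqne : q ((t₂ : ℂ) * u) ≠ 0 := by
    intro hz0
    have hmem : ((t₂ : ℂ) * u) ∈ S := hf.mem _ (by rw [mem_ball, dist_zero_right, hnr t₂ ht₂0.le]; linarith)
      (Or.inl hz0)
    have hne0 : ((t₂ : ℂ) * u) ≠ 0 := by
      rw [← norm_pos_iff, hnr t₂ ht₂0.le]
      exact ht₂0
    have h1 := hur _ (Finset.mem_erase.mpr ⟨hne0, hmem⟩) t₂ ht₂0.le
    rw [sub_self, norm_zero] at h1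
    nlinarith [mul_pos hc'0 ht₂0]
  have hqn : 0 < ‖q ((t₂ : ℂ) * u)‖ := norm_pos_iff.mpr hqne
  rw [norm_inv] at hE
  have h2k : (2 : ℝ) ^ k ≤ K₁ * K₃ := by
    have h1 : (2 : ℝ) ^ k = (‖q ((t₂ : ℂ) * u)‖ * 2 ^ k) * ‖q ((t₂ : ℂ) * u)‖⁻¹ := by
      field_simp
    rw [h1]
    apply mul_le_mul hF hE (by positivity) hK₁.le
  have hk : (k : ℝ) < 2 ^ k := by
    exact_mod_cast Nat.lt_two_pow_self
  have : (k : ℝ) ≤ ⌈K₁ * K₃⌉₊ := by
    have := Nat.le_ceil (K₁ * K₃)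
    linarith
  exact_mod_cast this

end Pool.Agent.CZ
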