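import Pool.Agent.Lib.MP_2b3e36_an.CZ.Defs

/-!
# The literal reading of the question: sets without multiplicities
-/

set_option autoImplicit false

open Complex Polynomial Metric

namespace Pool.Agent.CZ

noncomputable section

/-- There is a real rational function `q = P / Q` without poles in the closed unit disc whose set of
zeros there is `Z` and whose set of ones there is `O`, with any multiplicities. -/
def SolvableSet (Z O : Finset ℂ) : Prop :=
  ∃ P Q : ℝ[X], (∀ z : ℂ, ‖z‖ ≤ 1 → aeval z Q ≠ 0) ∧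
    (∀ z : ℂ, ‖z‖ ≤ 1 → (aeval z P = 0 ↔ z ∈ Z)) ∧
    ∀ z : ℂ, ‖z‖ ≤ 1 → (aeval z P = aeval z Q ↔ z ∈ O)

/-- `A` is a monic real polynomial of degree at most `n` whose set of complex roots is `Z`. -/
def Patt (n : ℕ) (Z : Finset ℂ) (A : ℝ[X]) : Prop :=
  A.Monic ∧ A.natDegree ≤ n ∧ ∀ z : ℂ, aeval z A = 0 ↔ z ∈ Z

/-- A function on the unit disc whose zeros and ones are in the set `S` of at most `m` points of modulus at
most `ρ`. -/
structure Few (m : ℕ) (ρ : ℝ) (q : ℂ → ℂ) (S : Finset ℂ) : Prop where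
  diff : DifferentiableOn ℂ q (ball 0 1)
  card : S.card ≤ m
  le : ∀ s ∈ S, ‖s‖ ≤ ρ
  mem : ∀ z ∈ ball (0 : ℂ) 1, q z = 0 ∨ q z = 1 → z ∈ S

end

end Pool.Agent.CZ
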