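import Pool.Agent.Lib.MP_2b3e36_an.CZ.SDefs

/-!
SFac. Splitting off the roots in the closed unit disc.

Proof. `split_disc`: strong induction on `natDegree P`. If `P` has no root in the closed disc take `A = 1`. Otherwise let `z` be
one; if `z` is real, `P = (X - C z) * P'`, else `X ^ 2 - C (2 z.re) X + C (‖z‖^2)` divides `P`
(`Polynomial.quadratic_dvd_of_aeval_eq_zero_im_ne_zero`), its roots are `z`, `conj z`, both in
the disc. `P' ≠ 0` has smaller degree. `deg_le`: over `ℂ` the monic `A` has `natDegree A` roots with multiplicity.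
-/

set_option autoImplicit false

open Complex Set Filter Topology Metric Polynomial

namespace Pool.Agent.CZ

/-- a monic divisor of positive degree with all roots in the disc -/
theorem sfac_div {P : ℝ[X]} {z : ℂ} (hz : ‖z‖ ≤ 1) (h0 : aeval z P = 0) :
    ∃ D : ℝ[X], D.Monic ∧ 0 < D.natDegree ∧ D ∣ P ∧ ∀ w : ℂ, aeval w D = 0 → ‖w‖ ≤ 1 := by
  by_cases him : z.im = 0
  · refine ⟨X - C z.re, monic_X_sub_C _, by simp, ?_, ?_⟩
    · rw [dvd_iff_isRoot, IsRoot.def]
      have hz' : z = ((z.re : ℝ) : ℂ) := by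
        apply Complex.ext <;> simp [him]
      rw [hz'] at h0
      have h1 : aeval ((z.re : ℝ) : ℂ) P = ((P.eval z.re : ℝ) : ℂ) := by
        have := Polynomial.aeval_algebraMap_apply ℂ z.re P
        simpa [Polynomial.coe_aeval_eq_eval] using this
      rw [h1] at h0
      exact_mod_cast h0
    · intro w hw
      have hw' : w = ((z.re : ℝ) : ℂ) := by
        simpa [sub_eq_zero] using hw
      rw [hw', Complex.norm_real]
      exact (Complex.abs_re_le_norm z).trans hz
  · have hd := P.quadratic_dvd_of_aeval_eq_zero_im_ne_zero h0 him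
    have hdeg : (X ^ 2 - C (2 * z.re) * X + C (‖z‖ ^ 2) : ℝ[X]).natDegree = 2 := by
      compute_degree!
    refine ⟨X ^ 2 - C (2 * z.re) * X + C (‖z‖ ^ 2), ?_, ?_, hd, ?_⟩
    · rw [Monic, leadingCoeff, hdeg]
      rw [coeff_add, coeff_sub, coeff_C_mul, coeff_X_pow_self, coeff_X_of_ne_one (by norm_num),
        coeff_C_of_ne_zero (by norm_num)]
      ring
    · rw [hdeg]; norm_num
    · intro w hw
      have h1 : (w - z) * (w - (starRingEnd ℂ) z) = 0 := by
        have e1 : aeval w (X ^ 2 - C (2 * z.re) * X + C (‖z‖ ^ 2) : ℝ[X]) =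
            w ^ 2 - (2 * z.re : ℝ) * w + ((‖z‖ ^ 2 : ℝ) : ℂ) := by
          simp [aeval_def]
        rw [e1] at hw
        have e2 : (z + (starRingEnd ℂ) z) = ((2 * z.re : ℝ) : ℂ) := Complex.add_conj z
        have e3 : z * (starRingEnd ℂ) z = ((‖z‖ ^ 2 : ℝ) : ℂ) := by
          rw [Complex.mul_conj, Complex.normSq_eq_norm_sq]
        calc (w - z) * (w - (starRingEnd ℂ) z)
            = w ^ 2 - (z + (starRingEnd ℂ) z) * w + z * (starRingEnd ℂ) z := by ring
          _ = 0 := by rw [e2, e3]; exact hw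
      rcases mul_eq_zero.1 h1 with h | h
      · rw [sub_eq_zero.1 h]; exact hz
      · rw [sub_eq_zero.1 h, RCLike.norm_conj]; exact hz

theorem split_disc {P : ℝ[X]} (hP : P ≠ 0) : ∃ A P₁ : ℝ[X], A.Monic ∧ P = A * P₁ ∧
    (∀ z : ℂ, aeval z A = 0 → ‖z‖ ≤ 1) ∧ ∀ z : ℂ, ‖z‖ ≤ 1 → aeval z P₁ ≠ 0 := by
  suffices H : ∀ (n : ℕ) (P : ℝ[X]), P ≠ 0 → P.natDegree = n → ∃ A P₁ : ℝ[X], A.Monic ∧ P = A * P₁ ∧
    (∀ z : ℂ, aeval z A = 0 → ‖z‖ ≤ 1) ∧ ∀ z : ℂ, ‖z‖ ≤ 1 → aeval z P₁ ≠ 0 from H _ P hP rfl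
  intro n
  induction n using Nat.strong_induction_on with
  | _ n ih =>
    intro P hP hn
    by_cases h : ∃ z : ℂ, ‖z‖ ≤ 1 ∧ aeval z P = 0
    · obtain ⟨z, hz, h0⟩ := h
      obtain ⟨D, hD, hDd, ⟨P', hP'⟩, hDr⟩ := sfac_div hz h0
      have hP'0 : P' ≠ 0 := by
        rintro rfl
        exact hP (by simpa using hP')
      have hdeg : P'.natDegree < n := by
        rw [← hn, hP', natDegree_mul hD.ne_zero hP'0]
        omega
      obtain ⟨A, P₁, hA, hAP, hAr, hP₁⟩ := ih _ hdeg P' hP'0 rfl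
      refine ⟨D * A, P₁, hD.mul hA, by rw [hP', hAP, mul_assoc], ?_, hP₁⟩
      intro w hw
      rw [map_mul] at hw
      rcases mul_eq_zero.1 hw with hw | hw
      · exact hDr w hw
      · exact hAr w hw
    · push Not at h
      exact ⟨1, P, monic_one, by simp, fun z hz => absurd hz (by simp), h⟩

theorem deg_le {A : ℝ[X]} (hA : A.Monic) {Z : Finset ℂ} (hZ : ∀ z : ℂ, aeval z A = 0 ↔ z ∈ Z) {M₀ : ℕ}
    (hk : ∀ z ∈ Z, ∀ (k : ℕ) (G : ℂ[X]), A.map (algebraMap ℝ ℂ) = (X - C z) ^ k * G → k ≤ M₀) :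
    A.natDegree ≤ Z.card * M₀ := by
  classical
  set B : ℂ[X] := A.map (algebraMap ℝ ℂ) with hB
  have hBm : B.Monic := hA.map _
  have hdeg : B.natDegree = A.natDegree := hA.natDegree_map _
  have hcard : Multiset.card B.roots = B.natDegree :=
    (splits_iff_card_roots.1 (IsAlgClosed.splits B))
  have hsub : B.roots.toFinset ⊆ Z := by
    intro z hz
    rw [Multiset.mem_toFinset, mem_roots hBm.ne_zero, IsRoot.def, hB, eval_map_algebraMap] at hz
    exact (hZ z).1 hz
  rw [← hdeg, ← hcard, ← Multiset.toFinset_sum_count_eq]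
  calc ∑ a ∈ B.roots.toFinset, Multiset.count a B.roots ≤ ∑ a ∈ B.roots.toFinset, M₀ := by
        refine Finset.sum_le_sum fun a ha => ?_
        rw [count_roots]
        obtain ⟨G, hG⟩ := pow_rootMultiplicity_dvd B a
        exact hk a (hsub ha) _ G hG
    _ = B.roots.toFinset.card * M₀ := by rw [Finset.sum_const, smul_eq_mul]
    _ ≤ Z.card * M₀ := Nat.mul_le_mul_right _ (Finset.card_le_card hsub)

end Pool.Agent.CZ
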