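import Pool.Agent.Lib.MP_2b3e36_an.CZ.SMob
import Pool.Agent.Lib.MP_2b3e36_an.CZ.SFac
import Pool.Agent.Lib.MP_2b3e36_an.CZ.Main

/-!
SMain. The literal reading: finitely many multiplicity patterns.

Proof of `set_iff`. Let `M₀` be the larger bound of `order_zero m`, `order_one m` (for `ρ`), `n = m * M₀`. (→) `P`, `Q` as in `SolvableSet`;
`P ≠ 0` and `P - Q ≠ 0` (a set of roots in the disc is finite; e.g. `1 ∉ Z` because `ρ < 1`). `split_disc`: `P = A P₁`, `P - Q = B P₂`. The roots of `A` are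
the roots of `P` in the disc: `Z`; those of `B`: `O`. Degree bounds: `q = P/Q` on `ball 0 1`, `S = Z ∪ O`, `Few m ρ q S`; if
`A.map = (X - C z)^k G` then `q w = (w - z)^k (G w * P₁ w/Q w)`, so `k ≤ M₀` by `order_zero` (there is a one: `O` is not empty); `deg_le`,
`Z.card ≤ m`. The same for `B` with `order_one`. (←) clear.
`set_main`: `n` from `set_iff`, `κ` from `main n`; `Hyp n ρ A` follows from `Patt n Z A` (`1 ≤ natDegree` because `Z` is not empty), `Close` from the close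
pair.
-/

set_option autoImplicit false

open Complex Set Filter Topology Metric Polynomial

namespace Pool.Agent.CZ

/-- the roots of the split off factor -/
private theorem smain_roots {P A P₁ : ℝ[X]} {Z : Finset ℂ} {ρ : ℝ} (hρ1 : ρ < 1)
    (hZ : ∀ z ∈ Z, ‖z‖ ≤ ρ) (hroot : ∀ z : ℂ, ‖z‖ ≤ 1 → (aeval z P = 0 ↔ z ∈ Z)) (hP : P = A * P₁)
    (hAr : ∀ z : ℂ, aeval z A = 0 → ‖z‖ ≤ 1) (hP₁ : ∀ z : ℂ, ‖z‖ ≤ 1 → aeval z P₁ ≠ 0) (z : ℂ) :
    aeval z A = 0 ↔ z ∈ Z := by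
  constructor
  · intro h
    refine (hroot z (hAr z h)).1 ?_
    rw [hP, map_mul, h, zero_mul]
  · intro h
    have h1 : ‖z‖ ≤ 1 := (hZ z h).trans hρ1.le
    have h2 := (hroot z h1).2 h
    rw [hP, map_mul, mul_eq_zero] at h2
    exact h2.resolve_right (hP₁ z h1)

/-- a power of a linear factor and the quotient by `Q` -/
private theorem smain_fac {A P₁ Q : ℝ[X]} {z : ℂ} {k : ℕ} {G : ℂ[X]}
    (hG : A.map (algebraMap ℝ ℂ) = (X - Polynomial.C z) ^ k * G) (w : ℂ) :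
    aeval w (A * P₁) / aeval w Q = (w - z) ^ k * (G.eval w * aeval w P₁ / aeval w Q) := by
  have h1 : aeval w A = (w - z) ^ k * G.eval w := by
    rw [← Polynomial.eval_map_algebraMap, hG]
    simp
  rw [map_mul, h1]
  ring

private theorem smain_diff {Q P₁ : ℝ[X]} (G : ℂ[X]) (hQ : ∀ z : ℂ, ‖z‖ ≤ 1 → aeval z Q ≠ 0) :
    DifferentiableOn ℂ (fun w : ℂ => G.eval w * aeval w P₁ / aeval w Q) (ball 0 1) := by
  refine DifferentiableOn.div ?_ Q.differentiable_aeval.differentiableOn ?_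
  · exact G.differentiable.differentiableOn.mul P₁.differentiable_aeval.differentiableOn
  · intro w hw
    exact hQ w (mem_ball_zero_iff.1 hw).le

theorem set_iff (m : ℕ) {ρ : ℝ} (hρ : 0 < ρ) (hρ1 : ρ < 1) : ∃ n : ℕ, ∀ Z O : Finset ℂ,
    Z.Nonempty → O.Nonempty → Z.card + O.card ≤ m → (∀ z ∈ Z, ‖z‖ ≤ ρ) → (∀ z ∈ O, ‖z‖ ≤ ρ) →
    (SolvableSet Z O ↔ ∃ A B : ℝ[X], Patt n Z A ∧ Patt n O B ∧ Solvable A B) := by
  obtain ⟨M₁, h1⟩ := order_zero m hρ hρ1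
  obtain ⟨M₂, h2⟩ := order_one m hρ hρ1
  refine ⟨m * max M₁ M₂, fun Z O hZn hOn hcard hZ hO => ⟨?_, ?_⟩⟩
  · rintro ⟨P, Q, hQ, hPZ, hPO⟩
    have hone : ‖(1 : ℂ)‖ ≤ 1 := by simp
    have hP0 : P ≠ 0 := by
      rintro rfl
      have h3 := hZ 1 ((hPZ 1 hone).1 (map_zero _))
      rw [norm_one] at h3
      linarith
    have hPQ0 : P - Q ≠ 0 := by
      intro h
      rw [sub_eq_zero] at h
      have h3 := hO 1 ((hPO 1 hone).1 (by rw [h]))
      rw [norm_one] at h3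
      linarith
    have hPQ : ∀ z : ℂ, ‖z‖ ≤ 1 → (aeval z (P - Q) = 0 ↔ z ∈ O) := by
      intro z hz
      rw [map_sub, sub_eq_zero]
      exact hPO z hz
    obtain ⟨A, P₁, hAm, hPA, hAr, hP₁⟩ := split_disc hP0
    obtain ⟨B, P₂, hBm, hPB, hBr, hP₂⟩ := split_disc hPQ0
    have hAZ := smain_roots hρ1 hZ hPZ hPA hAr hP₁
    have hBO := smain_roots hρ1 hO hPQ hPB hBr hP₂
    have hfew : Few m ρ (fun w : ℂ => aeval w P / aeval w Q) (Z ∪ O) := by
      refine ⟨?_, (Finset.card_union_le Z O).trans hcard, ?_, ?_⟩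
      · refine DifferentiableOn.div P.differentiable_aeval.differentiableOn
          Q.differentiable_aeval.differentiableOn ?_
        intro w hw
        exact hQ w (mem_ball_zero_iff.1 hw).le
      · intro s hs
        rcases Finset.mem_union.1 hs with h | h
        · exact hZ s h
        · exact hO s h
      · intro z hz hqz
        have hz1 := (mem_ball_zero_iff.1 hz).le
        rcases hqz with h | h
        · rw [div_eq_zero_iff] at h
          exact Finset.mem_union_left _ ((hPZ z hz1).1 (h.resolve_right (hQ z hz1)))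
        · rw [div_eq_one_iff_eq (hQ z hz1)] at h
          exact Finset.mem_union_right _ ((hPO z hz1).1 h)
    have hball : ∀ {s : ℂ}, ‖s‖ ≤ ρ → s ∈ ball (0 : ℂ) 1 := fun {s} hs =>
      mem_ball_zero_iff.2 (hs.trans_lt hρ1)
    have hzero : ∀ z ∈ Z, aeval z P / aeval z Q = 0 := by
      intro z hz
      rw [(hPZ z ((hZ z hz).trans hρ1.le)).2 hz, zero_div]
    have honeO : ∀ z ∈ O, aeval z P / aeval z Q = 1 := by
      intro z hz
      have hz1 := (hO z hz).trans hρ1.le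
      rw [(hPO z hz1).2 hz, div_self (hQ z hz1)]
    obtain ⟨z₀, hz₀⟩ := hZn
    obtain ⟨o₀, ho₀⟩ := hOn
    have hdA : A.natDegree ≤ m * max M₁ M₂ := by
      refine (deg_le hAm hAZ (M₀ := max M₁ M₂) ?_).trans
        (Nat.mul_le_mul_right _ (by omega))
      intro z hz k G hG
      refine (h1 (fun w : ℂ => aeval w P / aeval w Q)
        (fun w : ℂ => G.eval w * aeval w P₁ / aeval w Q) (Z ∪ O) z k hfew (hZ z hz) (hzero z hz)
        ⟨o₀, hball (hO o₀ ho₀), honeO o₀ ho₀⟩ (smain_diff G hQ) ?_).trans (le_max_left _ _)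
      intro w _
      rw [← smain_fac hG w, ← hPA]
    have hdB : B.natDegree ≤ m * max M₁ M₂ := by
      refine (deg_le hBm hBO (M₀ := max M₁ M₂) ?_).trans
        (Nat.mul_le_mul_right _ (by omega))
      intro z hz k G hG
      refine (h2 (fun w : ℂ => aeval w P / aeval w Q)
        (fun w : ℂ => G.eval w * aeval w P₂ / aeval w Q) (Z ∪ O) z k hfew (hO z hz) (honeO z hz)
        ⟨z₀, hball (hZ z₀ hz₀), hzero z₀ hz₀⟩ (smain_diff G hQ) ?_).trans (le_max_right _ _)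
      intro w hw
      have hw1 := (mem_ball_zero_iff.1 hw).le
      rw [← smain_fac hG w, ← hPB, map_sub, sub_div, div_self (hQ w hw1)]
    exact ⟨A, B, ⟨hAm, hdA, hAZ⟩, ⟨hBm, hdB, hBO⟩, P, Q, P₁, P₂, hPA, hPB,
      fun z hz => ⟨hQ z hz, hP₁ z hz, hP₂ z hz⟩⟩
  · rintro ⟨A, B, ⟨-, -, hAZ⟩, ⟨-, -, hBO⟩, P, Q, P₁, P₂, hPA, hPB, h⟩
    refine ⟨P, Q, fun z hz => (h z hz).1, fun z hz => ?_, fun z hz => ?_⟩
    · rw [← hAZ z, hPA, map_mul, mul_eq_zero]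
      exact ⟨fun h3 => h3.resolve_right (h z hz).2.1, Or.inl⟩
    · rw [← hBO z, ← sub_eq_zero, ← map_sub, hPB, map_mul, mul_eq_zero]
      exact ⟨fun h3 => h3.resolve_right (h z hz).2.2, Or.inl⟩

theorem set_main (m : ℕ) {ρ η : ℝ} (hρ : 0 < ρ) (hρ1 : ρ < 1) (hη : 0 < η) : ∃ (n : ℕ) (κ : ℝ), 0 < κ ∧
    ∀ Z O : Finset ℂ, Z.card + O.card ≤ m → (∀ z ∈ Z, ‖z‖ ≤ ρ) → (∀ z ∈ O, ‖z‖ ≤ ρ) →
      (∃ z ∈ Z, ∃ o ∈ O, ‖z - o‖ < κ) →
      (SolvableSet Z O → ∃ A B : ℝ[X], Patt n Z A ∧ Patt n O B ∧ A.natDegree = B.natDegree ∧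
        NP A B (16 * Real.exp η)) ∧
      ((∃ A B : ℝ[X], Patt n Z A ∧ Patt n O B ∧ A.natDegree = B.natDegree ∧
        NP A B (16 * Real.exp (-η))) → SolvableSet Z O) := by
  obtain ⟨n, hn⟩ := set_iff m hρ hρ1
  obtain ⟨κ, hκ, H⟩ := main n hρ hρ1 hη
  have hyp : ∀ (Z : Finset ℂ) (A : ℝ[X]), Z.Nonempty → (∀ z ∈ Z, ‖z‖ ≤ ρ) → Patt n Z A → Hyp n ρ A := by
    rintro Z A ⟨z, hz⟩ hZ ⟨h1, h2, h3⟩
    refine ⟨h1, ?_, h2, fun w hw => hZ w ((h3 w).1 hw)⟩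
    by_contra hc
    have h4 : A.natDegree = 0 := by omega
    have h5 : A = 1 := h1.natDegree_eq_zero.1 h4
    have h6 := (h3 z).2 hz
    rw [h5, map_one] at h6
    exact one_ne_zero h6
  refine ⟨n, κ, hκ, fun Z O hc hZ hO hcl => ?_⟩
  obtain ⟨z, hz, o, ho, hzo⟩ := hcl
  have hZn : Z.Nonempty := ⟨z, hz⟩
  have hOn : O.Nonempty := ⟨o, ho⟩
  have hclose : ∀ A B : ℝ[X], Patt n Z A → Patt n O B → Close A B κ := fun A B hA hB =>
    ⟨z, o, (hA.2.2 z).2 hz, (hB.2.2 o).2 ho, hzo⟩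
  constructor
  · intro hs
    obtain ⟨A, B, hA, hB, hAB⟩ := (hn Z O hZn hOn hc hZ hO).1 hs
    obtain ⟨h1, h2⟩ := (H A B (hyp Z A hZn hZ hA) (hyp O B hOn hO hB) (hclose A B hA hB)).1 hAB
    exact ⟨A, B, hA, hB, h1, h2⟩
  · rintro ⟨A, B, hA, hB, hd, hnp⟩
    refine (hn Z O hZn hOn hc hZ hO).2 ⟨A, B, hA, hB, ?_⟩
    exact (H A B (hyp Z A hZn hZ hA) (hyp O B hOn hO hB) (hclose A B hA hB)).2 hd hnp

end Pool.Agent.CZ
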