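import Pool.Agent.Lib.MP_2b3e36_an.CZ.SCore

/-!
SMob. The order of any zero or one is bounded.

Proof. `order_zero`: let `ψ w = (w + a)/(1 + conj a w)`, an automorphism of the unit disc with `ψ 0 = a`, inverse
`φ z = (z - a)/(1 - conj a z)`; `‖φ s‖ ≤ ρ' := 2 ρ/(1 + ρ^2) < 1` for `‖a‖, ‖s‖ ≤ ρ` (or any bound `< 1` depending on `ρ`, e.g. from
`1 - ‖φ s‖^2 = (1-‖a‖^2)(1-‖s‖^2)/‖1 - conj a s‖^2 ≥ (1-ρ^2)^2/4`). `q ∘ ψ` with the set `S.image φ` satisfies `Few m ρ'`, `(q ∘ ψ) 0 = 0`,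
a one exists, `q (ψ w) = (ψ w - a)^k h (ψ w) = w^k ((1 - ‖a‖^2)/(1 + conj a w))^k h (ψ w)`. `order_core`.
`order_one`: apply `order_zero` to `1 - q`.
-/

set_option autoImplicit false

open Complex Set Filter Topology Metric

namespace Pool.Agent.CZ

/-- the automorphism `w ↦ (w + a)/(1 + conj a w)` of the unit disc -/
noncomputable def smob_f (a w : ℂ) : ℂ := (w + a) / (1 + starRingEnd ℂ a * w)

theorem smob_den {a w : ℂ} (ha : ‖a‖ < 1) (hw : ‖w‖ < 1) : 1 + starRingEnd ℂ a * w ≠ 0 := by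
  intro h
  have h1 : starRingEnd ℂ a * w = -1 := by linear_combination h
  have h2 : ‖starRingEnd ℂ a * w‖ = 1 := by rw [h1, norm_neg, norm_one]
  rw [norm_mul, RCLike.norm_conj] at h2
  nlinarith [norm_nonneg a, norm_nonneg w]

theorem smob_id (a w : ℂ) : ‖1 + starRingEnd ℂ a * w‖ ^ 2 - ‖w + a‖ ^ 2 = (1 - ‖a‖ ^ 2) * (1 - ‖w‖ ^ 2) := by
  simp only [Complex.sq_norm, Complex.normSq_apply, add_re, add_im, mul_re, mul_im, one_re, one_im, conj_re, conj_im]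
  ring

theorem smob_lt {a w : ℂ} (ha : ‖a‖ < 1) (hw : ‖w‖ < 1) : ‖smob_f a w‖ < 1 := by
  have h1 := smob_id a w
  have h2 : 0 < ‖1 + starRingEnd ℂ a * w‖ := norm_pos_iff.2 (smob_den ha hw)
  have h3 : 0 < (1 - ‖a‖ ^ 2) * (1 - ‖w‖ ^ 2) := by
    have := norm_nonneg a
    have := norm_nonneg w
    apply mul_pos <;> nlinarith
  rw [smob_f, norm_div, div_lt_one h2]
  refine lt_of_pow_lt_pow_left₀ 2 h2.le ?_
  linarith

theorem smob_le {ρ : ℝ} (hρ : 0 < ρ) (hρ1 : ρ < 1) {a w : ℂ} (ha : ‖a‖ ≤ ρ) (hw : ‖w‖ ≤ ρ) :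
    ‖smob_f a w‖ ≤ Real.sqrt (1 - (1 - ρ ^ 2) ^ 2 / 4) := by
  have h1 := smob_id a w
  have hd := smob_den (ha.trans_lt hρ1) (hw.trans_lt hρ1)
  have h2 : 0 < ‖1 + starRingEnd ℂ a * w‖ := norm_pos_iff.2 hd
  have h3 : ‖1 + starRingEnd ℂ a * w‖ ≤ 2 := by
    refine (norm_add_le _ _).trans ?_
    rw [norm_one, norm_mul, RCLike.norm_conj]
    nlinarith [norm_nonneg a, norm_nonneg w]
  have h4 : (1 - ρ ^ 2) * (1 - ρ ^ 2) ≤ (1 - ‖a‖ ^ 2) * (1 - ‖w‖ ^ 2) := by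
    have := norm_nonneg a
    have := norm_nonneg w
    apply mul_le_mul <;> nlinarith
  apply Real.le_sqrt_of_sq_le
  rw [smob_f, norm_div, div_pow, div_le_iff₀ (by positivity)]
  have h5 : ‖1 + starRingEnd ℂ a * w‖ ^ 2 ≤ 4 := by nlinarith
  nlinarith [sq_nonneg (1 - ρ ^ 2)]

theorem smob_inv {a w : ℂ} (ha : ‖a‖ < 1) (hw : ‖w‖ < 1) : smob_f (-a) (smob_f a w) = w := by
  have h1 := smob_den ha hw
  have h2 : ‖-a‖ < 1 := by rwa [norm_neg]
  have h3 := smob_den h2 (smob_lt ha hw)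
  have h4 : smob_f a w * (1 + starRingEnd ℂ a * w) = w + a := div_mul_cancel₀ _ h1
  rw [smob_f, div_eq_iff h3, map_neg]
  linear_combination h4

theorem smob_sub {a w : ℂ} (ha : ‖a‖ < 1) (hw : ‖w‖ < 1) :
    smob_f a w - a = w * ((1 - starRingEnd ℂ a * a) / (1 + starRingEnd ℂ a * w)) := by
  have h1 := smob_den ha hw
  have h4 : smob_f a w * (1 + starRingEnd ℂ a * w) = w + a := div_mul_cancel₀ _ h1
  rw [mul_div_assoc', eq_div_iff h1]
  linear_combination h4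

theorem smob_zero (a : ℂ) : smob_f a 0 = a := by
  rw [smob_f, mul_zero, add_zero, zero_add, div_one]

theorem smob_diff {a : ℂ} (ha : ‖a‖ < 1) : DifferentiableOn ℂ (smob_f a) (ball 0 1) := by
  intro w hw
  have hw' : ‖w‖ < 1 := by simpa using hw
  apply DifferentiableAt.differentiableWithinAt
  unfold smob_f
  refine DifferentiableAt.div ?_ ?_ (smob_den ha hw')
  · fun_prop
  · fun_prop

theorem order_zero (m : ℕ) {ρ : ℝ} (hρ : 0 < ρ) (hρ1 : ρ < 1) : ∃ M₀ : ℕ, ∀ (q h : ℂ → ℂ)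
    (S : Finset ℂ) (a : ℂ) (k : ℕ), Few m ρ q S → ‖a‖ ≤ ρ → q a = 0 → (∃ o ∈ ball (0 : ℂ) 1, q o = 1) →
    DifferentiableOn ℂ h (ball 0 1) → (∀ z ∈ ball (0 : ℂ) 1, q z = (z - a) ^ k * h z) → k ≤ M₀ := by
  set ρ' : ℝ := Real.sqrt (1 - (1 - ρ ^ 2) ^ 2 / 4) with hρ'
  have hpos : 0 < ρ' := by
    apply Real.sqrt_pos.2
    have h1 : ρ ^ 2 < 1 := by nlinarith
    have h2 : (1 - ρ ^ 2) ^ 2 ≤ 1 := by nlinarith [mul_pos hρ hρ]
    linarith
  have hlt : ρ' < 1 := by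
    rw [hρ', Real.sqrt_lt' one_pos]
    have : 0 < (1 - ρ ^ 2) ^ 2 := by
      apply pow_pos
      nlinarith
    linarith
  obtain ⟨M₀, H⟩ := order_core m hpos hlt
  refine ⟨M₀, fun q h S a k hF ha hqa ho hh hq => ?_⟩
  have ha1 : ‖a‖ < 1 := ha.trans_lt hρ1
  have hna1 : ‖-a‖ < 1 := by rwa [norm_neg]
  have hmaps : MapsTo (smob_f a) (ball 0 1) (ball 0 1) := by
    intro w hw
    rw [mem_ball_zero_iff] at hw ⊢
    exact smob_lt ha1 hw
  refine H (fun w => q (smob_f a w))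
    (fun w => ((1 - starRingEnd ℂ a * a) / (1 + starRingEnd ℂ a * w)) ^ k * h (smob_f a w))
    (S.image (smob_f (-a))) k ⟨?_, ?_, ?_, ?_⟩ ?_ ?_ ?_ ?_
  · exact hF.diff.comp (smob_diff ha1) hmaps
  · exact Finset.card_image_le.trans hF.card
  · intro s hs
    obtain ⟨t, ht, rfl⟩ := Finset.mem_image.1 hs
    exact smob_le hρ hρ1 (by rwa [norm_neg]) (hF.le t ht)
  · intro w hw hq
    have h1 := hF.mem _ (hmaps hw) hq
    refine Finset.mem_image.2 ⟨_, h1, smob_inv ha1 ?_⟩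
    rwa [mem_ball_zero_iff] at hw
  · show q (smob_f a 0) = 0
    rw [smob_zero, hqa]
  · obtain ⟨o, ho1, ho2⟩ := ho
    rw [mem_ball_zero_iff] at ho1
    refine ⟨smob_f (-a) o, ?_, ?_⟩
    · rw [mem_ball_zero_iff]
      exact smob_lt hna1 ho1
    · have h1 := smob_inv hna1 ho1
      rw [neg_neg] at h1
      show q (smob_f a (smob_f (-a) o)) = 1
      rw [h1, ho2]
  · refine DifferentiableOn.mul (DifferentiableOn.pow ?_ k) (hh.comp (smob_diff ha1) hmaps)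
    intro w hw
    have hw' : ‖w‖ < 1 := by simpa using hw
    apply DifferentiableAt.differentiableWithinAt
    refine DifferentiableAt.div ?_ ?_ (smob_den ha1 hw')
    · fun_prop
    · fun_prop
  · intro w hw
    show q (smob_f a w) = _
    rw [hq _ (hmaps hw), smob_sub ha1 (by rwa [mem_ball_zero_iff] at hw), mul_pow, mul_assoc]

theorem order_one (m : ℕ) {ρ : ℝ} (hρ : 0 < ρ) (hρ1 : ρ < 1) : ∃ M₀ : ℕ, ∀ (q h : ℂ → ℂ)
    (S : Finset ℂ) (a : ℂ) (k : ℕ), Few m ρ q S → ‖a‖ ≤ ρ → q a = 1 → (∃ o ∈ ball (0 : ℂ) 1, q o = 0) →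
    DifferentiableOn ℂ h (ball 0 1) → (∀ z ∈ ball (0 : ℂ) 1, q z - 1 = (z - a) ^ k * h z) → k ≤ M₀ := by
  obtain ⟨M₀, H⟩ := order_zero m hρ hρ1
  refine ⟨M₀, fun q h S a k hF ha hqa ho hh hq => ?_⟩
  refine H (fun w => 1 - q w) (fun w => -h w) S a k ⟨?_, hF.card, hF.le, ?_⟩ ha ?_ ?_ hh.neg ?_
  · exact (differentiableOn_const (c := (1 : ℂ))).sub hF.diff
  · intro z hz hz2
    refine hF.mem z hz ?_
    rcases hz2 with h1 | h1
    · right
      exact (sub_eq_zero.1 h1).symm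
    · left
      have h2 : 1 - q z = 1 := h1
      linear_combination -h2
  · show 1 - q a = 0
    rw [hqa, sub_self]
  · obtain ⟨o, ho1, ho2⟩ := ho
    refine ⟨o, ho1, ?_⟩
    show 1 - q o = 1
    rw [ho2, sub_zero]
  · intro z hz
    have h1 := hq z hz
    show 1 - q z = _
    linear_combination -h1

end Pool.Agent.CZ
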