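import Pool.Agent.Lib.MP_2b3e36_an.CZ.SDefs
import Pool.Agent.Lib.MP_e4ee3e_an.Q04

/-!
SPath. Schottky's theorem along a path.
-/

set_option autoImplicit false

open Complex Set Filter Topology Metric

namespace Pool.Agent.CZ

theorem sch_step (M : ℝ) : ∃ M' : ℝ, 0 < M' ∧ ∀ (x : ℂ) (r : ℝ) (g : ℂ → ℂ), 0 < r →
    DifferentiableOn ℂ g (ball x r) → (∀ z ∈ ball x r, g z ≠ 0 ∧ g z ≠ 1) → ‖g x‖ ≤ M →
    ∀ z ∈ ball x (r / 2), ‖g z‖ ≤ M' := by
  obtain ⟨M1, hM1⟩ := Pool.Agent.Lib.MP_e4ee3e_an.schottky01 M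
  obtain ⟨M2, hM2⟩ := Pool.Agent.Lib.MP_e4ee3e_an.schottky01 2
  refine ⟨|M1| + |M2| + 1, by positivity, ?_⟩
  intro x r g hr hg h01 hx z hz
  rcases le_total (1 / 2) ‖g x‖ with h | h
  · have h1 := hM1 x r g hr hg h01 h hx z hz
    have h2 := le_abs_self M1
    have h3 := abs_nonneg M2
    linarith
  · have hd : DifferentiableOn ℂ (fun w => 1 - g w) (ball x r) :=
      (differentiableOn_const (1 : ℂ)).sub hg
    have hn : ∀ w ∈ ball x r, (fun w => 1 - g w) w ≠ 0 ∧ (fun w => 1 - g w) w ≠ 1 := by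
      intro w hw
      refine ⟨fun h0 => (h01 w hw).2 ?_, fun h1 => (h01 w hw).1 ?_⟩
      · exact (sub_eq_zero.1 h0).symm
      · have h2 : (1 : ℂ) - g w = 1 := h1
        have h3 : g w = 1 - (1 - g w) := by ring
        rw [h3, h2, sub_self]
    have hlo : 1 / 2 ≤ ‖(fun w => 1 - g w) x‖ := by
      have h2 := norm_sub_norm_le (1 : ℂ) (g x)
      rw [norm_one] at h2
      have h3 : ‖(fun w => 1 - g w) x‖ = ‖1 - g x‖ := rfl
      rw [h3]
      linarith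
    have hup : ‖(fun w => 1 - g w) x‖ ≤ 2 := by
      have h2 := norm_sub_le (1 : ℂ) (g x)
      rw [norm_one] at h2
      have h3 : ‖(fun w => 1 - g w) x‖ = ‖1 - g x‖ := rfl
      rw [h3]
      linarith
    have h1 : ‖1 - g z‖ ≤ M2 := hM2 x r (fun w => 1 - g w) hr hd hn hlo hup z hz
    have h4 := norm_sub_le (1 : ℂ) (1 - g z)
    have h5 : (1 : ℂ) - (1 - g z) = g z := by ring
    rw [h5, norm_one] at h4
    have h2 := le_abs_self M2
    have h3 := abs_nonneg M1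
    linarith

theorem sch_path (M Λ : ℝ) : ∃ M' : ℝ, 0 < M' ∧ ∀ (g : ℂ → ℂ) (γ : ℝ → ℂ) (δ L : ℝ), 0 < δ → 0 ≤ L →
    L ≤ Λ * δ → (∀ s ∈ Icc (0 : ℝ) 1, ∀ s' ∈ Icc (0 : ℝ) 1, ‖γ s - γ s'‖ ≤ L * |s - s'|) →
    (∀ s ∈ Icc (0 : ℝ) 1, DifferentiableOn ℂ g (ball (γ s) δ) ∧
      ∀ z ∈ ball (γ s) δ, g z ≠ 0 ∧ g z ≠ 1) → ‖g (γ 0)‖ ≤ M →
    ∀ s ∈ Icc (0 : ℝ) 1, ‖g (γ s)‖ ≤ M' := by
  choose B hB0 hB using sch_step
  obtain ⟨N, hN⟩ := exists_nat_gt (max (2 * Λ + 1) 1)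
  have hN1 : 2 * Λ + 1 < N := (le_max_left _ _).trans_lt hN
  have hN2 : (1 : ℝ) < N := (le_max_right _ _).trans_lt hN
  have hNpos : (0 : ℝ) < N := by linarith
  obtain ⟨F, hF0, hFs⟩ : ∃ F : ℕ → ℝ, F 0 = M ∧ ∀ j, F (j + 1) = B (F j) :=
    ⟨fun j => Nat.rec M (fun _ y => B y) j, rfl, fun j => rfl⟩
  refine ⟨∑ i ∈ Finset.range (N + 2), |F i| + 1, by positivity, ?_⟩
  intro g γ δ L hδ hL hLΛ hγ hg h0
  -- one step
  have hstep : ∀ (j : ℕ) (s : ℝ), (j : ℝ) / N ∈ Icc (0 : ℝ) 1 → s ∈ Icc (0 : ℝ) 1 →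
      (j : ℝ) / N ≤ s → s ≤ ((j : ℝ) + 1) / N → ‖g (γ ((j : ℝ) / N))‖ ≤ F j →
      ‖g (γ s)‖ ≤ F (j + 1) := by
    intro j s hj hs h1 h2 hb
    rw [hFs]
    refine hB (F j) (γ ((j : ℝ) / N)) δ g hδ (hg _ hj).1 (hg _ hj).2 hb (γ s) ?_
    rw [mem_ball, dist_eq_norm]
    have h3 := hγ s hs _ hj
    have h4 : |s - (j : ℝ) / N| ≤ 1 / N := by
      rw [abs_of_nonneg (by linarith)]
      have h5 : ((j : ℝ) + 1) / N = (j : ℝ) / N + 1 / N := by ring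
      linarith
    have h5 : L * |s - (j : ℝ) / N| ≤ L * (1 / N) := mul_le_mul_of_nonneg_left h4 hL
    have h6 : L * (1 / N) < δ / 2 := by
      rw [mul_one_div, div_lt_iff₀ hNpos]
      nlinarith
    linarith
  have hjmem : ∀ j : ℕ, j ≤ N → (j : ℝ) / N ∈ Icc (0 : ℝ) 1 := by
    intro j hj
    refine ⟨by positivity, ?_⟩
    rw [div_le_one hNpos]
    exact_mod_cast hj
  have hind : ∀ j : ℕ, j ≤ N → ‖g (γ ((j : ℝ) / N))‖ ≤ F j := by
    intro j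
    induction j with
    | zero =>
      intro _
      rw [hF0]
      simpa using h0
    | succ j ih =>
      intro hj
      refine hstep j _ (hjmem j (by omega)) (hjmem (j + 1) hj) ?_ ?_ (ih (by omega))
      · apply div_le_div_of_nonneg_right _ hNpos.le
        push_cast
        linarith
      · apply div_le_div_of_nonneg_right _ hNpos.le
        push_cast
        linarith
  intro s hs
  obtain ⟨j, hj⟩ : ∃ j : ℕ, j = ⌊s * N⌋₊ := ⟨_, rfl⟩
  have hsN : 0 ≤ s * N := mul_nonneg hs.1 hNpos.le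
  have h1 : (j : ℝ) ≤ s * N := by
    rw [hj]
    exact Nat.floor_le hsN
  have h2 : s * N < (j : ℝ) + 1 := by
    rw [hj]
    exact Nat.lt_floor_add_one _
  have hjN : j ≤ N := by
    have h3 : (j : ℝ) ≤ N := by
      have := mul_le_mul_of_nonneg_right hs.2 hNpos.le
      linarith
    exact_mod_cast h3
  have h3 := hstep j s (hjmem j hjN) hs (by rw [div_le_iff₀ hNpos]; exact h1)
    (by rw [le_div_iff₀ hNpos]; exact h2.le) (hind j hjN)
  have h4 : |F (j + 1)| ≤ ∑ i ∈ Finset.range (N + 2), |F i| :=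
    Finset.single_le_sum (f := fun i => |F i|) (fun i _ => abs_nonneg (F i))
      (Finset.mem_range.2 (by omega))
  have h5 := le_abs_self (F (j + 1))
  linarith

end Pool.Agent.CZ
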